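import Pool.Agent.FiveNum.AnBound

/-!
# Arithmetic lower bound and the conclusion that the determinants vanish
-/

open Matrix

namespace FiveNum

/-- The Gaussian integers inside `ℂ`. -/
noncomputable def GInt : Subring ℂ := GaussianInt.toComplex.range

theorem one_le_norm_of_mem_GInt {w : ℂ} (hw : w ∈ GInt) (h0 : w ≠ 0) : 1 ≤ ‖w‖ := by
  obtain ⟨g, rfl⟩ := hw
  have hg : g ≠ 0 := by
    rintro rfl
    exact h0 (map_zero _)
  have h1 : (1 : ℤ) ≤ g.norm := by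
    have := GaussianInt.norm_pos.2 hg
    omega
  have h2 : (1 : ℝ) ≤ Complex.normSq (GaussianInt.toComplex g) := by
    rw [← GaussianInt.intCast_real_norm]
    exact_mod_cast h1
  rw [Complex.normSq_eq_norm_sq] at h2
  nlinarith [norm_nonneg (GaussianInt.toComplex g)]

theorem natCast_mem_GInt (n : ℕ) : (n : ℂ) ∈ GInt := natCast_mem GInt n

theorem intCast_mem_GInt (n : ℤ) : (n : ℂ) ∈ GInt := intCast_mem GInt n

theorem I_mem_GInt : Complex.I ∈ GInt := ⟨⟨0, 1⟩, by simp [GaussianInt.toComplex_def]⟩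

theorem mem_GInt_pow_mono {w : ℂ} {Q m n : ℕ} (h : (Q : ℂ) ^ m * w ∈ GInt) (hmn : m ≤ n) :
    (Q : ℂ) ^ n * w ∈ GInt := by
  obtain ⟨e, rfl⟩ := Nat.exists_eq_add_of_le hmn
  have : (Q : ℂ) ^ (m + e) * w = (Q : ℂ) ^ e * ((Q : ℂ) ^ m * w) := by
    rw [pow_add]; ring
  rw [this]
  exact GInt.mul_mem (GInt.pow_mem (natCast_mem_GInt Q) e) h

theorem mem_GInt_mul {w v : ℂ} {Q m n : ℕ} (h : (Q : ℂ) ^ m * w ∈ GInt)
    (h' : (Q : ℂ) ^ n * v ∈ GInt) : (Q : ℂ) ^ (m + n) * (w * v) ∈ GInt := by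
  have : (Q : ℂ) ^ (m + n) * (w * v) = ((Q : ℂ) ^ m * w) * ((Q : ℂ) ^ n * v) := by
    rw [pow_add]; ring
  rw [this]
  exact GInt.mul_mem h h'

theorem mem_GInt_pow {w : ℂ} {Q m : ℕ} (h : (Q : ℂ) ^ m * w ∈ GInt) (n : ℕ) :
    (Q : ℂ) ^ (m * n) * w ^ n ∈ GInt := by
  have : (Q : ℂ) ^ (m * n) * w ^ n = ((Q : ℂ) ^ m * w) ^ n := by
    rw [mul_pow, pow_mul]
  rw [this]
  exact GInt.pow_mem h n

theorem wC_eval_mem_GInt {i l τ Q : ℕ} {a : ℂ} (ha : (Q : ℂ) * a ∈ GInt) :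
    (Q : ℂ) ^ i * (wC i l τ).eval a ∈ GInt := by
  rw [Polynomial.eval_eq_sum_range' (n := i + 1) (Nat.lt_succ_of_le (natDegree_wC i l τ)),
    Finset.mul_sum]
  refine GInt.sum_mem fun n hn => ?_
  have hn' : n ≤ i := by
    have := Finset.mem_range.1 hn
    omega
  obtain ⟨e, rfl⟩ := Nat.exists_eq_add_of_le hn'
  have hc : (wC (n + e) l τ).coeff n = (((wpoly (n + e) l τ).coeff n : ℤ) : ℂ) := by
    simp [wC]
  have : (Q : ℂ) ^ (n + e) * ((wC (n + e) l τ).coeff n * a ^ n) =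
      (((wpoly (n + e) l τ).coeff n : ℤ) : ℂ) * (((Q : ℂ) * a) ^ n * (Q : ℂ) ^ e) := by
    rw [hc, pow_add, mul_pow]; ring
  rw [this]
  exact GInt.mul_mem (intCast_mem_GInt _)
    (GInt.mul_mem (GInt.pow_mem ha n) (GInt.pow_mem (natCast_mem_GInt Q) e))

theorem ent_one (x : ℂ) (i k l τ : ℕ) (a z : ℂ) :
    ent x i k l τ a z 1 =
      (wC i l τ).eval a * (Complex.exp z ^ k * Complex.exp (x * z - a) ^ l) := by
  unfold ent
  rw [← Complex.exp_nat_mul, ← Complex.exp_nat_mul, one_pow, one_mul, one_mul, one_mul, mul_assoc,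
    ← Complex.exp_add, ← Complex.exp_add]
  congr 2
  ring

theorem ent_one_mem_GInt {x : ℂ} {i k l τ D₀ D Q κ : ℕ} {a z : ℂ}
    (hi : i < D₀) (hk : k < D) (hl : l < D)
    (ha : (Q : ℂ) * a ∈ GInt) (hY : (Q : ℂ) ^ κ * Complex.exp z ∈ GInt)
    (hZ : (Q : ℂ) ^ κ * Complex.exp (x * z - a) ∈ GInt) :
    (Q : ℂ) ^ (D₀ + 2 * κ * D) * ent x i k l τ a z 1 ∈ GInt := by
  rw [ent_one]
  refine mem_GInt_pow_mono (mem_GInt_mul (wC_eval_mem_GInt ha)
    (mem_GInt_mul (mem_GInt_pow hY k) (mem_GInt_pow hZ l))) ?_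
  have h1 : κ * k ≤ κ * D := Nat.mul_le_mul_left _ hk.le
  have h2 : κ * l ≤ κ * D := Nat.mul_le_mul_left _ hl.le
  have : 2 * κ * D = κ * D + κ * D := by ring
  omega

theorem det_mem_GInt {ι : Type} [Fintype ι] [DecidableEq ι] {A : Matrix ι ι ℂ} {Q m : ℕ}
    (h : ∀ j lam, (Q : ℂ) ^ m * A j lam ∈ GInt) :
    (Q : ℂ) ^ (m * Fintype.card ι) * A.det ∈ GInt := by
  have h1 : (Q : ℂ) ^ (m * Fintype.card ι) * A.det = ((Q : ℂ) ^ m • A).det := by
    rw [Matrix.det_smul, pow_mul]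
  rw [h1, Matrix.det_apply']
  refine GInt.sum_mem fun σ _ => ?_
  refine GInt.mul_mem (intCast_mem_GInt _) (GInt.prod_mem fun μ _ => ?_)
  rw [Matrix.smul_apply, smul_eq_mul]
  exact h _ _

/-- If the numerical inequality holds, the interpolation determinant vanishes. -/
theorem det_interMat_eq_zero {x : ℂ} {D₀ D T d κ Q : ℕ} {τ : Lam D₀ D → ℕ}
    {a z : Lam D₀ D → ℂ}
    {H ρ Xb : ℝ} (hτ : ∀ j, τ j ≤ T) (hH : 1 ≤ H) (hρ : 1 ≤ ρ)
    (ha : ∀ j, ‖a j‖ ≤ H) (hz : ∀ j, ‖z j‖ ≤ H) (hx : ‖x‖ ≤ Xb)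
    (hQa : ∀ j, (Q : ℂ) * a j ∈ GInt) (hQY : ∀ j, (Q : ℂ) ^ κ * Complex.exp (z j) ∈ GInt)
    (hQZ : ∀ j, (Q : ℂ) ^ κ * Complex.exp (x * z j - a j) ∈ GInt) (hQ : 0 < Q)
    (hnum : (Q : ℝ) ^ ((D₀ + 2 * κ * D) * (D₀ * (D * D))) *
      ((D₀ * (D * D)).factorial * (entBound D₀ D T H ρ Xb) ^ (D₀ * (D * D))) <
        ρ ^ (d * (D₀ * (D * D) - d * d))) :
    (interMat x D₀ D τ a z 1).det = 0 := by
  by_contra hne
  have h1 := norm_det_interMat_le (d := d) hτ hH hρ ha hz hx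
  have hc : Fintype.card (Lam D₀ D) = D₀ * (D * D) := by simp
  have h2 : (Q : ℂ) ^ ((D₀ + 2 * κ * D) * Fintype.card (Lam D₀ D)) *
      (interMat x D₀ D τ a z 1).det ∈ GInt := det_mem_GInt fun j lam =>
    ent_one_mem_GInt lam.1.2 lam.2.1.2 lam.2.2.2 (hQa j) (hQY j) (hQZ j)
  have hQ0 : (Q : ℂ) ≠ 0 := by
    exact_mod_cast hQ.ne'
  have h3 := one_le_norm_of_mem_GInt h2 (mul_ne_zero (pow_ne_zero _ hQ0) hne)
  rw [norm_mul, norm_pow, Complex.norm_natCast, hc] at h3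
  have hρ0 : 0 < ρ ^ (d * (D₀ * (D * D) - d * d)) := by
    have : 0 < ρ := by linarith
    positivity
  have hQr : 0 < (Q : ℝ) := by exact_mod_cast hQ
  have h4 : (Q : ℝ) ^ ((D₀ + 2 * κ * D) * (D₀ * (D * D))) * ‖(interMat x D₀ D τ a z 1).det‖ ≤
      (Q : ℝ) ^ ((D₀ + 2 * κ * D) * (D₀ * (D * D))) *
      (((D₀ * (D * D)).factorial * (entBound D₀ D T H ρ Xb) ^ (D₀ * (D * D))) /
        ρ ^ (d * (D₀ * (D * D) - d * d))) :=
    mul_le_mul_of_nonneg_left h1 (by positivity)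
  have h5 : (Q : ℝ) ^ ((D₀ + 2 * κ * D) * (D₀ * (D * D))) *
      (((D₀ * (D * D)).factorial * (entBound D₀ D T H ρ Xb) ^ (D₀ * (D * D))) /
        ρ ^ (d * (D₀ * (D * D) - d * d))) < 1 := by
    rw [← mul_div_assoc, div_lt_one hρ0]
    exact hnum
  linarith

/-- If all square submatrices (with rows chosen from `J`) have determinant zero, the matrix has a
nontrivial kernel. -/
theorem exists_kernel {J ι : Type} [Fintype ι] [DecidableEq ι] (M : Matrix J ι ℂ)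
    (h : ∀ f : ι → J, (M.submatrix f id).det = 0) : ∃ v : ι → ℂ, v ≠ 0 ∧ ∀ j, M j ⬝ᵥ v = 0 := by
  classical
  by_cases hspan : Submodule.span ℂ (Set.range M) = ⊤
  · exfalso
    obtain ⟨b, hbs, hbspan, hbli⟩ := exists_linearIndependent ℂ (Set.range M)
    rw [hspan] at hbspan
    let B : Module.Basis b ℂ (ι → ℂ) := Module.Basis.mk hbli (by
      rw [Subtype.range_coe, hbspan])
    have : Fintype b := FiniteDimensional.fintypeBasisIndex B
    have hcard : Fintype.card b = Fintype.card ι := by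
      rw [← Module.finrank_eq_card_basis B, Module.finrank_fintype_fun_eq_card]
    let e : ι ≃ b := Fintype.equivOfCardEq hcard.symm
    have hex : ∀ i : ι, ∃ j : J, M j = (e i : ι → ℂ) := fun i => hbs (e i).2
    choose f hf using hex
    have hdet := h f
    have hli : LinearIndependent ℂ (fun i => (M.submatrix f id).row i) := by
      have : (fun i => (M.submatrix f id).row i) = fun i => ((e i : b) : ι → ℂ) := by
        funext i
        rw [← hf i]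
        rfl
      rw [this]
      exact hbli.comp e e.injective
    have := Matrix.linearIndependent_rows_iff_isUnit.1 hli
    exact ((Matrix.isUnit_iff_isUnit_det _).1 this).ne_zero hdet
  · obtain ⟨φ, hφ0, hφ⟩ := Submodule.exists_le_ker_of_lt_top _ (lt_top_iff_ne_top.2 hspan)
    refine ⟨fun i => φ (Pi.single i 1), ?_, ?_⟩
    · intro h0
      apply hφ0
      refine LinearMap.pi_ext' fun i => ?_
      ext
      simpa using congrFun h0 i
    · intro j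
      have h1 : φ (M j) = 0 := hφ (Submodule.subset_span ⟨j, rfl⟩)
      rw [dotProduct]
      have h2 : M j = ∑ i, M j i • (Pi.single i (1 : ℂ) : ι → ℂ) := by
        funext i
        simp [Finset.sum_apply, Pi.single_apply]
      rw [h2, map_sum] at h1
      simpa using h1

end FiveNum
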