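import Pool.Agent.FiveNum.AnVanish

/-!
# Upper bounds
-/

open Filter Topology Asymptotics Matrix

namespace FiveNum

/-- Sum of the absolute values of the coefficients up to degree `i`. -/
noncomputable def clen (i : ℕ) (p : Polynomial ℤ) : ℝ :=
  ∑ n ∈ Finset.range (i + 1), |((p.coeff n : ℤ) : ℝ)|

theorem clen_nonneg (i : ℕ) (p : Polynomial ℤ) : 0 ≤ clen i p :=
  Finset.sum_nonneg fun _ _ => abs_nonneg _

theorem clen_derivative (i : ℕ) (p : Polynomial ℤ) (hp : p.natDegree ≤ i) :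
    clen i (Polynomial.derivative p) ≤ i * clen i p := by
  unfold clen
  rw [Finset.sum_range_succ]
  have hlast : ((Polynomial.derivative p).coeff i : ℤ) = 0 := by
    rw [Polynomial.coeff_derivative]
    rw [Polynomial.coeff_eq_zero_of_natDegree_lt (by omega)]
    simp
  rw [hlast, Finset.sum_range_succ' (fun n => |((p.coeff n : ℤ) : ℝ)|)]
  simp only [Int.cast_zero, abs_zero, add_zero]
  rw [mul_add, Finset.mul_sum]
  have h0 : (0 : ℝ) ≤ (i : ℝ) * |((p.coeff 0 : ℤ) : ℝ)| := by positivity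
  have h1 : ∑ n ∈ Finset.range i, |(((Polynomial.derivative p).coeff n : ℤ) : ℝ)| ≤
      ∑ n ∈ Finset.range i, (i : ℝ) * |((p.coeff (n + 1) : ℤ) : ℝ)| := by
    refine Finset.sum_le_sum fun n hn => ?_
    rw [Polynomial.coeff_derivative]
    push_cast
    rw [abs_mul, mul_comm]
    refine mul_le_mul_of_nonneg_right ?_ (abs_nonneg _)
    have hn' : n + 1 ≤ i := by
      have := Finset.mem_range.1 hn
      omega
    have : |((n : ℝ) + 1)| = (n : ℝ) + 1 := abs_of_nonneg (by positivity)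
    rw [this]
    exact_mod_cast hn'
  linarith

theorem clen_wpoly (i l : ℕ) : ∀ τ, clen i (wpoly i l τ) ≤ ((i : ℝ) + l) ^ τ
  | 0 => by
    unfold clen wpoly
    simp only [Polynomial.coeff_X_pow, pow_zero]
    rw [Finset.sum_eq_single i]
    · simp
    · intro n _ hn
      simp [hn]
    · intro h
      simp at h
  | τ + 1 => by
    have ih := clen_wpoly i l τ
    have h1 := clen_derivative i (wpoly i l τ) (natDegree_wpoly i l τ)
    have h2 : clen i (wpoly i l (τ + 1)) ≤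
        clen i (Polynomial.derivative (wpoly i l τ)) + l * clen i (wpoly i l τ) := by
      unfold clen
      rw [Finset.mul_sum, ← Finset.sum_add_distrib]
      refine Finset.sum_le_sum fun n _ => ?_
      rw [wpoly, Polynomial.coeff_add, Polynomial.coeff_neg, Polynomial.coeff_C_mul]
      push_cast
      refine (abs_add_le _ _).trans ?_
      rw [abs_neg, abs_mul]
      simp
    have h3 : (0 : ℝ) ≤ (i : ℝ) + l := by positivity
    calc clen i (wpoly i l (τ + 1)) ≤ i * clen i (wpoly i l τ) + l * clen i (wpoly i l τ) := by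
          linarith
      _ = ((i : ℝ) + l) * clen i (wpoly i l τ) := by ring
      _ ≤ ((i : ℝ) + l) * ((i : ℝ) + l) ^ τ := mul_le_mul_of_nonneg_left ih h3
      _ = ((i : ℝ) + l) ^ (τ + 1) := by ring

theorem norm_wC_le (i l τ : ℕ) (s : ℂ) (M : ℝ) (hM : 1 ≤ M) (hs : ‖s‖ ≤ M) :
    ‖(wC i l τ).eval s‖ ≤ ((i : ℝ) + l) ^ τ * M ^ i := by
  have hM0 : 0 ≤ M := by linarith
  have h1 : (wC i l τ).eval s =
      ∑ n ∈ Finset.range (i + 1), (((wpoly i l τ).coeff n : ℤ) : ℂ) * s ^ n := by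
    rw [Polynomial.eval_eq_sum_range' (n := i + 1) (Nat.lt_succ_of_le (natDegree_wC i l τ))]
    refine Finset.sum_congr rfl fun n _ => ?_
    simp [wC]
  rw [h1]
  calc ‖∑ n ∈ Finset.range (i + 1), (((wpoly i l τ).coeff n : ℤ) : ℂ) * s ^ n‖
      ≤ ∑ n ∈ Finset.range (i + 1), ‖(((wpoly i l τ).coeff n : ℤ) : ℂ) * s ^ n‖ :=
        norm_sum_le _ _
    _ ≤ ∑ n ∈ Finset.range (i + 1), |(((wpoly i l τ).coeff n : ℤ) : ℝ)| * M ^ i := by
        refine Finset.sum_le_sum fun n hn => ?_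
        rw [norm_mul, norm_pow]
        have hn' : n ≤ i := by
          have := Finset.mem_range.1 hn
          omega
        refine mul_le_mul ?_ ?_ (by positivity) (by positivity)
        · rw [Complex.norm_intCast]
        · exact (pow_le_pow_left₀ (norm_nonneg _) hs n).trans (pow_le_pow_right₀ hM hn')
    _ = clen i (wpoly i l τ) * M ^ i := by
        rw [clen, Finset.sum_mul]
    _ ≤ _ := mul_le_mul_of_nonneg_right (clen_wpoly i l τ) (by positivity)

/-- The bound for the entries on the circle of radius `ρ`. -/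
noncomputable def entBound (D₀ D T : ℕ) (H ρ Xb : ℝ) : ℝ :=
  ρ ^ T * ((D₀ : ℝ) + D) ^ T * (ρ * H) ^ D₀ * Real.exp (ρ * H * D * (2 + Xb))

theorem norm_ent_le {x : ℂ} {i k l τ D₀ D T : ℕ} {a z t : ℂ} {H ρ Xb : ℝ}
    (hi : i < D₀) (hk : k < D) (hl : l < D) (hτ : τ ≤ T) (hH : 1 ≤ H) (hρ : 1 ≤ ρ)
    (ha : ‖a‖ ≤ H) (hz : ‖z‖ ≤ H) (hx : ‖x‖ ≤ Xb) (ht : ‖t‖ = ρ) :
    ‖ent x i k l τ a z t‖ ≤ entBound D₀ D T H ρ Xb := by
  have hH0 : 0 ≤ H := by linarith
  have hρ0 : 0 ≤ ρ := by linarith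
  have hXb : 0 ≤ Xb := (norm_nonneg x).trans hx
  have hta : ‖t * a‖ ≤ ρ * H := by
    rw [norm_mul, ht]
    exact mul_le_mul_of_nonneg_left ha hρ0
  have hρH : 1 ≤ ρ * H := by nlinarith
  have hw := norm_wC_le i l τ (t * a) (ρ * H) hρH hta
  have hbase : (1 : ℝ) ≤ (D₀ : ℝ) + D := by
    have : (1 : ℝ) ≤ (D₀ : ℝ) := by exact_mod_cast (by omega : 1 ≤ D₀)
    have : (0 : ℝ) ≤ (D : ℝ) := by positivity
    linarith
  have hil : ((i : ℝ) + l) ^ τ ≤ ((D₀ : ℝ) + D) ^ T := by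
    have h1 : (i : ℝ) + l ≤ (D₀ : ℝ) + D := by
      have h2 : (i : ℝ) ≤ D₀ := by exact_mod_cast hi.le
      have h3 : (l : ℝ) ≤ D := by exact_mod_cast hl.le
      linarith
    exact (pow_le_pow_left₀ (by positivity) h1 τ).trans (pow_le_pow_right₀ hbase hτ)
  have hMi : (ρ * H) ^ i ≤ (ρ * H) ^ D₀ := pow_le_pow_right₀ hρH hi.le
  have hw' : ‖(wC i l τ).eval (t * a)‖ ≤ ((D₀ : ℝ) + D) ^ T * (ρ * H) ^ D₀ :=
    hw.trans (mul_le_mul hil hMi (by positivity) (by positivity))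
  have ht' : ‖t ^ τ‖ ≤ ρ ^ T := by
    rw [norm_pow, ht]
    exact pow_le_pow_right₀ hρ hτ
  have hkD : (k : ℝ) ≤ D := by exact_mod_cast hk.le
  have hlD : (l : ℝ) ≤ D := by exact_mod_cast hl.le
  have he1 : ‖Complex.exp (-(l : ℂ) * (t * a))‖ ≤ Real.exp (ρ * H * D) := by
    refine (Complex.norm_exp_le_exp_norm _).trans (Real.exp_le_exp.2 ?_)
    rw [norm_mul, norm_neg, Complex.norm_natCast]
    calc (l : ℝ) * ‖t * a‖ ≤ D * (ρ * H) := mul_le_mul hlD hta (norm_nonneg _) (by positivity)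
      _ = ρ * H * D := by ring
  have he2 : ‖Complex.exp (((k : ℂ) + l * x) * (t * z))‖ ≤ Real.exp (ρ * H * D * (1 + Xb)) := by
    refine (Complex.norm_exp_le_exp_norm _).trans (Real.exp_le_exp.2 ?_)
    rw [norm_mul, norm_mul t z, ht]
    have h1 : ‖(k : ℂ) + l * x‖ ≤ D * (1 + Xb) := by
      refine (norm_add_le _ _).trans ?_
      rw [norm_mul, Complex.norm_natCast, Complex.norm_natCast]
      have : (l : ℝ) * ‖x‖ ≤ D * Xb := mul_le_mul hlD hx (norm_nonneg _) (by positivity)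
      linarith
    have h2 : ρ * ‖z‖ ≤ ρ * H := mul_le_mul_of_nonneg_left hz hρ0
    calc ‖(k : ℂ) + l * x‖ * (ρ * ‖z‖) ≤ (D * (1 + Xb)) * (ρ * H) :=
          mul_le_mul h1 h2 (by positivity) (by positivity)
      _ = ρ * H * D * (1 + Xb) := by ring
  unfold ent entBound
  rw [norm_mul, norm_mul, norm_mul]
  calc ‖t ^ τ‖ * (‖(wC i l τ).eval (t * a)‖ * ‖Complex.exp (-(l : ℂ) * (t * a))‖) *
        ‖Complex.exp (((k : ℂ) + l * x) * (t * z))‖
      ≤ ρ ^ T * ((((D₀ : ℝ) + D) ^ T * (ρ * H) ^ D₀) * Real.exp (ρ * H * D)) *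
        Real.exp (ρ * H * D * (1 + Xb)) := by
        refine mul_le_mul (mul_le_mul ht' (mul_le_mul hw' he1 (norm_nonneg _) (by positivity))
          (by positivity) (by positivity)) he2 (norm_nonneg _) (by positivity)
    _ = ρ ^ T * ((D₀ : ℝ) + D) ^ T * (ρ * H) ^ D₀ * Real.exp (ρ * H * D * (2 + Xb)) := by
        have : ρ * H * D * (2 + Xb) = ρ * H * D + ρ * H * D * (1 + Xb) := by ring
        rw [this, Real.exp_add]
        ring

/-- Upper bound for the interpolation determinant at `t = 1`. -/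
theorem norm_det_interMat_le {x : ℂ} {D₀ D T d : ℕ} {τ : Lam D₀ D → ℕ} {a z : Lam D₀ D → ℂ}
    {H ρ Xb : ℝ} (hτ : ∀ j, τ j ≤ T) (hH : 1 ≤ H) (hρ : 1 ≤ ρ)
    (ha : ∀ j, ‖a j‖ ≤ H) (hz : ∀ j, ‖z j‖ ≤ H) (hx : ‖x‖ ≤ Xb) :
    ‖(interMat x D₀ D τ a z 1).det‖ ≤
      ((D₀ * (D * D)).factorial * (entBound D₀ D T H ρ Xb) ^ (D₀ * (D * D))) /
        ρ ^ (d * (D₀ * (D * D) - d * d)) := by
  refine schwarz_one (differentiable_det_interMat x D₀ D τ a z)
    (det_interMat_isBigO x D₀ D d τ a z) hρ ?_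
  intro t ht
  have h := Matrix.det_le (A := interMat x D₀ D τ a z t)
    (abv := NormedField.toAbsoluteValue ℂ) (x := entBound D₀ D T H ρ Xb) (by
      intro j lam
      exact norm_ent_le lam.1.2 lam.2.1.2 lam.2.2.2 (hτ j) hH hρ (ha j) (hz j) hx ht)
  have hc : Fintype.card (Lam D₀ D) = D₀ * (D * D) := by simp
  rw [hc, nsmul_eq_mul] at h
  exact h

end FiveNum
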