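import Mathlib

/-!
# Order of vanishing of a determinant

If `A t` is a matrix depending on `t`, whose entries are `O(1)` near `0`, and if every vector `v` of
a subspace `V` satisfies `A t *ᵥ v = O(t^d)`, then `det (A t) = O(t^(d * dim V))`.
-/

open Filter Topology Asymptotics Matrix

namespace FiveNum

variable {ι : Type} [Fintype ι] [DecidableEq ι]

omit [DecidableEq ι] in
/-- A basis of the whole space extending a basis of `V`, indexed by a sum type. -/
theorem exists_basis_sum (V : Submodule ℂ (ι → ℂ)) : ∃ (m : ℕ)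
    (b : Module.Basis (Fin (Module.finrank ℂ V) ⊕ Fin m) ℂ (ι → ℂ)), ∀ i, b (Sum.inl i) ∈ V := by
  obtain ⟨W, hW⟩ := Submodule.exists_isCompl V
  refine ⟨Module.finrank ℂ W, ((Module.finBasis ℂ V).prod (Module.finBasis ℂ W)).map
    (Submodule.prodEquivOfIsCompl V W hW), ?_⟩
  intro i
  simp

theorem det_isBigO (A : ℂ → Matrix ι ι ℂ) (V : Submodule ℂ (ι → ℂ)) (d : ℕ) (l : Filter ℂ)
    (hV : ∀ v ∈ V, ∀ j, (fun t => (A t *ᵥ v) j) =O[l] (fun t => t ^ d))
    (h0 : ∀ v : ι → ℂ, ∀ j, (fun t => (A t *ᵥ v) j) =O[l] (fun _ => (1 : ℂ))) :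
    (fun t => (A t).det) =O[l] (fun t => t ^ (d * Module.finrank ℂ V)) := by
  classical
  obtain ⟨m, b, hb⟩ := exists_basis_sum V
  -- reindex
  have hcard : Fintype.card ι = Fintype.card (Fin (Module.finrank ℂ V) ⊕ Fin m) := by
    rw [← Module.finrank_eq_card_basis b, Module.finrank_fintype_fun_eq_card]
  let e : (Fin (Module.finrank ℂ V) ⊕ Fin m) ≃ ι := Fintype.equivOfCardEq hcard.symm
  let b' : Module.Basis ι ℂ (ι → ℂ) := b.reindex e
  let G : Matrix ι ι ℂ := Matrix.of fun i μ => b' μ i
  have hG : G.det ≠ 0 := by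
    have hli : LinearIndependent ℂ (fun μ => G.col μ) := by
      have : (fun μ => G.col μ) = b' := by
        ext μ i
        simp [G, Matrix.col]
      rw [this]
      exact b'.linearIndependent
    have := Matrix.linearIndependent_cols_iff_isUnit.1 hli
    exact (Matrix.isUnit_iff_isUnit_det G).1 this |>.ne_zero
  have hentry : ∀ t j μ, (A t * G) j μ = (A t *ᵥ (b' μ)) j := by
    intro t j μ
    simp [G, Matrix.mul_apply, Matrix.mulVec, dotProduct]
  have hdet : ∀ t, (A t).det = (G.det)⁻¹ * (A t * G).det := by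
    intro t
    rw [Matrix.det_mul]
    field_simp
  have hmain : (fun t => (A t * G).det) =O[l] (fun t => t ^ (d * Module.finrank ℂ V)) := by
    have : (fun t => (A t * G).det) = fun t => ∑ σ : Equiv.Perm ι,
        ((Equiv.Perm.sign σ : ℤ) : ℂ) * ∏ μ, (A t *ᵥ (b' μ)) (σ μ) := by
      funext t
      rw [Matrix.det_apply']
      refine Finset.sum_congr rfl fun σ _ => ?_
      simp only [hentry]
    rw [this]
    refine IsBigO.fun_sum fun σ _ => ?_
    refine IsBigO.const_mul_left ?_ _
    have hexp : ∀ t : ℂ, t ^ (d * Module.finrank ℂ V) = ∏ μ : ι, (if (e.symm μ).isLeft then t ^ d else 1) := by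
      intro t
      rw [← Equiv.prod_comp e]
      simp only [Equiv.symm_apply_apply, Fintype.prod_sum_type, Sum.isLeft_inl, Sum.isLeft_inr,
        if_true]
      simp [pow_mul]
    simp_rw [hexp]
    refine IsBigO.finsetProd fun μ _ => ?_
    by_cases hμ : (e.symm μ).isLeft
    · simp only [hμ, if_true]
      refine hV _ ?_ _
      obtain ⟨k, hk⟩ := Sum.isLeft_iff.1 hμ
      have : b' μ = b (Sum.inl k) := by
        simp [b', Module.Basis.reindex_apply, hk]
      rw [this]
      exact hb k
    · simp only [hμ]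
      exact h0 _ _
  have : (fun t => (A t).det) = fun t => (G.det)⁻¹ * (A t * G).det := funext hdet
  rw [this]
  exact hmain.const_mul_left _

end FiveNum
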