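import Mathlib

/-!
# The functions `(e u - v)^i e^(k u + l v)` and their `v`-derivatives along rays
-/

open Filter Topology Asymptotics

namespace FiveNum

open Polynomial in
/-- The polynomials `w_τ` with `w_0 = X^i`, `w_(τ+1) = -w_τ' + l w_τ`. -/
noncomputable def wpoly (i l : ℕ) : ℕ → Polynomial ℤ
  | 0 => X ^ i
  | τ + 1 => -derivative (wpoly i l τ) + C (l : ℤ) * wpoly i l τ

/-- `w_τ` over `ℂ`. -/
noncomputable def wC (i l τ : ℕ) : Polynomial ℂ := (wpoly i l τ).map (Int.castRingHom ℂ)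

theorem wC_zero (i l : ℕ) : wC i l 0 = Polynomial.X ^ i := by
  simp [wC, wpoly]

theorem wC_succ (i l τ : ℕ) :
    wC i l (τ + 1) = -Polynomial.derivative (wC i l τ) + Polynomial.C (l : ℂ) * wC i l τ := by
  simp [wC, wpoly, Polynomial.derivative_map]

theorem natDegree_wpoly (i l : ℕ) : ∀ τ, (wpoly i l τ).natDegree ≤ i
  | 0 => by simp [wpoly]
  | τ + 1 => by
    have ih := natDegree_wpoly i l τ
    refine (Polynomial.natDegree_add_le _ _).trans (max_le ?_ ?_)
    · rw [Polynomial.natDegree_neg]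
      exact ((Polynomial.natDegree_derivative_le _).trans (Nat.sub_le _ _)).trans ih
    · exact (Polynomial.natDegree_C_mul_le _ _).trans ih

theorem natDegree_wC (i l τ : ℕ) : (wC i l τ).natDegree ≤ i :=
  (Polynomial.natDegree_map_le).trans (natDegree_wpoly i l τ)

/-- `F i l a = a^i e^(-l a)`. -/
noncomputable def Ffun (i l : ℕ) (a : ℂ) : ℂ := a ^ i * Complex.exp (-(l : ℂ) * a)

theorem differentiable_Ffun (i l : ℕ) : Differentiable ℂ (Ffun i l) := by
  unfold Ffun
  fun_prop

theorem iteratedDeriv_Ffun (i l τ : ℕ) :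
    iteratedDeriv τ (Ffun i l) =
      fun a => (-1) ^ τ * ((wC i l τ).eval a * Complex.exp (-(l : ℂ) * a)) := by
  induction τ with
  | zero =>
    funext a
    simp [Ffun, wC_zero]
  | succ τ ih =>
    rw [iteratedDeriv_succ, ih]
    funext a
    have h1 : HasDerivAt (fun a => (wC i l τ).eval a)
        ((Polynomial.derivative (wC i l τ)).eval a) a := (wC i l τ).hasDerivAt a
    have h2 : HasDerivAt (fun a : ℂ => Complex.exp (-(l : ℂ) * a))
        (Complex.exp (-(l : ℂ) * a) * (-(l : ℂ) * 1)) a :=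
      ((hasDerivAt_id a).const_mul (-(l : ℂ))).cexp
    have h3 := ((h1.mul h2).const_mul ((-1 : ℂ) ^ τ)).deriv
    have h4 : deriv (fun a => (-1) ^ τ * ((wC i l τ).eval a * Complex.exp (-(l : ℂ) * a))) a =
        (-1) ^ τ * ((Polynomial.derivative (wC i l τ)).eval a * Complex.exp (-(l : ℂ) * a) +
          (wC i l τ).eval a * (Complex.exp (-(l : ℂ) * a) * (-(l : ℂ) * 1))) := h3
    rw [h4, wC_succ]
    simp only [Polynomial.eval_add, Polynomial.eval_neg, Polynomial.eval_mul, Polynomial.eval_C]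
    ring

theorem taylor_isBigO {g : ℂ → ℂ} (hg : Differentiable ℂ g) (N : ℕ) :
    (fun t => g t - ∑ n ∈ Finset.range N, iteratedDeriv n g 0 / (n.factorial : ℂ) * t ^ n)
      =O[𝓝 0] fun t => t ^ N := by
  have h := (hg.analyticAt 0).hasFPowerSeriesAt.isBigO_sub_partialSum_pow N
  have h2 : (fun y : ℂ => ‖y‖ ^ N) =O[𝓝 0] fun y : ℂ => y ^ N := by
    refine IsBigO.of_bound 1 (Filter.Eventually.of_forall fun y => ?_)
    simp
  refine (h.trans h2).congr_left fun y => ?_
  simp only [FormalMultilinearSeries.partialSum, zero_add,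
    FormalMultilinearSeries.ofScalars_apply_eq, smul_eq_mul]

/-- The entry `t^τ (∂_v^τ f)(t η)`, `f = (x u - v)^i e^(k u + l v)`, `η = (z, x z - a)`. -/
noncomputable def ent (x : ℂ) (i k l τ : ℕ) (a z t : ℂ) : ℂ :=
  t ^ τ * ((wC i l τ).eval (t * a) * Complex.exp (-(l : ℂ) * (t * a))) *
    Complex.exp (((k : ℂ) + l * x) * (t * z))

theorem differentiable_ent (x : ℂ) (i k l τ : ℕ) (a z : ℂ) :
    Differentiable ℂ (ent x i k l τ a z) := by
  have h : Differentiable ℂ (fun t : ℂ => (wC i l τ).eval (t * a)) :=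
    (wC i l τ).differentiable.comp (differentiable_id.mul_const a)
  unfold ent
  fun_prop

theorem ent_first (i l τ : ℕ) (a : ℂ) (d : ℕ) :
    (fun t : ℂ => t ^ τ * ((wC i l τ).eval (t * a) * Complex.exp (-(l : ℂ) * (t * a))) -
      ∑ n ∈ Finset.range d, if n + τ < d then
        (-1) ^ τ * (a ^ n / (n.factorial : ℂ) * t ^ (n + τ)) * iteratedDeriv (n + τ) (Ffun i l) 0
        else 0) =O[𝓝 0] fun t => t ^ d := by
  have hw : ∀ s : ℂ, (wC i l τ).eval s * Complex.exp (-(l : ℂ) * s) =
      (-1) ^ τ * iteratedDeriv τ (Ffun i l) s := by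
    intro s
    rw [iteratedDeriv_Ffun]
    have : ((-1 : ℂ) ^ τ) * (-1) ^ τ = 1 := by
      rw [← mul_pow]; norm_num
    linear_combination (-((wC i l τ).eval s * Complex.exp (-(l : ℂ) * s))) * this
  have hdiff : Differentiable ℂ (iteratedDeriv τ (Ffun i l)) := by
    rw [iteratedDeriv_Ffun]
    have := (wC i l τ).differentiable
    fun_prop
  have hT := (taylor_isBigO hdiff d).comp_tendsto (k := fun t : ℂ => t * a) (l' := 𝓝 0) (by
    have : Continuous (fun t : ℂ => t * a) := by fun_prop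
    simpa using this.tendsto 0)
  have hT2 : (fun t : ℂ => (t * a) ^ d) =O[𝓝 0] fun t : ℂ => t ^ d := by
    refine IsBigO.of_bound (‖a‖ ^ d) (Filter.Eventually.of_forall fun y => ?_)
    rw [norm_pow, norm_mul, norm_pow, mul_pow, mul_comm]
  have hT3 := hT.trans hT2
  have hpow : (fun t : ℂ => (-1 : ℂ) ^ τ * t ^ τ) =O[𝓝 0] fun _ : ℂ => (1 : ℂ) := by
    have : Continuous (fun t : ℂ => (-1 : ℂ) ^ τ * t ^ τ) := by fun_prop
    exact this.continuousAt.isBigO_one ℂ
  have h1 := hpow.mul hT3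
  simp only [one_mul] at h1
  have h2 : (fun t : ℂ => ∑ n ∈ Finset.range d, if n + τ < d then 0 else
      (-1) ^ τ * (a ^ n / (n.factorial : ℂ) * t ^ (n + τ)) * iteratedDeriv (n + τ) (Ffun i l) 0)
      =O[𝓝 0] fun t => t ^ d := by
    refine IsBigO.fun_sum fun n _ => ?_
    by_cases hn : n + τ < d
    · simp only [hn, if_true]
      exact isBigO_zero _ _
    · simp only [hn, if_false]
      obtain ⟨e, he⟩ : ∃ e, n + τ = d + e := ⟨n + τ - d, by omega⟩
      have : Continuous (fun t : ℂ => (-1) ^ τ * (a ^ n / (n.factorial : ℂ) * t ^ e) *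
          iteratedDeriv (n + τ) (Ffun i l) 0) := by fun_prop
      have h := (this.continuousAt (x := 0)).isBigO_one ℂ
      have h' := h.mul (isBigO_refl (fun t : ℂ => t ^ d) (𝓝 0))
      simp only [one_mul] at h'
      refine h'.congr_left fun t => ?_
      rw [he, pow_add]
      ring
  refine (h1.add h2).congr_left fun t => ?_
  simp only [Function.comp_def]
  rw [hw]
  have hsum : ∀ n ∈ Finset.range d,
      (if n + τ < d then
        (-1 : ℂ) ^ τ * (a ^ n / (n.factorial : ℂ) * t ^ (n + τ)) * iteratedDeriv (n + τ) (Ffun i l) 0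
        else 0) = (-1) ^ τ * t ^ τ *
        (iteratedDeriv n (iteratedDeriv τ (Ffun i l)) 0 / (n.factorial : ℂ) * (t * a) ^ n) -
        (if n + τ < d then 0 else
        (-1 : ℂ) ^ τ * (a ^ n / (n.factorial : ℂ) * t ^ (n + τ)) *
          iteratedDeriv (n + τ) (Ffun i l) 0) := by
    intro n _
    have hit : iteratedDeriv n (iteratedDeriv τ (Ffun i l)) = iteratedDeriv (n + τ) (Ffun i l) := by
      rw [iteratedDeriv_eq_iterate, iteratedDeriv_eq_iterate, iteratedDeriv_eq_iterate,
        Function.iterate_add_apply]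
    rw [hit]
    by_cases hn : n + τ < d
    · simp only [hn, if_true]
      rw [mul_pow, pow_add]
      ring
    · simp only [hn, if_false]
      rw [mul_pow, pow_add]
      ring
  rw [Finset.sum_congr rfl hsum, Finset.sum_sub_distrib, ← Finset.mul_sum]
  ring

theorem ent_second (q z : ℂ) (d : ℕ) :
    (fun t : ℂ => Complex.exp (q * (t * z)) -
      ∑ β ∈ Finset.range d, (t * z) ^ β / (β.factorial : ℂ) * q ^ β) =O[𝓝 0] fun t => t ^ d := by
  have hT := (Complex.exp_sub_sum_range_isBigO_pow d).comp_tendsto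
    (k := fun t : ℂ => q * (t * z)) (l' := 𝓝 0) (by
    have : Continuous (fun t : ℂ => q * (t * z)) := by fun_prop
    simpa using this.tendsto 0)
  have hT2 : (fun t : ℂ => (q * (t * z)) ^ d) =O[𝓝 0] fun t : ℂ => t ^ d := by
    refine IsBigO.of_bound (‖q‖ ^ d * ‖z‖ ^ d) (Filter.Eventually.of_forall fun y => ?_)
    rw [norm_pow, norm_mul, norm_pow, norm_mul, mul_pow, mul_pow]
    apply le_of_eq
    ring
  refine (hT.trans hT2).congr_left fun t => ?_
  simp only [Function.comp_def]
  congr 1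
  refine Finset.sum_congr rfl fun β _ => ?_
  rw [mul_pow]
  ring

end FiveNum
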