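import Pool.Agent.FiveNum.AnPoly

/-!
# The auxiliary polynomial for `π e`, `(π e)^e`, `π^π`
-/

open Matrix MvPolynomial

namespace FiveNum

theorem ratCast_mem_GInt {Q : ℕ} {r : ℚ} (h : r.den ∣ Q) : (Q : ℂ) * (r : ℂ) ∈ GInt := by
  obtain ⟨e, rfl⟩ := h
  have hd : ((r.den : ℕ) : ℂ) ≠ 0 := by exact_mod_cast r.den_nz
  have h1 : (r : ℂ) = (r.num : ℂ) / ((r.den : ℕ) : ℂ) := by
    exact_mod_cast congrArg (fun q : ℚ => (q : ℂ)) (Rat.num_div_den r).symm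
  have h2 : ((r.den * e : ℕ) : ℂ) * (r : ℂ) = ((e : ℕ) : ℂ) * ((r.num : ℤ) : ℂ) := by
    rw [h1]
    push_cast
    field_simp
  rw [h2]
  exact GInt.mul_mem (natCast_mem_GInt e) (intCast_mem_GInt _)

/-- product of two powers of rationals with denominators dividing `Q` -/
theorem two_pow_mem_GInt {Q : ℕ} {r s : ℚ} (hr : r.den ∣ Q) (hs : s.den ∣ Q) (m n S : ℕ)
    (hm : m < S) (hn : n < S) : (Q : ℂ) ^ (2 * S) * ((r : ℂ) ^ m * (s : ℂ) ^ n) ∈ GInt := by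
  have h1 : (Q : ℂ) ^ 1 * (r : ℂ) ∈ GInt := by
    rw [pow_one]; exact ratCast_mem_GInt hr
  have h2 : (Q : ℂ) ^ 1 * (s : ℂ) ∈ GInt := by
    rw [pow_one]; exact ratCast_mem_GInt hs
  refine mem_GInt_pow_mono (mem_GInt_mul (mem_GInt_pow h1 m) (mem_GInt_pow h2 n)) ?_
  omega

/-- **Auxiliary polynomial.** If `π e = b₁/b₂`, `E = π^π` and `F = (π e)^e` are rational, then for
all large `N` there is a nonzero polynomial of degrees `< N^16, N^10, N^10` vanishing with its first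
`N^17` derivatives at the `N^21` points. -/
theorem AN (b₁ b₂ : ℕ) (hb₁ : 0 < b₁) (hb₂ : 0 < b₂) (E F : ℚ)
    (hB : Real.pi * Real.exp 1 = b₁ / b₂) (hE : Real.pi ^ Real.pi = E)
    (hF : ((b₁ : ℝ) / b₂) ^ (Real.exp 1) = F) :
    ∃ N₀ : ℕ, ∀ N ≥ N₀, ∃ P : MvPolynomial (Fin 3) ℂ, P ≠ 0 ∧
      P.degreeOf 0 < N ^ 16 ∧ P.degreeOf 1 < N ^ 10 ∧ P.degreeOf 2 < N ^ 10 ∧
      ∀ s₂ < N ^ 7, ∀ s₃ < N ^ 7, ∀ s₄ < N ^ 7, ∀ t < N ^ 17,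
        eval (pt ((b₁ : ℂ) / b₂) E F b₁ b₂ s₂ s₃ s₄)
          ((Dv : MvPolynomial (Fin 3) ℂ → MvPolynomial (Fin 3) ℂ)^[t] P) = 0 := by
  have hb₁' : (0 : ℝ) < b₁ := by exact_mod_cast hb₁
  have hb₂' : (0 : ℝ) < b₂ := by exact_mod_cast hb₂
  set e : ℝ := Real.exp 1 with he
  set ell : ℝ := Real.log Real.pi with hell
  set B : ℝ := (b₁ : ℝ) / b₂ with hBdef
  have hB0 : 0 < B := by positivity
  have hπ : 0 < Real.pi := Real.pi_pos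
  have hlogB : Real.log B = ell + 1 := by
    rw [← hB, Real.log_mul hπ.ne' (Real.exp_pos 1).ne', Real.log_exp]
  have hB2 : B * b₂ = b₁ := by
    rw [hBdef]; field_simp
  have heπ : e * Real.pi * b₂ = b₁ := by
    rw [mul_comm e, hB, hB2]
  -- exponentials
  have hexpB : Real.exp (Real.log B) = B := Real.exp_log hB0
  have hexpE : Real.exp (Real.pi * ell) = (E : ℝ) := by
    rw [← hE, Real.rpow_def_of_pos hπ, mul_comm]
  have hexpF : Real.exp (e * Real.log B) = (F : ℝ) := by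
    rw [← hF, Real.rpow_def_of_pos hB0, mul_comm]
  have cexpB : Complex.exp ((Real.log B : ℝ) : ℂ) = ((b₁ : ℂ) / b₂) := by
    rw [← Complex.ofReal_exp, hexpB, hBdef]
    push_cast
    rfl
  have cexpE : Complex.exp ((Real.pi * ell : ℝ) : ℂ) = (E : ℂ) := by
    rw [← Complex.ofReal_exp, hexpE]
    push_cast
    rfl
  have cexpF : Complex.exp ((e * Real.log B : ℝ) : ℂ) = (F : ℂ) := by
    rw [← Complex.ofReal_exp, hexpF]
    push_cast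
    rfl
  -- the points
  let a : ℕ → ℕ → ℕ → ℂ := fun _ s₃ s₄ => Complex.I * ((b₁ : ℂ) / b₂) * s₃ - b₁ * s₄
  let z : ℕ → ℕ → ℕ → ℂ := fun s₂ s₃ s₄ =>
    (s₂ : ℂ) * ((Real.log B : ℝ) : ℂ) + (s₃ : ℂ) * (Real.pi * Complex.I) +
      ((b₂ * s₄ : ℕ) : ℂ) * ((Real.pi * ell : ℝ) : ℂ)
  have hY : ∀ s₂ s₃ s₄, Complex.exp (z s₂ s₃ s₄) =
      ((b₁ : ℂ) / b₂) ^ s₂ * (-1) ^ s₃ * (E : ℂ) ^ (b₂ * s₄) := by
    intro s₂ s₃ s₄
    simp only [z]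
    rw [Complex.exp_add, Complex.exp_add, Complex.exp_nat_mul, Complex.exp_nat_mul,
      Complex.exp_nat_mul, cexpB, cexpE, Complex.exp_pi_mul_I]
  have hZ : ∀ s₂ s₃ s₄, Complex.exp ((e : ℂ) * z s₂ s₃ s₄ - a s₂ s₃ s₄) =
      (F : ℂ) ^ s₂ * ((b₁ : ℂ) / b₂) ^ (b₁ * s₄) := by
    intro s₂ s₃ s₄
    have h1 : (e : ℂ) * z s₂ s₃ s₄ - a s₂ s₃ s₄ =
        (s₂ : ℂ) * ((e * Real.log B : ℝ) : ℂ) +
          ((b₁ * s₄ : ℕ) : ℂ) * ((Real.log B : ℝ) : ℂ) := by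
      simp only [a, z]
      rw [hlogB]
      have h2 : (e : ℂ) * Real.pi * b₂ = b₁ := by exact_mod_cast heπ
      have h3 : (b₂ : ℂ) ≠ 0 := by exact_mod_cast hb₂.ne'
      have h4 : (e : ℂ) * Real.pi = (b₁ : ℂ) / b₂ := by
        field_simp
        exact h2
      push_cast
      linear_combination ((s₃ : ℂ) * Complex.I) * h4 + ((s₄ : ℂ) * ell) * h2
    rw [h1, Complex.exp_add, Complex.exp_nat_mul, Complex.exp_nat_mul, cexpB, cexpF]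
  -- the common denominator
  set rB : ℚ := (b₁ : ℚ) / b₂ with hrB
  have hrBc : ((rB : ℚ) : ℂ) = (b₁ : ℂ) / b₂ := by
    rw [hrB]; push_cast; rfl
  let Q : ℕ := b₂ * (rB.den * ((E ^ b₂).den * (F.den * (rB ^ b₁).den)))
  have hQ : 0 < Q := by
    have h1 := rB.den_pos
    have h2 := (E ^ b₂).den_pos
    have h3 := F.den_pos
    have h4 := (rB ^ b₁).den_pos
    positivity
  have hd0 : b₂ ∣ Q := Dvd.intro _ rfl
  have hd1 : rB.den ∣ Q := Dvd.dvd.mul_left (Dvd.intro _ rfl) _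
  have hd2 : (E ^ b₂).den ∣ Q :=
    Dvd.dvd.mul_left (Dvd.dvd.mul_left (Dvd.intro _ rfl) _) _
  have hd3 : F.den ∣ Q :=
    Dvd.dvd.mul_left (Dvd.dvd.mul_left (Dvd.dvd.mul_left (Dvd.intro _ rfl) _) _) _
  have hd4 : (rB ^ b₁).den ∣ Q :=
    Dvd.dvd.mul_left (Dvd.dvd.mul_left (Dvd.dvd.mul_left (Dvd.intro_left _ rfl) _) _) _
  have hQa : ∀ s₂ s₃ s₄ : ℕ, (Q : ℂ) * a s₂ s₃ s₄ ∈ GInt := by
    intro s₂ s₃ s₄
    obtain ⟨c, hc⟩ := hd0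
    have h3 : (b₂ : ℂ) ≠ 0 := by exact_mod_cast hb₂.ne'
    have h1 : (Q : ℂ) * a s₂ s₃ s₄ =
        (c : ℂ) * (Complex.I * ((b₁ : ℂ) * s₃)) - (Q : ℂ) * ((b₁ : ℂ) * s₄) := by
      simp only [a]
      rw [hc]
      push_cast
      field_simp
    rw [h1]
    refine GInt.sub_mem (GInt.mul_mem (natCast_mem_GInt c) (GInt.mul_mem I_mem_GInt
      (GInt.mul_mem (natCast_mem_GInt _) (natCast_mem_GInt _))))
      (GInt.mul_mem (natCast_mem_GInt _) (GInt.mul_mem (natCast_mem_GInt _) (natCast_mem_GInt _)))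
  -- bounds
  set C : ℝ := 1 + (B + b₁) + (|Real.log B| + Real.pi + b₂ * |Real.pi * ell|) with hCdef
  have hC : 1 ≤ C := by
    rw [hCdef]
    have : 0 ≤ B + b₁ := by positivity
    have : 0 ≤ |Real.log B| + Real.pi + b₂ * |Real.pi * ell| := by positivity
    linarith
  have ha : ∀ S s₂ s₃ s₄ : ℕ, s₂ < S → s₃ < S → s₄ < S → ‖a s₂ s₃ s₄‖ ≤ C * S := by
    intro S s₂ s₃ s₄ _ h3 h4
    have h3' : (s₃ : ℝ) ≤ S := by exact_mod_cast h3.le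
    have h4' : (s₄ : ℝ) ≤ S := by exact_mod_cast h4.le
    have n1 : ‖Complex.I * ((b₁ : ℂ) / b₂) * s₃‖ = B * s₃ := by
      rw [norm_mul, norm_mul, norm_div]
      simp [hBdef]
    have n2 : ‖(b₁ : ℂ) * s₄‖ = b₁ * s₄ := by
      rw [norm_mul]; simp
    have hS : (0 : ℝ) ≤ S := by positivity
    calc ‖a s₂ s₃ s₄‖ ≤ ‖Complex.I * ((b₁ : ℂ) / b₂) * s₃‖ + ‖(b₁ : ℂ) * s₄‖ := norm_sub_le _ _
      _ = B * s₃ + b₁ * s₄ := by rw [n1, n2]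
      _ ≤ B * S + b₁ * S := by gcongr
      _ = (B + b₁) * S := by ring
      _ ≤ C * S := by
          refine mul_le_mul_of_nonneg_right ?_ hS
          rw [hCdef]
          have : 0 ≤ |Real.log B| + Real.pi + b₂ * |Real.pi * ell| := by positivity
          linarith
  have hz : ∀ S s₂ s₃ s₄ : ℕ, s₂ < S → s₃ < S → s₄ < S → ‖z s₂ s₃ s₄‖ ≤ C * S := by
    intro S s₂ s₃ s₄ h2 h3 h4
    have h2' : (s₂ : ℝ) ≤ S := by exact_mod_cast h2.le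
    have h3' : (s₃ : ℝ) ≤ S := by exact_mod_cast h3.le
    have h4' : (s₄ : ℝ) ≤ S := by exact_mod_cast h4.le
    have hS : (0 : ℝ) ≤ S := by positivity
    have n1 : ‖(s₂ : ℂ) * ((Real.log B : ℝ) : ℂ)‖ = s₂ * |Real.log B| := by
      rw [norm_mul, Complex.norm_natCast, Complex.norm_real, Real.norm_eq_abs]
    have n2 : ‖(s₃ : ℂ) * (Real.pi * Complex.I)‖ = s₃ * Real.pi := by
      rw [norm_mul, Complex.norm_natCast, norm_mul, Complex.norm_real, Complex.norm_I,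
        Real.norm_eq_abs, abs_of_pos hπ, mul_one]
    have n3 : ‖((b₂ * s₄ : ℕ) : ℂ) * ((Real.pi * ell : ℝ) : ℂ)‖ =
        b₂ * s₄ * |Real.pi * ell| := by
      rw [norm_mul, Complex.norm_natCast, Complex.norm_real, Real.norm_eq_abs]
      push_cast
      rfl
    calc ‖z s₂ s₃ s₄‖ ≤ ‖(s₂ : ℂ) * ((Real.log B : ℝ) : ℂ)‖ + ‖(s₃ : ℂ) * (Real.pi * Complex.I)‖ +
          ‖((b₂ * s₄ : ℕ) : ℂ) * ((Real.pi * ell : ℝ) : ℂ)‖ := norm_add₃_le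
      _ = s₂ * |Real.log B| + s₃ * Real.pi + b₂ * s₄ * |Real.pi * ell| := by rw [n1, n2, n3]
      _ ≤ S * |Real.log B| + S * Real.pi + b₂ * S * |Real.pi * ell| := by gcongr
      _ = (|Real.log B| + Real.pi + b₂ * |Real.pi * ell|) * S := by ring
      _ ≤ C * S := by
          refine mul_le_mul_of_nonneg_right ?_ hS
          rw [hCdef]
          have : 0 ≤ B + b₁ := by positivity
          linarith
  have hQY : ∀ S s₂ s₃ s₄ : ℕ, s₂ < S → s₃ < S → s₄ < S →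
      (Q : ℂ) ^ (2 * S) * Complex.exp (z s₂ s₃ s₄) ∈ GInt := by
    intro S s₂ s₃ s₄ h2 _ h4
    rw [hY]
    have h := two_pow_mem_GInt hd1 hd2 s₂ s₄ S h2 h4
    have h5 : (Q : ℂ) ^ (2 * S) * (((b₁ : ℂ) / b₂) ^ s₂ * (-1) ^ s₃ * (E : ℂ) ^ (b₂ * s₄)) =
        ((-1 : ℤ) : ℂ) ^ s₃ *
          ((Q : ℂ) ^ (2 * S) * ((rB : ℂ) ^ s₂ * ((E ^ b₂ : ℚ) : ℂ) ^ s₄)) := by
      rw [hrBc, pow_mul]
      push_cast
      ring
    rw [h5]
    exact GInt.mul_mem (GInt.pow_mem (intCast_mem_GInt _) _) h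
  have hQZ : ∀ S s₂ s₃ s₄ : ℕ, s₂ < S → s₃ < S → s₄ < S →
      (Q : ℂ) ^ (2 * S) * Complex.exp ((e : ℂ) * z s₂ s₃ s₄ - a s₂ s₃ s₄) ∈ GInt := by
    intro S s₂ s₃ s₄ h2 _ h4
    rw [hZ]
    have h := two_pow_mem_GInt hd3 hd4 s₂ s₄ S h2 h4
    have h5 : (Q : ℂ) ^ (2 * S) * ((F : ℂ) ^ s₂ * ((b₁ : ℂ) / b₂) ^ (b₁ * s₄)) =
          ((Q : ℂ) ^ (2 * S) * ((F : ℂ) ^ s₂ * ((rB ^ b₁ : ℚ) : ℂ) ^ s₄)) := by
      rw [Rat.cast_pow, hrBc, pow_mul ((b₁ : ℂ) / b₂)]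
    rw [h5]
    exact h
  obtain ⟨N₀, hN₀⟩ := exists_aux (e : ℂ) a z Q hQ C ‖(e : ℂ)‖ hC le_rfl ha hz hQa hQY hQZ
  refine ⟨N₀, fun N hN => ?_⟩
  obtain ⟨P, hP0, hP1, hP2, hP3, hP⟩ := hN₀ N hN
  refine ⟨P, hP0, hP1, hP2, hP3, fun s₂ h2 s₃ h3 s₄ h4 t ht => ?_⟩
  have h := hP s₂ h2 s₃ h3 s₄ h4 t ht
  rw [hY, hZ] at h
  exact h

end FiveNum
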