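import Pool.Agent.FiveNum.AnArith

/-!
# The numerical inequality
-/

open Filter Topology

namespace FiveNum

theorem eventually_log_small (K : ℝ) :
    ∃ N₀ : ℕ, 2 ≤ N₀ ∧ ∀ N ≥ N₀, K + 60 * Real.log (N : ℝ) < (N : ℝ) / 4 := by
  have h1 : ∀ᶠ x : ℝ in atTop, |Real.log x| ≤ (1 / 500) * |x| := by
    have := Real.isLittleO_log_id_atTop.def (c := 1 / 500) (by norm_num)
    simpa using this
  have h2 : ∀ᶠ x : ℝ in atTop, K < x / 10 := by
    filter_upwards [eventually_gt_atTop (10 * K)] with x hx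
    linarith
  have h3 : ∀ᶠ N : ℕ in atTop, |Real.log (N : ℝ)| ≤ (1 / 500) * |(N : ℝ)| :=
    tendsto_natCast_atTop_atTop.eventually h1
  have h4 : ∀ᶠ N : ℕ in atTop, K < (N : ℝ) / 10 := tendsto_natCast_atTop_atTop.eventually h2
  obtain ⟨N₁, hN₁⟩ := eventually_atTop.1 (h3.and h4)
  refine ⟨max 2 N₁, le_max_left _ _, fun N hN => ?_⟩
  obtain ⟨ha, hb⟩ := hN₁ N (le_trans (le_max_right _ _) hN)
  have hN0 : (2 : ℝ) ≤ (N : ℝ) := by exact_mod_cast le_trans (le_max_left _ _) hN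
  rw [abs_of_nonneg (by linarith : (0 : ℝ) ≤ (N : ℝ))] at ha
  have := (abs_le.1 ha).2
  linarith

theorem numeric (Q : ℕ) (hQ : 0 < Q) (C Xb : ℝ) (hC : 1 ≤ C) (hXb : 0 ≤ Xb) :
    ∃ N₀ : ℕ, 2 ≤ N₀ ∧ ∀ N ≥ N₀,
      (Q : ℝ) ^ ((N ^ 16 + 2 * (2 * N ^ 7) * N ^ 10) * (N ^ 16 * (N ^ 10 * N ^ 10))) *
      ((N ^ 16 * (N ^ 10 * N ^ 10)).factorial *
        (entBound (N ^ 16) (N ^ 10) (N ^ 17) (C * (N : ℝ) ^ 7) (Real.exp 1) Xb) ^
          (N ^ 16 * (N ^ 10 * N ^ 10))) <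
        (Real.exp 1) ^ ((N ^ 18 / 2) * (N ^ 16 * (N ^ 10 * N ^ 10) -
          (N ^ 18 / 2) * (N ^ 18 / 2))) := by
  set K : ℝ := 5 * Real.log Q + 1 + Real.log (Real.exp 1 * C) + Real.exp 1 * C * (2 + Xb) with hK
  obtain ⟨N₀, hN₀2, hN₀⟩ := eventually_log_small K
  refine ⟨N₀, hN₀2, fun N hN => ?_⟩
  have hkey := hN₀ N hN
  have hN2 : 2 ≤ N := le_trans hN₀2 hN
  have hQr : (1 : ℝ) ≤ Q := by exact_mod_cast hQ
  have hlogQ : 0 ≤ Real.log Q := Real.log_nonneg hQr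
  set x : ℝ := (N : ℝ) with hx
  have hx2 : (2 : ℝ) ≤ x := by
    rw [hx]
    exact_mod_cast hN2
  have hx1 : (1 : ℝ) ≤ x := by linarith
  have hx0 : (0 : ℝ) < x := by linarith
  set lg := Real.log x with hlg
  have hlg0 : 0 ≤ lg := Real.log_nonneg hx1
  have hxexp : ∀ n : ℕ, x ^ n = Real.exp (n * lg) := by
    intro n
    rw [hlg, Real.exp_nat_mul, Real.exp_log hx0]
  have he1 : (1 : ℝ) ≤ Real.exp 1 := by
    have := Real.add_one_le_exp (1 : ℝ)
    linarith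
  have heC : (1 : ℝ) ≤ Real.exp 1 * C := by nlinarith
  have hlogeC : 0 ≤ Real.log (Real.exp 1 * C) := Real.log_nonneg heC
  have h1617 : x ^ 16 ≤ x ^ 17 := pow_le_pow_right₀ hx1 (by norm_num)
  have hx17 : 1 ≤ x ^ 17 := one_le_pow₀ hx1
  -- the bound for the entries
  set U := entBound (N ^ 16) (N ^ 10) (N ^ 17) (C * x ^ 7) (Real.exp 1) Xb with hU
  have hU0 : 0 ≤ U := by
    rw [hU]
    unfold entBound
    positivity
  have hUle : U ≤ Real.exp (x ^ 17 * (1 + 17 * lg + (Real.log (Real.exp 1 * C) + 7 * lg) +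
      Real.exp 1 * C * (2 + Xb))) := by
    have t1 : (Real.exp 1) ^ (N ^ 17) = Real.exp (x ^ 17) := by
      rw [← Real.exp_nat_mul]
      push_cast
      rw [mul_one]
    have t2 : (((N ^ 16 : ℕ) : ℝ) + ((N ^ 10 : ℕ) : ℝ)) ^ (N ^ 17) ≤
        Real.exp (x ^ 17 * (17 * lg)) := by
      have h1 : ((N ^ 16 : ℕ) : ℝ) + ((N ^ 10 : ℕ) : ℝ) ≤ x ^ 17 := by
        push_cast
        have h2 : x ^ 10 ≤ x ^ 16 := pow_le_pow_right₀ hx1 (by norm_num)
        have h3 : x ^ 17 = x * x ^ 16 := by ring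
        rw [h3]
        nlinarith [pow_pos hx0 16]
      have h2 : x ^ 17 = Real.exp (17 * lg) := by exact_mod_cast hxexp 17
      calc (((N ^ 16 : ℕ) : ℝ) + ((N ^ 10 : ℕ) : ℝ)) ^ (N ^ 17) ≤ (x ^ 17) ^ (N ^ 17) :=
            pow_le_pow_left₀ (by positivity) h1 _
        _ = (Real.exp (17 * lg)) ^ (N ^ 17) := by rw [h2]
        _ = Real.exp (x ^ 17 * (17 * lg)) := by
            rw [← Real.exp_nat_mul]
            push_cast
            rfl
    have t3 : (Real.exp 1 * (C * x ^ 7)) ^ (N ^ 16) ≤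
        Real.exp (x ^ 17 * (Real.log (Real.exp 1 * C) + 7 * lg)) := by
      have h1 : Real.exp 1 * (C * x ^ 7) = Real.exp (Real.log (Real.exp 1 * C) + 7 * lg) := by
        rw [Real.exp_add, Real.exp_log (by linarith)]
        have h2 : x ^ 7 = Real.exp (7 * lg) := by exact_mod_cast hxexp 7
        rw [← h2]; ring
      rw [h1, ← Real.exp_nat_mul]
      refine Real.exp_le_exp.2 ?_
      push_cast
      exact mul_le_mul_of_nonneg_right h1617 (by positivity)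
    have t4 : Real.exp 1 * (C * x ^ 7) * ((N ^ 10 : ℕ) : ℝ) * (2 + Xb) =
        x ^ 17 * (Real.exp 1 * C * (2 + Xb)) := by
      push_cast
      ring
    rw [hU]
    unfold entBound
    rw [t4, t1]
    calc Real.exp (x ^ 17) * (((N ^ 16 : ℕ) : ℝ) + ((N ^ 10 : ℕ) : ℝ)) ^ (N ^ 17) *
          (Real.exp 1 * (C * x ^ 7)) ^ (N ^ 16) * Real.exp (x ^ 17 * (Real.exp 1 * C * (2 + Xb)))
        ≤ Real.exp (x ^ 17) * Real.exp (x ^ 17 * (17 * lg)) *
          Real.exp (x ^ 17 * (Real.log (Real.exp 1 * C) + 7 * lg)) *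
          Real.exp (x ^ 17 * (Real.exp 1 * C * (2 + Xb))) := by
          gcongr
      _ = _ := by
          rw [← Real.exp_add, ← Real.exp_add, ← Real.exp_add]
          congr 1
          ring
  -- the arithmetic factor
  have hQle : (Q : ℝ) ^ (N ^ 16 + 2 * (2 * N ^ 7) * N ^ 10) ≤
      Real.exp (x ^ 17 * (5 * Real.log Q)) := by
    have hQe : (Q : ℝ) = Real.exp (Real.log Q) := (Real.exp_log (by linarith)).symm
    calc (Q : ℝ) ^ (N ^ 16 + 2 * (2 * N ^ 7) * N ^ 10)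
        = (Real.exp (Real.log Q)) ^ (N ^ 16 + 2 * (2 * N ^ 7) * N ^ 10) := by rw [← hQe]
      _ = Real.exp (((N ^ 16 + 2 * (2 * N ^ 7) * N ^ 10 : ℕ) : ℝ) * Real.log Q) := by
          rw [← Real.exp_nat_mul]
      _ ≤ Real.exp (x ^ 17 * (5 * Real.log Q)) := by
          refine Real.exp_le_exp.2 ?_
          push_cast
          have : x ^ 16 + 2 * (2 * x ^ 7) * x ^ 10 ≤ x ^ 17 * 5 := by
            have : 2 * (2 * x ^ 7) * x ^ 10 = 4 * x ^ 17 := by ring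
            linarith
          calc (x ^ 16 + 2 * (2 * x ^ 7) * x ^ 10) * Real.log Q ≤ (x ^ 17 * 5) * Real.log Q :=
                mul_le_mul_of_nonneg_right this hlogQ
            _ = _ := by ring
  set L := N ^ 16 * (N ^ 10 * N ^ 10) with hL
  have hLx : (L : ℝ) = x ^ 36 := by
    rw [hL]
    push_cast
    ring
  have hLle : (L : ℝ) ≤ Real.exp (x ^ 17 * (36 * lg)) := by
    rw [hLx]
    have h2 : x ^ 36 = Real.exp (36 * lg) := by exact_mod_cast hxexp 36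
    rw [h2]
    refine Real.exp_le_exp.2 ?_
    nlinarith
  have hbase : (Q : ℝ) ^ (N ^ 16 + 2 * (2 * N ^ 7) * N ^ 10) * ((L : ℝ) * U) <
      Real.exp (x ^ 18 / 4) := by
    calc (Q : ℝ) ^ (N ^ 16 + 2 * (2 * N ^ 7) * N ^ 10) * ((L : ℝ) * U)
        ≤ Real.exp (x ^ 17 * (5 * Real.log Q)) * (Real.exp (x ^ 17 * (36 * lg)) *
          Real.exp (x ^ 17 * (1 + 17 * lg + (Real.log (Real.exp 1 * C) + 7 * lg) +
      Real.exp 1 * C * (2 + Xb)))) := by
          refine mul_le_mul hQle (mul_le_mul hLle hUle hU0 (by positivity)) (by positivity)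
            (by positivity)
      _ = Real.exp (x ^ 17 * (K + 60 * lg)) := by
          rw [← Real.exp_add, ← Real.exp_add]
          congr 1
          rw [hK]
          ring
      _ < Real.exp (x ^ 18 / 4) := by
          refine Real.exp_lt_exp.2 ?_
          have h1 : x ^ 18 / 4 = x ^ 17 * (x / 4) := by ring
          rw [h1]
          exact mul_lt_mul_of_pos_left hkey (by positivity)
  -- the exponent
  set d := N ^ 18 / 2 with hd
  have hL18 : L = N ^ 18 * N ^ 18 := by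
    rw [hL]; ring
  have hdle : 2 * d ≤ N ^ 18 := by omega
  have hdge : N ^ 18 ≤ 2 * d + 1 := by omega
  have h4 : 4 * (d * d) ≤ L := by
    rw [hL18]
    calc 4 * (d * d) = (2 * d) * (2 * d) := by ring
      _ ≤ N ^ 18 * N ^ 18 := Nat.mul_le_mul hdle hdle
  have hdd : d * d ≤ L := by omega
  have hexp : (x ^ 18 / 4) * L ≤ ((d * (L - d * d) : ℕ) : ℝ) := by
    rw [Nat.cast_mul d, Nat.cast_sub hdd]
    have h5 : (4 : ℝ) * ((d * d : ℕ) : ℝ) ≤ (L : ℝ) := by exact_mod_cast h4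
    have h6 : x ^ 18 ≤ 2 * (d : ℝ) + 1 := by
      have : ((N ^ 18 : ℕ) : ℝ) ≤ ((2 * d + 1 : ℕ) : ℝ) := by exact_mod_cast hdge
      push_cast at this
      exact this
    have h7 : (4 : ℝ) ≤ x ^ 18 := by
      have : (2 : ℝ) ^ 18 ≤ x ^ 18 := pow_le_pow_left₀ (by norm_num) hx2 18
      norm_num at this
      linarith
    have h8 : (3 / 4 : ℝ) * L ≤ (L : ℝ) - ((d * d : ℕ) : ℝ) := by linarith
    have h9 : (0 : ℝ) ≤ (d : ℝ) := by positivity
    have h10 : (0 : ℝ) ≤ (L : ℝ) := by positivity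
    calc (x ^ 18 / 4) * L ≤ (d * (3 / 4)) * L := by
          refine mul_le_mul_of_nonneg_right ?_ h10
          linarith
      _ = d * ((3 / 4 : ℝ) * L) := by ring
      _ ≤ d * ((L : ℝ) - ((d * d : ℕ) : ℝ)) := mul_le_mul_of_nonneg_left h8 h9
  have hLpos : L ≠ 0 := by
    rw [hL]
    positivity
  have hfac : ((L.factorial : ℕ) : ℝ) ≤ (L : ℝ) ^ L := by
    exact_mod_cast Nat.factorial_le_pow L
  calc (Q : ℝ) ^ ((N ^ 16 + 2 * (2 * N ^ 7) * N ^ 10) * L) * ((L.factorial : ℝ) * U ^ L)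
      ≤ ((Q : ℝ) ^ (N ^ 16 + 2 * (2 * N ^ 7) * N ^ 10)) ^ L * ((L : ℝ) ^ L * U ^ L) := by
        rw [pow_mul]
        gcongr
    _ = ((Q : ℝ) ^ (N ^ 16 + 2 * (2 * N ^ 7) * N ^ 10) * ((L : ℝ) * U)) ^ L := by
        rw [mul_pow, mul_pow]
    _ < (Real.exp (x ^ 18 / 4)) ^ L := pow_lt_pow_left₀ hbase (by positivity) hLpos
    _ = Real.exp ((x ^ 18 / 4) * L) := by
        rw [← Real.exp_nat_mul, mul_comm]
    _ ≤ Real.exp ((d * (L - d * d) : ℕ) : ℝ) := Real.exp_le_exp.2 hexp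
    _ = (Real.exp 1) ^ (d * (L - d * d)) := by
        rw [← Real.exp_nat_mul, mul_one]

end FiveNum
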