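import Mathlib

/-!
# Definitions shared by the analytic part and the zero estimate
-/

namespace FiveNum

/-- The derivation `-∂/∂X₀ + X₂ ∂/∂X₂`. -/
noncomputable def Dv : Derivation ℂ (MvPolynomial (Fin 3) ℂ) (MvPolynomial (Fin 3) ℂ) :=
  MvPolynomial.mkDerivation ℂ ![-1, 0, MvPolynomial.X 2]

/-- The points at which the auxiliary polynomial vanishes. -/
noncomputable def pt (B E F : ℂ) (b₁ b₂ s₂ s₃ s₄ : ℕ) : Fin 3 → ℂ :=
  ![Complex.I * B * s₃ - b₁ * s₄, B ^ s₂ * (-1) ^ s₃ * E ^ (b₂ * s₄), F ^ s₂ * B ^ (b₁ * s₄)]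

end FiveNum
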