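import Pool.Agent.FiveNum.AnNum
import Pool.Agent.FiveNum.Defs

/-!
# The auxiliary polynomial
-/

open Matrix MvPolynomial

namespace FiveNum

/-- exponent vector of a monomial -/
noncomputable def expo {D₀ D : ℕ} (lam : Lam D₀ D) : Fin 3 →₀ ℕ :=
  Finsupp.single 0 (lam.1 : ℕ) + (Finsupp.single 1 (lam.2.1 : ℕ) + Finsupp.single 2 (lam.2.2 : ℕ))

theorem expo_zero {D₀ D : ℕ} (lam : Lam D₀ D) : expo lam 0 = lam.1 := by
  simp [expo]

theorem expo_one {D₀ D : ℕ} (lam : Lam D₀ D) : expo lam 1 = lam.2.1 := by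
  simp [expo]

theorem expo_two {D₀ D : ℕ} (lam : Lam D₀ D) : expo lam 2 = lam.2.2 := by
  simp [expo]

theorem expo_injective {D₀ D : ℕ} : Function.Injective (expo : Lam D₀ D → (Fin 3 →₀ ℕ)) := by
  intro p q h
  have h0 := congrArg (fun m => m 0) h
  have h1 := congrArg (fun m => m 1) h
  have h2 := congrArg (fun m => m 2) h
  simp only [expo_zero, expo_one, expo_two] at h0 h1 h2
  exact Prod.ext (Fin.ext h0) (Prod.ext (Fin.ext h1) (Fin.ext h2))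

theorem monomial_expo {D₀ D : ℕ} (lam : Lam D₀ D) (c : ℂ) :
    monomial (expo lam) c =
      c • ((X 0 : MvPolynomial (Fin 3) ℂ) ^ (lam.1 : ℕ) * (X 1 ^ (lam.2.1 : ℕ) * X 2 ^ (lam.2.2 : ℕ))) := by
  rw [X_pow_eq_monomial, X_pow_eq_monomial, X_pow_eq_monomial, monomial_mul, monomial_mul,
    smul_monomial]
  simp [expo]

theorem Dv_aeval (p : Polynomial ℂ) :
    Dv (Polynomial.aeval (X 0) p) = -(Polynomial.aeval (X 0 : MvPolynomial (Fin 3) ℂ)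
      (Polynomial.derivative p)) := by
  rw [Derivation.map_aeval]
  simp [Dv]

theorem Dv_mul_pow (p : Polynomial ℂ) (k l : ℕ) :
    Dv (Polynomial.aeval (X 0 : MvPolynomial (Fin 3) ℂ) p * (X 1 ^ k * X 2 ^ l)) =
      Polynomial.aeval (X 0 : MvPolynomial (Fin 3) ℂ)
        (-Polynomial.derivative p + Polynomial.C (l : ℂ) * p) * (X 1 ^ k * X 2 ^ l) := by
  have h1 : Dv (X 1 : MvPolynomial (Fin 3) ℂ) = 0 := by simp [Dv]
  have h2 : Dv (X 2 : MvPolynomial (Fin 3) ℂ) = X 2 := by simp [Dv]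
  rw [Derivation.leibniz, Dv_aeval, Derivation.leibniz, Derivation.leibniz_pow,
    Derivation.leibniz_pow, h1, h2]
  simp only [smul_eq_mul, smul_zero, mul_zero, add_zero, map_add, map_neg, map_mul,
    nsmul_eq_mul, map_natCast]
  rcases Nat.eq_zero_or_pos l with hl | hl
  · subst hl
    simp
    ring
  · obtain ⟨m, rfl⟩ : ∃ m, l = m + 1 := ⟨l - 1, by omega⟩
    simp only [Nat.add_sub_cancel]
    ring

theorem Dv_iterate_monomial (i k l t : ℕ) :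
    (Dv : MvPolynomial (Fin 3) ℂ → MvPolynomial (Fin 3) ℂ)^[t]
      ((X 0 : MvPolynomial (Fin 3) ℂ) ^ i * (X 1 ^ k * X 2 ^ l)) =
      Polynomial.aeval (X 0 : MvPolynomial (Fin 3) ℂ) (wC i l t) * (X 1 ^ k * X 2 ^ l) := by
  induction t with
  | zero => simp [wC_zero]
  | succ t ih =>
    rw [Function.iterate_succ_apply', ih, Dv_mul_pow, wC_succ]

theorem eval_Dv_iterate (i k l t : ℕ) (q : Fin 3 → ℂ) :
    eval q ((Dv : MvPolynomial (Fin 3) ℂ → MvPolynomial (Fin 3) ℂ)^[t]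
      ((X 0 : MvPolynomial (Fin 3) ℂ) ^ i * (X 1 ^ k * X 2 ^ l))) =
      (wC i l t).eval (q 0) * (q 1 ^ k * q 2 ^ l) := by
  rw [Dv_iterate_monomial]
  simp only [map_mul, map_pow, eval_X]
  congr 1
  rw [← Polynomial.coe_aeval_eq_eval]
  have := Polynomial.aeval_algHom_apply (MvPolynomial.aeval q : MvPolynomial (Fin 3) ℂ →ₐ[ℂ] ℂ)
    (X 0) (wC i l t)
  simpa [MvPolynomial.aeval_eq_eval] using this.symm

/-- Existence of the auxiliary polynomial, from the determinant method. -/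
theorem exists_aux (x : ℂ) (a z : ℕ → ℕ → ℕ → ℂ) (Q : ℕ) (hQ : 0 < Q) (C Xb : ℝ) (hC : 1 ≤ C)
    (hx : ‖x‖ ≤ Xb)
    (ha : ∀ S s₂ s₃ s₄ : ℕ, s₂ < S → s₃ < S → s₄ < S → ‖a s₂ s₃ s₄‖ ≤ C * S)
    (hz : ∀ S s₂ s₃ s₄ : ℕ, s₂ < S → s₃ < S → s₄ < S → ‖z s₂ s₃ s₄‖ ≤ C * S)
    (hQa : ∀ s₂ s₃ s₄ : ℕ, (Q : ℂ) * a s₂ s₃ s₄ ∈ GInt)
    (hQY : ∀ S s₂ s₃ s₄ : ℕ, s₂ < S → s₃ < S → s₄ < S →
      (Q : ℂ) ^ (2 * S) * Complex.exp (z s₂ s₃ s₄) ∈ GInt)
    (hQZ : ∀ S s₂ s₃ s₄ : ℕ, s₂ < S → s₃ < S → s₄ < S →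
      (Q : ℂ) ^ (2 * S) * Complex.exp (x * z s₂ s₃ s₄ - a s₂ s₃ s₄) ∈ GInt) :
    ∃ N₀ : ℕ, ∀ N ≥ N₀, ∃ P : MvPolynomial (Fin 3) ℂ, P ≠ 0 ∧
      P.degreeOf 0 < N ^ 16 ∧ P.degreeOf 1 < N ^ 10 ∧ P.degreeOf 2 < N ^ 10 ∧
      ∀ s₂ < N ^ 7, ∀ s₃ < N ^ 7, ∀ s₄ < N ^ 7, ∀ t < N ^ 17,
        eval ![a s₂ s₃ s₄, Complex.exp (z s₂ s₃ s₄), Complex.exp (x * z s₂ s₃ s₄ - a s₂ s₃ s₄)]
          ((Dv : MvPolynomial (Fin 3) ℂ → MvPolynomial (Fin 3) ℂ)^[t] P) = 0 := by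
  have hXb : 0 ≤ Xb := (norm_nonneg _).trans hx
  obtain ⟨N₀, hN₀2, hN₀⟩ := numeric Q hQ C Xb hC hXb
  refine ⟨N₀, fun N hN => ?_⟩
  have hnum := hN₀ N hN
  have hN2 : 2 ≤ N := le_trans hN₀2 hN
  have hN0 : 0 < N := by omega
  -- the matrix
  let J := (Fin (N ^ 7) × Fin (N ^ 7) × Fin (N ^ 7)) × Fin (N ^ 17)
  let M : Matrix J (Lam (N ^ 16) (N ^ 10)) ℂ := Matrix.of fun j lam =>
    ent x lam.1 lam.2.1 lam.2.2 j.2 (a j.1.1 j.1.2.1 j.1.2.2) (z j.1.1 j.1.2.1 j.1.2.2) 1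
  have hCS : ((N ^ 7 : ℕ) : ℝ) = (N : ℝ) ^ 7 := by push_cast; rfl
  have hN7 : (1 : ℝ) ≤ (N : ℝ) ^ 7 := by
    have : (1 : ℝ) ≤ (N : ℝ) := by exact_mod_cast hN0
    exact one_le_pow₀ this
  have hdet : ∀ f : Lam (N ^ 16) (N ^ 10) → J, (M.submatrix f id).det = 0 := by
    intro f
    have h := det_interMat_eq_zero (x := x) (D₀ := N ^ 16) (D := N ^ 10) (T := N ^ 17)
      (d := N ^ 18 / 2) (κ := 2 * N ^ 7) (Q := Q) (τ := fun lam => ((f lam).2 : ℕ))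
      (a := fun lam => a (f lam).1.1 (f lam).1.2.1 (f lam).1.2.2)
      (z := fun lam => z (f lam).1.1 (f lam).1.2.1 (f lam).1.2.2)
      (H := C * (N : ℝ) ^ 7) (ρ := Real.exp 1) (Xb := Xb)
      (fun lam => (f lam).2.2.le) (by nlinarith) (by
        have := Real.add_one_le_exp (1 : ℝ)
        linarith)
      (fun lam => by
        rw [← hCS]
        exact ha _ _ _ _ (f lam).1.1.2 (f lam).1.2.1.2 (f lam).1.2.2.2)
      (fun lam => by
        rw [← hCS]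
        exact hz _ _ _ _ (f lam).1.1.2 (f lam).1.2.1.2 (f lam).1.2.2.2)
      hx (fun lam => hQa _ _ _)
      (fun lam => hQY _ _ _ _ (f lam).1.1.2 (f lam).1.2.1.2 (f lam).1.2.2.2)
      (fun lam => hQZ _ _ _ _ (f lam).1.1.2 (f lam).1.2.1.2 (f lam).1.2.2.2) hQ hnum
    exact h
  obtain ⟨v, hv0, hv⟩ := exists_kernel M hdet
  let P : MvPolynomial (Fin 3) ℂ := ∑ lam : Lam (N ^ 16) (N ^ 10), monomial (expo lam) (v lam)
  have hcoeff : ∀ lam, P.coeff (expo lam) = v lam := by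
    intro lam
    simp only [P, coeff_sum, coeff_monomial]
    rw [Finset.sum_eq_single lam]
    · simp
    · intro b _ hb
      rw [if_neg]
      intro h
      exact hb (expo_injective h)
    · intro h
      exact absurd (Finset.mem_univ _) h
  have hsupp : ∀ m ∈ P.support, ∃ lam : Lam (N ^ 16) (N ^ 10), expo lam = m := by
    intro m hm
    by_contra hne
    push Not at hne
    rw [mem_support_iff] at hm
    apply hm
    simp only [P, coeff_sum, coeff_monomial]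
    exact Finset.sum_eq_zero fun lam _ => by rw [if_neg (hne lam)]
  refine ⟨P, ?_, ?_, ?_, ?_, ?_⟩
  · intro h0
    apply hv0
    funext lam
    rw [← hcoeff lam, h0]
    simp
  · rw [degreeOf_lt_iff (by positivity)]
    intro m hm
    obtain ⟨lam, rfl⟩ := hsupp m hm
    rw [expo_zero]
    exact lam.1.2
  · rw [degreeOf_lt_iff (by positivity)]
    intro m hm
    obtain ⟨lam, rfl⟩ := hsupp m hm
    rw [expo_one]
    exact lam.2.1.2
  · rw [degreeOf_lt_iff (by positivity)]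
    intro m hm
    obtain ⟨lam, rfl⟩ := hsupp m hm
    rw [expo_two]
    exact lam.2.2.2
  · intro s₂ hs₂ s₃ hs₃ s₄ hs₄ t ht
    have h := hv ((⟨s₂, hs₂⟩, ⟨s₃, hs₃⟩, ⟨s₄, hs₄⟩), ⟨t, ht⟩)
    have hlin : (Dv : MvPolynomial (Fin 3) ℂ → MvPolynomial (Fin 3) ℂ)^[t] P =
        ∑ lam : Lam (N ^ 16) (N ^ 10), v lam •
          (Dv : MvPolynomial (Fin 3) ℂ → MvPolynomial (Fin 3) ℂ)^[t]
            ((X 0 : MvPolynomial (Fin 3) ℂ) ^ (lam.1 : ℕ) *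
              (X 1 ^ (lam.2.1 : ℕ) * X 2 ^ (lam.2.2 : ℕ))) := by
      have e : ∀ q, (Dv : MvPolynomial (Fin 3) ℂ → MvPolynomial (Fin 3) ℂ)^[t] q =
          ((Dv : MvPolynomial (Fin 3) ℂ →ₗ[ℂ] MvPolynomial (Fin 3) ℂ) ^ t) q := by
        intro q
        rw [Module.End.pow_apply]
        rfl
      simp only [e, P, map_sum, monomial_expo, map_smul]
    rw [hlin, map_sum]
    rw [dotProduct] at h
    rw [← h]
    refine Finset.sum_congr rfl fun lam _ => ?_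
    rw [smul_eval, eval_Dv_iterate]
    simp only [M, Matrix.of_apply, ent_one]
    simp only [Matrix.cons_val_zero, Matrix.cons_val_one, Matrix.cons_val]
    ring

end FiveNum
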