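import Mathlib

/-!
# Schwarz lemma with a high order zero

If `f` is entire, `f(t) = O(t^n)` at `0`, and `‖f‖ ≤ M` on the circle `‖t‖ = R` with `R ≥ 1`, then
`‖f 1‖ ≤ M / R ^ n`.
-/

open Filter Topology Asymptotics

namespace FiveNum

/-- Factorisation of an entire function that is `O(t^n)` at the origin. -/
theorem exists_factor (n : ℕ) : ∀ f : ℂ → ℂ, Differentiable ℂ f →
    (f =O[𝓝[≠] 0] fun t : ℂ => t ^ n) → ∃ g : ℂ → ℂ, Differentiable ℂ g ∧ ∀ t, f t = t ^ n * g t := by
  induction n with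
  | zero =>
    intro f hf _
    exact ⟨f, hf, fun t => by simp⟩
  | succ n ih =>
    intro f hf hO
    have h0 : f 0 = 0 := by
      have h1 : Tendsto f (𝓝[≠] 0) (𝓝 0) := by
        refine hO.trans_tendsto ?_
        have : Tendsto (fun t : ℂ => t ^ (n + 1)) (𝓝 0) (𝓝 ((0 : ℂ) ^ (n + 1))) :=
          (continuous_pow (n + 1)).tendsto 0
        rw [zero_pow (Nat.succ_ne_zero n)] at this
        exact this.mono_left nhdsWithin_le_nhds
      have h2 : Tendsto f (𝓝[≠] 0) (𝓝 (f 0)) :=
        (hf.continuous.tendsto 0).mono_left nhdsWithin_le_nhds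
      exact tendsto_nhds_unique h2 h1
    have hd : Differentiable ℂ (dslope f 0) := by
      intro t
      have h := (Complex.differentiableOn_dslope (s := Set.univ) (c := (0 : ℂ)) (f := f)
        Filter.univ_mem).2 hf.differentiableOn
      exact (h t (Set.mem_univ t)).differentiableAt Filter.univ_mem
    have hmul : ∀ t, f t = t * dslope f 0 t := by
      intro t
      have := sub_smul_dslope f 0 t
      rw [h0] at this
      simpa using this.symm
    obtain ⟨g, hg, hfg⟩ := ih (dslope f 0) hd (by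
      rw [isBigO_iff] at hO ⊢
      obtain ⟨c, hc⟩ := hO
      refine ⟨c, ?_⟩
      filter_upwards [hc, self_mem_nhdsWithin] with t ht ht0
      have ht0' : 0 < ‖t‖ := norm_pos_iff.2 ht0
      rw [hmul t, norm_mul, pow_succ, norm_mul] at ht
      have : ‖t‖ * ‖dslope f 0 t‖ ≤ ‖t‖ * (c * ‖t ^ n‖) := by linarith
      exact le_of_mul_le_mul_left this ht0')
    refine ⟨g, hg, fun t => ?_⟩
    rw [hmul t, hfg t]
    ring

/-- Schwarz lemma at a point of the unit circle. -/
theorem schwarz_one {f : ℂ → ℂ} (hf : Differentiable ℂ f) {n : ℕ}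
    (hO : f =O[𝓝[≠] 0] fun t : ℂ => t ^ n) {R M : ℝ} (hR : 1 ≤ R)
    (hM : ∀ t : ℂ, ‖t‖ = R → ‖f t‖ ≤ M) : ‖f 1‖ ≤ M / R ^ n := by
  obtain ⟨g, hg, hfg⟩ := exists_factor n f hf hO
  have hR0 : 0 < R := by linarith
  have key : ‖g 1‖ ≤ M / R ^ n := by
    refine Complex.norm_le_of_forall_mem_frontier_norm_le (U := Metric.ball (0 : ℂ) R)
      Metric.isBounded_ball hg.diffContOnCl ?_ ?_
    · intro z hz
      rw [frontier_ball (0 : ℂ) hR0.ne'] at hz
      have hz' : ‖z‖ = R := by simpa using hz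
      have h1 := hM z hz'
      rw [hfg z, norm_mul, norm_pow, hz'] at h1
      rw [le_div_iff₀ (pow_pos hR0 n)]
      linarith
    · rw [closure_ball (0 : ℂ) hR0.ne']
      simpa using hR
  rw [hfg 1]
  simpa using key

end FiveNum
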