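import Pool.Agent.FiveNum.AnSchwarz
import Pool.Agent.FiveNum.AnDet
import Pool.Agent.FiveNum.AnFun

/-!
# The interpolation determinant vanishes to high order at the origin
-/

open Filter Topology Asymptotics Matrix

namespace FiveNum

/-- Index set of the monomials. -/
abbrev Lam (D₀ D : ℕ) := Fin D₀ × Fin D × Fin D

/-- The moment matrix. -/
noncomputable def momentMat (x : ℂ) (D₀ D d : ℕ) : Matrix (Fin d × Fin d) (Lam D₀ D) ℂ :=
  Matrix.of fun p lam => iteratedDeriv p.1 (Ffun lam.1 lam.2.2) 0 *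
    (((lam.2.1 : ℕ) : ℂ) + ((lam.2.2 : ℕ) : ℂ) * x) ^ (p.2 : ℕ)

/-- The vectors killed by the moment matrix. -/
noncomputable def momentKer (x : ℂ) (D₀ D d : ℕ) : Submodule ℂ (Lam D₀ D → ℂ) :=
  LinearMap.ker (momentMat x D₀ D d).mulVecLin

theorem finrank_momentKer (x : ℂ) (D₀ D d : ℕ) :
    D₀ * (D * D) ≤ Module.finrank ℂ (momentKer x D₀ D d) + d * d := by
  have h := LinearMap.finrank_range_add_finrank_ker (momentMat x D₀ D d).mulVecLin
  have h1 : Module.finrank ℂ (LinearMap.range (momentMat x D₀ D d).mulVecLin) ≤ d * d := by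
    refine (Submodule.finrank_le _).trans ?_
    simp
  have h2 : Module.finrank ℂ (Lam D₀ D → ℂ) = D₀ * (D * D) := by simp
  unfold momentKer
  omega

theorem ent_sum_isBigO (x : ℂ) (D₀ D d τ : ℕ) (a z : ℂ) (v : Lam D₀ D → ℂ)
    (hv : v ∈ momentKer x D₀ D d) :
    (fun t => ∑ lam : Lam D₀ D, ent x lam.1 lam.2.1 lam.2.2 τ a z t * v lam)
      =O[𝓝 0] fun t => t ^ d := by
  have hv' : ∀ m < d, ∀ β < d, ∑ lam : Lam D₀ D, (iteratedDeriv m (Ffun lam.1 lam.2.2) 0 *
      (((lam.2.1 : ℕ) : ℂ) + ((lam.2.2 : ℕ) : ℂ) * x) ^ β) * v lam = 0 := by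
    intro m hm β hβ
    have h := LinearMap.mem_ker.1 hv
    have h2 := congrFun h (⟨m, hm⟩, ⟨β, hβ⟩)
    simpa [momentMat, Matrix.mulVec, dotProduct] using h2
  set A : Lam D₀ D → ℂ → ℂ := fun lam t =>
    t ^ τ * ((wC lam.1 lam.2.2 τ).eval (t * a) * Complex.exp (-((lam.2.2 : ℕ) : ℂ) * (t * a)))
    with hA
  set B : Lam D₀ D → ℂ → ℂ := fun lam t =>
    Complex.exp ((((lam.2.1 : ℕ) : ℂ) + ((lam.2.2 : ℕ) : ℂ) * x) * (t * z)) with hB
  set P : Lam D₀ D → ℂ → ℂ := fun lam t => ∑ n ∈ Finset.range d, if n + τ < d then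
        (-1) ^ τ * (a ^ n / (n.factorial : ℂ) * t ^ (n + τ)) *
          iteratedDeriv (n + τ) (Ffun lam.1 lam.2.2) 0
        else 0 with hP
  set R : Lam D₀ D → ℂ → ℂ := fun lam t => ∑ β ∈ Finset.range d,
    (t * z) ^ β / (β.factorial : ℂ) * (((lam.2.1 : ℕ) : ℂ) + ((lam.2.2 : ℕ) : ℂ) * x) ^ β with hR
  have hzero : ∀ t, ∑ lam : Lam D₀ D, P lam t * R lam t * v lam = 0 := by
    intro t
    have hexp : ∀ lam : Lam D₀ D, P lam t * R lam t * v lam =
        ∑ n ∈ Finset.range d, ∑ β ∈ Finset.range d, if n + τ < d then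
          ((-1) ^ τ * (a ^ n / (n.factorial : ℂ) * t ^ (n + τ)) *
            ((t * z) ^ β / (β.factorial : ℂ))) *
            ((iteratedDeriv (n + τ) (Ffun lam.1 lam.2.2) 0 *
              (((lam.2.1 : ℕ) : ℂ) + ((lam.2.2 : ℕ) : ℂ) * x) ^ β) * v lam) else 0 := by
      intro lam
      simp only [hP, hR]
      rw [Finset.sum_mul_sum, Finset.sum_mul]
      refine Finset.sum_congr rfl fun n _ => ?_
      rw [Finset.sum_mul]
      refine Finset.sum_congr rfl fun β _ => ?_
      by_cases hn : n + τ < d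
      · simp only [hn, if_true]
        ring
      · simp only [hn, if_false]
        ring
    simp_rw [hexp]
    rw [Finset.sum_comm]
    refine Finset.sum_eq_zero fun n _ => ?_
    rw [Finset.sum_comm]
    refine Finset.sum_eq_zero fun β hβ => ?_
    by_cases hn : n + τ < d
    · simp only [hn, if_true]
      rw [← Finset.mul_sum, hv' _ hn β (Finset.mem_range.1 hβ), mul_zero]
    · simp [hn]
  have hterm : ∀ lam : Lam D₀ D, (fun t => A lam t * B lam t * v lam - P lam t * R lam t * v lam)
      =O[𝓝 0] fun t => t ^ d := by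
    intro lam
    have h1 : (fun t => A lam t - P lam t) =O[𝓝 0] fun t => t ^ d :=
      ent_first lam.1 lam.2.2 τ a d
    have h2 : (fun t => B lam t - R lam t) =O[𝓝 0] fun t => t ^ d :=
      ent_second _ z d
    have hBc : Continuous (B lam) := by
      simp only [hB]
      fun_prop
    have hPc : Continuous (P lam) := by
      simp only [hP]
      refine continuous_finsetSum _ fun n _ => ?_
      by_cases hn : n + τ < d
      · simp only [hn, if_true]
        fun_prop
      · simp only [hn, if_false]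
        fun_prop
    have h3 : (fun t => B lam t * v lam) =O[𝓝 0] fun _ => (1 : ℂ) := by
      have : Continuous (fun t => B lam t * v lam) := by fun_prop
      exact this.continuousAt.isBigO_one ℂ
    have h4 : (fun t => P lam t * v lam) =O[𝓝 0] fun _ => (1 : ℂ) := by
      have : Continuous (fun t => P lam t * v lam) := by fun_prop
      exact this.continuousAt.isBigO_one ℂ
    have h5 := (h1.mul h3).add (h2.mul h4)
    simp only [mul_one] at h5
    refine h5.congr_left fun t => ?_
    ring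
  have hsum := IsBigO.fun_sum (s := (Finset.univ : Finset (Lam D₀ D)))
    fun lam _ => hterm lam
  refine hsum.congr_left fun t => ?_
  rw [Finset.sum_sub_distrib, hzero t, sub_zero]
  refine Finset.sum_congr rfl fun lam _ => ?_
  simp only [ent, hA, hB]

/-- The matrix of the interpolation determinant. -/
noncomputable def interMat (x : ℂ) (D₀ D : ℕ) (τ : Lam D₀ D → ℕ) (a z : Lam D₀ D → ℂ) (t : ℂ) :
    Matrix (Lam D₀ D) (Lam D₀ D) ℂ :=
  Matrix.of fun j lam => ent x lam.1 lam.2.1 lam.2.2 (τ j) (a j) (z j) t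

theorem differentiable_det_interMat (x : ℂ) (D₀ D : ℕ) (τ : Lam D₀ D → ℕ) (a z : Lam D₀ D → ℂ) :
    Differentiable ℂ fun t => (interMat x D₀ D τ a z t).det := by
  simp_rw [Matrix.det_apply']
  have h : ∀ j lam, Differentiable ℂ fun t => interMat x D₀ D τ a z t j lam := by
    intro j lam
    exact differentiable_ent _ _ _ _ _ _ _
  refine Differentiable.fun_sum fun σ _ => ?_
  refine Differentiable.const_mul ?_ _
  exact Differentiable.fun_finsetProd fun μ _ => h _ _

theorem det_interMat_isBigO (x : ℂ) (D₀ D d : ℕ) (τ : Lam D₀ D → ℕ) (a z : Lam D₀ D → ℂ) :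
    (fun t => (interMat x D₀ D τ a z t).det) =O[𝓝[≠] 0]
      fun t => t ^ (d * (D₀ * (D * D) - d * d)) := by
  have h := det_isBigO (interMat x D₀ D τ a z) (momentKer x D₀ D d) d (𝓝 0)
    (by
      intro v hv j
      have := ent_sum_isBigO x D₀ D d (τ j) (a j) (z j) v hv
      exact this)
    (by
      intro v j
      have hc : Continuous fun t => (interMat x D₀ D τ a z t *ᵥ v) j := by
        have : (fun t => (interMat x D₀ D τ a z t *ᵥ v) j) = fun t =>
          ∑ lam : Lam D₀ D, ent x lam.1 lam.2.1 lam.2.2 (τ j) (a j) (z j) t * v lam := rfl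
        rw [this]
        refine continuous_finsetSum _ fun lam _ => ?_
        exact (differentiable_ent _ _ _ _ _ _ _).continuous.mul continuous_const
      exact hc.continuousAt.isBigO_one ℂ)
  have h' := h.mono (nhdsWithin_le_nhds (s := {0}ᶜ))
  refine h'.trans ?_
  have hle : d * (D₀ * (D * D) - d * d) ≤ d * Module.finrank ℂ (momentKer x D₀ D d) := by
    refine Nat.mul_le_mul_left _ ?_
    have := finrank_momentKer x D₀ D d
    omega
  obtain ⟨e, he⟩ := Nat.exists_eq_add_of_le hle
  rw [he]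
  have hc : Continuous fun t : ℂ => t ^ e := continuous_pow e
  have h1 := ((hc.continuousAt (x := 0)).isBigO_one ℂ).mono (nhdsWithin_le_nhds (s := {0}ᶜ))
  have h2 := (isBigO_refl (fun t : ℂ => t ^ (d * (D₀ * (D * D) - d * d))) (𝓝[≠] 0)).mul h1
  simp only [mul_one] at h2
  refine h2.congr_left fun t => ?_
  rw [pow_add]

end FiveNum
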