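import Mathlib

/-!
# The numerical inequality for the extrapolation step
-/

namespace FiveNum.Bk

lemma num_step {H K X q e : ℝ} {h S T' : ℕ} (hH1 : 1 ≤ H) (hq0 : 0 ≤ q) (hq : q ≤ H)
    (hK0 : 0 ≤ K) (hK : K ≤ H ^ 9) (hh : 1 ≤ h) (hhH : (h : ℝ) ≤ H) (h4096 : 4096 ≤ H)
    (h6 : 6 * (h : ℝ) ^ 16 ≤ H ^ 16)
    (hX : X ≤ (4096 * h ^ 9 * (h ^ 6 * h ^ 6) : ℕ) * H ^ (4674 * h ^ 10)) (hX0 : 0 ≤ X)
    (heH : ∀ y : ℕ, Real.exp (e * y) ≤ H ^ y) (hS : h ≤ S) (hS2 : S ≤ h ^ 13)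
    (hT1 : h ^ 10 ≤ T') (hT2 : T' ≤ 32 * h ^ 10) {c : ℕ} (hc : c = 70548) (hfin : H ^ c < 2 ^ h) :
    q ^ (h ^ 6 * (S * h ^ 3)) * ((4096 * h ^ 9 * (h ^ 6 * h ^ 6) : ℕ) *
      (X * ((5 * ((S * h ^ 3 : ℕ) : ℝ) + 1) ^ (4096 * h ^ 9) * K ^ T' *
        Real.exp (e * (h ^ 6 : ℕ) * (5 * ((S * h ^ 3 : ℕ) : ℝ)))))) < 2 ^ (S * T') := by
  set U : ℕ := h ^ 9 * S with hU
  have hH0 : 0 < H := by linarith
  have hU1 : 1 ≤ U := by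
    have h1 : 1 ≤ h ^ 9 := Nat.one_le_pow _ _ hh
    have h2 : 1 ≤ S := hh.trans hS
    exact Nat.mul_le_mul h1 h2
  have hU9 : h ^ 9 ≤ U := Nat.le_mul_of_pos_right _ (lt_of_lt_of_le Nat.zero_lt_one (hh.trans hS))
  have hU10 : h ^ 10 ≤ U := by
    calc h ^ 10 = h ^ 9 * h := by ring
      _ ≤ h ^ 9 * S := Nat.mul_le_mul_left _ hS
  have hmono : ∀ a b : ℕ, a ≤ b → H ^ a ≤ H ^ b := fun a b hab => pow_le_pow_right₀ hH1 hab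
  have e1 : q ^ (h ^ 6 * (S * h ^ 3)) ≤ H ^ U := by
    have : h ^ 6 * (S * h ^ 3) = U := by rw [hU]; ring
    rw [this]
    exact pow_le_pow_left₀ hq0 hq _
  have e2 : ((4096 * h ^ 9 * (h ^ 6 * h ^ 6) : ℕ) : ℝ) ≤ H ^ (22 * U) := by
    have h1 : ((4096 * h ^ 9 * (h ^ 6 * h ^ 6) : ℕ) : ℝ) = 4096 * (h : ℝ) ^ 21 := by
      push_cast; ring
    rw [h1]
    calc 4096 * (h : ℝ) ^ 21 ≤ H * H ^ 21 :=
          mul_le_mul h4096 (pow_le_pow_left₀ (Nat.cast_nonneg _) hhH _) (by positivity) hH0.le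
      _ = H ^ 22 := by ring
      _ ≤ H ^ (22 * U) := hmono _ _ (by omega)
  have e3 : X ≤ H ^ (22 * U) * H ^ (4674 * U) :=
    hX.trans (mul_le_mul e2 (hmono _ _ (Nat.mul_le_mul_left _ hU10)) (by positivity)
      (by positivity))
  have e4 : (5 * ((S * h ^ 3 : ℕ) : ℝ) + 1) ^ (4096 * h ^ 9) ≤ H ^ (65536 * U) := by
    have h1 : S * h ^ 3 ≤ h ^ 16 := by
      calc S * h ^ 3 ≤ h ^ 13 * h ^ 3 := Nat.mul_le_mul_right _ hS2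
        _ = h ^ 16 := by ring
    have h2 : ((S * h ^ 3 : ℕ) : ℝ) ≤ (h : ℝ) ^ 16 := by exact_mod_cast h1
    have h3 : (1 : ℝ) ≤ (h : ℝ) ^ 16 := one_le_pow₀ (by exact_mod_cast hh)
    have h4 : 5 * ((S * h ^ 3 : ℕ) : ℝ) + 1 ≤ H ^ 16 := by linarith
    calc (5 * ((S * h ^ 3 : ℕ) : ℝ) + 1) ^ (4096 * h ^ 9) ≤ (H ^ 16) ^ (4096 * h ^ 9) :=
          pow_le_pow_left₀ (by positivity) h4 _
      _ = H ^ (65536 * h ^ 9) := by rw [← pow_mul]; congr 1; ring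
      _ ≤ H ^ (65536 * U) := hmono _ _ (Nat.mul_le_mul_left _ hU9)
  have e5 : K ^ T' ≤ H ^ (288 * U) := by
    calc K ^ T' ≤ (H ^ 9) ^ T' := pow_le_pow_left₀ hK0 hK _
      _ = H ^ (9 * T') := by rw [← pow_mul]
      _ ≤ H ^ (288 * U) := hmono _ _ (by omega)
  have e6 : Real.exp (e * (h ^ 6 : ℕ) * (5 * ((S * h ^ 3 : ℕ) : ℝ))) ≤ H ^ (5 * U) := by
    have h1 := heH (5 * U)
    have h2 : e * (h ^ 6 : ℕ) * (5 * ((S * h ^ 3 : ℕ) : ℝ)) = e * ((5 * U : ℕ) : ℝ) := by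
      rw [hU]; push_cast; ring
    rw [h2]
    exact h1
  have hLHS : q ^ (h ^ 6 * (S * h ^ 3)) * ((4096 * h ^ 9 * (h ^ 6 * h ^ 6) : ℕ) *
      (X * ((5 * ((S * h ^ 3 : ℕ) : ℝ) + 1) ^ (4096 * h ^ 9) * K ^ T' *
        Real.exp (e * (h ^ 6 : ℕ) * (5 * ((S * h ^ 3 : ℕ) : ℝ)))))) ≤
      H ^ U * (H ^ (22 * U) * (H ^ (22 * U) * H ^ (4674 * U) *
        (H ^ (65536 * U) * H ^ (288 * U) * H ^ (5 * U)))) := by
    apply mul_le_mul e1 _ (by positivity) (by positivity)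
    apply mul_le_mul e2 _ (by positivity) (by positivity)
    apply mul_le_mul e3 _ (by positivity) (by positivity)
    apply mul_le_mul _ e6 (by positivity) (by positivity)
    exact mul_le_mul e4 e5 (by positivity) (by positivity)
  refine lt_of_le_of_lt hLHS ?_
  have h7 : H ^ U * (H ^ (22 * U) * (H ^ (22 * U) * H ^ (4674 * U) *
        (H ^ (65536 * U) * H ^ (288 * U) * H ^ (5 * U)))) = (H ^ c) ^ U := by
    rw [← pow_add, ← pow_add, ← pow_add, ← pow_add, ← pow_add, ← pow_add, ← pow_mul, hc]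
    congr 1
    ring
  rw [h7]
  calc (H ^ c) ^ U < (2 ^ h) ^ U := pow_lt_pow_left₀ hfin (by positivity) (by omega)
    _ = 2 ^ (h * U) := by rw [← pow_mul]
    _ ≤ 2 ^ (S * T') := by
        apply pow_le_pow_right₀ (by norm_num)
        calc h * U = S * h ^ 10 := by rw [hU]; ring
          _ ≤ S * T' := Nat.mul_le_mul_left _ hT1

end FiveNum.Bk
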