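import Pool.Agent.FiveNum.BkMain
import Pool.Agent.FiveNum.AnMain
import Pool.Agent.FiveNum.BkNum

/-!
# `π + E` is irrational if `exp E` is rational: parameters and conclusion
-/

open Filter Topology

namespace FiveNum.Bk

lemma exists_param (A : ℝ) (hA : 1 ≤ A) (c : ℕ) :
    ∃ h : ℕ, 8192 ≤ h ∧ (A * h) ^ c < 2 ^ h := by
  have h1 := tendsto_pow_const_div_const_pow_of_one_lt c (r := (2 : ℝ)) (by norm_num)
  have hA0 : 0 < A := by linarith
  have h2 : ∀ᶠ n : ℕ in atTop, (n : ℝ) ^ c / 2 ^ n < 1 / A ^ c :=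
    h1.eventually_lt_const (by positivity)
  obtain ⟨h, hh, hge⟩ := (h2.and (eventually_ge_atTop 8192)).exists
  refine ⟨h, hge, ?_⟩
  rw [div_lt_div_iff₀ (by positivity) (by positivity), one_mul] at hh
  rw [mul_pow, mul_comm]
  exact hh

/-- `π + E` and `exp E` are not both rational (`E ≠ 0`). -/
theorem pi_add_aux {E : ℝ} (hE0 : E ≠ 0) (r D : ℚ) (hr : Real.pi + E = r)
    (hD : Real.exp E = D) : False := by
  set Q : ℕ := r.den * D.den with hQdef
  have hQ : Q ≠ 0 := Nat.mul_ne_zero r.den_ne_zero D.den_ne_zero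
  have hQ1 : (1 : ℝ) ≤ Q := by exact_mod_cast Nat.pos_of_ne_zero hQ
  set ρ : ℤ := r.num * D.den with hρ
  have hE : (Q : ℝ) * (Real.pi + E) = ρ := by
    rw [hr, hQdef, hρ]
    have h1 : (r : ℝ) * (r.den : ℝ) = (r.num : ℝ) := by
      exact_mod_cast congrArg (fun q : ℚ => (q : ℝ)) (Rat.mul_den_eq_num r)
    push_cast
    rw [← h1]
    ring
  have hDc : Complex.exp (E : ℂ) = (D : ℂ) := by
    rw [← Complex.ofReal_exp, hD]
    norm_cast
  have hQD : (Q : ℂ) * (D : ℂ) ∈ GInt := ratCast_mem_GInt (Dvd.intro_left _ rfl)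
  -- constants
  set A : ℝ := 4096 * Q + |(ρ : ℝ)| + 4096 + Real.exp (|E| + 4) with hA
  have hexp0 : 0 < Real.exp (|E| + 4) := Real.exp_pos _
  have hA1 : 4096 ≤ A := by have := abs_nonneg (ρ : ℝ); rw [hA]; linarith [hexp0]
  have hA0 : 0 < A := by linarith
  obtain ⟨cc, hcc⟩ : ∃ c : ℕ, c = 70548 := ⟨_, rfl⟩
  obtain ⟨h, hh8, hhA⟩ := exists_param A (by linarith) cc
  have hh1 : (1 : ℝ) ≤ h := by exact_mod_cast (le_trans (by norm_num) hh8)
  set H : ℝ := A * h with hH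
  have hHA : A ≤ H := by rw [hH]; nlinarith
  have hHh : (h : ℝ) ≤ H := by rw [hH]; nlinarith
  have hH1 : 1 ≤ H := by linarith
  have hH0 : 0 < H := by linarith
  have hH4096 : 4096 ≤ H := by linarith
  have hQH : (Q : ℝ) ≤ H := by
    have := abs_nonneg (ρ : ℝ)
    rw [hA] at hHA
    linarith
  have heH : Real.exp (|E| + 4) ≤ H := by
    have := abs_nonneg (ρ : ℝ)
    rw [hA] at hHA
    linarith
  set K : ℝ := A * (h : ℝ) ^ 9 with hKdef
  have hh9 : (1 : ℝ) ≤ (h : ℝ) ^ 9 := one_le_pow₀ hh1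
  have hK1 : 1 ≤ K := by
    rw [hKdef]
    nlinarith
  have hKH : K ≤ H ^ 9 := by
    rw [hKdef, hH, mul_pow]
    apply mul_le_mul_of_nonneg_right _ (by positivity)
    exact le_self_pow₀ (by linarith) (by norm_num)
  have hpow69 : (h : ℝ) ^ 6 ≤ (h : ℝ) ^ 9 := pow_le_pow_right₀ hh1 (by norm_num)
  have hK : (Q : ℝ) * (4096 * h ^ 9 : ℕ) + |(ρ : ℝ)| * (h ^ 6 : ℕ) ≤ K := by
    push_cast
    rw [hKdef, hA]
    have h1 : |(ρ : ℝ)| * (h : ℝ) ^ 6 ≤ |(ρ : ℝ)| * (h : ℝ) ^ 9 :=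
      mul_le_mul_of_nonneg_left hpow69 (abs_nonneg _)
    have h2 : 0 ≤ (4096 + Real.exp (|E| + 4)) * (h : ℝ) ^ 9 := by positivity
    have h3 : (4096 * (Q : ℝ) + |(ρ : ℝ)| + 4096 + Real.exp (|E| + 4)) * (h : ℝ) ^ 9 =
        (Q : ℝ) * (4096 * (h : ℝ) ^ 9) + |(ρ : ℝ)| * (h : ℝ) ^ 9 +
          (4096 + Real.exp (|E| + 4)) * (h : ℝ) ^ 9 := by ring
    rw [h3]
    linarith
  have hK2 : 2 * ((h ^ 6 : ℕ) : ℝ) ≤ K := by
    push_cast
    rw [hKdef]
    have h1 : (2 : ℝ) * (h : ℝ) ^ 6 ≤ 2 * (h : ℝ) ^ 9 := by linarith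
    have h2 : (2 : ℝ) * (h : ℝ) ^ 9 ≤ A * (h : ℝ) ^ 9 :=
      mul_le_mul_of_nonneg_right (by linarith) (by positivity)
    exact h1.trans h2
  -- exponential factors
  have hexpH : ∀ y : ℕ, Real.exp ((|E| + 4) * y) ≤ H ^ y := by
    intro y
    rw [mul_comm, Real.exp_nat_mul]
    exact pow_le_pow_left₀ hexp0.le heH y
  -- Siegel
  obtain ⟨p, hp0, hpz, hpX⟩ := siegel_gauss
    (α := Fin h × Fin (32 * h ^ 10) × Fin (32 * h ^ 10))
    (β := Fin (4096 * h ^ 9) × Fin (h ^ 6) × Fin (h ^ 6))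
    (fun i x => (Q : ℂ) ^ (h ^ 6 * (i.1 : ℕ)) * G Q ρ E x.1 x.2.1 x.2.2 i.2.1 i.2.2 (i.1 : ℕ))
    (fun i x => G_mem hDc hQD x.2.1.2.le)
    (H := H ^ (4674 * h ^ 10)) (one_le_pow₀ hH1) (by
      rintro ⟨s, m, n⟩ x
      simp only
      rw [norm_mul, norm_pow, Complex.norm_natCast]
      have hs : ((s : ℕ) : ℝ) ≤ h := by exact_mod_cast s.2.le
      have hG := norm_G_le (Q := Q) (ρ := ρ) (E := E) (m := (m : ℕ)) (n := (n : ℕ))
        (z := ((s : ℕ) : ℂ)) (R := h) (K := K) x.1.2.le x.2.1.2.le x.2.2.2.le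
        (by rw [Complex.norm_natCast]; exact hs) hK hK2
      have e1 : (Q : ℝ) ^ (h ^ 6 * (s : ℕ)) ≤ H ^ (h ^ 10) := by
        calc (Q : ℝ) ^ (h ^ 6 * (s : ℕ)) ≤ H ^ (h ^ 6 * (s : ℕ)) :=
              pow_le_pow_left₀ (by linarith) hQH _
          _ ≤ H ^ (h ^ 10) := by
              apply pow_le_pow_right₀ hH1
              calc h ^ 6 * (s : ℕ) ≤ h ^ 6 * h ^ 4 := by
                    apply Nat.mul_le_mul_left
                    exact s.2.le.trans (Nat.le_self_pow (by norm_num) h)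
                _ = h ^ 10 := by ring
      have e2 : ((h : ℝ) + 1) ^ (4096 * h ^ 9) ≤ H ^ (4096 * h ^ 10) := by
        calc ((h : ℝ) + 1) ^ (4096 * h ^ 9) ≤ H ^ (4096 * h ^ 9) := by
              apply pow_le_pow_left₀ (by positivity)
              rw [hH]; nlinarith
          _ ≤ H ^ (4096 * h ^ 10) := by
              apply pow_le_pow_right₀ hH1
              apply Nat.mul_le_mul_left
              exact Nat.pow_le_pow_right (by omega) (by norm_num)
      have e3 : K ^ ((m : ℕ) + (n : ℕ)) ≤ H ^ (576 * h ^ 10) := by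
        calc K ^ ((m : ℕ) + (n : ℕ)) ≤ (H ^ 9) ^ ((m : ℕ) + (n : ℕ)) :=
              pow_le_pow_left₀ (by linarith) hKH _
          _ = H ^ (9 * ((m : ℕ) + (n : ℕ))) := by rw [pow_mul]
          _ ≤ H ^ (576 * h ^ 10) := by
              apply pow_le_pow_right₀ hH1
              have h1 := m.2
              have h2 := n.2
              omega
      have e4 : Real.exp ((|E| + 4) * (h ^ 6 : ℕ) * h) ≤ H ^ (h ^ 10) := by
        have h1 := hexpH (h ^ 6 * h)
        have h2 : (|E| + 4) * ((h ^ 6 : ℕ) : ℝ) * h = (|E| + 4) * ((h ^ 6 * h : ℕ) : ℝ) := by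
          push_cast; ring
        rw [h2]
        refine h1.trans (pow_le_pow_right₀ hH1 ?_)
        calc h ^ 6 * h = h ^ 7 := by ring
          _ ≤ h ^ 10 := Nat.pow_le_pow_right (by omega) (by norm_num)
      calc (Q : ℝ) ^ (h ^ 6 * (s : ℕ)) * ‖G Q ρ E x.1 x.2.1 x.2.2 m n ((s : ℕ) : ℂ)‖
          ≤ H ^ (h ^ 10) * (H ^ (4096 * h ^ 10) * H ^ (576 * h ^ 10) * H ^ (h ^ 10)) := by
            apply mul_le_mul e1 (hG.trans _) (norm_nonneg _) (by positivity)
            apply mul_le_mul (mul_le_mul e2 e3 (by positivity) (by positivity)) e4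
              (by positivity) (by positivity)
        _ = H ^ (4674 * h ^ 10) := by
            rw [← pow_add, ← pow_add, ← pow_add]
            congr 1
            ring)
    (by
      rw [Fintype.card_prod, Fintype.card_prod, Fintype.card_fin, Fintype.card_fin]
      positivity)
    (by
      simp only [Fintype.card_prod, Fintype.card_fin]
      ring)
  have hcardβ : (Fintype.card (Fin (4096 * h ^ 9) × Fin (h ^ 6) × Fin (h ^ 6))) =
      4096 * h ^ 9 * (h ^ 6 * h ^ 6) := by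
    simp only [Fintype.card_prod, Fintype.card_fin]
  rw [hcardβ] at hpX
  set X : ℝ := (4096 * h ^ 9 * (h ^ 6 * h ^ 6) : ℕ) * H ^ (4674 * h ^ 10) with hX
  have hX0 : 0 ≤ X := by positivity
  have hh1' : 1 ≤ h := le_trans (by norm_num) hh8
  have h6 : 6 * (h : ℝ) ^ 16 ≤ H ^ 16 := by
    rw [hH, mul_pow]
    apply mul_le_mul_of_nonneg_right _ (by positivity)
    exact (show (6 : ℝ) ≤ A by linarith).trans (le_self_pow₀ (by linarith) (by norm_num))
  -- the first zeros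
  have hz0 : ∀ s < h, ∀ m n, m + n < 32 * h ^ 10 → F Q ρ E p m n s = 0 := by
    intro s hs m n hmn
    have h1 := hpz (⟨s, hs⟩, ⟨m, by omega⟩, ⟨n, by omega⟩)
    simp only at h1
    have h2 : (Q : ℂ) ^ (h ^ 6 * s) * F Q ρ E p m n s = 0 := by
      rw [← h1]
      unfold F
      rw [Finset.mul_sum]
      refine Finset.sum_congr rfl fun x _ => ?_
      ring
    rcases mul_eq_zero.1 h2 with h3 | h3
    · exact absurd h3 (pow_ne_zero _ (by exact_mod_cast hQ))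
    · exact h3
  -- the step
  have hstep : ∀ S T T' : ℕ, h ≤ S → S ≤ h ^ 13 → T' + T' ≤ T → h ^ 10 ≤ T' → T' ≤ 32 * h ^ 10 →
      (∀ s < S, ∀ m n, m + n < T → F Q ρ E p m n s = 0) →
      ∀ s < S * h ^ 3, ∀ m n, m + n < T' → F Q ρ E p m n s = 0 := by
    intro S T T' hS hS2 hT hT1 hT2 hz
    have h3 : 1 ≤ h ^ 3 := Nat.one_le_pow _ _ hh1'
    refine extrapolate hQ hE hDc hQD (Nat.le_mul_of_pos_right _ h3)
      (le_trans h3 (Nat.le_mul_of_pos_left _ (by omega))) hT hX0 hpX hK hK2 hK1 hz ?_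
    exact num_step hH1 (by linarith) hQH (by linarith) hKH hh1' hHh hH4096 h6 le_rfl hX0 hexpH
      hS hS2 hT1 hT2 hcc hhA
  have hmono : ∀ a b : ℕ, a ≤ b → h ^ a ≤ h ^ b := fun a b hab =>
    Nat.pow_le_pow_right (by omega) hab
  have hz1 := hstep h (32 * h ^ 10) (16 * h ^ 10) le_rfl
    (Nat.le_self_pow (by norm_num) h) (by omega) (by omega) (by omega) hz0
  have hz2 := hstep (h * h ^ 3) (16 * h ^ 10) (8 * h ^ 10)
    (Nat.le_mul_of_pos_right _ (Nat.one_le_pow _ _ hh1'))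
    (by rw [show h * h ^ 3 = h ^ 4 by ring]; exact hmono _ _ (by norm_num))
    (by omega) (by omega) (by omega) hz1
  have hz3 := hstep (h * h ^ 3 * h ^ 3) (8 * h ^ 10) (4 * h ^ 10)
    (by
      rw [show h * h ^ 3 * h ^ 3 = h ^ 7 by ring]
      exact Nat.le_self_pow (by norm_num) h)
    (by rw [show h * h ^ 3 * h ^ 3 = h ^ 7 by ring]; exact hmono _ _ (by norm_num))
    (by omega) (by omega) (by omega) hz2
  have hz4 := hstep (h * h ^ 3 * h ^ 3 * h ^ 3) (4 * h ^ 10) (2 * h ^ 10)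
    (by
      rw [show h * h ^ 3 * h ^ 3 * h ^ 3 = h ^ 10 by ring]
      exact Nat.le_self_pow (by norm_num) h)
    (by rw [show h * h ^ 3 * h ^ 3 * h ^ 3 = h ^ 10 by ring]; exact hmono _ _ (by norm_num))
    (by omega) (by omega) (by omega) hz3
  have hz5 := hstep (h * h ^ 3 * h ^ 3 * h ^ 3 * h ^ 3) (2 * h ^ 10) (h ^ 10)
    (by
      rw [show h * h ^ 3 * h ^ 3 * h ^ 3 * h ^ 3 = h ^ 13 by ring]
      exact Nat.le_self_pow (by norm_num) h)
    (by rw [show h * h ^ 3 * h ^ 3 * h ^ 3 * h ^ 3 = h ^ 13 by ring])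
    (by omega) (by omega) (by omega) hz4
  apply hp0
  refine final (T := h ^ 10) hDc hE0 (S := h * h ^ 3 * h ^ 3 * h ^ 3 * h ^ 3 * h ^ 3) ?_
    (hmono _ _ (by norm_num)) (fun s hs n hn => hz5 s hs 0 n (by omega))
  calc 2 * (4096 * h ^ 9 * h ^ 6) = 8192 * h ^ 15 := by ring
    _ ≤ h * h ^ 15 := Nat.mul_le_mul_right _ hh8
    _ = h * h ^ 3 * h ^ 3 * h ^ 3 * h ^ 3 * h ^ 3 := by ring

/-- `π + e` and `e ^ e` are not both rational. -/
theorem sum_or_exp : Irrational (Real.pi + Real.exp 1) ∨ Irrational (Real.exp 1 ^ Real.exp 1) := by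
  by_contra hcon
  push Not at hcon
  obtain ⟨h1, h2⟩ := hcon
  obtain ⟨r, hr⟩ := exists_rat_of_not_irrational h1
  obtain ⟨D, hD⟩ := exists_rat_of_not_irrational h2
  refine pi_add_aux (E := Real.exp 1) (Real.exp_pos 1).ne' r D hr ?_
  rw [← hD, ← Real.exp_log (Real.exp_pos 1), ← Real.exp_mul, Real.log_exp]
  simp

end FiveNum.Bk
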