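import Pool.Agent.FiveNum.AnArith

/-!
# The functions of Baker's method for `π + log D`
-/

open Polynomial Asymptotics Filter Topology

namespace FiveNum.Bk

/-- The polynomial factors. -/
noncomputable def P (Q : ℕ) (ρ : ℤ) (a c : ℕ) : ℕ → Polynomial ℂ
  | 0 => X ^ a
  | m + 1 => C (Q : ℂ) * derivative (P Q ρ a c m) + C (Complex.I * ρ * c) * P Q ρ a c m

/-- The basic functions. -/
noncomputable def G (Q : ℕ) (ρ : ℤ) (E : ℝ) (a b c m n : ℕ) (z : ℂ) : ℂ :=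
  (P Q ρ a c m).eval z * ((b : ℂ) - Complex.I * c) ^ n *
    Complex.exp (((b : ℂ) * E + c * Real.pi * Complex.I) * z)

lemma hasDerivAt_G {Q : ℕ} (hQ : Q ≠ 0) {ρ : ℤ} {E : ℝ} (hE : (Q : ℝ) * (Real.pi + E) = ρ)
    (a b c m n : ℕ) (z : ℂ) :
    HasDerivAt (G Q ρ E a b c m n)
      (G Q ρ E a b c (m + 1) n z / Q + E * G Q ρ E a b c m (n + 1) z) z := by
  set ω : ℂ := (b : ℂ) * E + c * Real.pi * Complex.I with hω
  have h1 : HasDerivAt (fun z => (P Q ρ a c m).eval z) ((derivative (P Q ρ a c m)).eval z) z :=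
    (P Q ρ a c m).hasDerivAt z
  have h2 : HasDerivAt (fun z : ℂ => Complex.exp (ω * z)) (Complex.exp (ω * z) * ω) z := by
    have h3 : HasDerivAt (fun z : ℂ => ω * z) ω z := by
      simpa using (hasDerivAt_id z).const_mul ω
    exact h3.cexp
  have h4 := ((h1.mul_const (((b : ℂ) - Complex.I * c) ^ n)).mul h2)
  have h5 : HasDerivAt (G Q ρ E a b c m n)
      ((derivative (P Q ρ a c m)).eval z * ((b : ℂ) - Complex.I * c) ^ n * Complex.exp (ω * z) +
        (P Q ρ a c m).eval z * ((b : ℂ) - Complex.I * c) ^ n * (Complex.exp (ω * z) * ω)) z := h4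
  refine h5.congr_deriv ?_
  have hQ' : (Q : ℂ) ≠ 0 := by exact_mod_cast hQ
  have hE' : (Q : ℂ) * (Real.pi + E) = ρ := by exact_mod_cast congrArg (fun x : ℝ => (x : ℂ)) hE
  have h6 : (P Q ρ a c (m + 1)).eval z = Q * (derivative (P Q ρ a c m)).eval z +
      Complex.I * ρ * c * (P Q ρ a c m).eval z := by
    simp [P]
  unfold G
  rw [h6, ← hω, ← hE']
  rw [pow_succ]
  field_simp
  rw [hω]
  ring

lemma iterate_P (Q : ℕ) (ρ : ℤ) (a c m j : ℕ) :
    derivative^[j] (P Q ρ a c (m + 1)) = C (Q : ℂ) * derivative^[j + 1] (P Q ρ a c m) +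
      C (Complex.I * ρ * c) * derivative^[j] (P Q ρ a c m) := by
  rw [P, iterate_map_add, iterate_derivative_C_mul, iterate_derivative_C_mul,
    Function.iterate_succ_apply]

lemma norm_P_le (Q : ℕ) (ρ : ℤ) (a c : ℕ) (z : ℂ) (m : ℕ) : ∀ j : ℕ,
    ‖(derivative^[j] (P Q ρ a c m)).eval z‖ ≤
      (a : ℝ) ^ j * (‖z‖ + 1) ^ a * (Q * a + |(ρ : ℝ)| * c) ^ m := by
  induction m with
  | zero =>
    intro j
    rw [P, iterate_derivative_X_pow_eq_natCast_mul, eval_mul, eval_natCast, eval_pow, eval_X,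
      norm_mul, norm_pow, pow_zero, mul_one]
    have h1 : ‖((a.descFactorial j : ℕ) : ℂ)‖ ≤ (a : ℝ) ^ j := by
      rw [Complex.norm_natCast]
      exact_mod_cast Nat.descFactorial_le_pow a j
    have h2 : ‖z‖ ^ (a - j) ≤ (‖z‖ + 1) ^ a := by
      calc ‖z‖ ^ (a - j) ≤ (‖z‖ + 1) ^ (a - j) :=
            pow_le_pow_left₀ (norm_nonneg z) (by linarith [norm_nonneg z]) _
        _ ≤ (‖z‖ + 1) ^ a := pow_le_pow_right₀ (by linarith [norm_nonneg z]) (Nat.sub_le a j)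
    exact mul_le_mul h1 h2 (by positivity) (by positivity)
  | succ m ih =>
    intro j
    rw [iterate_P, eval_add, eval_mul, eval_mul, eval_C, eval_C]
    have h1 := ih (j + 1)
    have h2 := ih j
    have h3 : ‖Complex.I * (ρ : ℂ) * (c : ℂ)‖ = |(ρ : ℝ)| * c := by
      rw [norm_mul, norm_mul, Complex.norm_I, one_mul, Complex.norm_natCast,
        Complex.norm_intCast]
    calc ‖(Q : ℂ) * eval z (derivative^[j + 1] (P Q ρ a c m)) +
          Complex.I * ρ * c * eval z (derivative^[j] (P Q ρ a c m))‖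
        ≤ Q * ‖eval z (derivative^[j + 1] (P Q ρ a c m))‖ +
          |(ρ : ℝ)| * c * ‖eval z (derivative^[j] (P Q ρ a c m))‖ := by
          refine (norm_add_le _ _).trans (le_of_eq ?_)
          rw [norm_mul, norm_mul, h3, Complex.norm_natCast]
      _ ≤ Q * ((a : ℝ) ^ (j + 1) * (‖z‖ + 1) ^ a * (Q * a + |(ρ : ℝ)| * c) ^ m) +
          |(ρ : ℝ)| * c * ((a : ℝ) ^ j * (‖z‖ + 1) ^ a * (Q * a + |(ρ : ℝ)| * c) ^ m) := by
          gcongr
      _ = _ := by ring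

lemma norm_G_le {Q : ℕ} {ρ : ℤ} {E : ℝ} {a b c m n L0 L1 : ℕ} {z : ℂ} {R K : ℝ}
    (ha : a ≤ L0) (hb : b ≤ L1) (hc : c ≤ L1) (hz : ‖z‖ ≤ R)
    (hK : (Q : ℝ) * L0 + |(ρ : ℝ)| * L1 ≤ K) (hK2 : 2 * (L1 : ℝ) ≤ K) :
    ‖G Q ρ E a b c m n z‖ ≤
      (R + 1) ^ L0 * K ^ (m + n) * Real.exp ((|E| + 4) * L1 * R) := by
  have hR : 0 ≤ R := (norm_nonneg z).trans hz
  have ha' : (a : ℝ) ≤ L0 := by exact_mod_cast ha
  have hb' : (b : ℝ) ≤ L1 := by exact_mod_cast hb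
  have hc' : (c : ℝ) ≤ L1 := by exact_mod_cast hc
  have hK0 : 0 ≤ K := le_trans (by positivity) hK2
  unfold G
  rw [norm_mul, norm_mul, norm_pow]
  have h1 : ‖(P Q ρ a c m).eval z‖ ≤ (R + 1) ^ L0 * K ^ m := by
    have h2 := norm_P_le Q ρ a c z m 0
    rw [Function.iterate_zero_apply, pow_zero, one_mul] at h2
    refine h2.trans ?_
    have h3 : (‖z‖ + 1) ^ a ≤ (R + 1) ^ L0 :=
      (pow_le_pow_left₀ (by positivity) (by linarith) _).trans
        (pow_le_pow_right₀ (by linarith) ha)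
    have h4 : ((Q : ℝ) * a + |(ρ : ℝ)| * c) ^ m ≤ K ^ m := by
      apply pow_le_pow_left₀ (by positivity)
      refine le_trans ?_ hK
      gcongr
    exact mul_le_mul h3 h4 (by positivity) (by positivity)
  have h5 : ‖(b : ℂ) - Complex.I * c‖ ^ n ≤ K ^ n := by
    apply pow_le_pow_left₀ (norm_nonneg _)
    refine (norm_sub_le _ _).trans ?_
    rw [norm_mul, Complex.norm_I, one_mul, Complex.norm_natCast, Complex.norm_natCast]
    linarith
  have h6 : ‖Complex.exp (((b : ℂ) * E + c * Real.pi * Complex.I) * z)‖ ≤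
      Real.exp ((|E| + 4) * L1 * R) := by
    rw [Complex.norm_exp]
    apply Real.exp_le_exp.2
    refine (Complex.re_le_norm _).trans ?_
    rw [norm_mul]
    apply mul_le_mul _ hz (norm_nonneg _) (by positivity)
    refine (norm_add_le _ _).trans ?_
    rw [norm_mul, norm_mul, norm_mul, Complex.norm_I, mul_one, Complex.norm_natCast,
      Complex.norm_natCast, Complex.norm_real, Complex.norm_real, Real.norm_eq_abs,
      Real.norm_eq_abs, abs_of_pos Real.pi_pos]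
    have h7 : (b : ℝ) * |E| ≤ L1 * |E| := by gcongr
    have h8 : (c : ℝ) * Real.pi ≤ L1 * 4 := by
      apply mul_le_mul hc' Real.pi_le_four Real.pi_pos.le (by positivity)
    linarith
  calc ‖eval z (P Q ρ a c m)‖ * ‖(b : ℂ) - Complex.I * c‖ ^ n *
        ‖Complex.exp (((b : ℂ) * E + c * Real.pi * Complex.I) * z)‖
      ≤ ((R + 1) ^ L0 * K ^ m) * K ^ n * Real.exp ((|E| + 4) * L1 * R) := by
        gcongr
    _ = _ := by rw [pow_add]; ring

lemma P_eval_mem (Q : ℕ) (ρ : ℤ) (a c s : ℕ) (m : ℕ) : ∀ j : ℕ,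
    (derivative^[j] (P Q ρ a c m)).eval (s : ℂ) ∈ GInt := by
  induction m with
  | zero =>
    intro j
    rw [P, iterate_derivative_X_pow_eq_natCast_mul, eval_mul, eval_natCast, eval_pow, eval_X]
    exact GInt.mul_mem (natCast_mem_GInt _) (GInt.pow_mem (natCast_mem_GInt _) _)
  | succ m ih =>
    intro j
    rw [iterate_P, eval_add, eval_mul, eval_mul, eval_C, eval_C]
    exact GInt.add_mem (GInt.mul_mem (natCast_mem_GInt _) (ih _))
      (GInt.mul_mem (GInt.mul_mem (GInt.mul_mem I_mem_GInt (intCast_mem_GInt _))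
        (natCast_mem_GInt _)) (ih _))

lemma exp_val {E : ℝ} {D : ℂ} (hD : Complex.exp E = D) (b c s : ℕ) :
    Complex.exp (((b : ℂ) * E + c * Real.pi * Complex.I) * s) = D ^ (b * s) * (-1) ^ (c * s) := by
  have h1 : ((b : ℂ) * E + c * Real.pi * Complex.I) * s =
      ((b * s : ℕ) : ℂ) * E + ((c * s : ℕ) : ℂ) * (Real.pi * Complex.I) := by
    push_cast; ring
  rw [h1, Complex.exp_add, Complex.exp_nat_mul, Complex.exp_nat_mul, hD, Complex.exp_pi_mul_I]

lemma G_mem {Q : ℕ} {ρ : ℤ} {E : ℝ} {D : ℂ} (hD : Complex.exp E = D) (hQD : (Q : ℂ) * D ∈ GInt)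
    {a b c m n L1 s : ℕ} (hb : b ≤ L1) :
    (Q : ℂ) ^ (L1 * s) * G Q ρ E a b c m n s ∈ GInt := by
  unfold G
  rw [exp_val hD]
  have h1 : (Q : ℂ) ^ (L1 * s) = (Q : ℂ) ^ ((L1 - b) * s) * (Q : ℂ) ^ (b * s) := by
    rw [← pow_add, ← Nat.add_mul, Nat.sub_add_cancel hb]
  have h2 : (Q : ℂ) ^ (L1 * s) * (eval (s : ℂ) (P Q ρ a c m) * ((b : ℂ) - Complex.I * c) ^ n *
      (D ^ (b * s) * (-1) ^ (c * s))) =
      (Q : ℂ) ^ ((L1 - b) * s) * (eval (s : ℂ) (P Q ρ a c m) * ((b : ℂ) - Complex.I * c) ^ n *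
      ((Q * D) ^ (b * s) * (-1) ^ (c * s))) := by
    rw [h1, mul_pow]; ring
  rw [h2]
  have h3 : (-1 : ℂ) ∈ GInt := GInt.neg_mem GInt.one_mem
  refine GInt.mul_mem (GInt.pow_mem (natCast_mem_GInt _) _) (GInt.mul_mem (GInt.mul_mem
    (P_eval_mem Q ρ a c s m 0) (GInt.pow_mem (GInt.sub_mem (natCast_mem_GInt _)
      (GInt.mul_mem I_mem_GInt (natCast_mem_GInt _))) _))
    (GInt.mul_mem (GInt.pow_mem hQD _) (GInt.pow_mem h3 _)))

end FiveNum.Bk
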