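import Pool.Agent.FiveNum.AnSchwarz

/-!
# Schwarz lemma with many multiple zeros
-/

open Asymptotics Filter Topology

namespace FiveNum.Bk

lemma isBigO_of_hasDerivAt {g g' : ℂ → ℂ} {s : ℂ} {k : ℕ} (hg : ∀ z, HasDerivAt g (g' z) z)
    (h0 : g s = 0) (h : g' =O[𝓝 s] fun z => (z - s) ^ k) :
    g =O[𝓝 s] fun z => (z - s) ^ (k + 1) := by
  obtain ⟨c, hc0, hc⟩ := h.exists_nonneg
  rw [isBigOWith_iff] at hc
  obtain ⟨δ, hδ, hball⟩ := Metric.eventually_nhds_iff_ball.1 hc
  refine IsBigO.of_bound c ?_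
  rw [Metric.eventually_nhds_iff_ball]
  refine ⟨δ, hδ, fun z hz => ?_⟩
  have hsub : Metric.closedBall s ‖z - s‖ ⊆ Metric.ball s δ := by
    apply Metric.closedBall_subset_ball
    rw [← dist_eq_norm]
    exact hz
  have h1 := Convex.norm_image_sub_le_of_norm_hasDerivWithin_le (f := g) (f' := g')
    (s := Metric.closedBall s ‖z - s‖) (C := c * ‖z - s‖ ^ k) (x := s) (y := z)
    (fun w _ => (hg w).hasDerivWithinAt) (fun w hw => by
      have h2 := hball w (hsub hw)
      refine h2.trans ?_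
      rw [norm_pow]
      have h3 : ‖w - s‖ ≤ ‖z - s‖ := by
        rw [← dist_eq_norm w s]
        exact hw
      gcongr) (convex_closedBall _ _) (Metric.mem_closedBall_self (norm_nonneg _))
    (by rw [Metric.mem_closedBall, dist_eq_norm])
  rw [h0, sub_zero] at h1
  rw [norm_pow, pow_succ, ← mul_assoc]
  exact h1

/-- Factorisation at one point. -/
lemma exists_factor_at {f : ℂ → ℂ} (hf : Differentiable ℂ f) {s : ℂ} {n : ℕ}
    (h : f =O[𝓝 s] fun z => (z - s) ^ n) :
    ∃ g : ℂ → ℂ, Differentiable ℂ g ∧ ∀ z, f z = (z - s) ^ n * g z := by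
  obtain ⟨g, hg, hfg⟩ := exists_factor n (fun t => f (t + s))
    (hf.comp (differentiable_id.add_const s)) (by
      have h1 : Tendsto (fun t : ℂ => t + s) (𝓝 0) (𝓝 s) := by
        have : Tendsto (fun t : ℂ => t + s) (𝓝 0) (𝓝 (0 + s)) :=
          (continuous_id.add continuous_const).tendsto 0
        rwa [zero_add] at this
      have h2 := (h.comp_tendsto h1).mono (nhdsWithin_le_nhds (s := {0}ᶜ))
      refine h2.congr_right fun t => ?_
      simp)
  refine ⟨fun z => g (z - s), hg.comp (differentiable_id.sub_const s), fun z => ?_⟩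
  have := hfg (z - s)
  simpa using this

lemma exists_factor_many {f : ℂ → ℂ} (hf : Differentiable ℂ f) (T : ℕ) : ∀ S : ℕ,
    (∀ s < S, f =O[𝓝 (s : ℂ)] fun z => (z - s) ^ T) →
    ∃ g : ℂ → ℂ, Differentiable ℂ g ∧
      ∀ z, f z = (∏ s ∈ Finset.range S, (z - (s : ℂ)) ^ T) * g z := by
  intro S
  induction S with
  | zero => intro _; exact ⟨f, hf, fun z => by simp⟩
  | succ S ih =>
    intro h
    obtain ⟨g, hg, hfg⟩ := ih fun s hs => h s (Nat.lt_succ_of_lt hs)
    have hφ : Differentiable ℂ fun z : ℂ => ∏ s ∈ Finset.range S, (z - (s : ℂ)) ^ T := by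
      fun_prop
    have hne : (∏ s ∈ Finset.range S, ((S : ℂ) - (s : ℂ)) ^ T) ≠ 0 := by
      rw [Finset.prod_ne_zero_iff]
      intro s hs
      apply pow_ne_zero
      rw [Finset.mem_range] at hs
      rw [sub_ne_zero]
      exact_mod_cast hs.ne'
    have h1 : g =O[𝓝 (S : ℂ)] fun z => (z - (S : ℂ)) ^ T := by
      have h2 : (fun z : ℂ => (∏ s ∈ Finset.range S, (z - (s : ℂ)) ^ T)⁻¹) =O[𝓝 (S : ℂ)]
          fun _ => (1 : ℂ) :=
        ((hφ.continuous.tendsto (S : ℂ)).inv₀ hne).isBigO_one ℂ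
      have h3 := h2.mul (h S (Nat.lt_succ_self S))
      have h4 : (fun z : ℂ => (∏ s ∈ Finset.range S, (z - (s : ℂ)) ^ T)⁻¹ * f z) =ᶠ[𝓝 (S : ℂ)]
          g := by
        have h5 : ∀ᶠ z in 𝓝 (S : ℂ), (∏ s ∈ Finset.range S, (z - (s : ℂ)) ^ T) ≠ 0 :=
          (hφ.continuous.tendsto (S : ℂ)).eventually_ne hne
        filter_upwards [h5] with z hz
        rw [hfg z, ← mul_assoc, inv_mul_cancel₀ hz, one_mul]
      refine (h3.congr' h4 ?_)
      filter_upwards with z
      rw [one_mul]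
    obtain ⟨g', hg', hgg⟩ := exists_factor_at hg h1
    refine ⟨g', hg', fun z => ?_⟩
    rw [hfg z, hgg z, Finset.prod_range_succ]
    ring

/-- The Schwarz lemma. -/
theorem schwarz_many {f : ℂ → ℂ} (hf : Differentiable ℂ f) {T S S' : ℕ} (hS : S ≤ S')
    (hS' : 1 ≤ S') (h : ∀ s < S, f =O[𝓝 (s : ℂ)] fun z => (z - s) ^ T) {M : ℝ}
    (hM : ∀ z : ℂ, ‖z‖ = 5 * S' → ‖f z‖ ≤ M) {w : ℕ} (hw : w ≤ S') :
    ‖f w‖ ≤ M / 2 ^ (S * T) := by
  obtain ⟨g, hg, hfg⟩ := exists_factor_many hf T S h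
  have hS1 : (1 : ℝ) ≤ S' := by exact_mod_cast hS'
  have hSS : (S : ℝ) ≤ S' := by exact_mod_cast hS
  have hR : (0 : ℝ) < 5 * S' := by positivity
  have key : ‖g w‖ ≤ M / (4 * S') ^ (S * T) := by
    refine Complex.norm_le_of_forall_mem_frontier_norm_le (U := Metric.ball (0 : ℂ) (5 * S'))
      Metric.isBounded_ball hg.diffContOnCl ?_ ?_
    · intro z hz
      rw [frontier_ball (0 : ℂ) hR.ne'] at hz
      have hz' : ‖z‖ = 5 * S' := by simpa using hz
      have h1 := hM z hz'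
      rw [hfg z, norm_mul] at h1
      have h2 : (4 * (S' : ℝ)) ^ (S * T) ≤ ‖∏ s ∈ Finset.range S, (z - (s : ℂ)) ^ T‖ := by
        rw [norm_prod]
        have h3 : (4 * (S' : ℝ)) ^ (S * T) = ∏ s ∈ Finset.range S, (4 * (S' : ℝ)) ^ T := by
          rw [Finset.prod_const, Finset.card_range, ← pow_mul, mul_comm T S]
        rw [h3]
        apply Finset.prod_le_prod
        · intro s _; positivity
        · intro s hs
          rw [norm_pow]
          apply pow_le_pow_left₀ (by positivity)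
          have h4 := norm_sub_norm_le z (s : ℂ)
          rw [hz', Complex.norm_natCast] at h4
          have h5 : (s : ℝ) ≤ S' := by
            have : s < S := Finset.mem_range.1 hs
            exact_mod_cast (this.le.trans hS)
          linarith
      rw [le_div_iff₀ (by positivity)]
      calc ‖g z‖ * (4 * (S' : ℝ)) ^ (S * T)
          ≤ ‖g z‖ * ‖∏ s ∈ Finset.range S, (z - (s : ℂ)) ^ T‖ :=
            mul_le_mul_of_nonneg_left h2 (norm_nonneg _)
        _ ≤ M := by rw [mul_comm]; exact h1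
    · rw [closure_ball (0 : ℂ) hR.ne']
      rw [Metric.mem_closedBall, dist_zero_right, Complex.norm_natCast]
      have : (w : ℝ) ≤ S' := by exact_mod_cast hw
      linarith
  have hMnn : 0 ≤ M := by
    have := hM ((5 * S' : ℝ) : ℂ) (by rw [Complex.norm_real, Real.norm_eq_abs, abs_of_pos hR])
    exact (norm_nonneg _).trans this
  rw [hfg w, norm_mul]
  have h6 : ‖∏ s ∈ Finset.range S, ((w : ℂ) - (s : ℂ)) ^ T‖ ≤ (2 * (S' : ℝ)) ^ (S * T) := by
    rw [norm_prod]
    have h3 : (2 * (S' : ℝ)) ^ (S * T) = ∏ s ∈ Finset.range S, (2 * (S' : ℝ)) ^ T := by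
      rw [Finset.prod_const, Finset.card_range, ← pow_mul, mul_comm T S]
    rw [h3]
    apply Finset.prod_le_prod
    · intro s _; positivity
    · intro s hs
      rw [norm_pow]
      apply pow_le_pow_left₀ (norm_nonneg _)
      have h4 := norm_sub_le (w : ℂ) (s : ℂ)
      rw [Complex.norm_natCast, Complex.norm_natCast] at h4
      have h5 : (s : ℝ) ≤ S' := by
        have : s < S := Finset.mem_range.1 hs
        exact_mod_cast (this.le.trans hS)
      have h7 : (w : ℝ) ≤ S' := by exact_mod_cast hw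
      linarith
  calc ‖∏ s ∈ Finset.range S, ((w : ℂ) - (s : ℂ)) ^ T‖ * ‖g w‖
      ≤ (2 * (S' : ℝ)) ^ (S * T) * (M / (4 * S') ^ (S * T)) :=
        mul_le_mul h6 key (norm_nonneg _) (by positivity)
    _ = M / 2 ^ (S * T) := by
        have h8 : (4 * (S' : ℝ)) ^ (S * T) = 2 ^ (S * T) * (2 * (S' : ℝ)) ^ (S * T) := by
          rw [← mul_pow]; ring
        rw [h8]
        have h9 : (2 * (S' : ℝ)) ^ (S * T) ≠ 0 := by positivity
        field_simp

end FiveNum.Bk
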