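import Pool.Agent.FiveNum.AnArith

/-!
# Siegel's lemma over the Gaussian integers
-/

open Matrix

attribute [local instance] Matrix.seminormedAddCommGroup

namespace FiveNum.Bk

theorem siegel_gauss {α β : Type} [Fintype α] [Fintype β] (M : α → β → ℂ)
    (hM : ∀ i j, M i j ∈ GInt) {H : ℝ} (hH : 1 ≤ H) (hb : ∀ i j, ‖M i j‖ ≤ H)
    (hα : 0 < Fintype.card α) (hcard : Fintype.card β = 4 * Fintype.card α) :
    ∃ t : β → ℤ, t ≠ 0 ∧ (∀ i, ∑ j, (t j : ℂ) * M i j = 0) ∧
      ∀ j, |(t j : ℝ)| ≤ Fintype.card β * H := by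
  choose g hg using hM
  let A : Matrix (α × Bool) β ℤ := fun p j => if p.2 then (g p.1 j).re else (g p.1 j).im
  have hcA : Fintype.card (α × Bool) = 2 * Fintype.card α := by
    rw [Fintype.card_prod, Fintype.card_bool, mul_comm]
  obtain ⟨t, ht0, htA, htn⟩ := Int.Matrix.exists_ne_zero_int_vec_norm_le A
    (by rw [hcA, hcard]; omega) (by rw [hcA]; omega)
  have hre : ∀ i j, ‖(g i j).re‖ ≤ ‖M i j‖ := by
    intro i j
    rw [← hg i j]
    have h1 := Complex.abs_re_le_norm (GaussianInt.toComplex (g i j))
    rw [← GaussianInt.intCast_re] at h1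
    rw [Int.norm_eq_abs]
    exact h1
  have him : ∀ i j, ‖(g i j).im‖ ≤ ‖M i j‖ := by
    intro i j
    rw [← hg i j]
    have h1 := Complex.abs_im_le_norm (GaussianInt.toComplex (g i j))
    rw [← GaussianInt.intCast_im] at h1
    rw [Int.norm_eq_abs]
    exact h1
  have hAn : ‖A‖ ≤ H := by
    rw [Matrix.norm_le_iff (by linarith)]
    rintro ⟨i, b⟩ j
    cases b
    · exact (him i j).trans (hb i j)
    · exact (hre i j).trans (hb i j)
  refine ⟨t, ht0, fun i => ?_, fun j => ?_⟩
  · have h1 : ∑ j, g i j * (t j : GaussianInt) = 0 := by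
      have hr := congrFun htA (i, true)
      have hi := congrFun htA (i, false)
      simp only [Matrix.mulVec, dotProduct, A, if_true, Bool.false_eq_true, if_false,
        Pi.zero_apply] at hr hi
      rw [Zsqrtd.ext_iff]
      constructor
      · have : (∑ j, g i j * (t j : GaussianInt)).re = ∑ j, (g i j).re * t j := by
          rw [show (∑ j, g i j * (t j : GaussianInt)).re =
            ∑ j, (g i j * (t j : GaussianInt)).re from ?_]
          · refine Finset.sum_congr rfl fun j _ => ?_
            simp [Zsqrtd.re_mul]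
          · exact map_sum (AddMonoidHom.mk' (fun z : GaussianInt => z.re) fun _ _ => rfl) _ _
        rw [this, hr]; rfl
      · have : (∑ j, g i j * (t j : GaussianInt)).im = ∑ j, (g i j).im * t j := by
          rw [show (∑ j, g i j * (t j : GaussianInt)).im =
            ∑ j, (g i j * (t j : GaussianInt)).im from ?_]
          · refine Finset.sum_congr rfl fun j _ => ?_
            simp [Zsqrtd.im_mul]
          · exact map_sum (AddMonoidHom.mk' (fun z : GaussianInt => z.im) fun _ _ => rfl) _ _
        rw [this, hi]; rfl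
    have h2 := congrArg GaussianInt.toComplex h1
    rw [map_sum, map_zero] at h2
    rw [← h2]
    refine Finset.sum_congr rfl fun j _ => ?_
    rw [map_mul, hg i j, map_intCast, mul_comm]
  · have h3 : ‖t j‖ ≤ ‖t‖ := norm_le_pi_norm t j
    rw [Int.norm_eq_abs] at h3
    refine h3.trans (htn.trans ?_)
    have hm : (0 : ℝ) < Fintype.card α := by exact_mod_cast hα
    have hexp : ((Fintype.card (α × Bool) : ℕ) : ℝ) /
        ((Fintype.card β : ℝ) - (Fintype.card (α × Bool) : ℕ)) = 1 := by
      rw [hcA, hcard]
      push_cast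
      rw [div_eq_one_iff_eq]
      · ring
      · have : (4 : ℝ) * Fintype.card α - 2 * Fintype.card α = 2 * Fintype.card α := by ring
        rw [this]
        positivity
    rw [hexp, Real.rpow_one]
    exact mul_le_mul_of_nonneg_left (max_le hH hAn) (Nat.cast_nonneg _)

end FiveNum.Bk
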