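import Mathlib

/-!
# Exponential polynomials on an initial segment of the integers
-/

open Polynomial

namespace FiveNum.Bk

lemma taylor_eq_self {R : Polynomial ℂ} (h : Polynomial.taylor 1 R = R) :
    R = C (R.eval 0) := by
  have h1 : ∀ n : ℕ, R.eval (n : ℂ) = R.eval 0 := by
    intro n
    induction n with
    | zero => simp
    | succ n ih =>
      have h2 := congrArg (fun p => p.eval (n : ℂ)) h
      simp only [Polynomial.taylor_eval] at h2
      rw [← ih, ← h2]
      push_cast
      ring_nf
  apply Polynomial.eq_of_infinite_eval_eq
  refine Set.Infinite.mono (s := Set.range fun n : ℕ => (n : ℂ)) ?_ ?_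
  · rintro _ ⟨n, rfl⟩
    simp [h1 n]
  · exact Set.infinite_range_of_injective Nat.cast_injective

lemma degree_taylor_sub_lt {R : Polynomial ℂ} {d : ℕ} (h : R.degree < (d + 1 : ℕ)) :
    (Polynomial.taylor 1 R - R).degree < d := by
  rw [Polynomial.degree_lt_iff_coeff_zero] at h ⊢
  intro m hm
  rcases Nat.lt_or_ge d m with hdm | hdm
  · have h1 : (Polynomial.taylor (1 : ℂ) R).degree < m := by
      rw [Polynomial.degree_taylor, Polynomial.degree_lt_iff_coeff_zero]
      intro k hk
      exact h k (by omega)
    rw [Polynomial.coeff_sub, h m (by omega), Polynomial.coeff_eq_zero_of_degree_lt h1, sub_zero]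
  · have hmd : m = d := le_antisymm hdm hm
    subst hmd
    by_cases h2 : R.coeff m = 0
    · have h3 : R.degree < m := by
        rw [Polynomial.degree_lt_iff_coeff_zero]
        intro k hk
        rcases eq_or_lt_of_le hk with hk' | hk'
        · rw [← hk']; exact h2
        · exact h k hk'
      have h1 : (Polynomial.taylor (1 : ℂ) R).degree < m := by
        rw [Polynomial.degree_taylor]; exact h3
      rw [Polynomial.coeff_sub, h2, Polynomial.coeff_eq_zero_of_degree_lt h1, sub_zero]
    · have h3 : R.natDegree = m := by
        apply le_antisymm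
        · rw [Polynomial.natDegree_le_iff_coeff_eq_zero]
          intro k hk
          exact h k hk
        · exact Polynomial.le_natDegree_of_ne_zero h2
      rw [Polynomial.coeff_sub, sub_eq_zero, ← h3]
      have h4 := Polynomial.leadingCoeff_taylor (R := ℂ) (1 : ℂ) (f := R)
      rw [Polynomial.leadingCoeff, Polynomial.natDegree_taylor] at h4
      exact h4

/-- An exponential polynomial vanishing at many consecutive integers vanishes. -/
theorem exp_poly_zero {ι : Type*} [DecidableEq ι] (B : Finset ι) (θ : ι → ℂ)
    (hθ : ∀ b ∈ B, θ b ≠ 0) (hinj : ∀ b ∈ B, ∀ b' ∈ B, θ b = θ b' → b = b') :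
    ∀ (M : ℕ) (d : ι → ℕ) (R : ι → Polynomial ℂ), ∑ b ∈ B, d b ≤ M →
      (∀ b ∈ B, (R b).degree < d b) →
      (∀ t < M, ∑ b ∈ B, (R b).eval (t : ℂ) * θ b ^ t = 0) → ∀ b ∈ B, R b = 0 := by
  intro M
  induction M with
  | zero =>
    intro d R hd hR _ b hb
    have h1 : d b = 0 := by
      have := Finset.single_le_sum (f := d) (fun _ _ => Nat.zero_le _) hb
      omega
    have h2 := hR b hb
    rw [h1, Polynomial.degree_lt_iff_coeff_zero] at h2
    ext k
    rw [h2 k (Nat.zero_le k), Polynomial.coeff_zero]
  | succ M ih =>
    intro d R hd hR hz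
    by_cases hall : ∀ b ∈ B, d b = 0
    · intro b hb
      have h2 := hR b hb
      rw [hall b hb, Polynomial.degree_lt_iff_coeff_zero] at h2
      ext k
      rw [h2 k (Nat.zero_le k), Polynomial.coeff_zero]
    · push Not at hall
      obtain ⟨b0, hb0, hd0⟩ := hall
      obtain ⟨e, he⟩ := Nat.exists_eq_succ_of_ne_zero hd0
      set R' : ι → Polynomial ℂ := fun b =>
        C (θ b) * Polynomial.taylor 1 (R b) - C (θ b0) * R b with hR'
      set d' : ι → ℕ := Function.update d b0 e with hd'
      have hzero := ih d' R' (by
        have h1 : ∑ b ∈ B, d b = d b0 + ∑ b ∈ B.erase b0, d b := (Finset.add_sum_erase _ _ hb0).symm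
        have h2 : ∑ b ∈ B, d' b = d' b0 + ∑ b ∈ B.erase b0, d' b :=
          (Finset.add_sum_erase _ _ hb0).symm
        have h3 : ∑ b ∈ B.erase b0, d' b = ∑ b ∈ B.erase b0, d b := by
          refine Finset.sum_congr rfl fun b hb => ?_
          rw [hd', Function.update_of_ne (Finset.ne_of_mem_erase hb)]
        have h4 : d' b0 = e := by rw [hd', Function.update_self]
        omega) (by
        intro b hb
        by_cases hbb : b = b0
        · subst hbb
          rw [hd', Function.update_self]
          have h1 : R' b = C (θ b) * (Polynomial.taylor 1 (R b) - R b) := by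
            rw [hR']; ring
          rw [h1, Polynomial.degree_C_mul (hθ b hb)]
          apply degree_taylor_sub_lt
          have := hR b hb
          rwa [he] at this
        · rw [hd', Function.update_of_ne hbb]
          refine lt_of_le_of_lt (Polynomial.degree_sub_le _ _) ?_
          rw [max_lt_iff]
          constructor
          · rw [Polynomial.degree_C_mul (hθ b hb), Polynomial.degree_taylor]
            exact hR b hb
          · rw [Polynomial.degree_C_mul (hθ b0 hb0)]
            exact hR b hb) (by
        intro t ht
        have h1 := hz (t + 1) (by omega)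
        have h2 := hz t (by omega)
        have h3 : ∑ b ∈ B, (R' b).eval (t : ℂ) * θ b ^ t =
            ∑ b ∈ B, (R b).eval ((t + 1 : ℕ) : ℂ) * θ b ^ (t + 1) -
              θ b0 * ∑ b ∈ B, (R b).eval (t : ℂ) * θ b ^ t := by
          rw [Finset.mul_sum, ← Finset.sum_sub_distrib]
          refine Finset.sum_congr rfl fun b _ => ?_
          rw [hR']
          simp only [Polynomial.eval_sub, Polynomial.eval_mul, Polynomial.eval_C,
            Polynomial.taylor_eval]
          push_cast
          ring
        rw [h3, h1, h2, mul_zero, sub_zero])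
      -- all other coefficients vanish
      have hother : ∀ b ∈ B, b ≠ b0 → R b = 0 := by
        intro b hb hbb
        by_contra hne
        have h1 := hzero b hb
        rw [hR'] at h1
        simp only at h1
        have h2 := congrArg (fun p => p.coeff (R b).natDegree) h1
        simp only [Polynomial.coeff_sub, Polynomial.coeff_C_mul, Polynomial.coeff_zero] at h2
        have h4 := Polynomial.leadingCoeff_taylor (R := ℂ) (1 : ℂ) (f := R b)
        rw [Polynomial.leadingCoeff, Polynomial.natDegree_taylor] at h4
        rw [h4] at h2
        have h5 : (θ b - θ b0) * (R b).leadingCoeff = 0 := by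
          rw [sub_mul]; exact h2
        rcases mul_eq_zero.1 h5 with h6 | h6
        · exact hbb (hinj b hb b0 hb0 (sub_eq_zero.1 h6))
        · exact hne (Polynomial.leadingCoeff_eq_zero.1 h6)
      have hb0c : R b0 = C ((R b0).eval 0) := by
        apply taylor_eq_self
        have h1 := hzero b0 hb0
        have h2 : C (θ b0) * (Polynomial.taylor 1 (R b0) - R b0) = 0 := by
          rw [← h1, hR']; ring
        rcases mul_eq_zero.1 h2 with h3 | h3
        · exact absurd (Polynomial.C_eq_zero.1 h3) (hθ b0 hb0)
        · exact sub_eq_zero.1 h3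
      have hb00 : R b0 = 0 := by
        have h1 := hz 0 (Nat.succ_pos M)
        rw [Finset.sum_eq_single b0] at h1
        · rw [pow_zero, mul_one, Nat.cast_zero] at h1
          rw [hb0c, h1, Polynomial.C_0]
        · intro b hb hbb
          rw [hother b hb hbb, Polynomial.eval_zero, zero_mul]
        · intro h; exact absurd hb0 h
      intro b hb
      by_cases hbb : b = b0
      · rw [hbb]; exact hb00
      · exact hother b hb hbb

end FiveNum.Bk
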