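import Pool.Agent.FiveNum.Case3

/-!
# The zero estimate
-/

open MvPolynomial Module Finset

namespace FiveNum

theorem hilbert_growth {D : Fin 3 → ℕ} (hD : ∀ i, 1 ≤ D i) {P1 P2 P3 : A0}
    (hP1 : P1 ≠ 0) (hd1 : ∀ i, degreeOf i P1 = D i) (hP2 : P2 ≠ 0) (hd2 : P2 ∈ box D)
    (hcop : ∀ b, P1 ∣ P2 * b → P1 ∣ b) (hP3 : P3 ≠ 0) (hd3 : P3 ∈ box D)
    (hnzd : ∀ f, P3 * f ∈ sat P1 P2 → f ∈ sat P1 P2)
    {A : Ideal A0} (hJA : sat P1 P2 ≤ A) (hP3A : P3 ∈ A) {k0 : ℕ} {W : Submodule ℂ A0}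
    (hW : W ≤ box (k0 • D)) (hWA : ∀ f ∈ W, f ∈ A → f = 0) :
    finrank ℂ W ≤ 6 * (D 0 * D 1 * D 2) := by
  set J := sat P1 P2 with hJ
  have hmono : ∀ {k l : ℕ}, k ≤ l → box (k • D) ≤ box (l • D) := by
    intro k l hkl
    apply box_mono
    intro i
    simp only [Pi.smul_apply, smul_eq_mul]
    exact Nat.mul_le_mul_right _ hkl
  have step : ∀ k, k0 ≤ k → finrank ℂ W + finrank ℂ (inBox J ((k + 1) • D)) +
      finrank ℂ (box (k • D)) ≤ finrank ℂ (box ((k + 1) • D)) + finrank ℂ (inBox J (k • D)) := by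
    intro k hk
    have e1 : D + k • D = (k + 1) • D := by rw [add_comm, ← succ_nsmul]
    set U1 := inBox J ((k + 1) • D) with hU1
    set U2 : Submodule ℂ A0 := (box (k • D)).map (mulL P3) with hU2
    have hU2le : U2 ≤ box ((k + 1) • D) := by
      rw [← e1]; exact map_mulL_le hd3
    have hU1le : U1 ≤ box ((k + 1) • D) := inf_le_right
    have : FiniteDimensional ℂ U2 := Submodule.finiteDimensional_of_le hU2le
    have : FiniteDimensional ℂ W := Submodule.finiteDimensional_of_le hW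
    have hinf : finrank ℂ (U1 ⊓ U2 : Submodule ℂ A0) ≤ finrank ℂ (inBox J (k • D)) := by
      have hle : U1 ⊓ U2 ≤ (inBox J (k • D)).map (mulL P3) := by
        rintro f ⟨hf, ⟨b, hb, rfl⟩⟩
        refine ⟨b, mem_inBox.mpr ⟨hnzd b (mem_inBox.mp hf).1, hb⟩, rfl⟩
      calc finrank ℂ (U1 ⊓ U2 : Submodule ℂ A0)
          ≤ finrank ℂ ((inBox J (k • D)).map (mulL P3)) := Submodule.finrank_mono hle
        _ = _ := finrank_map_mulL hP3 _
    have hf2 : finrank ℂ U2 = finrank ℂ (box (k • D)) := finrank_map_mulL hP3 _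
    have hsum := Submodule.finrank_sup_add_finrank_inf_eq U1 U2
    have hdisj : W ⊓ (U1 ⊔ U2) = ⊥ := by
      rw [Submodule.eq_bot_iff]
      rintro f ⟨hf, hf'⟩
      apply hWA f hf
      obtain ⟨a, ha, b, ⟨b', _, rfl⟩, rfl⟩ := Submodule.mem_sup.mp hf'
      refine A.add_mem (hJA (mem_inBox.mp ha).1) ?_
      exact A.mul_mem_right _ hP3A
    have hsum2 := Submodule.finrank_sup_add_finrank_inf_eq W (U1 ⊔ U2)
    rw [hdisj, finrank_bot, add_zero] at hsum2
    have hle2 : finrank ℂ (W ⊔ (U1 ⊔ U2) : Submodule ℂ A0) ≤ finrank ℂ (box ((k + 1) • D)) :=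
      Submodule.finrank_mono (sup_le (hW.trans (hmono (by omega))) (sup_le hU1le hU2le))
    omega
  have upper : ∀ k, 2 ≤ k → finrank ℂ (box (k • D)) ≤
      finrank ℂ (inBox J (k • D)) + 6 * k * (D 0 * D 1 * D 2) := by
    intro k hk
    obtain ⟨C', hC'⟩ := Submodule.exists_isCompl (inBox J (k • D))
    have hmod : inBox J (k • D) ⊔ (C' ⊓ box (k • D)) = box (k • D) := by
      have h1 : inBox J (k • D) ≤ box (k • D) := inf_le_right
      have h2 := sup_inf_assoc_of_le C' h1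
      rw [hC'.sup_eq_top, top_inf_eq] at h2
      exact h2.symm
    have hbot : inBox J (k • D) ⊓ (C' ⊓ box (k • D)) = ⊥ := by
      rw [← inf_assoc, hC'.inf_eq_bot, bot_inf_eq]
    have : FiniteDimensional ℂ (C' ⊓ box (k • D) : Submodule ℂ A0) :=
      Submodule.finiteDimensional_of_le inf_le_right
    have hsum := Submodule.finrank_sup_add_finrank_inf_eq (inBox J (k • D)) (C' ⊓ box (k • D))
    rw [hmod, hbot, finrank_bot, add_zero] at hsum
    rw [hsum]
    apply Nat.add_le_add_left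
    apply finrank_le_of_disjoint_ideal hD hP1 hd1 hP2 hd2 hcop k hk inf_le_right
    intro f hf hfI
    have : f ∈ inBox J (k • D) ⊓ (C' ⊓ box (k • D)) :=
      ⟨mem_inBox.mpr ⟨span_le_sat hfI, hf.2⟩, hf⟩
    rw [hbot] at this
    exact (Submodule.mem_bot ℂ).mp this
  have tele : ∀ n, n * finrank ℂ W + finrank ℂ (inBox J ((k0 + n) • D)) +
      finrank ℂ (box (k0 • D)) ≤
        finrank ℂ (box ((k0 + n) • D)) + finrank ℂ (inBox J (k0 • D)) := by
    intro n
    induction n with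
    | zero => simp; omega
    | succ n ih =>
      have := step (k0 + n) (by omega)
      rw [show k0 + (n + 1) = k0 + n + 1 by ring, add_mul, one_mul]
      omega
  have hle0 : finrank ℂ (inBox J (k0 • D)) ≤ finrank ℂ (box (k0 • D)) :=
    Submodule.finrank_mono inf_le_right
  have key : ∀ n, 2 ≤ n → n * finrank ℂ W ≤ 6 * (k0 + n) * (D 0 * D 1 * D 2) := by
    intro n hn
    have h1 := tele n
    have h2 := upper (k0 + n) (by omega)
    omega
  by_contra hcon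
  push Not at hcon
  set w := finrank ℂ W with hw
  set Pr := D 0 * D 1 * D 2 with hPr
  have h3 := key (6 * k0 * Pr + 2) (by omega)
  have h4 : (6 * k0 * Pr + 2) * (6 * Pr + 1) ≤ (6 * k0 * Pr + 2) * w :=
    Nat.mul_le_mul_left _ hcon
  nlinarith

namespace PtData

variable {Γ : PtData}

/-- The maximal ideal of the point `Γ.pt s`. -/
noncomputable def ptI (Γ : PtData) (s : Fin 3 → ℕ) : Ideal A0 := RingHom.ker (eval (Γ.pt s))

theorem mem_ptI {s : Fin 3 → ℕ} {f : A0} : f ∈ Γ.ptI s ↔ eval (Γ.pt s) f = 0 := RingHom.mem_ker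

theorem ptI_isPrime (s : Fin 3 → ℕ) : (Γ.ptI s).IsPrime := RingHom.ker_isPrime _

theorem pt_injective {s t : Fin 3 → ℕ} (h : Γ.pt s = Γ.pt t) : s = t := by
  have h0 := congrFun h 0
  have h2 := congrFun h 2
  simp only [pt, Matrix.cons_val_zero, px, Fin.sum_univ_three, Γ.ξ0, mul_zero, zero_add] at h0
  simp only [pt, Matrix.cons_val, pz, Fin.prod_univ_three, Γ.ω1, one_pow, mul_one] at h2
  obtain ⟨e1, e2⟩ := Γ.hX _ _ _ _ h0
  rw [e2] at h2
  have h3 := mul_right_cancel₀ (pow_ne_zero _ (Γ.hω 2)) h2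
  have e0 := (Γ.hchar 0 (s 0) 0 (t 0) (by rw [h3])).2
  ext i
  fin_cases i
  · exact e0
  · exact e1
  · exact e2

theorem ptI_le {s t : Fin 3 → ℕ} (h : Γ.ptI s ≤ Γ.ptI t) : s = t := by
  apply pt_injective (Γ := Γ)
  ext i
  have h1 : (X i - C (Γ.pt s i) : A0) ∈ Γ.ptI s := by
    rw [mem_ptI]; simp
  have h2 := mem_ptI.mp (h h1)
  simp only [map_sub, eval_X, eval_C] at h2
  exact (sub_eq_zero.mp h2).symm

theorem X1_notMem_ptI (s : Fin 3 → ℕ) : (X 1 : A0) ∉ Γ.ptI s := by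
  rw [mem_ptI, eval_X]
  exact py_ne s

theorem X2_notMem_ptI (s : Fin 3 → ℕ) : (X 2 : A0) ∉ Γ.ptI s := by
  rw [mem_ptI, eval_X]
  exact pz_ne s

/-- Polynomials vanishing to order `T` at the points `s < S`. -/
noncomputable def condI (Γ : PtData) (T S : ℕ) : Ideal A0 where
  carrier := {f | Γ.Van T S f}
  zero_mem' := by
    intro t _ s _
    rw [iterate_map_zero, map_zero]
  add_mem' := by
    intro f g hf hg t ht s hs
    rw [iter_add', map_add, hf t ht s hs, hg t ht s hs, add_zero]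
  smul_mem' := by
    intro c f hf t ht s hs
    rw [smul_eq_mul]
    exact mem_ptI.mp (iter_mul_mem (Γ.ptI s) t f c fun i hi =>
      mem_ptI.mpr (hf i (by omega) s hs))

theorem mem_condI {T S : ℕ} {f : A0} : f ∈ Γ.condI T S ↔ Γ.Van T S f := Iff.rfl

theorem van_cancel {T S : ℕ} {u f : A0} (hu : ∀ s, u ∉ Γ.ptI s) (h : Γ.Van T S (u * f)) :
    Γ.Van T S f := by
  intro t ht s hs
  exact mem_ptI.mp (iter_cancel (ptI_isPrime s) (hu s) T
    (fun t' ht' => mem_ptI.mpr (h t' ht' s hs)) t ht)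

theorem sat_le_condI {T S : ℕ} {P1 P2 : A0} (hV1 : Γ.Van T S P1) (hV2 : Γ.Van T S P2) :
    sat P1 P2 ≤ Γ.condI T S := by
  intro f hf
  obtain ⟨m, hm⟩ := mem_sat.mp hf
  rw [mem_condI]
  apply van_cancel (u := (X 1 * X 2) ^ m)
  · intro s hu
    have hp := ptI_isPrime (Γ := Γ) s
    rcases hp.mem_or_mem (hp.mem_of_pow_mem _ hu) with h | h
    · exact X1_notMem_ptI s h
    · exact X2_notMem_ptI s h
  · rw [← mem_condI]
    have : Ideal.span {P1, P2} ≤ Γ.condI T S := by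
      rw [Ideal.span_le]
      rintro g (rfl | hg)
      · exact hV1
      · rw [Set.mem_singleton_iff] at hg
        rw [hg]
        exact hV2
    exact this hm

theorem card_points_le {D : Fin 3 → ℕ} (hD : ∀ i, 1 ≤ D i) {P1 P2 P3 : A0}
    (hP1 : P1 ≠ 0) (hd1 : ∀ i, degreeOf i P1 = D i) (hP2 : P2 ≠ 0) (hd2 : P2 ∈ box D)
    (hcop : ∀ b, P1 ∣ P2 * b → P1 ∣ b) (hP3 : P3 ≠ 0) (hd3 : P3 ∈ box D)
    (hnzd : ∀ f, P3 * f ∈ sat P1 P2 → f ∈ sat P1 P2) {T S : ℕ}
    (hV1 : Γ.Van T S P1) (hV2 : Γ.Van T S P2) (hV3 : Γ.Van T S P3) :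
    S ^ 3 * T ≤ 6 * (D 0 * D 1 * D 2) := by
  classical
  obtain ⟨c0, hc0⟩ := exists_indep (ι := Fin 3 → Fin S)
    (q := fun s => Γ.ptI fun i => (s i : ℕ))
    (fun s => ptI_isPrime _)
    (fun s t hst hle => hst (by
      have := ptI_le hle
      funext i
      exact (Fin.ext (congrFun this i)).symm))
    (fun s => ⟨X 0 - C (Γ.px fun i => (s i : ℕ)), by rw [mem_ptI]; simp [pt], by
      rw [mem_ptI, dV_apply]; simp [pderiv_X]⟩) T
  obtain ⟨W, hW, hWr, hWA⟩ := hc0 (Submodule.span ℂ {(1 : A0)}) 0 (by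
      rw [Submodule.span_singleton_le_iff_mem, mem_box_iff_degreeOf]
      intro i
      rw [← C_1, degreeOf_C]
      exact Nat.zero_le _) (by
      intro s f hf hfp
      obtain ⟨a, rfl⟩ := Submodule.mem_span_singleton.mp hf
      rw [mem_ptI, smul_eval, map_one, mul_one] at hfp
      rw [hfp, zero_smul])
  have hfr : finrank ℂ (Submodule.span ℂ {(1 : A0)}) = 1 := finrank_span_singleton one_ne_zero
  rw [hfr, mul_one, Fintype.card_fun, Fintype.card_fin, Fintype.card_fin] at hWr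
  rw [← hWr]
  refine hilbert_growth hD hP1 hd1 hP2 hd2 hcop hP3 hd3 hnzd (A := Γ.condI T S)
    (k0 := c0 0 + c0 1 + c0 2) ?_ hV3 ?_ ?_
  · exact sat_le_condI hV1 hV2
  · refine hW.trans (box_mono ?_)
    intro i
    rw [zero_add]
    simp only [Pi.smul_apply, smul_eq_mul]
    have h1 : c0 i ≤ c0 0 + c0 1 + c0 2 := by
      fin_cases i <;> simp <;> omega
    exact h1.trans (Nat.le_mul_of_pos_right _ (hD i))
  · intro f hf hfA
    apply hWA f hf
    intro s t ht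
    rw [mem_ptI]
    exact hfA t ht _ fun i => (s i).2

end PtData

theorem degreeOf_X_sub_one (i j : Fin 3) :
    degreeOf i (X j - C 1 : A0) = if i = j then 1 else 0 := by
  apply le_antisymm
  · refine (degreeOf_sub_le i _ _).trans ?_
    rw [degreeOf_C, max_eq_left (Nat.zero_le _), degreeOf_X]
  · split_ifs with h
    · subst h
      have h : coeff (Finsupp.single i 1) (X i - C 1 : A0) ≠ 0 := by
        rw [coeff_sub, coeff_C, if_neg, sub_zero]
        · simp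
        · intro h0
          have := DFunLike.congr_fun h0 i
          simp at this
      have := monomial_le_degreeOf i (MvPolynomial.mem_support_iff.mpr h)
      simpa using this
    · exact Nat.zero_le _

/-- A multiple with exact degrees. -/
theorem exists_exact {D : Fin 3 → ℕ} {P : A0} (hP : P ≠ 0) (hPD : P ∈ box D)
    (h1 : ¬ (X 1 : A0) ∣ P) (h2 : ¬ (X 2 : A0) ∣ P) :
    ∃ Q : A0, Q ≠ 0 ∧ (∀ i, degreeOf i Q = D i) ∧ ¬ (X 1 : A0) ∣ Q ∧ ¬ (X 2 : A0) ∣ Q ∧ P ∣ Q := by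
  rw [mem_box_iff_degreeOf] at hPD
  have hne : ∀ j : Fin 3, (X j - C 1 : A0) ≠ 0 := fun j => X_sub_C_ne_zero j 1
  set R : A0 := ∏ j : Fin 3, (X j - C 1) ^ (D j - degreeOf j P) with hR
  have hR0 : R ≠ 0 := Finset.prod_ne_zero_iff.mpr fun j _ => pow_ne_zero _ (hne j)
  have hnd : ∀ k : Fin 3, ¬ (X k : A0) ∣ R := by
    intro k hk
    obtain ⟨j, _, hj⟩ := (X_prime.dvd_finsetProd_iff _).mp hk
    have := X_prime.dvd_of_dvd_pow hj
    obtain ⟨c, hc⟩ := this
    have := congrArg (eval (0 : Fin 3 → ℂ)) hc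
    simp at this
  refine ⟨P * R, mul_ne_zero hP hR0, ?_, ?_, ?_, dvd_mul_right _ _⟩
  · intro i
    rw [degreeOf_mul_eq hP hR0, hR, degreeOf_prod_eq _ _ (fun j _ => pow_ne_zero _ (hne j))]
    rw [Finset.sum_congr rfl fun j _ => by
      rw [degreeOf_pow_eq _ _ _ (hne j), degreeOf_X_sub_one]]
    simp only [mul_ite, mul_one, mul_zero, Finset.sum_ite_eq, Finset.mem_univ, if_true]
    have := hPD i
    omega
  · intro h
    exact (X_prime.dvd_or_dvd h).elim h1 (hnd 1)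
  · intro h
    exact (X_prime.dvd_or_dvd h).elim h2 (hnd 2)

/-- Removing the factors `Y₁` and `Y₂`. -/
theorem exists_strip {P : A0} (hP : P ≠ 0) :
    ∃ (a b : ℕ) (Q : A0), P = X 1 ^ a * X 2 ^ b * Q ∧ ¬ (X 1 : A0) ∣ Q ∧ ¬ (X 2 : A0) ∣ Q := by
  obtain ⟨a, P', h1, h1'⟩ := WfDvdMonoid.max_power_factor hP (X_prime (i := (1 : Fin 3))).irreducible
  have hP' : P' ≠ 0 := by
    rintro rfl; exact h1 (dvd_zero _)
  obtain ⟨b, Q, h2, h2'⟩ := WfDvdMonoid.max_power_factor hP'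
    (X_prime (i := (2 : Fin 3))).irreducible
  refine ⟨a, b, Q, by rw [h1', h2']; ring, ?_, h2⟩
  intro h
  apply h1
  rw [h2']
  exact h.mul_left _

open PtData in
/-- **The zero estimate.** -/
theorem zero_estimate (Γ : PtData) {D : Fin 3 → ℕ} (hD : ∀ i, 1 ≤ D i) {T S : ℕ}
    (hTD : ∀ i, D i < T) (hSD : D 1 < S ^ 2)
    (n1 : 6 * (D 1 * D 2) < S * T) (n2 : 6 * (D 0 * D 2) < S ^ 2 * T)
    (n3 : 6 * (D 0 * D 1) < S ^ 2 * T) (n4 : 6 * (D 0 * D 1 * D 2) < S ^ 3 * T)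
    {P : A0} (hP : P ≠ 0) (hPD : P ∈ box D) : ¬ Γ.Van (3 * T) (3 * S) P := by
  intro hV
  have hT0 : 0 < T := lt_of_le_of_lt (Nat.zero_le _) (hTD 0)
  have hS0 : 0 < S := by
    rcases Nat.eq_zero_or_pos S with h | h
    · rw [h] at hSD; omega
    · exact h
  obtain ⟨a, b, P0, hP0, h1, h2⟩ := exists_strip hP
  have hP00 : P0 ≠ 0 := by rintro rfl; exact h1 (dvd_zero _)
  have hu0 : (X 1 ^ a * X 2 ^ b : A0) ≠ 0 := by
    intro h; apply hP; rw [hP0, h, zero_mul]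
  have hP0D : P0 ∈ box D := by
    rw [mem_box_iff_degreeOf] at hPD ⊢
    intro i
    have := hPD i
    rw [hP0, degreeOf_mul_eq hu0 hP00] at this
    omega
  have hV0 : Γ.Van (3 * T) (3 * S) P0 := by
    rw [hP0] at hV
    apply van_cancel _ hV
    intro s hu
    have hp := ptI_isPrime (Γ := Γ) s
    rcases hp.mem_or_mem hu with h | h
    · exact X1_notMem_ptI s (hp.mem_of_pow_mem _ h)
    · exact X2_notMem_ptI s (hp.mem_of_pow_mem _ h)
  obtain ⟨P1, hP1, hd1, hX1, hX2, hdvd⟩ := exists_exact hP00 hP0D h1 h2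
  have hV1 : Γ.Van (3 * T) (3 * S) P1 := by
    obtain ⟨R, rfl⟩ := hdvd
    rw [← mem_condI]
    exact Ideal.mul_mem_right _ _ hV0
  have hV1' : Γ.Van ((T + T) + T) ((S + S) + S) P1 := by
    have e1 : (T + T) + T = 3 * T := by ring
    have e2 : (S + S) + S = 3 * S := by ring
    rw [e1, e2]; exact hV1
  have hP1b : P1 ∈ box D := by rw [mem_box_iff_degreeOf]; intro i; rw [hd1 i]
  obtain ⟨P2, hP2G, hP2, hcop⟩ := exists_coprime (Γ := Γ) hP1 hS0 (T := T)
    (fun i => by rw [hd1 i]; exact hTD i) (by rw [hd1 1]; exact hSD) hX1 hX2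
  obtain ⟨P3, hP3G, hnzd⟩ := exists_nonzerodivisor hP1 hP2 hcop (Γ.G P1 (T + T) (S + S))
    (fun p hp hp1 hp2 hG hc => case_prime (Γ := Γ) hD hP1 hd1 hS0 hTD hSD hP2G hP2 hcop n1 n2 n3
      hp hp1 hp2 hG hc)
  have hW1 : Γ.Van T S P1 := van_of_mem_G hV1' (self_mem_G (by omega) (by omega))
  have hW2 : Γ.Van T S P2 := van_of_mem_G hV1' (G_mono (by omega) (by omega) hP2G)
  have hW3 : Γ.Van T S P3 := van_of_mem_G hV1' hP3G
  have hP3 : P3 ≠ 0 := by
    rintro rfl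
    have h1 : (1 : A0) ∈ sat P1 P2 := hnzd 1 (by rw [zero_mul]; exact Ideal.zero_mem _)
    have h2 := sat_le_condI hW1 hW2 h1 0 hT0 0 (fun _ => hS0)
    simp at h2
  have := card_points_le hD hP1 hd1 hP2 (G_le_box hP1b T S hP2G) hcop hP3
    (G_le_box hP1b _ _ hP3G) hnzd hW1 hW2 hW3
  omega

end FiveNum
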