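import Pool.Agent.FiveNum.AnMain
import Pool.Agent.FiveNum.ZeroEst
import Pool.Agent.Lib.LindemannWeierstrass

/-!
# `π e`, `(π e) ^ e` and `π ^ π` are not all rational
-/

open MvPolynomial

namespace FiveNum

theorem Dv_eq_dV : Dv = dV := by
  apply MvPolynomial.derivation_ext
  intro i
  rw [Dv, mkDerivation_X, dV_apply]
  fin_cases i
  · simp [pderiv_X]
  · simp [pderiv_X]
  · simp [pderiv_X]

/-- `e ^ k` is irrational for nonzero integers `k`. -/
theorem exp_int_ne_rat (k : ℤ) (hk : k ≠ 0) (q : ℚ) : Real.exp k ≠ q := by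
  intro h
  have h1 : IsAlgebraic ℚ ((k : ℂ)) := isAlgebraic_intCast k
  have h2 : Transcendental ℚ (Complex.exp (k : ℂ)) :=
    Pool.Agent.Lib.LW.transcendental_exp h1 (by exact_mod_cast hk)
  apply h2
  have h3 : Complex.exp (k : ℂ) = ((q : ℝ) : ℂ) := by
    rw [← h]
    push_cast
    rfl
  rw [h3]
  have : (((q : ℝ) : ℂ)) = algebraMap ℚ ℂ q := by simp
  rw [this]
  exact isAlgebraic_algebraMap q

theorem irrational_exp_one : Irrational (Real.exp 1) := by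
  rintro ⟨q, hq⟩
  have := exp_int_ne_rat 1 one_ne_zero q
  apply this
  rw [hq]; simp

section

variable {b₁ b₂ : ℕ} {E F : ℚ}

/-- A relation `B ^ m = E ^ n` (in logarithmic form) is trivial. -/
theorem mult_indep (hb₁ : 0 < b₁) (hb₂ : 0 < b₂) (hB : Real.pi * Real.exp 1 = b₁ / b₂)
    (hE : Real.pi ^ Real.pi = E) (hF : ((b₁ : ℝ) / b₂) ^ (Real.exp 1) = F) (m n : ℤ)
    (h : (m : ℝ) * Real.log ((b₁ : ℝ) / b₂) + n * Real.log E = 0) : m = 0 ∧ n = 0 := by
  have hb₁' : (0 : ℝ) < b₁ := by exact_mod_cast hb₁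
  have hb₂' : (0 : ℝ) < b₂ := by exact_mod_cast hb₂
  set B : ℝ := (b₁ : ℝ) / b₂ with hBd
  have hBpos : 0 < B := by positivity
  have hπ := Real.pi_pos
  have he := Real.exp_pos 1
  have hlogB : Real.log B = Real.log Real.pi + 1 := by
    rw [← hB, Real.log_mul hπ.ne' he.ne', Real.log_exp]
  have hlogπ : 0 < Real.log Real.pi := Real.log_pos (by linarith [Real.pi_gt_three])
  have hlogB0 : 0 < Real.log B := by rw [hlogB]; linarith
  have hlogE : Real.log E = Real.pi * Real.log Real.pi := by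
    rw [← hE, Real.log_rpow hπ]
  have hFpos : (0 : ℝ) < F := by rw [← hF]; exact Real.rpow_pos_of_pos hBpos _
  have hlogF : Real.log F = Real.exp 1 * Real.log B := by
    rw [← hF, Real.log_rpow hBpos]
  -- multiply by `e`
  have h1 : (m : ℝ) * Real.log F + n * (B * (Real.log B - 1)) = 0 := by
    rw [hlogF]
    have e1 : B * (Real.log B - 1) = Real.exp 1 * Real.log E := by
      rw [hlogE, ← hB, hB, hlogB]
      have : Real.exp 1 * (Real.pi * Real.log Real.pi) =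
        (Real.pi * Real.exp 1) * Real.log Real.pi := by ring
      rw [this, hB]; ring
    rw [e1]
    linear_combination (Real.exp 1) * h
  have h2 : (m * b₂ : ℝ) * Real.log F + (n * b₁ : ℝ) * Real.log B = (n * b₁ : ℝ) := by
    have hBb : B * b₂ = b₁ := by rw [hBd]; field_simp
    have := congrArg (fun x => x * (b₂ : ℝ)) h1
    simp only [zero_mul] at this
    have e2 : ((m : ℝ) * Real.log F + n * (B * (Real.log B - 1))) * b₂ =
        (m * b₂ : ℝ) * Real.log F + n * (B * b₂) * (Real.log B - 1) := by ring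
    rw [e2, hBb] at this
    linear_combination this
  have h3 : Real.exp ((n * b₁ : ℤ) : ℝ) = (((F ^ (m * b₂) * ((b₁ : ℚ) / b₂) ^ (n * b₁) : ℚ)) : ℝ) := by
    have : ((n * b₁ : ℤ) : ℝ) = (m * b₂ : ℝ) * Real.log F + (n * b₁ : ℝ) * Real.log B := by
      rw [h2]; push_cast; ring
    rw [this, Real.exp_add]
    have e3 : Real.exp ((m * b₂ : ℝ) * Real.log F) = (F : ℝ) ^ (m * b₂ : ℤ) := by
      have : (m * b₂ : ℝ) = ((m * b₂ : ℤ) : ℝ) := by push_cast; ring
      rw [this, mul_comm, ← Real.rpow_intCast, Real.rpow_def_of_pos hFpos]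
    have e4 : Real.exp ((n * b₁ : ℝ) * Real.log B) = B ^ (n * b₁ : ℤ) := by
      have : (n * b₁ : ℝ) = ((n * b₁ : ℤ) : ℝ) := by push_cast; ring
      rw [this, mul_comm, ← Real.rpow_intCast, Real.rpow_def_of_pos hBpos]
    rw [e3, e4, hBd]
    push_cast
    rfl
  have hn : n = 0 := by
    by_contra hne
    exact exp_int_ne_rat (n * b₁) (mul_ne_zero hne (by exact_mod_cast hb₁.ne')) _ h3
  refine ⟨?_, hn⟩
  rw [hn, Int.cast_zero, zero_mul, add_zero] at h
  have := (mul_eq_zero.mp h).resolve_right hlogB0.ne'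
  exact_mod_cast this

/-- The three points attached to `B = π e = b₁/b₂`, `E = π ^ π`, `F = B ^ e`. -/
noncomputable def mkData (hb₁ : 0 < b₁) (hb₂ : 0 < b₂) (hB : Real.pi * Real.exp 1 = b₁ / b₂)
    (hE : Real.pi ^ Real.pi = E) (hF : ((b₁ : ℝ) / b₂) ^ (Real.exp 1) = F) : PtData where
  ξ := ![0, Complex.I * ((b₁ : ℂ) / b₂), -(b₁ : ℂ)]
  β := ![(b₁ : ℂ) / b₂, -1, (E : ℂ) ^ b₂]
  ω := ![(F : ℂ), 1, ((b₁ : ℂ) / b₂) ^ b₁]
  hβ := by
    have hb₁' : (b₁ : ℂ) ≠ 0 := by exact_mod_cast hb₁.ne'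
    have hb₂' : (b₂ : ℂ) ≠ 0 := by exact_mod_cast hb₂.ne'
    have hE0 : (E : ℂ) ≠ 0 := by
      have : (0 : ℝ) < E := by rw [← hE]; exact Real.rpow_pos_of_pos Real.pi_pos _
      have h2 : E ≠ 0 := by
        rintro rfl
        simp at this
      exact_mod_cast h2
    intro i
    fin_cases i
    · exact div_ne_zero hb₁' hb₂'
    · exact neg_ne_zero.mpr one_ne_zero
    · exact pow_ne_zero _ hE0
  hω := by
    have hb₁' : (b₁ : ℂ) ≠ 0 := by exact_mod_cast hb₁.ne'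
    have hb₂' : (b₂ : ℂ) ≠ 0 := by exact_mod_cast hb₂.ne'
    have hF0 : (F : ℂ) ≠ 0 := by
      have : (0 : ℝ) < F := by
        rw [← hF]
        exact Real.rpow_pos_of_pos (by positivity) _
      have h2 : F ≠ 0 := by
        rintro rfl
        simp at this
      exact_mod_cast h2
    intro i
    fin_cases i
    · exact hF0
    · exact one_ne_zero
    · exact pow_ne_zero _ (div_ne_zero hb₁' hb₂')
  ξ0 := rfl
  ω1 := rfl
  β1 := by simp
  hX := by
    intro a b a' b' h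
    have hb₁' : (b₁ : ℝ) ≠ 0 := by exact_mod_cast hb₁.ne'
    have hb₂' : (b₂ : ℝ) ≠ 0 := by exact_mod_cast hb₂.ne'
    simp only [Matrix.cons_val_one, Matrix.cons_val_zero, Matrix.cons_val] at h
    have h' : (((-(b * b₁) : ℝ) : ℂ)) + ((a * ((b₁ : ℝ) / b₂) : ℝ) : ℂ) * Complex.I =
        (((-(b' * b₁) : ℝ) : ℂ)) + ((a' * ((b₁ : ℝ) / b₂) : ℝ) : ℂ) * Complex.I := by
      push_cast
      linear_combination h
    have hre := congrArg Complex.re h'
    have him := congrArg Complex.im h'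
    simp only [Complex.add_re, Complex.ofReal_re, Complex.mul_re, Complex.I_re, mul_zero,
      Complex.ofReal_im, Complex.I_im, mul_one, sub_self, add_zero, Complex.add_im,
      Complex.mul_im, zero_add] at hre him
    constructor
    · have := mul_right_cancel₀ (div_ne_zero hb₁' hb₂') him
      exact_mod_cast this
    · have := mul_right_cancel₀ hb₁' (neg_injective hre)
      exact_mod_cast this
  hchar := by
    intro a b a' b' h
    simp only [Matrix.cons_val_zero] at h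
    have hBpos : (0 : ℝ) < (b₁ : ℝ) / b₂ := by positivity
    have hFpos : (0 : ℝ) < F := by rw [← hF]; exact Real.rpow_pos_of_pos hBpos _
    have h' : ((b₁ : ℝ) / b₂) ^ a * (F : ℝ) ^ b = ((b₁ : ℝ) / b₂) ^ a' * (F : ℝ) ^ b' := by
      apply Complex.ofReal_injective
      push_cast
      exact h
    have h2 := congrArg Real.log h'
    rw [Real.log_mul (pow_ne_zero _ hBpos.ne') (pow_ne_zero _ hFpos.ne'),
      Real.log_mul (pow_ne_zero _ hBpos.ne') (pow_ne_zero _ hFpos.ne'), Real.log_pow, Real.log_pow,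
      Real.log_pow, Real.log_pow] at h2
    have hlogF : Real.log F = Real.exp 1 * Real.log ((b₁ : ℝ) / b₂) := by
      rw [← hF, Real.log_rpow hBpos]
    have hlogB : 0 < Real.log ((b₁ : ℝ) / b₂) := by
      rw [← hB, Real.log_mul Real.pi_pos.ne' (Real.exp_pos 1).ne', Real.log_exp]
      have : 0 < Real.log Real.pi := Real.log_pos (by linarith [Real.pi_gt_three])
      linarith
    rw [hlogF] at h2
    have h3 : ((a : ℝ) - a' + (b - b') * Real.exp 1) * Real.log ((b₁ : ℝ) / b₂) = 0 := by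
      linear_combination h2
    have h4 := (mul_eq_zero.mp h3).resolve_right hlogB.ne'
    have hb : b = b' := by
      by_contra hne
      have hne' : ((b : ℝ) - b') ≠ 0 := sub_ne_zero.mpr (by exact_mod_cast hne)
      apply irrational_exp_one
      refine ⟨((a' : ℚ) - a) / (b - b'), ?_⟩
      push_cast
      rw [div_eq_iff hne']
      linear_combination -h4
    subst hb
    refine ⟨?_, rfl⟩
    rw [sub_self, zero_mul, add_zero, sub_eq_zero] at h4
    exact_mod_cast h4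
  hY := by
    intro a b a' b' h
    simp only [Matrix.cons_val_zero, Matrix.cons_val] at h
    have hBpos : (0 : ℝ) < (b₁ : ℝ) / b₂ := by positivity
    have hEpos : (0 : ℝ) < E := by rw [← hE]; exact Real.rpow_pos_of_pos Real.pi_pos _
    rw [← pow_mul, ← pow_mul] at h
    have h' : ((b₁ : ℝ) / b₂) ^ a * (E : ℝ) ^ (b₂ * b) =
        ((b₁ : ℝ) / b₂) ^ a' * (E : ℝ) ^ (b₂ * b') := by
      apply Complex.ofReal_injective
      push_cast
      exact h
    have h2 := congrArg Real.log h'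
    rw [Real.log_mul (pow_ne_zero _ hBpos.ne') (pow_ne_zero _ hEpos.ne'),
      Real.log_mul (pow_ne_zero _ hBpos.ne') (pow_ne_zero _ hEpos.ne'), Real.log_pow, Real.log_pow,
      Real.log_pow, Real.log_pow] at h2
    obtain ⟨e1, e2⟩ := mult_indep hb₁ hb₂ hB hE hF ((a : ℤ) - a') (b₂ * (b - b')) (by
      push_cast at h2 ⊢
      linear_combination h2)
    have hb₂' : (b₂ : ℤ) ≠ 0 := by exact_mod_cast hb₂.ne'
    have e3 := (mul_eq_zero.mp e2).resolve_left hb₂'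
    omega

theorem mkData_pt (hb₁ : 0 < b₁) (hb₂ : 0 < b₂) (hB : Real.pi * Real.exp 1 = b₁ / b₂)
    (hE : Real.pi ^ Real.pi = E) (hF : ((b₁ : ℝ) / b₂) ^ (Real.exp 1) = F) (s : Fin 3 → ℕ) :
    (mkData hb₁ hb₂ hB hE hF).pt s = pt ((b₁ : ℂ) / b₂) E F b₁ b₂ (s 0) (s 1) (s 2) := by
  ext i
  fin_cases i
  · simp [PtData.pt, PtData.px, pt, mkData, Fin.sum_univ_three]; ring
  · simp [PtData.pt, PtData.py, pt, mkData, Fin.prod_univ_three, pow_mul]
  · simp [PtData.pt, PtData.pz, pt, mkData, Fin.prod_univ_three, pow_mul]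

/-- `π e`, `(π e) ^ e` and `π ^ π` are not all rational (with natural numerator and
denominator for the first one). -/
theorem not_all_rational_aux (hb₁ : 0 < b₁) (hb₂ : 0 < b₂)
    (hB : Real.pi * Real.exp 1 = b₁ / b₂)
    (hE : Real.pi ^ Real.pi = E) (hF : ((b₁ : ℝ) / b₂) ^ (Real.exp 1) = F) : False := by
  obtain ⟨N₀, hN₀⟩ := AN b₁ b₂ hb₁ hb₂ E F hB hE hF
  set M : ℕ := N₀ + 8 with hM
  have hM8 : 8 ≤ M := by omega
  have hM1 : 1 ≤ M := by omega
  obtain ⟨P, hP, h0, h1, h2, hV⟩ := hN₀ (3 * M) (by omega)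
  set D : Fin 3 → ℕ := ![(3 * M) ^ 16, (3 * M) ^ 10, (3 * M) ^ 10] with hD
  have hpow : ∀ k l : ℕ, k ≤ l → M ^ k ≤ M ^ l := fun k l h => Nat.pow_le_pow_right hM1 h
  have hpos : ∀ k : ℕ, 1 ≤ M ^ k := fun k => Nat.one_le_pow _ _ hM1
  refine zero_estimate (mkData hb₁ hb₂ hB hE hF) (D := D) (T := 3 ^ 16 * M ^ 17)
    (S := 3 ^ 6 * M ^ 7) ?_ ?_ ?_ ?_ ?_ ?_ ?_ hP ?_ ?_
  · intro i
    fin_cases i <;> exact Nat.one_le_pow _ _ (by omega)
  · intro i
    fin_cases i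
    · show (3 * M) ^ 16 < 3 ^ 16 * M ^ 17
      rw [mul_pow, pow_succ M 16, ← mul_assoc]
      have : 3 ^ 16 * M ^ 16 * 1 < 3 ^ 16 * M ^ 16 * M := by
        apply Nat.mul_lt_mul_of_pos_left (by omega)
        positivity
      simpa using this
    · show (3 * M) ^ 10 < 3 ^ 16 * M ^ 17
      rw [mul_pow]
      calc 3 ^ 10 * M ^ 10 < 3 ^ 16 * M ^ 10 :=
            Nat.mul_lt_mul_of_pos_right (by norm_num) (hpos 10)
        _ ≤ 3 ^ 16 * M ^ 17 := Nat.mul_le_mul_left _ (hpow _ _ (by norm_num))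
    · show (3 * M) ^ 10 < 3 ^ 16 * M ^ 17
      rw [mul_pow]
      calc 3 ^ 10 * M ^ 10 < 3 ^ 16 * M ^ 10 :=
            Nat.mul_lt_mul_of_pos_right (by norm_num) (hpos 10)
        _ ≤ 3 ^ 16 * M ^ 17 := Nat.mul_le_mul_left _ (hpow _ _ (by norm_num))
  · show (3 * M) ^ 10 < (3 ^ 6 * M ^ 7) ^ 2
    rw [mul_pow, mul_pow, ← pow_mul, ← pow_mul]
    calc 3 ^ 10 * M ^ 10 < 3 ^ (6 * 2) * M ^ 10 :=
          Nat.mul_lt_mul_of_pos_right (by norm_num) (hpos 10)
      _ ≤ 3 ^ (6 * 2) * M ^ (7 * 2) := Nat.mul_le_mul_left _ (hpow _ _ (by norm_num))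
  · show 6 * ((3 * M) ^ 10 * (3 * M) ^ 10) < 3 ^ 6 * M ^ 7 * (3 ^ 16 * M ^ 17)
    have e1 : 6 * ((3 * M) ^ 10 * (3 * M) ^ 10) = (6 * 3 ^ 20) * M ^ 20 := by ring
    have e2 : 3 ^ 6 * M ^ 7 * (3 ^ 16 * M ^ 17) = 3 ^ 22 * M ^ 24 := by ring
    rw [e1, e2]
    calc 6 * 3 ^ 20 * M ^ 20 < 3 ^ 22 * M ^ 20 :=
          Nat.mul_lt_mul_of_pos_right (by norm_num) (hpos 20)
      _ ≤ 3 ^ 22 * M ^ 24 := Nat.mul_le_mul_left _ (hpow _ _ (by norm_num))
  · show 6 * ((3 * M) ^ 16 * (3 * M) ^ 10) < (3 ^ 6 * M ^ 7) ^ 2 * (3 ^ 16 * M ^ 17)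
    have e1 : 6 * ((3 * M) ^ 16 * (3 * M) ^ 10) = (6 * 3 ^ 26) * M ^ 26 := by ring
    have e2 : (3 ^ 6 * M ^ 7) ^ 2 * (3 ^ 16 * M ^ 17) = 3 ^ 28 * M ^ 31 := by ring
    rw [e1, e2]
    calc 6 * 3 ^ 26 * M ^ 26 < 3 ^ 28 * M ^ 26 :=
          Nat.mul_lt_mul_of_pos_right (by norm_num) (hpos 26)
      _ ≤ 3 ^ 28 * M ^ 31 := Nat.mul_le_mul_left _ (hpow _ _ (by norm_num))
  · show 6 * ((3 * M) ^ 16 * (3 * M) ^ 10) < (3 ^ 6 * M ^ 7) ^ 2 * (3 ^ 16 * M ^ 17)
    have e1 : 6 * ((3 * M) ^ 16 * (3 * M) ^ 10) = (6 * 3 ^ 26) * M ^ 26 := by ring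
    have e2 : (3 ^ 6 * M ^ 7) ^ 2 * (3 ^ 16 * M ^ 17) = 3 ^ 28 * M ^ 31 := by ring
    rw [e1, e2]
    calc 6 * 3 ^ 26 * M ^ 26 < 3 ^ 28 * M ^ 26 :=
          Nat.mul_lt_mul_of_pos_right (by norm_num) (hpos 26)
      _ ≤ 3 ^ 28 * M ^ 31 := Nat.mul_le_mul_left _ (hpow _ _ (by norm_num))
  · show 6 * ((3 * M) ^ 16 * (3 * M) ^ 10 * (3 * M) ^ 10) <
      (3 ^ 6 * M ^ 7) ^ 3 * (3 ^ 16 * M ^ 17)
    have e1 : 6 * ((3 * M) ^ 16 * (3 * M) ^ 10 * (3 * M) ^ 10) = (3 ^ 34 * 54) * M ^ 36 := by ring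
    have e2 : (3 ^ 6 * M ^ 7) ^ 3 * (3 ^ 16 * M ^ 17) = (3 ^ 34 * (M * M)) * M ^ 36 := by ring
    rw [e1, e2]
    apply Nat.mul_lt_mul_of_pos_right _ (hpos 36)
    apply Nat.mul_lt_mul_of_pos_left _ (by norm_num)
    calc 54 < 8 * 8 := by norm_num
      _ ≤ M * M := Nat.mul_le_mul hM8 hM8
  · rw [mem_box_iff_degreeOf]
    intro i
    fin_cases i
    · exact h0.le
    · exact h1.le
    · exact h2.le
  · intro t ht s hs
    rw [mkData_pt, ← Dv_eq_dV]
    apply hV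
    · calc s 0 < 3 * (3 ^ 6 * M ^ 7) := hs 0
        _ = (3 * M) ^ 7 := by ring
    · calc s 1 < 3 * (3 ^ 6 * M ^ 7) := hs 1
        _ = (3 * M) ^ 7 := by ring
    · calc s 2 < 3 * (3 ^ 6 * M ^ 7) := hs 2
        _ = (3 * M) ^ 7 := by ring
    · calc t < 3 * (3 ^ 16 * M ^ 17) := ht
        _ = (3 * M) ^ 17 := by ring

end

/-- At least one of `π e`, `(π e) ^ e`, `π ^ π` is irrational. -/
theorem not_all_rational : Irrational (Real.pi * Real.exp 1) ∨
    Irrational ((Real.pi * Real.exp 1) ^ Real.exp 1) ∨ Irrational (Real.pi ^ Real.pi) := by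
  by_contra hcon
  push Not at hcon
  obtain ⟨h1, h2, h3⟩ := hcon
  obtain ⟨B, hB⟩ := exists_rat_of_not_irrational h1
  obtain ⟨F, hF⟩ := exists_rat_of_not_irrational h2
  obtain ⟨E, hE⟩ := exists_rat_of_not_irrational h3
  have hpos : (0 : ℝ) < B := by
    rw [← hB]; exact mul_pos Real.pi_pos (Real.exp_pos 1)
  have hposQ : 0 < B := by exact_mod_cast hpos
  have hnum : 0 < B.num := Rat.num_pos.mpr hposQ
  have hB' : Real.pi * Real.exp 1 = (B.num.toNat : ℝ) / (B.den : ℝ) := by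
    rw [hB]
    have h4 : ((B.num.toNat : ℕ) : ℝ) = (B.num : ℝ) := by
      have h5 : ((B.num.toNat : ℕ) : ℤ) = B.num := Int.toNat_of_nonneg hnum.le
      exact_mod_cast congrArg (fun z : ℤ => (z : ℝ)) h5
    rw [h4]
    exact_mod_cast congrArg (fun q : ℚ => (q : ℝ)) (Rat.num_div_den B).symm
  exact not_all_rational_aux (b₁ := B.num.toNat) (b₂ := B.den) (E := E) (F := F)
    (by omega) B.den_pos hB' hE (by rw [← hB']; exact hF)

end FiveNum
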