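import Pool.Agent.FiveNum.BkFun
import Pool.Agent.FiveNum.BkSchwarz
import Pool.Agent.FiveNum.BkVand
import Pool.Agent.FiveNum.BkSiegel
import Pool.Agent.FiveNum.Main

/-!
# `π + E` is irrational if `exp E` is rational
-/

open Polynomial Asymptotics Filter Topology

namespace FiveNum.Bk

/-- The auxiliary function and its derivatives. -/
noncomputable def F (Q : ℕ) (ρ : ℤ) (E : ℝ) {L0 L1 : ℕ} (p : Fin L0 × Fin L1 × Fin L1 → ℤ)
    (m n : ℕ) (z : ℂ) : ℂ :=
  ∑ x : Fin L0 × Fin L1 × Fin L1, (p x : ℂ) * G Q ρ E x.1 x.2.1 x.2.2 m n z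

section

variable {Q : ℕ} {ρ : ℤ} {E : ℝ} {D : ℂ} {L0 L1 : ℕ} {p : Fin L0 × Fin L1 × Fin L1 → ℤ}

lemma hasDerivAt_F (hQ : Q ≠ 0) (hE : (Q : ℝ) * (Real.pi + E) = ρ) (m n : ℕ) (z : ℂ) :
    HasDerivAt (F Q ρ E p m n) (F Q ρ E p (m + 1) n z / Q + E * F Q ρ E p m (n + 1) z) z := by
  have h := HasDerivAt.fun_sum fun (x : Fin L0 × Fin L1 × Fin L1) (_ : x ∈ Finset.univ) =>
    (hasDerivAt_G hQ hE x.1 x.2.1 x.2.2 m n z).const_mul (p x : ℂ)
  refine h.congr_deriv ?_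
  unfold F
  rw [Finset.sum_div, Finset.mul_sum, ← Finset.sum_add_distrib]
  refine Finset.sum_congr rfl fun x _ => ?_
  ring

lemma differentiable_F (hQ : Q ≠ 0) (hE : (Q : ℝ) * (Real.pi + E) = ρ) (m n : ℕ) :
    Differentiable ℂ (F Q ρ E p m n) := fun z => (hasDerivAt_F hQ hE m n z).differentiableAt

lemma zero_order (hQ : Q ≠ 0) (hE : (Q : ℝ) * (Real.pi + E) = ρ) {T : ℕ} {s : ℂ}
    (h : ∀ m n, m + n < T → F Q ρ E p m n s = 0) :
    ∀ k m n, m + n + k ≤ T → F Q ρ E p m n =O[𝓝 s] fun z => (z - s) ^ k := by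
  intro k
  induction k with
  | zero =>
    intro m n _
    simp only [pow_zero]
    exact ((differentiable_F hQ hE m n).continuous.tendsto s).isBigO_one ℂ
  | succ k ih =>
    intro m n hmn
    apply isBigO_of_hasDerivAt (hasDerivAt_F hQ hE m n) (h m n (by omega))
    have h1 := ih (m + 1) n (by omega)
    have h2 := ih m (n + 1) (by omega)
    have h3 : (fun z => F Q ρ E p (m + 1) n z / Q) =O[𝓝 s] fun z => (z - s) ^ k := by
      simp only [div_eq_inv_mul]
      exact h1.const_mul_left _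
    exact h3.add (h2.const_mul_left _)

lemma norm_F_le {m n : ℕ} {z : ℂ} {R K X : ℝ} (hp : ∀ x, |(p x : ℝ)| ≤ X) (hz : ‖z‖ ≤ R)
    (hK : (Q : ℝ) * L0 + |(ρ : ℝ)| * L1 ≤ K) (hK2 : 2 * (L1 : ℝ) ≤ K) :
    ‖F Q ρ E p m n z‖ ≤ (L0 * (L1 * L1) : ℕ) *
      (X * ((R + 1) ^ L0 * K ^ (m + n) * Real.exp ((|E| + 4) * L1 * R))) := by
  unfold F
  refine (norm_sum_le _ _).trans ?_
  have h1 : ∀ x ∈ (Finset.univ : Finset (Fin L0 × Fin L1 × Fin L1)),
      ‖(p x : ℂ) * G Q ρ E x.1 x.2.1 x.2.2 m n z‖ ≤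
        X * ((R + 1) ^ L0 * K ^ (m + n) * Real.exp ((|E| + 4) * L1 * R)) := by
    intro x _
    rw [norm_mul, Complex.norm_intCast]
    have hX : 0 ≤ X := (abs_nonneg _).trans (hp x)
    exact mul_le_mul (hp x) (norm_G_le x.1.2.le x.2.1.2.le x.2.2.2.le hz hK hK2)
      (norm_nonneg _) hX
  refine (Finset.sum_le_card_nsmul _ _ _ h1).trans (le_of_eq ?_)
  rw [Finset.card_univ, Fintype.card_prod, Fintype.card_prod, Fintype.card_fin, Fintype.card_fin,
    nsmul_eq_mul]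

lemma F_mem (hD : Complex.exp E = D) (hQD : (Q : ℂ) * D ∈ GInt) (m n s : ℕ) :
    (Q : ℂ) ^ (L1 * s) * F Q ρ E p m n s ∈ GInt := by
  unfold F
  rw [Finset.mul_sum]
  refine GInt.sum_mem fun x _ => ?_
  have : (Q : ℂ) ^ (L1 * s) * ((p x : ℂ) * G Q ρ E x.1 x.2.1 x.2.2 m n s) =
      (p x : ℂ) * ((Q : ℂ) ^ (L1 * s) * G Q ρ E x.1 x.2.1 x.2.2 m n s) := by ring
  rw [this]
  exact GInt.mul_mem (intCast_mem_GInt _) (G_mem hD hQD x.2.1.2.le)

/-- The extrapolation step. -/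
lemma extrapolate (hQ : Q ≠ 0) (hE : (Q : ℝ) * (Real.pi + E) = ρ) (hD : Complex.exp E = D)
    (hQD : (Q : ℂ) * D ∈ GInt) {S S' T T' : ℕ} (hS : S ≤ S') (hS' : 1 ≤ S') (hT : T' + T' ≤ T)
    {X K : ℝ} (hX : 0 ≤ X) (hp : ∀ x, |(p x : ℝ)| ≤ X)
    (hK : (Q : ℝ) * L0 + |(ρ : ℝ)| * L1 ≤ K) (hK2 : 2 * (L1 : ℝ) ≤ K) (hK1 : 1 ≤ K)
    (hz : ∀ s < S, ∀ m n, m + n < T → F Q ρ E p m n s = 0)
    (hnum : (Q : ℝ) ^ (L1 * S') * ((L0 * (L1 * L1) : ℕ) *
      (X * ((5 * S' + 1) ^ L0 * K ^ T' * Real.exp ((|E| + 4) * L1 * (5 * S'))))) <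
        2 ^ (S * T')) :
    ∀ s < S', ∀ m n, m + n < T' → F Q ρ E p m n s = 0 := by
  intro s hs m n hmn
  have hschw := schwarz_many (f := F Q ρ E p m n) (differentiable_F hQ hE m n) (T := T') hS hS'
    (fun s' hs' => zero_order hQ hE (hz s' hs') T' m n (by omega))
    (M := (L0 * (L1 * L1) : ℕ) *
      (X * ((5 * S' + 1) ^ L0 * K ^ T' * Real.exp ((|E| + 4) * L1 * (5 * S')))))
    (fun z hz' => by
      refine (norm_F_le hp hz'.le hK hK2).trans ?_
      have h1 : K ^ (m + n) ≤ K ^ T' := pow_le_pow_right₀ hK1 hmn.le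
      gcongr) hs.le
  by_contra hne
  have hmem := F_mem (p := p) (ρ := ρ) hD hQD m n s
  have hQ' : (0 : ℝ) < Q := by exact_mod_cast Nat.pos_of_ne_zero hQ
  have hQ1 : (1 : ℝ) ≤ Q := by exact_mod_cast Nat.pos_of_ne_zero hQ
  have h2 := one_le_norm_of_mem_GInt hmem (mul_ne_zero (pow_ne_zero _ (by exact_mod_cast hQ)) hne)
  rw [norm_mul, norm_pow, Complex.norm_natCast] at h2
  have h3 : (Q : ℝ) ^ (L1 * s) ≤ (Q : ℝ) ^ (L1 * S') :=
    pow_le_pow_right₀ hQ1 (Nat.mul_le_mul_left _ hs.le)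
  have h4 : (1 : ℝ) ≤ (Q : ℝ) ^ (L1 * S') * ((L0 * (L1 * L1) : ℕ) *
      (X * ((5 * S' + 1) ^ L0 * K ^ T' * Real.exp ((|E| + 4) * L1 * (5 * S')))) /
        2 ^ (S * T')) := by
    refine h2.trans (mul_le_mul h3 hschw (norm_nonneg _) (by positivity))
  rw [← mul_div_assoc, le_div_iff₀ (by positivity), one_mul] at h4
  exact absurd hnum (not_lt.2 h4)

/-- The final step. -/
lemma final (hD : Complex.exp E = D) (hE0 : E ≠ 0) {S T : ℕ} (hS : 2 * (L0 * L1) ≤ S)
    (hT : L1 ≤ T) (hz : ∀ s < S, ∀ n < T, F Q ρ E p 0 n s = 0) : p = 0 := by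
  have hD0 : D ≠ 0 := by rw [← hD]; exact Complex.exp_ne_zero _
  have key : ∀ n < L1, ∀ (b : Fin L1) (a : Fin L0),
      ∑ c : Fin L1, (p (a, b, c) : ℂ) * ((b : ℂ) - Complex.I * c) ^ n = 0 := by
    intro n hn b a
    set R : Fin L1 → Polynomial ℂ := fun b => ∑ a : Fin L0,
      C ((∑ c : Fin L1, (p (a, b, c) : ℂ) * ((b : ℂ) - Complex.I * c) ^ n) * 2 ^ (a : ℕ)) *
        X ^ (a : ℕ) with hR
    have h := exp_poly_zero (Finset.univ : Finset (Fin L1)) (fun b => D ^ (2 * (b : ℕ)))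
      (fun b _ => pow_ne_zero _ hD0) (fun b _ b' _ hbb => by
        rw [← hD, ← Complex.exp_nat_mul, ← Complex.exp_nat_mul] at hbb
        have h1 : Real.exp (((2 * (b : ℕ) : ℕ) : ℝ) * E) =
            Real.exp (((2 * (b' : ℕ) : ℕ) : ℝ) * E) := by
          exact_mod_cast hbb
        have h2 := Real.exp_injective h1
        have h3 := mul_right_cancel₀ hE0 h2
        have h4 : 2 * (b : ℕ) = 2 * (b' : ℕ) := by exact_mod_cast h3
        exact Fin.ext (by omega)) (L0 * L1) (fun _ => L0) R (by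
        rw [Finset.sum_const, Finset.card_univ, Fintype.card_fin, smul_eq_mul, mul_comm])
      (fun b _ => by
        rw [hR]
        exact Polynomial.degree_sum_fin_lt _)
      (fun t ht => by
        have h1 := hz (2 * t) (by omega) n (by omega)
        unfold F at h1
        rw [← h1]
        simp only [Fintype.sum_prod_type]
        rw [Finset.sum_comm]
        refine Finset.sum_congr rfl fun b _ => ?_
        rw [hR]
        simp only [Polynomial.eval_finsetSum, Polynomial.eval_mul, Polynomial.eval_C,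
          Polynomial.eval_pow, Polynomial.eval_X, Finset.sum_mul]
        refine Finset.sum_congr rfl fun a _ => ?_
        refine Finset.sum_congr rfl fun c _ => ?_
        unfold G
        rw [exp_val hD, P]
        simp only [Polynomial.eval_pow, Polynomial.eval_X]
        have h5 : ((-1 : ℂ)) ^ ((c : ℕ) * (2 * t)) = 1 := by
          rw [show (c : ℕ) * (2 * t) = 2 * ((c : ℕ) * t) by ring, pow_mul]
          norm_num
        rw [h5, mul_one, ← pow_mul]
        push_cast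
        rw [mul_pow (2 : ℂ), show (b : ℕ) * (2 * t) = 2 * (b : ℕ) * t by ring]
        ring)
    have h6 := h b (Finset.mem_univ _)
    have h7 := congrArg (fun q => q.coeff (a : ℕ)) h6
    rw [hR] at h7
    simp only [Polynomial.finsetSum_coeff, Polynomial.coeff_C_mul, Polynomial.coeff_X_pow,
      Polynomial.coeff_zero] at h7
    rw [Finset.sum_eq_single a] at h7
    · rw [if_pos rfl, mul_one] at h7
      rcases mul_eq_zero.1 h7 with h8 | h8
      · exact h8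
      · exact absurd h8 (pow_ne_zero _ two_ne_zero)
    · intro a' _ ha'
      rw [if_neg (fun h => ha' (Fin.ext h.symm)), mul_zero]
    · intro h; exact absurd (Finset.mem_univ _) h
  funext x
  obtain ⟨a, b, c⟩ := x
  have h9 := Matrix.eq_zero_of_forall_pow_sum_mul_pow_eq_zero
    (f := fun c : Fin L1 => (b : ℂ) - Complex.I * c)
    (v := fun c : Fin L1 => (p (a, b, c) : ℂ)) (fun c c' hcc => by
      simp only [sub_right_inj] at hcc
      have h10 := mul_left_cancel₀ Complex.I_ne_zero hcc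
      exact Fin.ext (by exact_mod_cast h10)) (fun n => key n n.2 b a)
  have h11 := congrFun h9 c
  simp only [Pi.zero_apply] at h11 ⊢
  exact_mod_cast h11

end

end FiveNum.Bk
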