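import Mathlib

/-!
# Boxes of polynomials in three variables

`box d` is the space of polynomials over `ℂ` in three variables with partial degrees at most
`d 0, d 1, d 2`.  We prove its dimension and the basic Hilbert function estimate for an ideal
generated by two coprime polynomials.
-/

open MvPolynomial Module

namespace FiveNum

/-- The polynomial ring in three variables. -/
abbrev A0 : Type := MvPolynomial (Fin 3) ℂ

/-- Polynomials whose partial degrees are bounded by `d`. -/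
noncomputable def box (d : Fin 3 → ℕ) : Submodule ℂ A0 :=
  MvPolynomial.restrictSupport ℂ {m | ∀ i, m i ≤ d i}

theorem mem_box_iff {d : Fin 3 → ℕ} {f : A0} : f ∈ box d ↔ ∀ m ∈ f.support, ∀ i, m i ≤ d i :=
  Iff.rfl

theorem mem_box_iff_coeff {d : Fin 3 → ℕ} {f : A0} :
    f ∈ box d ↔ ∀ m, coeff m f ≠ 0 → ∀ i, m i ≤ d i := by
  rw [mem_box_iff]
  exact forall_congr' fun m => by rw [MvPolynomial.mem_support_iff]

theorem mem_box_iff_degreeOf {d : Fin 3 → ℕ} {f : A0} :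
    f ∈ box d ↔ ∀ i, degreeOf i f ≤ d i := by
  rw [mem_box_iff]
  constructor
  · intro h i
    rw [degreeOf_le_iff]
    exact fun m hm => h m hm i
  · intro h m hm i
    exact (degreeOf_le_iff.mp (h i)) m hm

theorem box_mono {d e : Fin 3 → ℕ} (h : d ≤ e) : box d ≤ box e :=
  fun _ hf _ hm i => (hf hm i).trans (h i)

theorem mul_mem_box {d e : Fin 3 → ℕ} {f g : A0} (hf : f ∈ box d) (hg : g ∈ box e) :
    f * g ∈ box (d + e) := by
  rw [mem_box_iff_degreeOf] at *
  intro i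
  exact (degreeOf_mul_le i f g).trans (add_le_add (hf i) (hg i))

theorem of_mul_mem_box {d e : Fin 3 → ℕ} {f g : A0} (hf : f ≠ 0) (hd : ∀ i, degreeOf i f = d i)
    (h : f * g ∈ box (d + e)) : g ∈ box e := by
  by_cases hg : g = 0
  · subst hg; exact Submodule.zero_mem _
  rw [mem_box_iff_degreeOf] at *
  intro i
  have := h i
  rw [degreeOf_mul_eq hf hg, hd i] at this
  simpa using this

/-- The exponents of the box, as a finite set. -/
noncomputable def boxEquiv (d : Fin 3 → ℕ) :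
    {m : Fin 3 →₀ ℕ | ∀ i, m i ≤ d i} ≃ (∀ i : Fin 3, Fin (d i + 1)) where
  toFun m i := ⟨m.1 i, Nat.lt_succ_of_le (m.2 i)⟩
  invFun g := ⟨Finsupp.equivFunOnFinite.symm fun i => (g i : ℕ), fun i => by
    simpa using Nat.le_of_lt_succ (g i).2⟩
  left_inv m := by
    ext i
    simp
  right_inv g := by
    ext i
    simp

noncomputable instance (d : Fin 3 → ℕ) : Fintype {m : Fin 3 →₀ ℕ | ∀ i, m i ≤ d i} :=
  Fintype.ofEquiv _ (boxEquiv d).symm

instance (d : Fin 3 → ℕ) : FiniteDimensional ℂ (box d) :=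
  Module.Finite.of_basis (basisRestrictSupport ℂ {m : Fin 3 →₀ ℕ | ∀ i, m i ≤ d i})

theorem finrank_box (d : Fin 3 → ℕ) :
    finrank ℂ (box d) = (d 0 + 1) * (d 1 + 1) * (d 2 + 1) := by
  rw [box, finrank_eq_card_basis (basisRestrictSupport ℂ {m : Fin 3 →₀ ℕ | ∀ i, m i ≤ d i}),
    Fintype.card_congr (boxEquiv d)]
  simp [Fin.prod_univ_three]

/-- Multiplication by `P` as a linear map. -/
noncomputable abbrev mulL (P : A0) : A0 →ₗ[ℂ] A0 := LinearMap.mulLeft ℂ P

theorem mulL_injective {P : A0} (hP : P ≠ 0) : Function.Injective (mulL P) := by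
  intro a b h
  exact mul_left_cancel₀ hP (by simpa using h)

theorem finrank_map_mulL {P : A0} (hP : P ≠ 0) (V : Submodule ℂ A0) :
    finrank ℂ (V.map (mulL P)) = finrank ℂ V :=
  (Submodule.equivMapOfInjective _ (mulL_injective hP) V).finrank_eq.symm

theorem map_mulL_le {P : A0} {d e : Fin 3 → ℕ} (hP : P ∈ box d) :
    (box e).map (mulL P) ≤ box (d + e) := by
  rintro _ ⟨f, hf, rfl⟩
  exact mul_mem_box hP hf

/-- Dimension inequality for two coprime polynomials, the first one having exact degree `D`. -/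
theorem finrank_add_le {D : Fin 3 → ℕ} {P1 P2 : A0} (hP1 : P1 ≠ 0)
    (hd1 : ∀ i, degreeOf i P1 = D i) (hP2 : P2 ≠ 0) (hd2 : P2 ∈ box D)
    (hcop : ∀ b, P1 ∣ P2 * b → P1 ∣ b) (k : ℕ) {W : Submodule ℂ A0}
    (hW : W ≤ box ((k + 2) • D))
    (hWI : ∀ f ∈ W, f ∈ Ideal.span {P1, P2} → f = 0) :
    finrank ℂ W + 2 * finrank ℂ (box ((k + 1) • D)) ≤
      finrank ℂ (box ((k + 2) • D)) + finrank ℂ (box (k • D)) := by
  have e1 : D + (k + 1) • D = (k + 2) • D := by
    rw [add_comm, ← succ_nsmul]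
  have e2 : D + k • D = (k + 1) • D := by
    rw [add_comm, ← succ_nsmul]
  have hP1b : P1 ∈ box D := by
    rw [mem_box_iff_degreeOf]; intro i; rw [hd1 i]
  set U1 : Submodule ℂ A0 := (box ((k + 1) • D)).map (mulL P1) with hU1
  set U2 : Submodule ℂ A0 := (box ((k + 1) • D)).map (mulL P2) with hU2
  have hU1le : U1 ≤ box ((k + 2) • D) := by
    rw [← e1]; exact map_mulL_le hP1b
  have hU2le : U2 ≤ box ((k + 2) • D) := by
    rw [← e1]; exact map_mulL_le hd2
  have : FiniteDimensional ℂ U1 := Submodule.finiteDimensional_of_le hU1le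
  have : FiniteDimensional ℂ U2 := Submodule.finiteDimensional_of_le hU2le
  have : FiniteDimensional ℂ W := Submodule.finiteDimensional_of_le hW
  have hf1 : finrank ℂ U1 = finrank ℂ (box ((k + 1) • D)) := finrank_map_mulL hP1 _
  have hf2 : finrank ℂ U2 = finrank ℂ (box ((k + 1) • D)) := finrank_map_mulL hP2 _
  have hinf : finrank ℂ (U1 ⊓ U2 : Submodule ℂ A0) ≤ finrank ℂ (box (k • D)) := by
    have hle : U1 ⊓ U2 ≤ (box (k • D)).map (mulL (P2 * P1)) := by
      rintro f ⟨⟨a, ha, rfl⟩, ⟨b, hb, hab⟩⟩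
      simp only [mulL, LinearMap.mulLeft_apply] at hab
      obtain ⟨c, rfl⟩ := hcop b (hab ▸ dvd_mul_right P1 a)
      refine ⟨c, ?_, ?_⟩
      · apply of_mul_mem_box hP1 hd1
        rw [e2]; exact hb
      · simp only [mulL, LinearMap.mulLeft_apply]
        rw [← hab]; ring
    have : FiniteDimensional ℂ ((box (k • D)).map (mulL (P2 * P1))) := inferInstance
    calc finrank ℂ (U1 ⊓ U2 : Submodule ℂ A0)
        ≤ finrank ℂ ((box (k • D)).map (mulL (P2 * P1))) := Submodule.finrank_mono hle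
      _ = _ := finrank_map_mulL (mul_ne_zero hP2 hP1) _
  have hsum := Submodule.finrank_sup_add_finrank_inf_eq U1 U2
  have hdisj : W ⊓ (U1 ⊔ U2) = ⊥ := by
    rw [Submodule.eq_bot_iff]
    rintro f ⟨hf, hf'⟩
    apply hWI f hf
    obtain ⟨a, ⟨a', _, rfl⟩, b, ⟨b', _, rfl⟩, rfl⟩ := Submodule.mem_sup.mp hf'
    rw [Ideal.mem_span_pair]
    refine ⟨a', b', ?_⟩
    simp only [mulL, LinearMap.mulLeft_apply]
    ring
  have hsum2 := Submodule.finrank_sup_add_finrank_inf_eq W (U1 ⊔ U2)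
  rw [hdisj, finrank_bot, add_zero] at hsum2
  have hle2 : finrank ℂ (W ⊔ (U1 ⊔ U2) : Submodule ℂ A0) ≤ finrank ℂ (box ((k + 2) • D)) :=
    Submodule.finrank_mono (sup_le hW (sup_le hU1le hU2le))
  omega

/-- The Hilbert function bound `6 k D₀ D₁ D₂`. -/
theorem finrank_le_of_disjoint_ideal {D : Fin 3 → ℕ} (hD : ∀ i, 1 ≤ D i) {P1 P2 : A0}
    (hP1 : P1 ≠ 0) (hd1 : ∀ i, degreeOf i P1 = D i) (hP2 : P2 ≠ 0) (hd2 : P2 ∈ box D)
    (hcop : ∀ b, P1 ∣ P2 * b → P1 ∣ b) (k : ℕ) (hk : 2 ≤ k) {W : Submodule ℂ A0}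
    (hW : W ≤ box (k • D))
    (hWI : ∀ f ∈ W, f ∈ Ideal.span {P1, P2} → f = 0) :
    finrank ℂ W ≤ 6 * k * (D 0 * D 1 * D 2) := by
  obtain ⟨k, rfl⟩ := Nat.exists_eq_add_of_le hk
  rw [add_comm 2 k] at hW ⊢
  have h := finrank_add_le hP1 hd1 hP2 hd2 hcop k hW hWI
  simp only [finrank_box, Pi.smul_apply, smul_eq_mul] at h
  have h0 := hD 0
  have h1 := hD 1
  have h2 := hD 2
  generalize D 0 = a at *
  generalize D 1 = b at *
  generalize D 2 = c at *
  obtain ⟨a, rfl⟩ := Nat.exists_eq_add_of_le h0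
  obtain ⟨b, rfl⟩ := Nat.exists_eq_add_of_le h1
  obtain ⟨c, rfl⟩ := Nat.exists_eq_add_of_le h2
  zify at h ⊢
  have hk0 : (0 : ℤ) ≤ k := Int.natCast_nonneg k
  have ha0 : (0 : ℤ) ≤ a := Int.natCast_nonneg a
  have hb0 : (0 : ℤ) ≤ b := Int.natCast_nonneg b
  have hc0 : (0 : ℤ) ≤ c := Int.natCast_nonneg c
  nlinarith [mul_nonneg ha0 hb0, mul_nonneg ha0 hc0, mul_nonneg hb0 hc0,
    mul_nonneg (mul_nonneg ha0 hb0) hc0]

end FiveNum
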