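import Pool.Agent.FiveNum.Group

/-!
# Zero estimate, first case: no common factor
-/

open MvPolynomial Module Finset

namespace FiveNum

namespace PtData

variable {Γ : PtData}

theorem isCoprime_linear {v w : ℂ} (h : v ≠ w) :
    IsCoprime (X 1 - C v : A0) (X 1 - C w) := by
  have hne : w - v ≠ 0 := sub_ne_zero.mpr (Ne.symm h)
  refine ⟨C (w - v)⁻¹, -C (w - v)⁻¹, ?_⟩
  have : (C (w - v)⁻¹ * (X 1 - C v) + -C (w - v)⁻¹ * (X 1 - C w) : A0) =
      C ((w - v)⁻¹ * (w - v)) := by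
    rw [C_mul, C_sub]; ring
  rw [this, inv_mul_cancel₀ hne, C_1]

theorem degreeOf_linear (v : ℂ) : degreeOf 1 (X 1 - C v : A0) = 1 := by
  apply le_antisymm
  · refine (degreeOf_sub_le 1 _ _).trans ?_
    simp [degreeOf_X]
  · have h : coeff (Finsupp.single 1 1) (X 1 - C v : A0) ≠ 0 := by
      rw [coeff_sub, coeff_C, if_neg, sub_zero]
      · simp
      · intro h0
        have := DFunLike.congr_fun h0 1
        simp at this
    have := monomial_le_degreeOf 1 (MvPolynomial.mem_support_iff.mpr h)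
    simpa using this

theorem card_le_of_linear_dvd {P : A0} (hP : P ≠ 0) (V : Finset ℂ)
    (hV : ∀ v ∈ V, (X 1 - C v : A0) ∣ P) : V.card ≤ degreeOf 1 P := by
  have hdvd : (∏ v ∈ V, (X 1 - C v : A0)) ∣ P := by
    apply Finset.prod_dvd_of_coprime
    · intro v _ w _ hvw
      exact isCoprime_linear hvw
    · exact hV
  obtain ⟨R, hR⟩ := hdvd
  have hprod : (∏ v ∈ V, (X 1 - C v : A0)) ≠ 0 := by
    intro h; apply hP; rw [hR, h, zero_mul]
  have hR0 : R ≠ 0 := by
    intro h; apply hP; rw [hR, h, mul_zero]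
  rw [hR, degreeOf_mul_eq hprod hR0, degreeOf_prod_eq]
  · rw [Finset.sum_congr rfl fun v _ => degreeOf_linear v]
    simp
  · intro v _
    exact X_sub_C_ne_zero 1 v

theorem dvd_of_dvd_tr {y : ℂ} (s : Fin 3 → ℕ) {P : A0} (h : (X 1 - C y : A0) ∣ Γ.tr s P) :
    (X 1 - C (Γ.py s * y) : A0) ∣ P := by
  have h1 := map_dvd (Γ.trI s) h
  rw [trI_tr] at h1
  have h2 : Γ.trI s (X 1 - C y : A0) = C (Γ.py s)⁻¹ * (X 1 - C (Γ.py s * y)) := by
    rw [mul_sub, ← C_mul, ← mul_assoc, inv_mul_cancel₀ (py_ne s), one_mul]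
    simp [trI, trA]
  rw [h2] at h1
  exact dvd_of_mul_left_dvd h1

theorem sq_le_of_linear_dvd {P : A0} (hP : P ≠ 0) {y : ℂ} (hy : y ≠ 0) (S : ℕ)
    (h : ∀ s : Fin 3 → ℕ, (∀ i, s i < S) → (X 1 - C y : A0) ∣ Γ.tr s P) :
    S ^ 2 ≤ degreeOf 1 P := by
  classical
  set V : Finset ℂ := (range S ×ˢ range S).image
    (fun p => Γ.β 0 ^ p.1 * Γ.β 2 ^ p.2 * y) with hV
  have hcard : V.card = S ^ 2 := by
    rw [hV, Finset.card_image_of_injOn, Finset.card_product, Finset.card_range, sq]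
    rintro ⟨a, b⟩ _ ⟨a', b'⟩ _ hab
    have := Γ.hY a b a' b' (mul_right_cancel₀ hy hab)
    exact Prod.ext this.1 this.2
  rw [← hcard]
  apply card_le_of_linear_dvd hP
  intro v hv
  obtain ⟨⟨a, b⟩, hab, rfl⟩ := Finset.mem_image.mp hv
  rw [Finset.mem_product, Finset.mem_range, Finset.mem_range] at hab
  have h1 := dvd_of_dvd_tr ![a, 0, b] (h ![a, 0, b] (by
    intro i
    fin_cases i
    · exact hab.1
    · exact lt_of_le_of_lt (Nat.zero_le _) hab.1
    · exact hab.2))
  have h2 : Γ.py ![a, 0, b] = Γ.β 0 ^ a * Γ.β 2 ^ b := by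
    simp [py, Fin.prod_univ_three]
  rwa [h2] at h1

theorem eq_C_of_degreeOf_zero {Q : A0} (h : ∀ i, degreeOf i Q = 0) : Q = C (coeff 0 Q) := by
  ext m
  rw [coeff_C]
  split_ifs with hm
  · rw [hm]
  · by_contra hne
    apply hm
    ext i
    have := monomial_le_degreeOf i (MvPolynomial.mem_support_iff.mpr hne)
    rw [h i] at this
    exact (Nat.le_zero.mp this).symm

/-- Degree one in `Y₁`: the common factor `Y₁ - y` is impossible. -/
theorem case_linear {P : A0} (hP : P ≠ 0) {T S : ℕ} (hT : 0 < T) (hdeg : degreeOf 1 P < S ^ 2)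
    {y : ℂ} (hy : y ≠ 0) : ¬ ∀ f ∈ Γ.G P T S, (X 1 - C y : A0) ∣ f := by
  intro h
  have := sq_le_of_linear_dvd (Γ := Γ) hP hy S (fun s hs =>
    h _ (Submodule.subset_span ⟨0, hT, s, hs, rfl⟩))
  omega

theorem case_factor {P Q : A0} (hP : P ≠ 0) {T S : ℕ} (hS : 0 < S)
    (hT : ∀ i, degreeOf i P < T) (hdeg : degreeOf 1 P < S ^ 2) (hQ : Prime Q)
    (hQ1 : ¬ Q ∣ X 1) (hQ2 : ¬ Q ∣ X 2) : ¬ ∀ f ∈ Γ.G P T S, Q ∣ f := by
  intro h
  have hT0 : 0 < T := lt_of_le_of_lt (Nat.zero_le _) (hT 0)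
  have hQp : (Ideal.span {Q}).IsPrime := (Ideal.span_singleton_prime hQ.ne_zero).mpr hQ
  by_cases hst : Q ∣ dV Q
  · -- `(Q)` is stable
    have hstab : ∀ f ∈ Ideal.span {Q}, dV f ∈ Ideal.span {Q} := by
      intro f hf
      rw [Ideal.mem_span_singleton] at hf ⊢
      obtain ⟨g, rfl⟩ := hf
      rw [Derivation.leibniz, smul_eq_mul, smul_eq_mul]
      exact dvd_add (dvd_mul_right _ _) (hst.mul_left _)
    obtain ⟨y, hy, hall⟩ := stable_dV hQp hstab (by rwa [Ideal.mem_span_singleton])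
      (Ideal.mem_span_singleton_self Q) hQ.ne_zero
    have hy0 : y ≠ 0 := by
      rintro rfl
      rw [C_0, sub_zero, Ideal.mem_span_singleton] at hy
      exact hQ1 hy
    refine case_linear (Γ := Γ) hP hT0 hdeg hy0 fun f hf => ?_
    exact hall f (Ideal.mem_span_singleton.mpr (h f hf))
  · -- `Q ^ T` divides `P`
    have hpow : ∀ m ≤ T, Q ^ m ∣ P := by
      intro m
      induction m with
      | zero => intro _; simp
      | succ m ih =>
        intro hm
        obtain ⟨R, hR⟩ := ih (by omega)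
        have h1 := (iter_pow_mul (Ideal.span {Q}) (Ideal.mem_span_singleton_self Q) m R).2
        rw [← hR] at h1
        have h2 : dV^[m] P ∈ Ideal.span {Q} := by
          rw [Ideal.mem_span_singleton]
          apply h
          exact Submodule.subset_span ⟨m, by omega, 0, fun _ => hS, by rw [tr_zero]⟩
        have h3 := (Ideal.span {Q}).sub_mem h2 h1
        rw [sub_sub_cancel] at h3
        have h4 : R ∈ Ideal.span {Q} := by
          rcases hQp.mem_or_mem h3 with h5 | h5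
          · rcases hQp.mem_or_mem h5 with h6 | h6
            · exact absurd h6 (factorial_notMem hQp m)
            · exact absurd (Ideal.mem_span_singleton.mp (hQp.mem_of_pow_mem _ h6)) hst
          · exact h5
        rw [Ideal.mem_span_singleton] at h4
        rw [hR, pow_succ]
        exact mul_dvd_mul_left _ h4
    obtain ⟨R, hR⟩ := hpow T le_rfl
    have hR0 : R ≠ 0 := by rintro rfl; exact hP (by rw [hR, mul_zero])
    have hdeg0 : ∀ i, degreeOf i Q = 0 := by
      intro i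
      by_contra hne
      have h1 := hT i
      rw [hR, degreeOf_mul_eq (pow_ne_zero _ hQ.ne_zero) hR0, degreeOf_pow_eq _ _ _ hQ.ne_zero]
        at h1
      have : T * 1 ≤ T * degreeOf i Q := Nat.mul_le_mul_left _ (Nat.one_le_iff_ne_zero.mpr hne)
      omega
    have hQC := eq_C_of_degreeOf_zero hdeg0
    apply hQ.not_isUnit
    rw [hQC]
    apply IsUnit.map
    rw [isUnit_iff_ne_zero]
    intro h0
    rw [h0, C_0] at hQC
    exact hQ.ne_zero hQC

end PtData

end FiveNum
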