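import Pool.Agent.FiveNum.Case1

/-!
# Zero estimate, second case: no common component of positive dimension
-/

open MvPolynomial Module Finset

namespace FiveNum

/-- A vector space is not a finite union of proper subspaces. -/
theorem exists_avoid {κ : Type*} [Finite κ] (G0 : Submodule ℂ A0) (B : κ → Submodule ℂ A0)
    (h : ∀ k, ¬ G0 ≤ B k) : ∃ f ∈ G0, ∀ k, f ∉ B k := by
  by_contra hcon
  push Not at hcon
  obtain ⟨k, hk⟩ := Subspace.exists_eq_top_of_iUnion_eq_univ (k := ℂ) (E := G0)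
    (p := fun k => (B k).comap G0.subtype) (by
      rw [Set.eq_univ_iff_forall]
      intro f
      obtain ⟨k, hk⟩ := hcon f.1 f.2
      exact Set.mem_iUnion.mpr ⟨k, hk⟩)
  apply h k
  intro f hf
  have : (⟨f, hf⟩ : G0) ∈ (B k).comap G0.subtype := by rw [hk]; trivial
  exact this

namespace PtData

variable {Γ : PtData}

/-- A second polynomial coprime to the first one. -/
theorem exists_coprime {P : A0} (hP : P ≠ 0) {T S : ℕ} (hS : 0 < S)
    (hT : ∀ i, degreeOf i P < T) (hdeg : degreeOf 1 P < S ^ 2)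
    (hP1 : ¬ (X 1 : A0) ∣ P) (hP2 : ¬ (X 2 : A0) ∣ P) :
    ∃ P2 ∈ Γ.G P T S, P2 ≠ 0 ∧ ∀ b, P ∣ P2 * b → P ∣ b := by
  classical
  set F := (UniqueFactorizationMonoid.factors P).toFinset with hF
  have hprime : ∀ Q ∈ F, Prime Q := fun Q hQ =>
    UniqueFactorizationMonoid.prime_of_factor Q (Multiset.mem_toFinset.mp hQ)
  have hdvd : ∀ Q ∈ F, Q ∣ P := fun Q hQ =>
    UniqueFactorizationMonoid.dvd_of_mem_factors (Multiset.mem_toFinset.mp hQ)
  obtain ⟨P2, hP2G, hP2'⟩ := exists_avoid (κ := Option F) (Γ.G P T S)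
    (fun Q => match Q with
      | none => ⊥
      | some Q => (Ideal.span {Q.1}).restrictScalars ℂ) (by
    rintro (_ | ⟨Q, hQ⟩)
    · intro hle
      have hT0 : 0 < T := lt_of_le_of_lt (Nat.zero_le _) (hT 0)
      exact hP ((Submodule.mem_bot ℂ).mp (hle (self_mem_G hT0 hS)))
    · intro hle
      refine case_factor (Γ := Γ) hP hS hT hdeg (hprime Q hQ) ?_ ?_ fun f hf => ?_
      · intro h1
        have := (hprime Q hQ).associated_of_dvd X_prime h1
        exact hP1 (this.symm.dvd.trans (hdvd Q hQ))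
      · intro h1
        have := (hprime Q hQ).associated_of_dvd X_prime h1
        exact hP2 (this.symm.dvd.trans (hdvd Q hQ))
      · have := hle hf
        rw [Submodule.restrictScalars_mem, Ideal.mem_span_singleton] at this
        exact this)
  refine ⟨P2, hP2G, ?_, ?_⟩
  · have := hP2' none
    simpa using this
  · intro b hb
    apply UniqueFactorizationMonoid.dvd_of_dvd_mul_right_of_no_prime_factors hP _ hb
    intro Q hQP hQP2 hQ
    obtain ⟨Q', hQ', hass⟩ := UniqueFactorizationMonoid.exists_mem_factors_of_dvd hP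
      hQ.irreducible hQP
    have := hP2' (some ⟨Q', Multiset.mem_toFinset.mpr hQ'⟩)
    rw [Submodule.restrictScalars_mem, Ideal.mem_span_singleton] at this
    exact this (hass.symm.dvd.trans hQP2)

/-- The preimage of a prime under a translation. -/
noncomputable def pull (Γ : PtData) (p : Ideal A0) (s : Fin 3 → ℕ) : Ideal A0 :=
  p.comap (Γ.trE s).toRingHom

theorem mem_pull {p : Ideal A0} {s : Fin 3 → ℕ} {f : A0} : f ∈ Γ.pull p s ↔ Γ.tr s f ∈ p :=
  Iff.rfl

theorem pull_isPrime {p : Ideal A0} (hp : p.IsPrime) (s : Fin 3 → ℕ) :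
    (Γ.pull p s).IsPrime := by
  constructor
  · intro h
    rw [Ideal.eq_top_iff_one, mem_pull, map_one] at h
    exact hp.ne_top ((Ideal.eq_top_iff_one p).mpr h)
  · intro f g h
    rw [mem_pull, map_mul] at h
    exact hp.mem_or_mem h

/-- The automorphism `tr s' ∘ (tr s)⁻¹`. -/
noncomputable def trans (Γ : PtData) (s s' : Fin 3 → ℕ) : A0 ≃+* A0 :=
  (Γ.trE s).symm.trans (Γ.trE s')

theorem trans_apply (s s' : Fin 3 → ℕ) (f : A0) :
    (Γ.trans s s').toRingHom f = Γ.tr s' (Γ.trI s f) := rfl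

theorem pull_eq_of_le {p : Ideal A0} (s s' : Fin 3 → ℕ) (h : Γ.pull p s ≤ Γ.pull p s') :
    Γ.pull p s = Γ.pull p s' := by
  have h1 : p ≤ p.comap (Γ.trans s s').toRingHom := by
    intro g hg
    have h2 : Γ.trI s g ∈ Γ.pull p s := by
      rw [mem_pull, tr_trI]; exact hg
    rw [Ideal.mem_comap, trans_apply]
    have h3 := h h2
    rwa [mem_pull] at h3
  have h3 := comap_eq_of_le _ h1
  apply le_antisymm h
  intro f hf
  rw [mem_pull] at hf ⊢
  rw [← h3, Ideal.mem_comap, trans_apply, trI_tr]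
  exact hf

theorem pull_add {p : Ideal A0} (s t : Fin 3 → ℕ) : Γ.pull p (s + t) = Γ.pull (Γ.pull p s) t := by
  ext f
  rw [mem_pull, mem_pull, mem_pull, tr_tr]

theorem pull_injective (s : Fin 3 → ℕ) : Function.Injective fun p => Γ.pull p s := by
  intro p q h
  ext f
  have h1 : Γ.trI s f ∈ Γ.pull p s ↔ Γ.trI s f ∈ Γ.pull q s := by
    simp only at h
    rw [h]
  rwa [mem_pull, mem_pull, tr_trI] at h1

/-- No linear polynomial in the variable `c` lies in a translate. -/
theorem linear_notMem_pull {p : Ideal A0} {c : Fin 3}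
    (hc : ∀ a : ℂ, X c - C a ∉ p) (s : Fin 3 → ℕ) (a : ℂ) : X c - C a ∉ Γ.pull p s := by
  rw [mem_pull, map_sub, tr_C]
  fin_cases c
  · intro h
    apply hc (a - Γ.px s)
    simp only [Fin.zero_eta] at h ⊢
    rw [tr_X0] at h
    convert h using 1
    rw [C_sub]; ring
  · intro h
    apply hc ((Γ.py s)⁻¹ * a)
    simp only [Fin.mk_one] at h ⊢
    rw [tr_X1] at h
    have := p.mul_mem_left (C (Γ.py s)⁻¹) h
    rwa [mul_sub, ← mul_assoc, ← C_mul, ← C_mul, inv_mul_cancel₀ (py_ne s), C_1, one_mul] at this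
  · intro h
    apply hc ((Γ.pz s)⁻¹ * a)
    simp only [Fin.reduceFinMk] at h ⊢
    rw [tr_X2] at h
    have := p.mul_mem_left (C (Γ.pz s)⁻¹) h
    rwa [mul_sub, ← mul_assoc, ← C_mul, ← C_mul, inv_mul_cancel₀ (pz_ne s), C_1, one_mul] at this

theorem span_powers (c : Fin 3) (N : ℕ) (e0 : Fin 3 → ℕ) (he0 : N ≤ e0 c) :
    ∃ E : Submodule ℂ A0, FiniteDimensional ℂ E ∧ E ≤ box e0 ∧ finrank ℂ E = N + 1 ∧
      ∀ f ∈ E, ∃ q : Polynomial ℂ, f = Polynomial.aeval (X c : A0) q := by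
  classical
  set v : Fin (N + 1) → A0 := fun j => (X c : A0) ^ (j : ℕ) with hv
  have hli : LinearIndependent ℂ v := by
    have h1 : LinearIndependent ℂ (fun m : Fin 3 →₀ ℕ => (monomial m (1 : ℂ) : A0)) := by
      have := (MvPolynomial.basisMonomials (Fin 3) ℂ).linearIndependent
      rwa [coe_basisMonomials] at this
    have h2 := h1.comp (fun j : Fin (N + 1) => Finsupp.single c (j : ℕ)) (by
      intro i j hij
      have := DFunLike.congr_fun hij c
      simp only [Finsupp.single_eq_same] at this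
      exact Fin.ext this)
    convert h2 using 1
    ext1 j
    simp only [hv, Function.comp_apply]
    rw [X_pow_eq_monomial]
  refine ⟨Submodule.span ℂ (Set.range v),
    FiniteDimensional.span_of_finite ℂ (Set.finite_range v), ?_, ?_, ?_⟩
  · rw [Submodule.span_le]
    rintro _ ⟨j, rfl⟩
    rw [SetLike.mem_coe, mem_box_iff_coeff]
    intro m hm i
    simp only [hv] at hm
    rw [X_pow_eq_monomial, coeff_monomial] at hm
    split_ifs at hm with h
    · rw [← h]
      by_cases hi : i = c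
      · subst hi
        rw [Finsupp.single_eq_same]
        have := j.2
        omega
      · rw [Finsupp.single_apply, if_neg (Ne.symm hi)]
        exact Nat.zero_le _
    · exact absurd rfl hm
  · rw [finrank_span_eq_card hli, Fintype.card_fin]
  · intro f hf
    rw [Submodule.mem_span_range_iff_exists_fun] at hf
    obtain ⟨a, rfl⟩ := hf
    refine ⟨∑ j, Polynomial.C (a j) * Polynomial.X ^ (j : ℕ), ?_⟩
    rw [map_sum]
    apply Finset.sum_congr rfl
    intro j _
    simp [hv, smul_eq_C_mul]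

/-- Counting translates of a positive dimensional prime. -/
theorem card_translates_le {D : Fin 3 → ℕ} (hD : ∀ i, 1 ≤ D i) {P1 P2 : A0}
    (hP1 : P1 ≠ 0) (hd1 : ∀ i, degreeOf i P1 = D i) (hP2 : P2 ≠ 0) (hd2 : P2 ∈ box D)
    (hcop : ∀ b, P1 ∣ P2 * b → P1 ∣ b) {p : Ideal A0} (hp : p.IsPrime)
    (hnst : ∃ h ∈ p, dV h ∉ p) {c : Fin 3} (hc : ∀ a : ℂ, X c - C a ∉ p)
    {ι : Type*} [Fintype ι] (s : ι → Fin 3 → ℕ)
    (hs : ∀ i j, i ≠ j → Γ.pull p (s i) ≠ Γ.pull p (s j)) (T : ℕ)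
    (h1 : ∀ i, ∀ t < T, dV^[t] P1 ∈ Γ.pull p (s i))
    (h2 : ∀ i, ∀ t < T, dV^[t] P2 ∈ Γ.pull p (s i)) :
    Fintype.card ι * T * D c ≤ 6 * (D 0 * D 1 * D 2) := by
  obtain ⟨h, hh, hh'⟩ := hnst
  obtain ⟨c0, hc0⟩ := exists_indep (q := fun i => Γ.pull p (s i))
    (fun i => pull_isPrime hp (s i))
    (fun i j hij hle => hs j i (Ne.symm hij) (pull_eq_of_le _ _ hle))
    (fun i => ⟨Γ.trI (s i) h, by rw [mem_pull, tr_trI]; exact hh, by
      rw [mem_pull, ← dV_tr, tr_trI]; exact hh'⟩) T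
  set k0 : ℕ := c0 0 + c0 1 + c0 2 + 2 with hk0
  have hk0' : ∀ i, c0 i ≤ k0 := by
    intro i; fin_cases i <;> simp [hk0] <;> omega
  have key : ∀ K : ℕ, Fintype.card ι * T * (K * D c + 1) ≤ 6 * (K + k0) * (D 0 * D 1 * D 2) := by
    intro K
    obtain ⟨E, hEfin, hE, hEr, hEq⟩ := span_powers c (K * D c) (K • D) (by simp)
    obtain ⟨W, hW, hWr, hWI⟩ := hc0 E (K • D) hE (by
      intro i f hf hfp
      obtain ⟨q, rfl⟩ := hEq f hf
      by_contra hne
      have hq : q ≠ 0 := by rintro rfl; exact hne (map_zero _)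
      obtain ⟨a, ha⟩ := exists_linear_mem (pull_isPrime hp (s i)) c hq hfp
      exact linear_notMem_pull hc (s i) a ha)
    have hle : W ≤ box ((K + k0) • D) := by
      refine hW.trans (box_mono ?_)
      intro i
      simp only [Pi.add_apply, Pi.smul_apply, smul_eq_mul, add_mul]
      have : k0 * 1 ≤ k0 * D i := Nat.mul_le_mul_left _ (hD i)
      have := hk0' i
      omega
    have := finrank_le_of_disjoint_ideal hD hP1 hd1 hP2 hd2 hcop (K + k0) (by omega) hle (by
      intro f hf hfI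
      apply hWI f hf
      intro i t ht
      obtain ⟨a, b, hab⟩ := Ideal.mem_span_pair.mp hfI
      rw [← hab, iter_add']
      refine Ideal.add_mem _ ?_ ?_
      · exact iter_mul_mem _ t P1 a fun i' hi' => h1 i i' (by omega)
      · exact iter_mul_mem _ t P2 b fun i' hi' => h2 i i' (by omega))
    rwa [hWr, hEr] at this
  by_contra hcon
  push Not at hcon
  have h3 := key (6 * k0 * (D 0 * D 1 * D 2) + 1)
  set Pr := D 0 * D 1 * D 2 with hPr
  set M := Fintype.card ι * T with hM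
  set K := 6 * k0 * Pr + 1 with hK
  have h4 : M * (K * D c + 1) ≥ K * (6 * Pr + 1) := by
    calc M * (K * D c + 1) ≥ M * (K * D c) := Nat.mul_le_mul_left _ (Nat.le_succ _)
      _ = K * (M * D c) := by ring
      _ ≥ K * (6 * Pr + 1) := Nat.mul_le_mul_left _ hcon
  have h5 : K * (6 * Pr + 1) ≤ 6 * (K + k0) * Pr := h4.trans h3
  have h6 : K ≤ 6 * k0 * Pr := by nlinarith
  omega

theorem G_mono {P : A0} {T T' S S' : ℕ} (hT : T ≤ T') (hS : S ≤ S') :
    Γ.G P T S ≤ Γ.G P T' S' := by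
  apply Submodule.span_mono
  rintro _ ⟨t, ht, s, hs, rfl⟩
  exact ⟨t, ht.trans_le hT, s, fun i => (hs i).trans_le hS, rfl⟩

theorem pull_sub_eq {p : Ideal A0} {s t : Fin 3 → ℕ} (h : Γ.pull p (s + t) = Γ.pull p t) :
    Γ.pull p s = p := by
  rw [pull_add] at h
  exact pull_injective t h

theorem exists_period {p : Ideal A0} (i : Fin 3) {S : ℕ}
    (h : ¬ ∀ a b : Fin S, a ≠ b →
      Γ.pull p (Pi.single i (a : ℕ)) ≠ Γ.pull p (Pi.single i (b : ℕ))) :
    ∃ d : ℕ, 0 < d ∧ Γ.pull p (Pi.single i d) = p := by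
  push Not at h
  obtain ⟨a, b, hab, heq⟩ := h
  have hne : (a : ℕ) ≠ b := fun h => hab (Fin.ext h)
  rcases Nat.lt_or_gt_of_ne hne with hlt | hgt
  · refine ⟨b - a, by omega, ?_⟩
    apply pull_sub_eq (t := Pi.single i (a : ℕ))
    rw [← Pi.single_add, Nat.sub_add_cancel hlt.le]
    exact heq.symm
  · refine ⟨a - b, by omega, ?_⟩
    apply pull_sub_eq (t := Pi.single i (b : ℕ))
    rw [← Pi.single_add, Nat.sub_add_cancel hgt.le]
    exact heq

/-- No prime of positive dimension contains all derived translates. -/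
theorem case_prime {D : Fin 3 → ℕ} (hD : ∀ i, 1 ≤ D i) {P1 P2 : A0}
    (hP1 : P1 ≠ 0) (hd1 : ∀ i, degreeOf i P1 = D i) {T S : ℕ} (hS0 : 0 < S)
    (hTD : ∀ i, D i < T) (hSD : D 1 < S ^ 2) (hP2G : P2 ∈ Γ.G P1 T S) (hP2 : P2 ≠ 0)
    (hcop : ∀ b, P1 ∣ P2 * b → P1 ∣ b)
    (n1 : 6 * (D 1 * D 2) < S * T) (n2 : 6 * (D 0 * D 2) < S ^ 2 * T)
    (n3 : 6 * (D 0 * D 1) < S ^ 2 * T)
    {p : Ideal A0} (hp : p.IsPrime) (hX1 : (X 1 : A0) ∉ p) (hX2 : (X 2 : A0) ∉ p)
    (hG : ∀ f ∈ Γ.G P1 (T + T) (S + S), f ∈ p) (hnp : ∃ c, ∀ a : ℂ, X c - C a ∉ p) : False := by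
  have hT0 : 0 < T := lt_of_le_of_lt (Nat.zero_le _) (hTD 0)
  have hP1b : P1 ∈ box D := by rw [mem_box_iff_degreeOf]; intro i; rw [hd1 i]
  have hP2b : P2 ∈ box D := G_le_box hP1b T S hP2G
  have hP1G : P1 ∈ Γ.G P1 T S := self_mem_G hT0 hS0
  -- `p` is not stable
  have hnst : ∃ h ∈ p, dV h ∉ p := by
    by_contra hcon
    push Not at hcon
    obtain ⟨y, hy, hall⟩ := stable_dV hp hcon hX2
      (hG P1 (self_mem_G (by omega) (by omega))) hP1
    have hy0 : y ≠ 0 := by
      rintro rfl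
      rw [C_0, sub_zero] at hy
      exact hX1 hy
    refine case_linear (Γ := Γ) hP1 hT0 (by rw [hd1 1]; exact hSD) hy0 fun f hf => ?_
    exact hall f (hG f (G_mono (by omega) (by omega) hf))
  have hmem : ∀ f ∈ Γ.G P1 T S, ∀ s : Fin 3 → ℕ, (∀ i, s i < S) → ∀ t < T,
      dV^[t] f ∈ Γ.pull p s := by
    intro f hf s hs t ht
    rw [mem_pull, ← iter_tr]
    exact hG _ (iter_tr_mem_G hf ht hs)
  by_cases hA : ∀ a : ℂ, X 0 - C a ∉ p
  · -- `X` is transcendental modulo `p`
    have hdir : ∀ i : Fin 3, ∃ d : ℕ, 0 < d ∧ Γ.pull p (Pi.single i d) = p := by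
      intro i
      apply exists_period (S := S) i
      intro hdist
      have := card_translates_le hD hP1 hd1 hP2 hP2b hcop hp hnst hA
        (fun a : Fin S => Pi.single i (a : ℕ)) hdist T
        (fun a => hmem P1 hP1G _ (by
          intro j
          by_cases hj : j = i
          · subst hj; rw [Pi.single_eq_same]; exact a.2
          · rw [Pi.single_eq_of_ne hj]; exact hS0))
        (fun a => hmem P2 hP2G _ (by
          intro j
          by_cases hj : j = i
          · subst hj; rw [Pi.single_eq_same]; exact a.2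
          · rw [Pi.single_eq_of_ne hj]; exact hS0))
      rw [Fintype.card_fin] at this
      have h0 := hD 0
      have : D 0 * (S * T) ≤ D 0 * (6 * (D 1 * D 2)) := by
        calc D 0 * (S * T) = S * T * D 0 := by ring
          _ ≤ _ := this
          _ = _ := by ring
      have := Nat.le_of_mul_le_mul_left this h0
      omega
    obtain ⟨d0, hd0, hp0⟩ := hdir 0
    obtain ⟨d1, hd1', hp1⟩ := hdir 1
    set s : Fin 3 → ℕ := Pi.single 0 d0 + (Pi.single 1 d1 + Pi.single 1 d1) with hs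
    have hps : Γ.pull p s = p := by
      rw [hs, pull_add, hp0, pull_add, hp1, hp1]
    have hξ1 : Γ.ξ 1 ≠ 0 := by
      intro h
      have := (Γ.hX 1 0 0 0 (by rw [h]; simp)).1
      omega
    have hpx : Γ.px s = 2 * d1 * Γ.ξ 1 := by
      have h1 : ∀ (i : Fin 3) (d : ℕ), Γ.px (Pi.single i d) = d * Γ.ξ i := by
        intro i d
        rw [px, Finset.sum_eq_single i]
        · rw [Pi.single_eq_same]
        · intro j _ hj
          rw [Pi.single_eq_of_ne hj, Nat.cast_zero, zero_mul]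
        · intro h; exact absurd (Finset.mem_univ i) h
      rw [hs, px_add, px_add, h1, h1, Γ.ξ0]
      ring
    have hpy : Γ.py s = Γ.β 0 ^ d0 := by
      simp only [py, hs, Fin.prod_univ_three, Pi.add_apply]
      simp only [Pi.single_eq_same, ne_eq, zero_ne_one, not_false_eq_true, Pi.single_eq_of_ne,
        one_ne_zero, add_zero, zero_add, Fin.reduceEq, pow_zero, mul_one]
      rw [← two_mul, pow_mul, Γ.β1, one_pow, mul_one]
    have hpz : Γ.pz s = Γ.ω 0 ^ d0 := by
      simp only [pz, hs, Fin.prod_univ_three, Pi.add_apply]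
      simp only [Pi.single_eq_same, ne_eq, zero_ne_one, not_false_eq_true, Pi.single_eq_of_ne,
        one_ne_zero, add_zero, zero_add, Fin.reduceEq, pow_zero, mul_one]
      rw [Γ.ω1, one_pow, mul_one]
    have hd1c : (d1 : ℂ) ≠ 0 := by exact_mod_cast hd1'.ne'
    refine not_stable_trA hp (x := Γ.px s) (y := Γ.py s) (z := Γ.pz s) ?_ (py_ne s) (pz_ne s)
      ?_ ?_ hX1 hX2 (hG P1 (self_mem_G (by omega) (by omega))) hP1
    · rw [hpx]
      exact mul_ne_zero (mul_ne_zero two_ne_zero hd1c) hξ1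
    · intro a b a' b' hab
      rw [hpy, hpz, ← pow_mul, ← pow_mul, ← pow_mul, ← pow_mul] at hab
      obtain ⟨e1, e2⟩ := Γ.hchar _ _ _ _ hab
      exact ⟨Nat.eq_of_mul_eq_mul_left hd0 e1, Nat.eq_of_mul_eq_mul_left hd0 e2⟩
    · intro f hf
      rw [← hps, mem_pull] at hf
      exact hf
  · -- `X` is constant modulo `p`
    push Not at hA
    obtain ⟨x0, hx0⟩ := hA
    obtain ⟨c, hc⟩ := hnp
    have hc0 : c ≠ 0 := by
      rintro rfl
      exact hc x0 hx0
    have hdist : ∀ a b : Fin S × Fin S, a ≠ b →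
        Γ.pull p ![0, (a.1 : ℕ), (a.2 : ℕ)] ≠ Γ.pull p ![0, (b.1 : ℕ), (b.2 : ℕ)] := by
      rintro ⟨a1, a2⟩ ⟨b1, b2⟩ hab heq
      apply hab
      have h1 : (X 0 - C (x0 + Γ.px ![0, (a1 : ℕ), (a2 : ℕ)]) : A0) ∈
          Γ.pull p ![0, (a1 : ℕ), (a2 : ℕ)] := by
        rw [mem_pull, map_sub, tr_X0, tr_C]
        convert hx0 using 1
        rw [C_add]; ring
      have h2 := h1
      rw [heq, mem_pull, map_sub, tr_X0, tr_C] at h2
      have h3 := p.sub_mem h2 hx0
      have h4 : (C (Γ.px ![0, (b1 : ℕ), (b2 : ℕ)] - Γ.px ![0, (a1 : ℕ), (a2 : ℕ)]) : A0) ∈ p := by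
        convert h3 using 1
        rw [C_add, C_sub]; ring
      have h5 : Γ.px ![0, (b1 : ℕ), (b2 : ℕ)] - Γ.px ![0, (a1 : ℕ), (a2 : ℕ)] = 0 := by
        by_contra hne
        apply hp.ne_top
        rw [Ideal.eq_top_iff_one]
        have := p.mul_mem_left
          (C (Γ.px ![0, (b1 : ℕ), (b2 : ℕ)] - Γ.px ![0, (a1 : ℕ), (a2 : ℕ)])⁻¹) h4
        rwa [← C_mul, inv_mul_cancel₀ hne, C_1] at this
      have h6 := Γ.hX b1 b2 a1 a2 (by
        have := sub_eq_zero.mp h5
        simpa [px, Fin.sum_univ_three] using this)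
      exact Prod.ext (Fin.ext h6.1.symm) (Fin.ext h6.2.symm)
    have hsS : ∀ a : Fin S × Fin S, ∀ i, (![0, (a.1 : ℕ), (a.2 : ℕ)] : Fin 3 → ℕ) i < S := by
      intro a i
      fin_cases i
      · exact hS0
      · exact a.1.2
      · exact a.2.2
    have := card_translates_le hD hP1 hd1 hP2 hP2b hcop hp hnst hc
      (fun a : Fin S × Fin S => ![0, (a.1 : ℕ), (a.2 : ℕ)]) hdist T
      (fun a => hmem P1 hP1G _ (hsS a)) (fun a => hmem P2 hP2G _ (hsS a))
    rw [Fintype.card_prod, Fintype.card_fin] at this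
    have hc12 : c = 1 ∨ c = 2 := by
      fin_cases c
      · exact absurd rfl hc0
      · exact Or.inl rfl
      · exact Or.inr rfl
    rcases hc12 with rfl | rfl
    · have h0 := hD 1
      have : D 1 * (S ^ 2 * T) ≤ D 1 * (6 * (D 0 * D 2)) := by
        calc D 1 * (S ^ 2 * T) = S * S * T * D 1 := by ring
          _ ≤ _ := this
          _ = _ := by ring
      have := Nat.le_of_mul_le_mul_left this h0
      omega
    · have h0 := hD 2
      have : D 2 * (S ^ 2 * T) ≤ D 2 * (6 * (D 0 * D 1)) := by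
        calc D 2 * (S ^ 2 * T) = S * S * T * D 2 := by ring
          _ ≤ _ := this
          _ = _ := by ring
      have := Nat.le_of_mul_le_mul_left this h0
      omega

end PtData

end FiveNum
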