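import Pool.Agent.FiveNum.Case2

/-!
# Zero estimate, third case: counting points
-/

open MvPolynomial Module Finset

namespace FiveNum

/-- The saturation of `(P₁, P₂)` with respect to `Y₁ Y₂`. -/
def sat (P1 P2 : A0) : Ideal A0 where
  carrier := {f | ∃ m : ℕ, (X 1 * X 2) ^ m * f ∈ Ideal.span {P1, P2}}
  zero_mem' := ⟨0, by simp⟩
  add_mem' := by
    rintro f g ⟨m, hm⟩ ⟨n, hn⟩
    refine ⟨m + n, ?_⟩
    have : (X 1 * X 2 : A0) ^ (m + n) * (f + g) =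
        (X 1 * X 2) ^ n * ((X 1 * X 2) ^ m * f) + (X 1 * X 2) ^ m * ((X 1 * X 2) ^ n * g) := by
      ring
    rw [this]
    exact Ideal.add_mem _ (Ideal.mul_mem_left _ _ hm) (Ideal.mul_mem_left _ _ hn)
  smul_mem' := by
    rintro c f ⟨m, hm⟩
    refine ⟨m, ?_⟩
    have : (X 1 * X 2 : A0) ^ m * (c • f) = c * ((X 1 * X 2) ^ m * f) := by
      rw [smul_eq_mul]; ring
    rw [this]
    exact Ideal.mul_mem_left _ _ hm

theorem mem_sat {P1 P2 f : A0} :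
    f ∈ sat P1 P2 ↔ ∃ m : ℕ, (X 1 * X 2) ^ m * f ∈ Ideal.span {P1, P2} := Iff.rfl

theorem span_le_sat {P1 P2 : A0} : Ideal.span {P1, P2} ≤ sat P1 P2 :=
  fun f hf => ⟨0, by simpa using hf⟩

theorem mem_sat_of_X1 {P1 P2 f : A0} (h : X 1 * f ∈ sat P1 P2) : f ∈ sat P1 P2 := by
  obtain ⟨m, hm⟩ := h
  refine ⟨m + 1, ?_⟩
  have : (X 1 * X 2 : A0) ^ (m + 1) * f = X 2 * ((X 1 * X 2) ^ m * (X 1 * f)) := by ring
  rw [this]
  exact Ideal.mul_mem_left _ _ hm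

theorem mem_sat_of_X2 {P1 P2 f : A0} (h : X 2 * f ∈ sat P1 P2) : f ∈ sat P1 P2 := by
  obtain ⟨m, hm⟩ := h
  refine ⟨m + 1, ?_⟩
  have : (X 1 * X 2 : A0) ^ (m + 1) * f = X 1 * ((X 1 * X 2) ^ m * (X 2 * f)) := by ring
  rw [this]
  exact Ideal.mul_mem_left _ _ hm

/-- The saturation has no associated prime which is a point. -/
theorem sat_unmixed {P1 P2 : A0} (hP1 : P1 ≠ 0) (hP2 : P2 ≠ 0)
    (hcop : ∀ b, P1 ∣ P2 * b → P1 ∣ b) (a : Fin 3 → ℂ) {f : A0}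
    (h : ∀ i, (X i - C (a i)) * f ∈ sat P1 P2) : f ∈ sat P1 P2 := by
  obtain ⟨m0, hm0⟩ := h 0
  obtain ⟨m1, hm1⟩ := h 1
  obtain ⟨m2, hm2⟩ := h 2
  refine ⟨m0 + m1 + m2, ?_⟩
  apply unmixed hP1 hP2 hcop (a 0) (a 1) (a 2)
  · have : (X 0 - C (a 0) : A0) * ((X 1 * X 2) ^ (m0 + m1 + m2) * f) =
      (X 1 * X 2) ^ (m1 + m2) * ((X 1 * X 2) ^ m0 * ((X 0 - C (a 0)) * f)) := by ring
    rw [this]
    exact Ideal.mul_mem_left _ _ hm0
  · have : (X 1 - C (a 1) : A0) * ((X 1 * X 2) ^ (m0 + m1 + m2) * f) =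
      (X 1 * X 2) ^ (m0 + m2) * ((X 1 * X 2) ^ m1 * ((X 1 - C (a 1)) * f)) := by ring
    rw [this]
    exact Ideal.mul_mem_left _ _ hm1
  · have : (X 2 - C (a 2) : A0) * ((X 1 * X 2) ^ (m0 + m1 + m2) * f) =
      (X 1 * X 2) ^ (m0 + m1) * ((X 1 * X 2) ^ m2 * ((X 2 - C (a 2)) * f)) := by ring
    rw [this]
    exact Ideal.mul_mem_left _ _ hm2

/-- A member of a suitable space of polynomials is a nonzerodivisor modulo the saturation. -/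
theorem exists_nonzerodivisor {P1 P2 : A0} (hP1 : P1 ≠ 0) (hP2 : P2 ≠ 0)
    (hcop : ∀ b, P1 ∣ P2 * b → P1 ∣ b) (G0 : Submodule ℂ A0)
    (hG : ∀ p : Ideal A0, p.IsPrime → (X 1 : A0) ∉ p → (X 2 : A0) ∉ p →
      (∀ f ∈ G0, f ∈ p) → ¬ ∃ c, ∀ a : ℂ, X c - C a ∉ p) :
    ∃ P3 ∈ G0, ∀ f, P3 * f ∈ sat P1 P2 → f ∈ sat P1 P2 := by
  classical
  set J := sat P1 P2 with hJ
  have hfin : (associatedPrimes A0 (A0 ⧸ J)).Finite := associatedPrimes.finite A0 (A0 ⧸ J)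
  have hann : ∀ g h : A0, h ∈ (⊥ : Submodule A0 (A0 ⧸ J)).colon {Ideal.Quotient.mk J g} ↔
      h * g ∈ J := by
    intro g h
    rw [Submodule.mem_colon_singleton, Submodule.mem_bot, ← Ideal.Quotient.mk_eq_mk,
      ← Submodule.Quotient.mk_smul, Submodule.Quotient.mk_eq_zero, smul_eq_mul]
  have hass : ∀ p ∈ associatedPrimes A0 (A0 ⧸ J), p.IsPrime ∧ ∃ g : A0, g ∉ J ∧
      ∀ h : A0, h ∈ p ↔ h * g ∈ J := by
    intro p hp
    obtain ⟨hpp, x, hx⟩ := isAssociatedPrime_iff.mp hp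
    obtain ⟨g, rfl⟩ := Ideal.Quotient.mk_surjective x
    have h1 : ∀ h : A0, h ∈ p ↔ h * g ∈ J := by
      intro h
      rw [hx]
      exact hann g h
    refine ⟨hpp, g, ?_, h1⟩
    intro hg
    apply hpp.ne_top
    rw [Ideal.eq_top_iff_one, h1, one_mul]
    exact hg
  have hX1 : ∀ p ∈ associatedPrimes A0 (A0 ⧸ J), (X 1 : A0) ∉ p := by
    intro p hp hmem
    obtain ⟨_, g, hg, h1⟩ := hass p hp
    exact hg (mem_sat_of_X1 ((h1 _).mp hmem))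
  have hX2 : ∀ p ∈ associatedPrimes A0 (A0 ⧸ J), (X 2 : A0) ∉ p := by
    intro p hp hmem
    obtain ⟨_, g, hg, h1⟩ := hass p hp
    exact hg (mem_sat_of_X2 ((h1 _).mp hmem))
  let κ : Set (Ideal A0) :=
    {p | p ∈ associatedPrimes A0 (A0 ⧸ J) ∧ ∃ c, ∀ a : ℂ, X c - C a ∉ p}
  have hκ : Finite κ := (hfin.subset fun p hp => hp.1).to_subtype
  obtain ⟨P3, hP3, hP3'⟩ := exists_avoid (κ := κ) G0
    (fun p => p.1.restrictScalars ℂ) (by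
      rintro ⟨p, hp, hpc⟩ hle
      exact hG p (hass p hp).1 (hX1 p hp) (hX2 p hp) (fun f hf => hle hf) hpc)
  refine ⟨P3, hP3, ?_⟩
  intro f hf
  by_contra hfJ
  have hx : (Ideal.Quotient.mk J f) ≠ 0 := by
    rwa [ne_eq, Ideal.Quotient.eq_zero_iff_mem]
  obtain ⟨p, hp, hle⟩ := exists_le_isAssociatedPrime_of_isNoetherianRing A0
    (Ideal.Quotient.mk J f) hx
  have hP3p : P3 ∈ p := hle ((hann f P3).mpr hf)
  obtain ⟨_, g, hg, h1⟩ := hass p hp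
  by_cases hc : ∃ c, ∀ a : ℂ, X c - C a ∉ p
  · exact hP3' ⟨p, hp, hc⟩ hP3p
  · push Not at hc
    choose a ha using hc
    apply hg
    apply sat_unmixed hP1 hP2 hcop a
    intro i
    exact (h1 _).mp (ha i)

end FiveNum
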