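import Pool.Agent.FiveNum.Ops

/-!
# Eigenvectors of the derivation and of the translations, and stable primes
-/

open MvPolynomial Module Finset

namespace FiveNum

/-- The last nonzero coefficient of a column. -/
theorem exists_top (g : A0) (m : Fin 3 →₀ ℕ) (hm : coeff m g ≠ 0) :
    ∃ k : ℕ, coeff (m + Finsupp.single 0 k) g ≠ 0 ∧
      ∀ j, k < j → coeff (m + Finsupp.single 0 j) g = 0 := by
  classical
  have hfin : {k : ℕ | coeff (m + Finsupp.single 0 k) g ≠ 0}.Finite := by
    apply Set.Finite.subset (Set.finite_Iic (degreeOf 0 g))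
    intro k hk
    have := monomial_le_degreeOf 0 (MvPolynomial.mem_support_iff.mpr hk)
    simp only [Finsupp.coe_add, Pi.add_apply, Finsupp.single_eq_same] at this
    exact le_trans (Nat.le_add_left _ _) this
  have hne : hfin.toFinset.Nonempty := ⟨0, by simpa using hm⟩
  refine ⟨hfin.toFinset.max' hne, ?_, ?_⟩
  · have := hfin.toFinset.max'_mem hne
    simpa using this
  · intro j hj
    by_contra h
    have : j ≤ hfin.toFinset.max' hne := hfin.toFinset.le_max' j (by simpa using h)
    omega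

theorem eig_dV {g : A0} {c : ℂ} (hc : dV g = c • g) :
    ∃ l : ℕ, ∀ m, coeff m g ≠ 0 → m 0 = 0 ∧ m 2 = l := by
  have hco : ∀ m, ((m 2 : ℂ) - c) * coeff m g = (m 0 + 1) * coeff (m + Finsupp.single 0 1) g := by
    intro m
    have := congrArg (coeff m) hc
    rw [coeff_dV, coeff_smul, smul_eq_mul] at this
    linear_combination this
  have h2 : ∀ m, coeff m g ≠ 0 → (m 2 : ℂ) = c := by
    intro m hm
    obtain ⟨k, hk, hk'⟩ := exists_top g m hm
    have h := hco (m + Finsupp.single 0 k)
    rw [add_assoc, ← Finsupp.single_add, hk' (k + 1) (Nat.lt_succ_self k), mul_zero] at h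
    have := (mul_eq_zero.mp h).resolve_right hk
    simpa [sub_eq_zero] using this
  by_cases hg : g = 0
  · exact ⟨0, fun m hm => absurd (by simp [hg]) hm⟩
  obtain ⟨m1, hm1⟩ := exists_coeff_ne_zero hg
  refine ⟨m1 2, fun m hm => ⟨?_, ?_⟩⟩
  · by_contra h0
    set m' : Fin 3 →₀ ℕ := m - Finsupp.single 0 1 with hm'
    have hmm : m' + Finsupp.single 0 1 = m := by
      ext i
      by_cases hi : i = 0
      · subst hi; simp [hm']; omega
      · simp [hm', Ne.symm hi]
    have h := hco m'
    rw [hmm] at h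
    have hm2 : m' 2 = m 2 := by simp [hm']
    rw [hm2, h2 m hm, sub_self, zero_mul] at h
    have := (mul_eq_zero.mp h.symm).resolve_right hm
    have h' : ((m' 0 : ℂ) + 1) ≠ 0 := Nat.cast_add_one_ne_zero _
    exact h' this
  · have := (h2 m hm).trans (h2 m1 hm1).symm
    exact_mod_cast this

theorem eig_trA {g : A0} {x y z c : ℂ} (hx : x ≠ 0) (hy : y ≠ 0) (hz : z ≠ 0)
    (hind : ∀ a b a' b' : ℕ, y ^ a * z ^ b = y ^ a' * z ^ b' → a = a' ∧ b = b')
    (hc : trA x y z g = c • g) :
    ∃ a b : ℕ, ∀ m, coeff m g ≠ 0 → m 0 = 0 ∧ m 1 = a ∧ m 2 = b := by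
  have htop : ∀ m, coeff m g ≠ 0 → (∀ j, 0 < j → coeff (m + Finsupp.single 0 j) g = 0) →
      c = y ^ (m 1) * z ^ (m 2) ∧ m 0 = 0 := by
    intro m hm ht
    have hs : ∀ s ∈ g.support, s 1 = m 1 → s 2 = m 2 → m 0 ≤ s 0 → s = m := by
      intro s hs h1 h2 h0
      by_contra hne
      have h0' : m 0 < s 0 := by
        rcases h0.lt_or_eq with h | h
        · exact h
        · exfalso; apply hne; ext i; fin_cases i
          · exact h.symm
          · exact h1
          · exact h2
      have := ht (s 0 - m 0) (by omega)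
      rw [MvPolynomial.mem_support_iff] at hs
      apply hs
      convert this using 2
      ext i
      fin_cases i
      · simp; omega
      · simpa using h1
      · simpa using h2
    have hcm : c = y ^ (m 1) * z ^ (m 2) := by
      have h := congrArg (coeff m) hc
      rw [coeff_trA, coeff_smul, smul_eq_mul, Finset.sum_eq_single m] at h
      · rw [if_pos ⟨rfl, rfl⟩] at h
        simp only [Nat.choose_self, Nat.cast_one, Nat.sub_self, pow_zero, mul_one] at h
        exact (mul_right_cancel₀ hm (by rw [← h]; ring)).symm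
      · intro s hs' hne
        split_ifs with h12
        · have : s 0 < m 0 := by
            by_contra hlt
            exact hne (hs s hs' h12.1 h12.2 (by omega))
          rw [Nat.choose_eq_zero_of_lt this]; simp
        · rfl
      · intro hm'; exact absurd (MvPolynomial.mem_support_iff.mpr hm) hm'
    refine ⟨hcm, ?_⟩
    by_contra h0
    set m' : Fin 3 →₀ ℕ := m - Finsupp.single 0 1 with hm'
    have hm'0 : m' 0 = m 0 - 1 := by simp [hm']
    have hm'1 : m' 1 = m 1 := by simp [hm']
    have hm'2 : m' 2 = m 2 := by simp [hm']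
    have hne' : m' ≠ m := by
      intro h; rw [h] at hm'0; omega
    have h := congrArg (coeff m') hc
    rw [coeff_trA, coeff_smul, smul_eq_mul, hm'1, hm'2, ← hcm, hm'0] at h
    have hsum : (∑ s ∈ g.support, if s 1 = m 1 ∧ s 2 = m 2 then
        coeff s g * c * (((s 0).choose (m 0 - 1) : ℂ) * x ^ (s 0 - (m 0 - 1))) else 0) =
        coeff m' g * c + coeff m g * c * ((m 0 : ℂ) * x) := by
      classical
      have : ∀ s ∈ g.support, (if s 1 = m 1 ∧ s 2 = m 2 then
        coeff s g * c * (((s 0).choose (m 0 - 1) : ℂ) * x ^ (s 0 - (m 0 - 1))) else 0) =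
        (if s = m' then coeff m' g * c else 0) +
          (if s = m then coeff m g * c * ((m 0 : ℂ) * x) else 0) := by
        intro s hs'
        by_cases hsm : s = m
        · subst hsm
          rw [if_pos ⟨rfl, rfl⟩, if_neg (Ne.symm hne'), if_pos rfl, zero_add]
          have : (s 0).choose (s 0 - 1) = s 0 := by
            obtain ⟨n, hn⟩ := Nat.exists_eq_succ_of_ne_zero h0
            rw [hn]; simp
          rw [this]
          have : s 0 - (s 0 - 1) = 1 := by omega
          rw [this, pow_one]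
        · by_cases hsm' : s = m'
          · subst hsm'
            rw [if_pos ⟨hm'1, hm'2⟩, if_pos rfl, if_neg hsm, add_zero, hm'0]
            simp
          · rw [if_neg hsm, if_neg hsm', add_zero]
            split_ifs with h12
            · have h3 : s 0 < m 0 - 1 := by
                by_contra hlt
                rcases Nat.lt_or_ge (s 0) (m 0) with h4 | h4
                · apply hsm'
                  ext i; fin_cases i
                  · simp only [Fin.zero_eta]; rw [hm'0]; omega
                  · simp only [Fin.mk_one]; rw [hm'1]; exact h12.1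
                  · simp only [Fin.reduceFinMk]; rw [hm'2]; exact h12.2
                · exact hsm (hs s hs' h12.1 h12.2 h4)
              rw [Nat.choose_eq_zero_of_lt h3]; simp
            · rfl
      rw [Finset.sum_congr rfl this, Finset.sum_add_distrib, Finset.sum_ite_eq',
        Finset.sum_ite_eq', if_pos (MvPolynomial.mem_support_iff.mpr hm)]
      by_cases h5 : m' ∈ g.support
      · rw [if_pos h5]
      · rw [if_neg h5, MvPolynomial.notMem_support_iff.mp h5]; ring
    rw [hsum] at h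
    have h6 : coeff m g * c * ((m 0 : ℂ) * x) = 0 := by linear_combination h
    have hc0 : c ≠ 0 := by rw [hcm]; exact mul_ne_zero (pow_ne_zero _ hy) (pow_ne_zero _ hz)
    have h0' : (m 0 : ℂ) ≠ 0 := by exact_mod_cast h0
    exact mul_ne_zero (mul_ne_zero hm hc0) (mul_ne_zero h0' hx) h6
  have hall : ∀ m, coeff m g ≠ 0 → c = y ^ (m 1) * z ^ (m 2) ∧ m 0 = 0 := by
    intro m hm
    obtain ⟨k, hk, hk'⟩ := exists_top g m hm
    have := htop (m + Finsupp.single 0 k) hk (fun j hj => by
      rw [add_assoc, ← Finsupp.single_add]; exact hk' (k + j) (by omega))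
    simp only [Finsupp.coe_add, Pi.add_apply, Finsupp.single_eq_same] at this
    refine ⟨?_, by omega⟩
    simpa [Finsupp.single_apply] using this.1
  by_cases hg : g = 0
  · exact ⟨0, 0, fun m hm => absurd (by simp [hg]) hm⟩
  obtain ⟨m1, hm1⟩ := exists_coeff_ne_zero hg
  refine ⟨m1 1, m1 2, fun m hm => ⟨(hall m hm).2, ?_⟩⟩
  exact hind _ _ _ _ ((hall m hm).1.symm.trans (hall m1 hm1).1)

/-- A nonzero finite-dimensional stable subspace contains an eigenvector. -/
theorem exists_eigen (φ : A0 →ₗ[ℂ] A0) (W : Submodule ℂ A0) [FiniteDimensional ℂ W]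
    (hW : ∀ f ∈ W, φ f ∈ W) {f : A0} (hf : f ∈ W) (hf0 : f ≠ 0) :
    ∃ g ∈ W, g ≠ 0 ∧ ∃ c : ℂ, φ g = c • g := by
  have : Nontrivial W := ⟨⟨⟨f, hf⟩, 0, fun h => hf0 (congrArg Subtype.val h)⟩⟩
  obtain ⟨c, hc⟩ := Module.End.exists_eigenvalue (φ.restrict hW)
  obtain ⟨v, hv⟩ := hc.exists_hasEigenvector
  refine ⟨v.1, v.2, fun h => hv.2 (Subtype.ext h), c, ?_⟩
  have := congrArg Subtype.val hv.apply_eq_smul
  simpa using this

/-- A prime containing a nonzero polynomial in one variable contains a linear polynomial. -/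
theorem exists_linear_mem {p : Ideal A0} (hp : p.IsPrime) (i : Fin 3) {q : Polynomial ℂ}
    (hq : q ≠ 0) (hmem : Polynomial.aeval (X i : A0) q ∈ p) : ∃ a : ℂ, X i - C a ∈ p := by
  have hs := (IsAlgClosed.splits q).eq_prod_roots
  rw [hs, map_mul, map_multiset_prod, Multiset.map_map] at hmem
  rcases hp.mem_or_mem hmem with h | h
  · exfalso
    rw [Polynomial.aeval_C] at h
    apply hp.ne_top
    rw [Ideal.eq_top_iff_one]
    have := p.mul_mem_left (C (q.leadingCoeff)⁻¹) h
    rwa [algebraMap_eq, ← C_mul, inv_mul_cancel₀ (Polynomial.leadingCoeff_ne_zero.mpr hq),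
      C_1] at this
  · rw [hp.multiset_prod_mem_iff_exists_mem] at h
    obtain ⟨r, hr, hrp⟩ := h
    rw [Multiset.mem_map] at hr
    obtain ⟨a, _, rfl⟩ := hr
    refine ⟨a, ?_⟩
    simpa using hrp

/-- The part of an ideal inside a box. -/
noncomputable def inBox (p : Ideal A0) (d : Fin 3 → ℕ) : Submodule ℂ A0 :=
  p.restrictScalars ℂ ⊓ box d

instance (p : Ideal A0) (d : Fin 3 → ℕ) : FiniteDimensional ℂ (inBox p d) :=
  Submodule.finiteDimensional_of_le (inf_le_right : inBox p d ≤ box d)

theorem mem_inBox {p : Ideal A0} {d : Fin 3 → ℕ} {f : A0} :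
    f ∈ inBox p d ↔ f ∈ p ∧ f ∈ box d := by
  simp [inBox]

theorem stable_dV_aux {p : Ideal A0} (hp : p.IsPrime) (hst : ∀ f ∈ p, dV f ∈ p)
    (h2 : (X 2 : A0) ∉ p) {f : A0} (hf : f ∈ p) (hf0 : f ≠ 0) :
    ∃ q : Polynomial ℂ, q ≠ 0 ∧ q.natDegree ≤ degreeOf 1 f ∧
      Polynomial.aeval (X 1 : A0) q ∈ p := by
  set d : Fin 3 → ℕ := fun i => degreeOf i f with hd
  have hfd : f ∈ box d := by rw [mem_box_iff_degreeOf]; exact fun i => le_rfl
  obtain ⟨g, hg, hg0, c, hc⟩ := exists_eigen (dV : A0 →ₗ[ℂ] A0) (inBox p d)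
    (fun f hf => mem_inBox.mpr ⟨hst f (mem_inBox.mp hf).1, dV_mem_box (mem_inBox.mp hf).2⟩)
    (mem_inBox.mpr ⟨hf, hfd⟩) hf0
  obtain ⟨l, hl⟩ := eig_dV hc
  set q : Polynomial ℂ := ∑ m ∈ g.support, Polynomial.monomial (m 1) (coeff m g) with hq
  have hgq : g = X 2 ^ l * Polynomial.aeval (X 1 : A0) q := by
    conv_lhs => rw [g.as_sum]
    rw [hq, map_sum, Finset.mul_sum]
    apply Finset.sum_congr rfl
    intro m hm
    obtain ⟨h0', h2'⟩ := hl m (MvPolynomial.mem_support_iff.mp hm)
    rw [Polynomial.aeval_monomial, monomial_eq, Finsupp.prod_fintype _ _ (fun _ => pow_zero _),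
      Fin.prod_univ_three, h0', h2', algebraMap_eq]
    ring
  have hq0 : q ≠ 0 := by
    intro h
    apply hg0
    rw [hgq, h]; simp
  refine ⟨q, hq0, ?_, ?_⟩
  · apply Polynomial.natDegree_sum_le_of_forall_le
    intro m hm
    refine (Polynomial.natDegree_monomial_le _).trans ?_
    exact (mem_inBox.mp hg).2 hm 1
  · have := (mem_inBox.mp hg).1
    rw [hgq] at this
    rcases hp.mem_or_mem this with h | h
    · exact absurd (hp.mem_of_pow_mem _ h) h2
    · exact h

/-- Substituting `Y₁ = y` changes a polynomial by a multiple of `Y₁ - y`. -/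
theorem sub_subst_mem (y : ℂ) (f : A0) :
    f - aeval ![X 0, C y, X 2] f ∈ Ideal.span {(X 1 - C y : A0)} := by
  rw [← Ideal.Quotient.eq]
  have : (Ideal.Quotient.mkₐ ℂ (Ideal.span {(X 1 - C y : A0)})) =
      (Ideal.Quotient.mkₐ ℂ (Ideal.span {(X 1 - C y : A0)})).comp
        (aeval ![X 0, C y, X 2] : A0 →ₐ[ℂ] A0) := by
    apply MvPolynomial.algHom_ext
    intro i
    fin_cases i
    · simp
    · simp only [Fin.mk_one, AlgHom.comp_apply, aeval_X, Matrix.cons_val_one, Matrix.cons_val_zero]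
      rw [Ideal.Quotient.mkₐ_eq_mk, Ideal.Quotient.eq]
      exact Ideal.subset_span rfl
    · simp
  exact congrArg (fun φ : A0 →ₐ[ℂ] _ => φ f) this

theorem degreeOf_subst (y : ℂ) (f : A0) :
    degreeOf 1 (aeval ![X 0, C y, X 2] f : A0) = 0 := by
  induction f using MvPolynomial.induction_on with
  | C a => simp
  | add p q hp hq =>
    rw [map_add]
    have := degreeOf_add_le 1 (aeval ![X 0, C y, X 2] p : A0) (aeval ![X 0, C y, X 2] q)
    rw [hp, hq] at this
    simpa using this
  | mul_X p i hp =>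
    rw [map_mul, aeval_X]
    have := degreeOf_mul_le 1 (aeval ![X 0, C y, X 2] p : A0) (![X 0, C y, X 2] i : A0)
    rw [hp] at this
    have h2 : degreeOf 1 (![X 0, C y, X 2] i : A0) = 0 := by
      fin_cases i
      · simp [degreeOf_X]
      · simp
      · simp [degreeOf_X]
    rw [h2] at this
    simpa using this

/-- A nonzero prime stable under `dV` and not containing `Y₂` is generated by some `Y₁ - y`. -/
theorem stable_dV {p : Ideal A0} (hp : p.IsPrime) (hst : ∀ f ∈ p, dV f ∈ p)
    (h2 : (X 2 : A0) ∉ p) {f : A0} (hf : f ∈ p) (hf0 : f ≠ 0) :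
    ∃ y : ℂ, X 1 - C y ∈ p ∧ ∀ f ∈ p, (X 1 - C y : A0) ∣ f := by
  obtain ⟨q, hq0, _, hq⟩ := stable_dV_aux hp hst h2 hf hf0
  obtain ⟨y, hy⟩ := exists_linear_mem hp 1 hq0 hq
  refine ⟨y, hy, fun h hh => ?_⟩
  have h1 := sub_subst_mem y h
  rw [Ideal.mem_span_singleton] at h1
  set h' : A0 := aeval ![X 0, C y, X 2] h with hh'
  have hmem : h' ∈ p := by
    have : h' = h - (h - h') := by ring
    rw [this]
    exact p.sub_mem hh (Ideal.mem_of_dvd _ h1 hy)
  by_cases h0 : h' = 0
  · rwa [h0, sub_zero] at h1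
  · exfalso
    obtain ⟨q', hq'0, hq'd, hq'⟩ := stable_dV_aux hp hst h2 hmem h0
    rw [hh', degreeOf_subst] at hq'd
    obtain ⟨a, ha⟩ := Polynomial.natDegree_eq_zero.mp (Nat.le_zero.mp hq'd)
    subst ha
    rw [Polynomial.aeval_C, algebraMap_eq] at hq'
    have ha0 : a ≠ 0 := by
      intro h; apply hq'0; rw [h, map_zero]
    apply hp.ne_top
    rw [Ideal.eq_top_iff_one]
    have := p.mul_mem_left (C a⁻¹) hq'
    rwa [← C_mul, inv_mul_cancel₀ ha0, C_1] at this

/-- A prime which contains a nonzero polynomial but neither `Y₁` nor `Y₂` is not stable under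
a translation with nonzero `X`-part and with no relation between the other parts. -/
theorem not_stable_trA {p : Ideal A0} (hp : p.IsPrime) {x y z : ℂ} (hx : x ≠ 0) (hy : y ≠ 0)
    (hz : z ≠ 0)
    (hind : ∀ a b a' b' : ℕ, y ^ a * z ^ b = y ^ a' * z ^ b' → a = a' ∧ b = b')
    (hst : ∀ f ∈ p, trA x y z f ∈ p) (h1 : (X 1 : A0) ∉ p) (h2 : (X 2 : A0) ∉ p)
    {f : A0} (hf : f ∈ p) (hf0 : f ≠ 0) : False := by
  set d : Fin 3 → ℕ := fun i => degreeOf i f with hd
  have hfd : f ∈ box d := by rw [mem_box_iff_degreeOf]; exact fun i => le_rfl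
  obtain ⟨g, hg, hg0, c, hc⟩ := exists_eigen (trA x y z).toLinearMap (inBox p d)
    (fun f hf => mem_inBox.mpr ⟨hst f (mem_inBox.mp hf).1, trA_mem_box (mem_inBox.mp hf).2 x y z⟩)
    (mem_inBox.mpr ⟨hf, hfd⟩) hf0
  obtain ⟨a, b, hab⟩ := eig_trA hx hy hz hind hc
  have hsub : ∀ m, coeff m g ≠ 0 → m = Finsupp.single 1 a + Finsupp.single 2 b := by
    intro m hm
    obtain ⟨e0, e1, e2⟩ := hab m hm
    ext i
    fin_cases i
    · simpa using e0
    · simpa using e1
    · simpa using e2
  obtain ⟨m1, hm1⟩ := exists_coeff_ne_zero hg0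
  have hgm : g = C (coeff m1 g) * (X 1 ^ a * X 2 ^ b) := by
    have e : (X 1 ^ a * X 2 ^ b : A0) = monomial m1 1 := by
      rw [hsub m1 hm1, X_pow_eq_monomial, X_pow_eq_monomial, monomial_mul, mul_one]
    rw [e, C_mul_monomial, mul_one]
    ext m
    rw [coeff_monomial]
    split_ifs with h
    · rw [h]
    · by_contra hne
      exact h ((hsub m1 hm1).trans (hsub m hne).symm)
  have hgp := (mem_inBox.mp hg).1
  rw [hgm] at hgp
  rcases hp.mem_or_mem hgp with h | h
  · apply hp.ne_top
    rw [Ideal.eq_top_iff_one]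
    have := p.mul_mem_left (C (coeff m1 g)⁻¹) h
    rwa [← C_mul, inv_mul_cancel₀ hm1, C_1] at this
  · rcases hp.mem_or_mem h with h | h
    · exact h1 (hp.mem_of_pow_mem _ h)
    · exact h2 (hp.mem_of_pow_mem _ h)

end FiveNum
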