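import Pool.Agent.FiveNum.Eigen

/-!
# Unmixedness for an ideal generated by two coprime polynomials

If `𝔪 f ⊆ (P₁, P₂)` for a maximal ideal `𝔪 = (X - a, Y₁ - b, Y₂ - c)`, then `f ∈ (P₁, P₂)`.
-/

open MvPolynomial Module Finset

namespace FiveNum

theorem sub_aeval_mem (I : Ideal A0) (g : Fin 3 → A0) (hg : ∀ i, X i - g i ∈ I) (f : A0) :
    f - aeval g f ∈ I := by
  rw [← Ideal.Quotient.eq]
  have : (Ideal.Quotient.mkₐ ℂ I) = (Ideal.Quotient.mkₐ ℂ I).comp (aeval g : A0 →ₐ[ℂ] A0) := by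
    apply MvPolynomial.algHom_ext
    intro i
    simp only [AlgHom.comp_apply, aeval_X]
    rw [Ideal.Quotient.mkₐ_eq_mk, Ideal.Quotient.eq]
    exact hg i
  exact congrArg (fun φ : A0 →ₐ[ℂ] _ => φ f) this

theorem X_sub_C_ne_zero (i : Fin 3) (a : ℂ) : (X i - C a : A0) ≠ 0 := by
  intro h
  have h' := congrArg (eval (fun _ => a + 1)) h
  simp at h'

theorem dvd_of_aeval_eq_zero (a : ℂ) {f : A0}
    (h : (aeval ![C a, X 1, X 2] f : A0) = 0) : (X 0 - C a : A0) ∣ f := by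
  rw [← Ideal.mem_span_singleton]
  have := sub_aeval_mem (Ideal.span {(X 0 - C a : A0)}) ![C a, X 1, X 2] (by
    intro i
    fin_cases i
    · exact Ideal.subset_span rfl
    · simp
    · simp) f
  rwa [h, sub_zero] at this

theorem dvd_of_dvd_mul_left' (a b : ℂ) {f : A0} (h : (X 0 - C a : A0) ∣ (X 1 - C b) * f) :
    (X 0 - C a : A0) ∣ f := by
  apply dvd_of_aeval_eq_zero
  obtain ⟨g, hg⟩ := h
  have := congrArg (aeval ![C a, X 1, X 2] : A0 →ₐ[ℂ] A0) hg
  simp only [map_mul, map_sub, aeval_X, aeval_C, algebraMap_eq, Matrix.cons_val_zero,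
    Matrix.cons_val_one, sub_self, zero_mul] at this
  refine (mul_eq_zero.mp this).resolve_left ?_
  exact X_sub_C_ne_zero 1 b

theorem mem_span_pair_of_aeval_eq_zero (a b : ℂ) {f : A0}
    (h : (aeval ![Polynomial.C a, Polynomial.C b, Polynomial.X] f : Polynomial ℂ) = 0) :
    f ∈ Ideal.span {(X 0 - C a : A0), X 1 - C b} := by
  have := sub_aeval_mem (Ideal.span {(X 0 - C a : A0), X 1 - C b}) ![C a, C b, X 2] (by
    intro i
    fin_cases i
    · exact Ideal.subset_span (by simp)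
    · exact Ideal.subset_span (by simp)
    · simp) f
  have h2 : (aeval ![C a, C b, X 2] f : A0) = 0 := by
    have : (aeval ![C a, C b, X 2] : A0 →ₐ[ℂ] A0) =
        (Polynomial.aeval (X 2 : A0)).comp
          (aeval ![Polynomial.C a, Polynomial.C b, Polynomial.X] : A0 →ₐ[ℂ] Polynomial ℂ) := by
      apply MvPolynomial.algHom_ext
      intro i
      fin_cases i <;> simp
    rw [this, AlgHom.comp_apply, h, map_zero]
  rwa [h2, sub_zero] at this

/-- **Unmixedness**: an ideal generated by two coprime polynomials in three variables has no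
embedded maximal component. -/
theorem unmixed {P1 P2 : A0} (hP1 : P1 ≠ 0) (hP2 : P2 ≠ 0) (hcop : ∀ b, P1 ∣ P2 * b → P1 ∣ b)
    (a b c : ℂ) {f : A0} (hu : (X 0 - C a) * f ∈ Ideal.span {P1, P2})
    (hv : (X 1 - C b) * f ∈ Ideal.span {P1, P2})
    (hw : (X 2 - C c) * f ∈ Ideal.span {P1, P2}) : f ∈ Ideal.span {P1, P2} := by
  set u : A0 := X 0 - C a with hu'
  set v : A0 := X 1 - C b with hv'
  set w : A0 := X 2 - C c with hw'
  have hcop' : ∀ x y : A0, x * P1 + y * P2 = 0 → ∃ c1, x = P2 * c1 ∧ y = -(P1 * c1) := by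
    intro x y hxy
    have hd : P1 ∣ P2 * y := ⟨-x, by linear_combination hxy⟩
    obtain ⟨e, he⟩ := hcop y hd
    refine ⟨-e, ?_, by rw [he]; ring⟩
    apply mul_right_cancel₀ hP1
    linear_combination hxy - P2 * he
  rw [Ideal.mem_span_pair] at hu hv hw ⊢
  obtain ⟨a1, b1, e1⟩ := hu
  obtain ⟨a2, b2, e2⟩ := hv
  obtain ⟨a3, b3, e3⟩ := hw
  obtain ⟨c1, k1, k1'⟩ := hcop' (v * a1 - u * a2) (v * b1 - u * b2) (by
    linear_combination v * e1 - u * e2)
  obtain ⟨c2, k2, k2'⟩ := hcop' (w * a1 - u * a3) (w * b1 - u * b3) (by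
    linear_combination w * e1 - u * e3)
  obtain ⟨c3, k3, k3'⟩ := hcop' (w * a2 - v * a3) (w * b2 - v * b3) (by
    linear_combination w * e2 - v * e3)
  have hrel : w * c1 - v * c2 + u * c3 = 0 := by
    apply mul_left_cancel₀ hP2
    linear_combination - w * k1 + v * k2 - u * k3
  have hc1 : c1 ∈ Ideal.span {u, v} := by
    apply mem_span_pair_of_aeval_eq_zero
    have := congrArg (aeval ![Polynomial.C a, Polynomial.C b, Polynomial.X] :
      A0 →ₐ[ℂ] Polynomial ℂ) hrel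
    simp only [hu', hv', hw', map_add, map_sub, map_mul, aeval_X, aeval_C, map_zero,
      Matrix.cons_val_zero, Matrix.cons_val_one, Matrix.cons_val, Polynomial.algebraMap_eq,
      sub_self, zero_mul, sub_zero, add_zero] at this
    exact (mul_eq_zero.mp this).resolve_left (Polynomial.X_sub_C_ne_zero c)
  rw [Ideal.mem_span_pair] at hc1
  obtain ⟨β, α, hαβ⟩ := hc1
  -- `c1 = β u + α v`
  have hd1 : u ∣ v * (a1 - P2 * α) := ⟨a2 + P2 * β, by
    linear_combination k1 - P2 * hαβ⟩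
  have hd2 : u ∣ v * (b1 + P1 * α) := ⟨b2 - P1 * β, by
    linear_combination k1' + P1 * hαβ⟩
  obtain ⟨δ, hδ⟩ := dvd_of_dvd_mul_left' a b hd1
  obtain ⟨ε, hε⟩ := dvd_of_dvd_mul_left' a b hd2
  refine ⟨δ, ε, ?_⟩
  have hu0 : u ≠ 0 := X_sub_C_ne_zero 0 a
  apply mul_left_cancel₀ hu0
  linear_combination e1 - P1 * hδ - P2 * hε

end FiveNum
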