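import Pool.Agent.FiveNum.Indep
import Pool.Agent.FiveNum.Unmixed

/-!
# The three-parameter family of translations
-/

open MvPolynomial Module Finset

namespace FiveNum

/-- The data of three points `γ₀ = (0, β₀, ω₀)`, `γ₁ = (ξ₁, β₁, 1)` with `β₁ ^ 2 = 1`, and
`γ₂ = (ξ₂, β₂, ω₂)` of `ℂ × ℂˣ × ℂˣ`, with the independence properties that are needed. -/
structure PtData where
  /-- `X`-coordinates -/
  ξ : Fin 3 → ℂ
  /-- `Y₁`-coordinates -/
  β : Fin 3 → ℂ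
  /-- `Y₂`-coordinates -/
  ω : Fin 3 → ℂ
  hβ : ∀ i, β i ≠ 0
  hω : ∀ i, ω i ≠ 0
  ξ0 : ξ 0 = 0
  ω1 : ω 1 = 1
  β1 : β 1 ^ 2 = 1
  hX : ∀ a b a' b' : ℕ, (a : ℂ) * ξ 1 + b * ξ 2 = a' * ξ 1 + b' * ξ 2 → a = a' ∧ b = b'
  hchar : ∀ a b a' b' : ℕ, β 0 ^ a * ω 0 ^ b = β 0 ^ a' * ω 0 ^ b' → a = a' ∧ b = b'
  hY : ∀ a b a' b' : ℕ, β 0 ^ a * β 2 ^ b = β 0 ^ a' * β 2 ^ b' → a = a' ∧ b = b'

variable (Γ : PtData)

namespace PtData

/-- `X`-coordinate of `s₀γ₀ + s₁γ₁ + s₂γ₂`. -/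
def px (s : Fin 3 → ℕ) : ℂ := ∑ i, (s i : ℂ) * Γ.ξ i

/-- `Y₁`-coordinate. -/
def py (s : Fin 3 → ℕ) : ℂ := ∏ i, Γ.β i ^ s i

/-- `Y₂`-coordinate. -/
def pz (s : Fin 3 → ℕ) : ℂ := ∏ i, Γ.ω i ^ s i

/-- The point `s₀γ₀ + s₁γ₁ + s₂γ₂`. -/
def pt (s : Fin 3 → ℕ) : Fin 3 → ℂ := ![Γ.px s, Γ.py s, Γ.pz s]

/-- The translation by `s₀γ₀ + s₁γ₁ + s₂γ₂`. -/
noncomputable def tr (s : Fin 3 → ℕ) : A0 →ₐ[ℂ] A0 := trA (Γ.px s) (Γ.py s) (Γ.pz s)

variable {Γ}

theorem px_add (s t : Fin 3 → ℕ) : Γ.px (s + t) = Γ.px s + Γ.px t := by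
  simp [px, Fin.sum_univ_three]; ring

theorem py_add (s t : Fin 3 → ℕ) : Γ.py (s + t) = Γ.py s * Γ.py t := by
  simp [py, Fin.prod_univ_three, pow_add]; ring

theorem pz_add (s t : Fin 3 → ℕ) : Γ.pz (s + t) = Γ.pz s * Γ.pz t := by
  simp [pz, Fin.prod_univ_three, pow_add]; ring

theorem py_ne (s : Fin 3 → ℕ) : Γ.py s ≠ 0 :=
  Finset.prod_ne_zero_iff.mpr fun i _ => pow_ne_zero _ (Γ.hβ i)

theorem pz_ne (s : Fin 3 → ℕ) : Γ.pz s ≠ 0 :=
  Finset.prod_ne_zero_iff.mpr fun i _ => pow_ne_zero _ (Γ.hω i)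

theorem tr_tr (s t : Fin 3 → ℕ) (f : A0) : Γ.tr s (Γ.tr t f) = Γ.tr (s + t) f := by
  rw [← AlgHom.comp_apply, tr, tr, trA_comp, tr, px_add, py_add, pz_add]

theorem tr_zero (f : A0) : Γ.tr 0 f = f := by
  have : Γ.tr 0 = AlgHom.id ℂ A0 := by
    rw [tr, ← trA_one]
    simp [px, py, pz]
  rw [this]; rfl

theorem dV_tr (s : Fin 3 → ℕ) (f : A0) : dV (Γ.tr s f) = Γ.tr s (dV f) := dV_trA _ _ _ f

theorem iter_tr (s : Fin 3 → ℕ) (t : ℕ) (f : A0) : dV^[t] (Γ.tr s f) = Γ.tr s (dV^[t] f) := by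
  induction t generalizing f with
  | zero => rfl
  | succ t ih => rw [Function.iterate_succ_apply, dV_tr, ih, Function.iterate_succ_apply]

/-- Inverse of the translation. -/
noncomputable def trI (Γ : PtData) (s : Fin 3 → ℕ) : A0 →ₐ[ℂ] A0 :=
  trA (-Γ.px s) (Γ.py s)⁻¹ (Γ.pz s)⁻¹

theorem trI_tr (s : Fin 3 → ℕ) (f : A0) : Γ.trI s (Γ.tr s f) = f := by
  rw [← AlgHom.comp_apply, trI, tr, trA_comp, neg_add_cancel, inv_mul_cancel₀ (py_ne s),
    inv_mul_cancel₀ (pz_ne s), trA_one]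
  rfl

theorem tr_trI (s : Fin 3 → ℕ) (f : A0) : Γ.tr s (Γ.trI s f) = f := by
  rw [← AlgHom.comp_apply, trI, tr, trA_comp, add_neg_cancel, mul_inv_cancel₀ (py_ne s),
    mul_inv_cancel₀ (pz_ne s), trA_one]
  rfl

/-- The translation as a ring automorphism. -/
noncomputable def trE (Γ : PtData) (s : Fin 3 → ℕ) : A0 ≃+* A0 where
  toFun := Γ.tr s
  invFun := Γ.trI s
  left_inv f := trI_tr s f
  right_inv f := tr_trI s f
  map_mul' f g := map_mul (Γ.tr s) f g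
  map_add' f g := map_add (Γ.tr s) f g

theorem trE_apply (s : Fin 3 → ℕ) (f : A0) : Γ.trE s f = Γ.tr s f := rfl

theorem trE_symm_apply (s : Fin 3 → ℕ) (f : A0) : (Γ.trE s).symm f = Γ.trI s f := rfl

theorem eval_tr (s t : Fin 3 → ℕ) (f : A0) : eval (Γ.pt t) (Γ.tr s f) = eval (Γ.pt (s + t)) f := by
  have : ((aeval (Γ.pt t) : A0 →ₐ[ℂ] ℂ)).comp (Γ.tr s) = aeval (Γ.pt (s + t)) := by
    apply MvPolynomial.algHom_ext
    intro i
    fin_cases i
    · simp [tr, trA, pt, px_add]; ring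
    · simp [tr, trA, pt, py_add]
    · simp [tr, trA, pt, pz_add]
  have h2 := congrArg (fun φ : A0 →ₐ[ℂ] ℂ => φ f) this
  rw [AlgHom.comp_apply] at h2
  exact h2

theorem tr_X0 (s : Fin 3 → ℕ) : Γ.tr s (X 0) = X 0 + C (Γ.px s) := by simp [tr, trA]
theorem tr_X1 (s : Fin 3 → ℕ) : Γ.tr s (X 1) = C (Γ.py s) * X 1 := by simp [tr, trA]
theorem tr_X2 (s : Fin 3 → ℕ) : Γ.tr s (X 2) = C (Γ.pz s) * X 2 := by simp [tr, trA]
theorem tr_C (s : Fin 3 → ℕ) (a : ℂ) : Γ.tr s (C a) = C a := by simp [tr, trA]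

theorem tr_mem_box {d : Fin 3 → ℕ} {f : A0} (hf : f ∈ box d) (s : Fin 3 → ℕ) :
    Γ.tr s f ∈ box d := trA_mem_box hf _ _ _

/-- `f` vanishes to order `T` along `dV` at the points `Γ.pt s` with `s < S`. -/
def Van (Γ : PtData) (T S : ℕ) (f : A0) : Prop :=
  ∀ t < T, ∀ s : Fin 3 → ℕ, (∀ i, s i < S) → eval (Γ.pt s) (dV^[t] f) = 0

/-- The derived translates of `P`. -/
def derTr (Γ : PtData) (P : A0) (T S : ℕ) : Set A0 :=
  {f | ∃ t < T, ∃ s : Fin 3 → ℕ, (∀ i, s i < S) ∧ f = dV^[t] (Γ.tr s P)}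

/-- The span of the derived translates. -/
noncomputable def G (Γ : PtData) (P : A0) (T S : ℕ) : Submodule ℂ A0 :=
  Submodule.span ℂ (Γ.derTr P T S)

theorem G_le_box {d : Fin 3 → ℕ} {P : A0} (hP : P ∈ box d) (T S : ℕ) : Γ.G P T S ≤ box d := by
  rw [G, Submodule.span_le]
  rintro _ ⟨t, _, s, _, rfl⟩
  exact iter_mem_box (tr_mem_box hP s) t

theorem self_mem_G {P : A0} {T S : ℕ} (hT : 0 < T) (hS : 0 < S) : P ∈ Γ.G P T S :=
  Submodule.subset_span ⟨0, hT, 0, fun _ => hS, by simp [tr_zero]⟩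

theorem iter_add' (t : ℕ) (f g : A0) : dV^[t] (f + g) = dV^[t] f + dV^[t] g :=
  iterate_map_add dV t f g

theorem iter_smul (t : ℕ) (c : ℂ) (f : A0) : dV^[t] (c • f) = c • dV^[t] f := by
  induction t generalizing f with
  | zero => rfl
  | succ t ih => rw [Function.iterate_succ_apply, Derivation.map_smul, ih, Function.iterate_succ_apply]

theorem iter_tr_mem_G {P f : A0} {T S T' S' : ℕ} (hf : f ∈ Γ.G P T S) {t : ℕ} (ht : t < T')
    {s : Fin 3 → ℕ} (hs : ∀ i, s i < S') : dV^[t] (Γ.tr s f) ∈ Γ.G P (T + T') (S + S') := by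
  induction hf using Submodule.span_induction with
  | mem f hf =>
    obtain ⟨t', ht', s', hs', rfl⟩ := hf
    apply Submodule.subset_span
    refine ⟨t + t', by omega, s + s', fun i => ?_, ?_⟩
    · have := hs i
      have := hs' i
      simp only [Pi.add_apply]
      omega
    · rw [← iter_tr, tr_tr, Function.iterate_add_apply]
  | zero =>
    rw [map_zero, iterate_map_zero]
    exact Submodule.zero_mem _
  | add f g _ _ hf hg =>
    rw [map_add, iter_add']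
    exact Submodule.add_mem _ hf hg
  | smul c f _ hf =>
    rw [map_smul, iter_smul]
    exact Submodule.smul_mem _ _ hf

theorem van_of_mem_G {P f : A0} {T S T' S' : ℕ} (hP : Γ.Van (T + T') (S + S') P)
    (hf : f ∈ Γ.G P T S) : Γ.Van T' S' f := by
  intro t ht s hs
  induction hf using Submodule.span_induction with
  | mem f hf =>
    obtain ⟨t', ht', s', hs', rfl⟩ := hf
    rw [← Function.iterate_add_apply, iter_tr, eval_tr]
    apply hP (t + t') (by omega) (s' + s)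
    intro i
    have := hs i
    have := hs' i
    simp only [Pi.add_apply]
    omega
  | zero => rw [iterate_map_zero, map_zero]
  | add f g _ _ hf hg => rw [iter_add', map_add, hf, hg, add_zero]
  | smul c f _ hf => rw [iter_smul, smul_eval, hf, mul_zero]

end PtData

/-- Cancellation of a factor outside a prime ideal. -/
theorem iter_cancel_aux (I : Ideal A0) : ∀ (t : ℕ) (u f : A0), (∀ i < t, dV^[i] f ∈ I) →
    dV^[t] (u * f) - u * dV^[t] f ∈ I := by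
  intro t
  induction t with
  | zero => intro u f _; simp
  | succ t ih =>
    intro u f h
    rw [Function.iterate_succ_apply, Derivation.leibniz, PtData.iter_add', smul_eq_mul,
      smul_eq_mul, Function.iterate_succ_apply]
    have h1 := ih u (dV f) (fun i hi => by
      rw [← Function.iterate_succ_apply]; exact h (i + 1) (by omega))
    have h2 : dV^[t] (f * dV u) ∈ I := by
      rw [mul_comm]
      exact iter_mul_mem I t f (dV u) fun i hi => h i (by omega)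
    have : dV^[t] (u * dV f) + dV^[t] (f * dV u) - u * dV^[t] (dV f) =
        (dV^[t] (u * dV f) - u * dV^[t] (dV f)) + dV^[t] (f * dV u) := by ring
    rw [this]
    exact I.add_mem h1 h2

theorem iter_cancel {p : Ideal A0} (hp : p.IsPrime) {u f : A0} (hu : u ∉ p) (T : ℕ)
    (h : ∀ t < T, dV^[t] (u * f) ∈ p) : ∀ t < T, dV^[t] f ∈ p := by
  intro t
  induction t using Nat.strong_induction_on with
  | _ t ih =>
    intro ht
    have h1 := iter_cancel_aux p t u f fun i hi => ih i hi (by omega)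
    have h2 := p.sub_mem (h t ht) h1
    rw [sub_sub_cancel] at h2
    exact (hp.mem_or_mem h2).resolve_left hu

end FiveNum
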