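import Pool.Agent.FiveNum.Eigen

/-!
# Polynomials independent modulo the symbolic-type powers of several primes
-/

open MvPolynomial Module Finset

namespace FiveNum

variable {ι : Type*} [Fintype ι]

theorem exists_sep {q : ι → Ideal A0} (hq : ∀ i, (q i).IsPrime)
    (hinc : ∀ i j, i ≠ j → ¬ q j ≤ q i) (T : ℕ) (i : ι) :
    ∃ g : A0, g ∉ q i ∧ ∀ j, j ≠ i → ∀ t < T, dV^[t] g ∈ q j := by
  classical
  have h1 : ∀ j, ∃ e : A0, j ≠ i → e ∈ q j ∧ e ∉ q i := by
    intro j
    by_cases hji : j = i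
    · exact ⟨0, fun h => absurd hji h⟩
    · obtain ⟨e, he, he'⟩ := Set.not_subset.mp (hinc i j (Ne.symm hji))
      exact ⟨e, fun _ => ⟨he, he'⟩⟩
  choose e he using h1
  refine ⟨∏ j ∈ univ.erase i, (e j) ^ T, ?_, ?_⟩
  · intro hmem
    rw [(hq i).prod_mem_iff] at hmem
    obtain ⟨j, hj, hj'⟩ := hmem
    exact (he j (Finset.ne_of_mem_erase hj)).2 ((hq i).mem_of_pow_mem _ hj')
  · intro j hj t ht
    rw [← Finset.mul_prod_erase _ _ (Finset.mem_erase.mpr ⟨hj, Finset.mem_univ j⟩)]
    exact (iter_pow_mul (q j) (he j hj).1 T _).1 t ht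

theorem exists_box (f : A0) : ∃ d : Fin 3 → ℕ, f ∈ box d :=
  ⟨fun i => degreeOf i f, mem_box_iff_degreeOf.mpr fun _ => le_rfl⟩

theorem exists_box_fintype {κ : Type*} [Fintype κ] (f : κ → A0) :
    ∃ d : Fin 3 → ℕ, ∀ k, f k ∈ box d := by
  refine ⟨fun i => univ.sup fun k => degreeOf i (f k), fun k => mem_box_iff_degreeOf.mpr ?_⟩
  intro i
  exact Finset.le_sup (f := fun k => degreeOf i (f k)) (Finset.mem_univ k)

theorem factorial_notMem {p : Ideal A0} (hp : p.IsPrime) (t : ℕ) : (t.factorial : A0) ∉ p := by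
  intro h
  apply hp.ne_top
  rw [Ideal.eq_top_iff_one]
  have h2 := p.mul_mem_left (C (t.factorial : ℂ)⁻¹) h
  rw [← map_natCast (C : ℂ →+* A0), ← C_mul, inv_mul_cancel₀, C_1] at h2
  · exact h2
  · exact_mod_cast t.factorial_ne_zero

/-- A large space of polynomials that are independent modulo the conditions
`dV^[t] f ∈ q i`, `t < T`. -/
theorem exists_indep {q : ι → Ideal A0} (hq : ∀ i, (q i).IsPrime)
    (hinc : ∀ i j, i ≠ j → ¬ q j ≤ q i) (hd : ∀ i, ∃ h ∈ q i, dV h ∉ q i) (T : ℕ) :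
    ∃ c0 : Fin 3 → ℕ, ∀ (E : Submodule ℂ A0) [FiniteDimensional ℂ E] (e0 : Fin 3 → ℕ),
      E ≤ box e0 → (∀ i, ∀ f ∈ E, f ∈ q i → f = 0) →
      ∃ W : Submodule ℂ A0, W ≤ box (e0 + c0) ∧
        finrank ℂ W = Fintype.card ι * T * finrank ℂ E ∧
        ∀ f ∈ W, (∀ i, ∀ t < T, dV^[t] f ∈ q i) → f = 0 := by
  classical
  choose h hh hh' using hd
  choose g hg hg' using exists_sep hq hinc T
  set F : ι × Fin T → A0 := fun p => h p.1 ^ (p.2 : ℕ) * g p.1 with hF
  obtain ⟨c0, hc0⟩ := exists_box_fintype F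
  refine ⟨c0, fun E _ e0 hE hEq => ?_⟩
  -- the linear map
  let Φ : (ι × Fin T → E) →ₗ[ℂ] A0 :=
    ∑ p : ι × Fin T, (mulL (F p)).comp (E.subtype.comp (LinearMap.proj p))
  have hΦ : ∀ e : ι × Fin T → E, Φ e = ∑ p, F p * (e p : A0) := by
    intro e
    simp [Φ, LinearMap.sum_apply]
  have key : ∀ e : ι × Fin T → E, (∀ i, ∀ t < T, dV^[t] (Φ e) ∈ q i) → e = 0 := by
    intro e he
    by_contra hne
    obtain ⟨⟨i, t⟩, hit⟩ := Function.ne_iff.mp hne
    -- minimal `t`
    have hex : ∃ n : ℕ, ∃ hn : n < T, e (i, ⟨n, hn⟩) ≠ 0 := ⟨t, t.2, hit⟩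
    set n := Nat.find hex with hn
    obtain ⟨hnT, hne'⟩ := Nat.find_spec hex
    have hmin : ∀ s : Fin T, (s : ℕ) < n → e (i, s) = 0 := by
      intro s hs
      by_contra hcon
      exact Nat.find_min hex hs ⟨s.2, hcon⟩
    set p0 : ι × Fin T := (i, ⟨n, hnT⟩) with hp0
    have h1 := he i n hnT
    have hsum : dV^[n] (Φ e) = ∑ p, dV^[n] (F p * (e p : A0)) := by
      rw [hΦ]
      have hgen : ∀ (m : ℕ) (G : ι × Fin T → A0), dV^[m] (∑ p, G p) = ∑ p, dV^[m] (G p) := by
        intro m
        induction m with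
        | zero => intro G; rfl
        | succ m ih => intro G; simp only [Function.iterate_succ_apply, map_sum]; exact ih _
      exact hgen n _
    rw [hsum, ← Finset.add_sum_erase _ _ (Finset.mem_univ p0)] at h1
    have h2 : ∑ p ∈ univ.erase p0, dV^[n] (F p * (e p : A0)) ∈ q i := by
      apply Ideal.sum_mem
      rintro ⟨j, s⟩ hjs
      rw [mul_comm]
      by_cases hji : j = i
      · subst hji
        have hsn : (s : ℕ) ≠ n := by
          intro hs
          apply Finset.ne_of_mem_erase hjs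
          rw [hp0]
          exact Prod.ext rfl (Fin.ext hs)
        rcases Nat.lt_or_ge (s : ℕ) n with hlt | hge
        · rw [hmin s hlt]
          simp only [ZeroMemClass.coe_zero, zero_mul]
          rw [iterate_map_zero]
          exact (q j).zero_mem
        · apply iter_mul_mem
          intro i' hi'
          exact (iter_pow_mul (q j) (hh j) (s : ℕ) _).1 i' (by omega)
      · apply iter_mul_mem
        intro i' hi'
        apply iter_mul_mem
        intro i'' hi''
        exact hg' j i (Ne.symm hji) i'' (by omega)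
    have h3 : dV^[n] (F p0 * (e p0 : A0)) ∈ q i := by
      have := (q i).sub_mem h1 h2
      rwa [add_sub_cancel_right] at this
    have h4 := (iter_pow_mul (q i) (hh i) n (g i * (e p0 : A0))).2
    have h5 : F p0 * (e p0 : A0) = h i ^ n * (g i * (e p0 : A0)) := by
      rw [hF, hp0]; ring
    rw [← h5] at h4
    have h6 := (q i).sub_mem h3 h4
    rw [sub_sub_cancel] at h6
    rcases (hq i).mem_or_mem h6 with h7 | h7
    · rcases (hq i).mem_or_mem h7 with h8 | h8
      · exact factorial_notMem (hq i) n h8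
      · exact hh' i ((hq i).mem_of_pow_mem _ h8)
    · rcases (hq i).mem_or_mem h7 with h8 | h8
      · exact hg i h8
      · apply hne'
        exact Subtype.ext (hEq i _ (e p0).2 h8)
  have hinj : Function.Injective Φ := by
    rw [injective_iff_map_eq_zero]
    intro e he
    apply key e
    intro i t _
    rw [he, iterate_map_zero]
    exact (q i).zero_mem
  refine ⟨LinearMap.range Φ, ?_, ?_, ?_⟩
  · rintro _ ⟨e, rfl⟩
    rw [hΦ]
    apply Submodule.sum_mem
    intro p _
    rw [mul_comm]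
    exact mul_mem_box (hE (e p).2) (hc0 p)
  · rw [LinearMap.finrank_range_of_inj hinj]
    simp [Module.finrank_pi_fintype, Fintype.card_prod]
  · rintro _ ⟨e, rfl⟩ he
    rw [key e he, map_zero]

/-- If a prime is mapped into itself by an automorphism then it is fixed. -/
theorem comap_eq_of_le {p : Ideal A0} (φ : A0 ≃+* A0) (h : p ≤ p.comap φ.toRingHom) :
    p.comap φ.toRingHom = p := by
  by_contra hne
  have hlt : p < p.comap φ.toRingHom := lt_of_le_of_ne h (Ne.symm hne)
  obtain ⟨I, hI, hmax⟩ := (wellFounded_gt (α := Ideal A0)).has_min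
    {I : Ideal A0 | I < I.comap φ.toRingHom} ⟨p, hlt⟩
  rw [Set.mem_setOf_eq] at hI
  refine hmax (I.comap φ.toRingHom) ?_ hI
  rw [Set.mem_setOf_eq]
  refine lt_of_le_of_ne (Ideal.comap_mono hI.le) ?_
  intro heq
  have : I = I.comap φ.toRingHom := by
    have hs : Function.Surjective φ.toRingHom := φ.surjective
    exact Ideal.comap_injective_of_surjective _ hs heq
  exact hI.ne this

end FiveNum
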