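import Pool.Agent.FiveNum.Box

/-!
# The derivation and the translations on `ℂ[X, Y₁, Y₂]`

`dV = -∂/∂X + Y₂ ∂/∂Y₂`, and `trA x y z` is `f ↦ f (X + x, y Y₁, z Y₂)`.
-/

open MvPolynomial Module Finset

namespace FiveNum

/-- The derivation `-∂/∂X + Y₂ ∂/∂Y₂`. -/
noncomputable def dV : Derivation ℂ A0 A0 := (X 2 : A0) • pderiv 2 - pderiv 0

theorem dV_apply (f : A0) : dV f = X 2 * pderiv 2 f - pderiv 0 f := rfl

theorem coeff_dV (f : A0) (m : Fin 3 →₀ ℕ) :
    coeff m (dV f) = (m 2 : ℂ) * coeff m f - (m 0 + 1) * coeff (m + Finsupp.single 0 1) f := by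
  rw [dV_apply, coeff_sub, coeff_pderiv, coeff_X_mul']
  congr 1
  · split_ifs with h
    · rw [coeff_pderiv]
      have h2 : 1 ≤ m 2 := by
        rw [Finsupp.mem_support_iff] at h; omega
      have : m - Finsupp.single 2 1 + Finsupp.single 2 1 = m := by
        ext i
        by_cases hi : i = 2
        · subst hi; simp; omega
        · simp [Finsupp.single_apply, Ne.symm hi]
      rw [this]
      simp only [Finsupp.coe_tsub, Pi.sub_apply, Finsupp.single_eq_same]
      rw [Nat.cast_sub h2]
      push_cast; ring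
    · rw [Finsupp.notMem_support_iff] at h
      simp [h]
  · ring

theorem iter_mul_mem (I : Ideal A0) : ∀ (t : ℕ) (f g : A0),
    (∀ i ≤ t, dV^[i] f ∈ I) → dV^[t] (g * f) ∈ I := by
  intro t
  induction t with
  | zero =>
    intro f g h
    exact I.mul_mem_left g (h 0 le_rfl)
  | succ t ih =>
    intro f g h
    rw [Function.iterate_succ_apply, Derivation.leibniz, iterate_map_add, smul_eq_mul, smul_eq_mul]
    refine I.add_mem ?_ ?_
    · apply ih
      intro i hi
      rw [← Function.iterate_succ_apply]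
      exact h (i + 1) (by omega)
    · rw [mul_comm]
      exact ih _ _ fun i hi => h i (by omega)

theorem iter_pow_mul (I : Ideal A0) {h : A0} (hh : h ∈ I) : ∀ (t : ℕ) (g : A0),
    (∀ t' < t, dV^[t'] (h ^ t * g) ∈ I) ∧
      dV^[t] (h ^ t * g) - (t.factorial : A0) * (dV h) ^ t * g ∈ I := by
  intro t
  induction t with
  | zero =>
    intro g
    refine ⟨fun t' ht' => absurd ht' (Nat.not_lt_zero _), ?_⟩
    simp
  | succ t ih =>
    intro g
    have key : dV (h ^ (t + 1) * g) = h ^ t * ((t + 1 : ℕ) * dV h * g + h * dV g) := by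
      rw [Derivation.leibniz, Derivation.leibniz_pow]
      simp only [smul_eq_mul, nsmul_eq_mul, Nat.add_sub_cancel]
      ring
    obtain ⟨ih1, ih2⟩ := ih ((t + 1 : ℕ) * dV h * g + h * dV g)
    constructor
    · intro t' ht'
      cases t' with
      | zero =>
        simp only [Function.iterate_zero, id]
        rw [pow_succ]
        exact I.mul_mem_right _ (I.mul_mem_left _ hh)
      | succ t' =>
        rw [Function.iterate_succ_apply, key]
        exact ih1 t' (by omega)
    · rw [Function.iterate_succ_apply, key]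
      have : dV^[t] (h ^ t * ((t + 1 : ℕ) * dV h * g + h * dV g)) -
          ((t + 1).factorial : A0) * (dV h) ^ (t + 1) * g =
          (dV^[t] (h ^ t * ((t + 1 : ℕ) * dV h * g + h * dV g)) -
            (t.factorial : A0) * (dV h) ^ t * ((t + 1 : ℕ) * dV h * g + h * dV g)) +
          ((t.factorial : A0) * (dV h) ^ t * dV g) * h := by
        rw [Nat.factorial_succ]; push_cast; ring
      rw [this]
      exact I.add_mem ih2 (I.mul_mem_left _ hh)

/-- Translation `f ↦ f (X + x, y Y₁, z Y₂)`. -/
noncomputable def trA (x y z : ℂ) : A0 →ₐ[ℂ] A0 :=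
  aeval ![X 0 + C x, C y * X 1, C z * X 2]

theorem trA_comp (x y z x' y' z' : ℂ) :
    (trA x y z).comp (trA x' y' z') = trA (x + x') (y * y') (z * z') := by
  apply MvPolynomial.algHom_ext
  intro i
  fin_cases i
  · simp [trA]; ring
  · simp [trA]; ring
  · simp [trA]; ring

theorem trA_one : trA 0 1 1 = AlgHom.id ℂ A0 := by
  apply MvPolynomial.algHom_ext
  intro i
  fin_cases i <;> simp [trA]

theorem dV_trA (x y z : ℂ) (f : A0) : dV (trA x y z f) = trA x y z (dV f) := by
  induction f using MvPolynomial.induction_on with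
  | C a => simp [trA, dV_apply]
  | add p q hp hq => rw [map_add, map_add, hp, hq, map_add, map_add]
  | mul_X p i hp =>
    rw [map_mul, Derivation.leibniz, hp, Derivation.leibniz]
    simp only [smul_eq_mul, map_add, map_mul]
    congr 1
    fin_cases i
    · simp [trA, dV_apply, pderiv_X]
    · simp [trA, dV_apply, pderiv_X]
    · simp [trA, dV_apply, pderiv_X]

theorem coeff_trA_monomial (x y z : ℂ) (m s : Fin 3 →₀ ℕ) (c : ℂ) :
    coeff m (trA x y z (monomial s c)) =
      if s 1 = m 1 ∧ s 2 = m 2 then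
        c * (y ^ (m 1) * z ^ (m 2)) * (((s 0).choose (m 0) : ℂ) * x ^ (s 0 - m 0)) else 0 := by
  have h1 : trA x y z (monomial s c) =
      ∑ k ∈ range (s 0 + 1), monomial (Finsupp.single 0 k + Finsupp.single 1 (s 1) +
        Finsupp.single 2 (s 2))
        (c * (y ^ (s 1) * z ^ (s 2)) * (((s 0).choose k : ℂ) * x ^ (s 0 - k))) := by
    rw [trA, aeval_monomial, Finsupp.prod_fintype _ _ (fun _ => pow_zero _), Fin.prod_univ_three]
    simp only [Matrix.cons_val_zero, Matrix.cons_val_one, Matrix.cons_val]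
    rw [add_pow, Finset.sum_mul, Finset.sum_mul, Finset.mul_sum]
    apply Finset.sum_congr rfl
    intro k _
    have e0 : (X 0 : A0) ^ k = monomial (Finsupp.single 0 k) 1 := by
      rw [X_pow_eq_monomial]
    have e1 : (X 1 : A0) ^ (s 1) = monomial (Finsupp.single 1 (s 1)) 1 := by
      rw [X_pow_eq_monomial]
    have e2 : (X 2 : A0) ^ (s 2) = monomial (Finsupp.single 2 (s 2)) 1 := by
      rw [X_pow_eq_monomial]
    rw [mul_pow, mul_pow, e0, e1, e2]
    simp only [← C_pow, algebraMap_eq, ← map_natCast (C : ℂ →+* A0)]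
    simp only [C_apply, monomial_mul, add_zero, zero_add, mul_one, one_mul]
    congr 1
    ring
  rw [h1, coeff_sum]
  simp only [coeff_monomial]
  split_ifs with h
  · obtain ⟨h1', h2'⟩ := h
    rw [Finset.sum_eq_single (m 0)]
    · rw [if_pos]
      · rw [h1', h2']
      · ext i
        fin_cases i <;> simp [Finsupp.single_apply, h1', h2']
    · intro k _ hk
      rw [if_neg]
      intro hm
      apply hk
      rw [← hm]
      simp [Finsupp.single_apply]
    · intro hm
      rw [Finset.mem_range, not_lt] at hm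
      rw [Nat.choose_eq_zero_of_lt (by omega)]
      simp
  · apply Finset.sum_eq_zero
    intro k _
    rw [if_neg]
    intro hm
    apply h
    rw [← hm]
    simp [Finsupp.single_apply]

theorem coeff_trA (x y z : ℂ) (m : Fin 3 →₀ ℕ) (f : A0) :
    coeff m (trA x y z f) = ∑ s ∈ f.support, if s 1 = m 1 ∧ s 2 = m 2 then
        coeff s f * (y ^ (m 1) * z ^ (m 2)) * (((s 0).choose (m 0) : ℂ) * x ^ (s 0 - m 0))
        else 0 := by
  conv_lhs => rw [f.as_sum, map_sum, coeff_sum]
  exact Finset.sum_congr rfl fun s _ => coeff_trA_monomial x y z m s _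

theorem trA_mem_box {d : Fin 3 → ℕ} {f : A0} (hf : f ∈ box d) (x y z : ℂ) :
    trA x y z f ∈ box d := by
  rw [mem_box_iff_coeff] at hf ⊢
  intro m hm
  rw [coeff_trA] at hm
  obtain ⟨s, hs, hne⟩ := Finset.exists_ne_zero_of_sum_ne_zero hm
  split_ifs at hne with h
  · have h0 : m 0 ≤ s 0 := by
      by_contra hlt
      apply hne
      rw [Nat.choose_eq_zero_of_lt (by omega)]
      simp
    have hd := hf s (MvPolynomial.mem_support_iff.mp hs)
    intro i
    fin_cases i
    · exact h0.trans (hd 0)
    · exact h.1.ge.trans (hd 1)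
    · exact h.2.ge.trans (hd 2)
  · exact absurd rfl hne

theorem dV_mem_box {d : Fin 3 → ℕ} {f : A0} (hf : f ∈ box d) : dV f ∈ box d := by
  rw [mem_box_iff_coeff] at hf ⊢
  intro m hm
  rw [coeff_dV] at hm
  by_cases h : coeff m f = 0
  · rw [h, mul_zero, zero_sub, neg_ne_zero] at hm
    have h' : coeff (m + Finsupp.single 0 1) f ≠ 0 := right_ne_zero_of_mul hm
    intro i
    have := hf _ h' i
    rw [Finsupp.add_apply] at this
    exact le_trans (Nat.le_add_right _ _) this
  · exact hf m h

theorem iter_mem_box {d : Fin 3 → ℕ} {f : A0} (hf : f ∈ box d) (t : ℕ) : dV^[t] f ∈ box d := by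
  induction t with
  | zero => exact hf
  | succ t ih => rw [Function.iterate_succ_apply']; exact dV_mem_box ih

end FiveNum
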