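import Mathlib
import Pool.Agent.FiveNum.BkFinal
import Pool.Agent.SharpSix.An6

/-!
At least three of the five numbers `π + e`, `π e`, `π ^ e`, `e ^ e`, `π ^ π` are irrational, except
possibly if `π ^ e`, `e ^ e`, `π ^ π` are all three rational (and then `π + e` and `π e` are both
irrational). Moreover, if `π + e` is rational, then `π e`, `e ^ e` and one of `π ^ e`, `π ^ π` are
irrational, and if `π e` is rational, then `π + e` and two of `π ^ e`, `e ^ e`, `π ^ π` are
irrational.
-/

set_option autoImplicit false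

namespace Pool.Agent.Results.MP_a49cf6_nt.ThreeIrrational

/-- The five numbers of the problem. -/
noncomputable def five : Fin 5 → ℝ :=
  ![Real.pi + Real.exp 1, Real.pi * Real.exp 1, Real.pi ^ Real.exp 1,
    Real.exp 1 ^ Real.exp 1, Real.pi ^ Real.pi]

/-- `π + e` and `π e` are not both rational. -/
theorem sum_or_prod : Irrational (Real.pi + Real.exp 1) ∨ Irrational (Real.pi * Real.exp 1) := by
  by_contra hcon
  push Not at hcon
  obtain ⟨h1, h2⟩ := hcon
  obtain ⟨a, ha⟩ := exists_rat_of_not_irrational h1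
  obtain ⟨b, hb⟩ := exists_rat_of_not_irrational h2
  apply Pool.Agent.Lib.LW.transcendental_exp_one
  refine ⟨Polynomial.X ^ 2 - Polynomial.C a * Polynomial.X + Polynomial.C b, ?_, ?_⟩
  · apply Polynomial.Monic.ne_zero
    monicity!
  · simp only [map_add, map_sub, map_mul, map_pow, Polynomial.aeval_X, Polynomial.aeval_C,
      eq_ratCast]
    rw [← ha, ← hb]
    ring

/-- If `π + e` is rational, then `π ^ e` and `π ^ π` are not both rational. -/
theorem sum_or_powers : Irrational (Real.pi + Real.exp 1) ∨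
    Irrational (Real.pi ^ Real.exp 1) ∨ Irrational (Real.pi ^ Real.pi) := by
  by_contra hcon
  push Not at hcon
  obtain ⟨h1, h2, h3⟩ := hcon
  obtain ⟨r, hr⟩ := exists_rat_of_not_irrational h1
  obtain ⟨c, hc⟩ := exists_rat_of_not_irrational h2
  obtain ⟨d, hd⟩ := exists_rat_of_not_irrational h3
  have h2 : IsAlgebraic ℚ (Real.pi ^ Real.exp 1 * Real.pi ^ Real.pi) := by
    rw [hc, hd, ← Rat.cast_mul]
    exact isAlgebraic_algebraMap (c * d)
  rw [← Real.rpow_add Real.pi_pos, add_comm (Real.exp 1), hr] at h2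
  have hr0 : 0 < r := by
    have h3 : (0 : ℝ) < (r : ℝ) := by
      rw [← hr]
      exact add_pos Real.pi_pos (Real.exp_pos 1)
    exact_mod_cast h3
  have hpow : (Real.pi ^ (r : ℝ)) ^ r.den = Real.pi ^ r.num.toNat := by
    rw [← Real.rpow_natCast, ← Real.rpow_mul Real.pi_pos.le, ← Real.rpow_natCast]
    congr 1
    have h4 : ((r.num.toNat : ℕ) : ℝ) = (r.num : ℝ) := by
      have h5 : ((r.num.toNat : ℕ) : ℤ) = r.num :=
        Int.toNat_of_nonneg (Rat.num_nonneg.mpr hr0.le)
      exact_mod_cast congrArg (fun z : ℤ => (z : ℝ)) h5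
    rw [h4]
    have h6 : (r : ℝ) * (r.den : ℝ) = (r.num : ℝ) := by
      exact_mod_cast congrArg (fun q : ℚ => (q : ℝ)) (Rat.mul_den_eq_num r)
    exact h6
  have h7 : IsAlgebraic ℚ (Real.pi ^ r.num.toNat) := by
    rw [← hpow]; exact h2.pow _
  have hn : 0 < r.num.toNat := by
    have := Rat.num_pos.mpr hr0
    omega
  exact Pool.Agent.Lib.LW.transcendental_pi (h7.of_pow hn)

/-- `π e`, `π ^ e`, `e ^ e` are not all rational. -/
theorem bcd : Irrational (Real.pi * Real.exp 1) ∨ Irrational (Real.pi ^ Real.exp 1) ∨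
    Irrational (Real.exp 1 ^ Real.exp 1) := by
  by_contra hcon
  push Not at hcon
  obtain ⟨h1, h2, h3⟩ := hcon
  obtain ⟨a, ha⟩ := exists_rat_of_not_irrational h1
  obtain ⟨b, hb⟩ := exists_rat_of_not_irrational h2
  obtain ⟨c, hc⟩ := exists_rat_of_not_irrational h3
  exact SharpSix.not_BCD a b c ha hb hc

/-- `π e`, `π ^ e`, `π ^ π` are not all rational. -/
theorem bce : Irrational (Real.pi * Real.exp 1) ∨ Irrational (Real.pi ^ Real.exp 1) ∨
    Irrational (Real.pi ^ Real.pi) := by
  by_contra hcon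
  push Not at hcon
  obtain ⟨h1, h2, h3⟩ := hcon
  obtain ⟨a, ha⟩ := exists_rat_of_not_irrational h1
  obtain ⟨b, hb⟩ := exists_rat_of_not_irrational h2
  obtain ⟨c, hc⟩ := exists_rat_of_not_irrational h3
  exact SharpSix.not_BCE a b c ha hb hc

/-- `π e`, `e ^ e`, `π ^ π` are not all rational. -/
theorem bde : Irrational (Real.pi * Real.exp 1) ∨ Irrational (Real.exp 1 ^ Real.exp 1) ∨
    Irrational (Real.pi ^ Real.pi) := by
  by_contra hcon
  push Not at hcon
  obtain ⟨h1, h2, h3⟩ := hcon
  obtain ⟨a, ha⟩ := exists_rat_of_not_irrational h1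
  obtain ⟨b, hb⟩ := exists_rat_of_not_irrational h2
  obtain ⟨c, hc⟩ := exists_rat_of_not_irrational h3
  exact SharpSix.not_BDE a b c ha hb hc

/-- **Main result.** -/
theorem result :
    ((∃ i j k : Fin 5, i < j ∧ j < k ∧ Irrational (five i) ∧ Irrational (five j) ∧
        Irrational (five k)) ∨
      (Irrational (Real.pi + Real.exp 1) ∧ Irrational (Real.pi * Real.exp 1) ∧
        ¬ Irrational (Real.pi ^ Real.exp 1) ∧ ¬ Irrational (Real.exp 1 ^ Real.exp 1) ∧
        ¬ Irrational (Real.pi ^ Real.pi))) ∧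
    (¬ Irrational (Real.pi + Real.exp 1) →
      Irrational (Real.pi * Real.exp 1) ∧ Irrational (Real.exp 1 ^ Real.exp 1) ∧
        (Irrational (Real.pi ^ Real.exp 1) ∨ Irrational (Real.pi ^ Real.pi))) ∧
    (¬ Irrational (Real.pi * Real.exp 1) →
      Irrational (Real.pi + Real.exp 1) ∧
        ((Irrational (Real.pi ^ Real.exp 1) ∧ Irrational (Real.exp 1 ^ Real.exp 1)) ∨
          (Irrational (Real.pi ^ Real.exp 1) ∧ Irrational (Real.pi ^ Real.pi)) ∨
          (Irrational (Real.exp 1 ^ Real.exp 1) ∧ Irrational (Real.pi ^ Real.pi)))) := by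
  have e0 : five 0 = Real.pi + Real.exp 1 := rfl
  have e1 : five 1 = Real.pi * Real.exp 1 := rfl
  have e2 : five 2 = Real.pi ^ Real.exp 1 := rfl
  have e3 : five 3 = Real.exp 1 ^ Real.exp 1 := rfl
  have e4 : five 4 = Real.pi ^ Real.pi := rfl
  have h01 := sum_or_prod
  have h024 := sum_or_powers
  have h03 := FiveNum.Bk.sum_or_exp
  have h123 := bcd
  have h124 := bce
  have h134 := bde
  rw [← e0, ← e1] at h01
  rw [← e0, ← e2, ← e4] at h024
  rw [← e0, ← e3] at h03
  rw [← e1, ← e2, ← e3] at h123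
  rw [← e1, ← e2, ← e4] at h124
  rw [← e1, ← e3, ← e4] at h134
  rw [← e0, ← e1, ← e2, ← e3, ← e4]
  refine ⟨?_, by tauto, by tauto⟩
  by_cases a0 : Irrational (five 0)
  · by_cases a1 : Irrational (five 1)
    · by_cases a2 : Irrational (five 2)
      · exact Or.inl ⟨0, 1, 2, by decide, by decide, a0, a1, a2⟩
      · by_cases a3 : Irrational (five 3)
        · exact Or.inl ⟨0, 1, 3, by decide, by decide, a0, a1, a3⟩
        · by_cases a4 : Irrational (five 4)
          · exact Or.inl ⟨0, 1, 4, by decide, by decide, a0, a1, a4⟩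
          · exact Or.inr ⟨a0, a1, a2, a3, a4⟩
    · left
      by_cases a2 : Irrational (five 2)
      · rcases h134 with h | h | h
        · exact absurd h a1
        · exact ⟨0, 2, 3, by decide, by decide, a0, a2, h⟩
        · exact ⟨0, 2, 4, by decide, by decide, a0, a2, h⟩
      · have a3 : Irrational (five 3) := by tauto
        have a4 : Irrational (five 4) := by tauto
        exact ⟨0, 3, 4, by decide, by decide, a0, a3, a4⟩
  · left
    have a1 : Irrational (five 1) := by tauto
    have a3 : Irrational (five 3) := by tauto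
    rcases h024 with h | h | h
    · exact absurd h a0
    · exact ⟨1, 2, 3, by decide, by decide, a1, h, a3⟩
    · exact ⟨1, 3, 4, by decide, by decide, a1, a3, h⟩

end Pool.Agent.Results.MP_a49cf6_nt.ThreeIrrational
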