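import Pool.Agent.FiveNum.ZeHilb

/-!
# Growth of the Hilbert function of an ideal contained in many jet ideals
-/

open MvPolynomial

namespace FiveNum

theorem growth {ι : Type} [Fintype ι] [DecidableEq ι] (d : Fin 3 → ℕ) (hd' : ∀ i, 0 < d i)
    (p : ι → Ideal A3) (hp : ∀ i, (p i).IsPrime) (hinc : ∀ i j, i ≠ j → ¬ p j ≤ p i)
    (g : ι → A3) (hg : ∀ i, g i ∈ p i) (hDg : ∀ i, Dv (g i) ∉ p i) (m : ℕ) (I : Ideal A3)
    (hI : ∀ i, ∀ f ∈ I, ∀ n < m, (Dv : A3 → A3)^[n] f ∈ p i) :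
    ∃ c, ∀ t, ∑ i, m * hilb d (p i) t ≤ hilb d I (t + c) := by
  classical
  have hdom : ∀ i, IsDomain (A3 ⧸ p i) := fun i => (Ideal.Quotient.isDomain_iff_prime (p i)).2 (hp i)
  let φ : ∀ i, A3 →ₐ[ℂ] (A3 ⧸ p i) := fun i => Ideal.Quotient.mkₐ ℂ (p i)
  have hφ : ∀ i f, φ i f = 0 ↔ f ∈ p i := fun i f => Ideal.Quotient.eq_zero_iff_mem
  have hIjet : ∀ i, ∀ f ∈ I, f ∈ jet (φ i) m := by
    intro i f hf
    rw [mem_jet]
    intro n hn
    rw [hφ]
    exact hI i f hf n hn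
  -- separators
  have hv : ∀ i j, ∃ v : A3, i ≠ j → v ∈ p j ∧ v ∉ p i := by
    intro i j
    by_cases hij : i = j
    · exact ⟨0, fun h => absurd hij h⟩
    · obtain ⟨v, hv1, hv2⟩ := SetLike.not_le_iff_exists.1 (hinc i j hij)
      exact ⟨v, fun _ => ⟨hv1, hv2⟩⟩
  choose v hv using hv
  let u : ι → A3 := fun i => ∏ j ∈ Finset.univ.erase i, v i j ^ m
  have hu1 : ∀ i, φ i (u i) ≠ 0 := by
    intro i
    simp only [u, map_prod, map_pow]
    rw [Finset.prod_ne_zero_iff]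
    intro j hj
    have hij : i ≠ j := (Finset.ne_of_mem_erase hj).symm
    refine pow_ne_zero _ ?_
    intro h
    exact (hv i j hij).2 ((hφ i _).1 h)
  have hu2 : ∀ i j, i ≠ j → u i ∈ jet (φ j) m := by
    intro i j hij
    have hj : j ∈ Finset.univ.erase i := Finset.mem_erase.2 ⟨hij.symm, Finset.mem_univ _⟩
    simp only [u]
    rw [← Finset.mul_prod_erase _ _ hj]
    refine Ideal.mul_mem_right _ _ (pow_mem_jet _ _ ?_)
    rw [hφ]
    exact (hv i j hij).1
  -- uniform box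
  have hbox : ∃ c : ℕ, ∀ i, ∀ k < m, u i * g i ^ k ∈ box (c • d) := by
    choose c hc using fun (i : ι) (k : ℕ) => exists_box (u i * g i ^ k) d hd'
    refine ⟨∑ i, ∑ k ∈ Finset.range m, c i k, fun i k hk => hc i k _ ?_⟩
    refine le_trans ?_ (Finset.single_le_sum (f := fun i => ∑ k ∈ Finset.range m, c i k)
      (fun _ _ => Nat.zero_le _) (Finset.mem_univ i))
    exact Finset.single_le_sum (f := fun k => c i k) (fun _ _ => Nat.zero_le _)
      (Finset.mem_range.2 hk)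
  obtain ⟨c, hc⟩ := hbox
  refine ⟨c, fun t => ?_⟩
  -- sections
  obtain ⟨R, hR⟩ : ∃ R : ∀ i, Submodule ℂ (A3 ⧸ p i),
      ∀ i, R i = (box (t • d)).map (φ i).toLinearMap := ⟨_, fun _ => rfl⟩
  have hRfin : ∀ i, Module.Finite ℂ (R i) := by
    intro i
    rw [hR]
    infer_instance
  have hRfree : ∀ i, Module.Free ℂ (R i) := fun i => Module.Free.of_divisionRing ℂ (R i)
  have hsec : ∀ i, ∃ s : R i →ₗ[ℂ] A3, (∀ r, s r ∈ box (t • d)) ∧ ∀ r, φ i (s r) = r := by
    intro i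
    let L : box (t • d) →ₗ[ℂ] R i :=
      ((φ i).toLinearMap.restrict (p := box (t • d)) (q := R i) fun f hf => by
        rw [hR]; exact ⟨f, hf, rfl⟩)
    have hL : LinearMap.range L = ⊤ := by
      rw [LinearMap.range_eq_top]
      rintro ⟨r, hr⟩
      have hr' := hr
      rw [hR] at hr'
      obtain ⟨f, hf, hfr⟩ := hr'
      exact ⟨⟨f, hf⟩, Subtype.ext hfr⟩
    obtain ⟨s, hs⟩ := L.exists_rightInverse_of_surjective hL
    refine ⟨(box (t • d)).subtype ∘ₗ s, fun r => (s r).2, fun r => ?_⟩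
    have h1 := congrArg (fun h => h r) hs
    exact congrArg Subtype.val h1
  choose s hs1 hs2 using hsec
  let Φ : (∀ i, Fin m → R i) →ₗ[ℂ] A3 :=
    ∑ i, ∑ k : Fin m, (LinearMap.mulLeft ℂ (u i * g i ^ (k : ℕ))) ∘ₗ (s i) ∘ₗ
      (LinearMap.proj k) ∘ₗ (LinearMap.proj i)
  have hΦ : ∀ r, Φ r = ∑ i, ∑ k : Fin m, (u i * g i ^ (k : ℕ)) * s i (r i k) := by
    intro r
    simp only [Φ, LinearMap.sum_apply]
    rfl
  let mI : A3 →ₗ[ℂ] (A3 ⧸ I) := (Ideal.Quotient.mkₐ ℂ I).toLinearMap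
  have hinj : Function.Injective (mI ∘ₗ Φ) := by
    refine (injective_iff_map_eq_zero _).2 fun r hr => ?_
    have h1 : Φ r ∈ I := Ideal.Quotient.eq_zero_iff_mem.1 hr
    funext i
    have h2 : Φ r ∈ jet (φ i) m := hIjet i _ h1
    rw [hΦ, ← Finset.add_sum_erase _ _ (Finset.mem_univ i)] at h2
    have h3 : ∑ j ∈ Finset.univ.erase i, ∑ k : Fin m, (u j * g j ^ (k : ℕ)) * s j (r j k) ∈
        jet (φ i) m := by
      refine Ideal.sum_mem _ fun j hj => Ideal.sum_mem _ fun k _ => ?_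
      have hji : j ≠ i := Finset.ne_of_mem_erase hj
      exact Ideal.mul_mem_right _ _ (Ideal.mul_mem_right _ _ (hu2 j i hji))
    have h4 := (Ideal.add_mem_iff_left _ h3).1 h2
    have h5 : u i * ∑ k ∈ Finset.range m, g i ^ k *
        (if hk : k < m then s i (r i ⟨k, hk⟩) else 0) ∈ jet (φ i) m := by
      rw [Finset.mul_sum, Finset.sum_range]
      refine (Submodule.mem_carrier _).2 ?_
      have : ∑ k : Fin m, u i * (g i ^ (k : ℕ) *
          (if hk : (k : ℕ) < m then s i (r i ⟨k, hk⟩) else 0)) =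
          ∑ k : Fin m, (u i * g i ^ (k : ℕ)) * s i (r i k) := by
        refine Finset.sum_congr rfl fun k _ => ?_
        rw [dif_pos k.2, mul_assoc]
      rw [this]
      exact h4
    have h6 := mem_jet_of_mul (φ i) m (hu1 i) h5
    have h7 := jet_triangular (φ i) m ((hφ i _).2 (hg i)) (fun h => hDg i ((hφ i _).1 h))
      (fun k => if hk : k < m then s i (r i ⟨k, hk⟩) else 0) (by
        intro k hk h8
        rw [dif_pos hk] at h8 ⊢
        rw [hs2] at h8
        have : r i ⟨k, hk⟩ = 0 := Subtype.ext h8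
        rw [this, map_zero]) h6
    funext k
    have h8 := h7 k k.2
    rw [dif_pos k.2] at h8
    have h9 := hs2 i (r i k)
    rw [show s i (r i k) = 0 from h8, map_zero] at h9
    exact Subtype.ext h9.symm
  have hrange : LinearMap.range (mI ∘ₗ Φ) ≤ (box ((t + c) • d)).map mI := by
    rintro _ ⟨r, rfl⟩
    refine ⟨Φ r, ?_, rfl⟩
    rw [hΦ]
    refine Submodule.sum_mem _ fun i _ => Submodule.sum_mem _ fun k _ => ?_
    have h1 := mul_mem_box (hc i k k.2) (hs1 i (r i k))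
    rw [← add_smul, add_comm] at h1
    exact h1
  have h1 := LinearMap.finrank_range_of_inj hinj
  have h2 := Submodule.finrank_mono hrange
  have h3 : Module.finrank ℂ (∀ i, Fin m → R i) = ∑ i, m * hilb d (p i) t := by
    rw [Module.finrank_pi_fintype]
    refine Finset.sum_congr rfl fun i _ => ?_
    rw [Module.finrank_pi_fintype]
    simp only [Finset.sum_const, Finset.card_univ, Fintype.card_fin, smul_eq_mul]
    have h4 : Module.finrank ℂ (R i) = hilb d (p i) t := by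
      rw [hR]
      rfl
    exact congrArg (fun x => m * x) h4
  rw [← h3, ← h1]
  exact h2

end FiveNum
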