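import Pool.Agent.FiveNum.ZeHilb

/-!
# Lower bound for the Hilbert function of the ideal of jets at finitely many points
-/

open MvPolynomial

namespace FiveNum

theorem tay_point (q : Fin 3 → ℂ) (c : ℂ) (p : Polynomial ℂ) :
    tay (aeval q : A3 →ₐ[ℂ] ℂ) (Polynomial.aeval (X 0 + C c * X 1 : A3) p) =
      ((p.comp (Polynomial.C (q 0 + c * q 1) - Polynomial.X) : Polynomial ℂ) : PowerSeries ℂ) := by
  have h1 : tay (aeval q : A3 →ₐ[ℂ] ℂ) (X 0 + C c * X 1 : A3) =
      ((Polynomial.C (q 0 + c * q 1) - Polynomial.X : Polynomial ℂ) : PowerSeries ℂ) := by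
    have h2 : tay (aeval q : A3 →ₐ[ℂ] ℂ) (C c) = PowerSeries.C c := by
      rw [← algebraMap_eq, AlgHom.commutes, PowerSeries.algebraMap_apply]
      rfl
    rw [map_add, map_mul, h2]
    simp only [tay, aeval_X, Matrix.cons_val_zero, Matrix.cons_val_one]
    rw [Polynomial.coe_sub, Polynomial.coe_C, Polynomial.coe_X, map_add, map_mul]
    ring
  rw [← Polynomial.aeval_algHom_apply, h1]
  have h3 : ∀ r : Polynomial ℂ, Polynomial.aeval (r : PowerSeries ℂ) p =
      ((p.comp r : Polynomial ℂ) : PowerSeries ℂ) := by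
    intro r
    have h4 := Polynomial.aeval_algHom_apply
      (Polynomial.coeToPowerSeries.algHom ℂ : Polynomial ℂ →ₐ[ℂ] PowerSeries ℂ) r p
    rw [Polynomial.coeToPowerSeries.algHom_apply, Polynomial.coeToPowerSeries.algHom_apply] at h4
    simp only [Algebra.algebraMap_self, PowerSeries.map_id, id_eq] at h4
    rw [h4]
    rfl
  exact h3 _

theorem dvd_of_mem_jet (q : Fin 3 → ℂ) (c : ℂ) (p : Polynomial ℂ) (m : ℕ)
    (h : Polynomial.aeval (X 0 + C c * X 1 : A3) p ∈ jet (aeval q : A3 →ₐ[ℂ] ℂ) m) :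
    (Polynomial.X - Polynomial.C (q 0 + c * q 1)) ^ m ∣ p := by
  rw [mem_jet', tay_point] at h
  set w := q 0 + c * q 1 with hw
  have h1 : (Polynomial.X : Polynomial ℂ) ^ m ∣ p.comp (Polynomial.C w - Polynomial.X) := by
    rw [Polynomial.X_pow_dvd_iff]
    intro n hn
    have := (PowerSeries.X_pow_dvd_iff.1 h) n hn
    rwa [Polynomial.coeff_coe] at this
  obtain ⟨r, hr⟩ := h1
  have h2 : p = (p.comp (Polynomial.C w - Polynomial.X)).comp (Polynomial.C w - Polynomial.X) := by
    rw [Polynomial.comp_assoc]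
    simp
  rw [hr] at h2
  rw [h2, Polynomial.mul_comp, Polynomial.pow_comp, Polynomial.X_comp]
  refine Dvd.dvd.mul_right ?_ _
  have h3 : (Polynomial.C w - Polynomial.X : Polynomial ℂ) =
      (-1) * (Polynomial.X - Polynomial.C w) := by ring
  rw [h3, mul_pow]
  exact Dvd.intro_left _ rfl

theorem hilb_lower {ι : Type} [Fintype ι] (d : Fin 3 → ℕ) (hd' : ∀ i, 0 < d i)
    (q : ι → Fin 3 → ℂ) (c : ℂ) (m : ℕ)
    (hinj : Function.Injective fun i => q i 0 + c * q i 1) :
    ∃ t, 0 < t ∧ m * Fintype.card ι ≤ hilb d (⨅ i, jet (aeval (q i) : A3 →ₐ[ℂ] ℂ) m) t := by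
  classical
  set M := m * Fintype.card ι with hM
  set J : Ideal A3 := ⨅ i, jet (aeval (q i) : A3 →ₐ[ℂ] ℂ) m with hJ
  refine ⟨M + 1, by omega, ?_⟩
  let Ψ : Polynomial ℂ →ₗ[ℂ] A3 := (Polynomial.aeval (X 0 + C c * X 1 : A3)).toLinearMap
  let mJ : A3 →ₗ[ℂ] (A3 ⧸ J) := (Ideal.Quotient.mkₐ ℂ J).toLinearMap
  let Θ : Polynomial.degreeLT ℂ M →ₗ[ℂ] (A3 ⧸ J) := (mJ ∘ₗ Ψ) ∘ₗ (Polynomial.degreeLT ℂ M).subtype
  have hΘinj : Function.Injective Θ := by
    rw [← LinearMap.ker_eq_bot, LinearMap.ker_eq_bot']
    rintro ⟨p, hp⟩ h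
    have h1 : Polynomial.aeval (X 0 + C c * X 1 : A3) p ∈ J :=
      Ideal.Quotient.eq_zero_iff_mem.1 h
    have h2 : ∀ i, (Polynomial.X - Polynomial.C (q i 0 + c * q i 1)) ^ m ∣ p := by
      intro i
      refine dvd_of_mem_jet (q i) c p m ?_
      exact (Submodule.mem_iInf _).1 h1 i
    have h3 : (∏ i, (Polynomial.X - Polynomial.C (q i 0 + c * q i 1)) ^ m) ∣ p := by
      refine Finset.prod_dvd_of_coprime ?_ fun i _ => h2 i
      intro i _ j _ hij
      refine IsCoprime.pow ?_
      refine Polynomial.isCoprime_X_sub_C_of_isUnit_sub ?_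
      rw [isUnit_iff_ne_zero, sub_ne_zero]
      exact fun e => hij (hinj e)
    have h4 : (∏ i, (Polynomial.X - Polynomial.C (q i 0 + c * q i 1)) ^ m).natDegree = M := by
      rw [Polynomial.natDegree_prod_of_monic _ _ fun i _ => (Polynomial.monic_X_sub_C _).pow m]
      have h5 : ∀ i, ((Polynomial.X - Polynomial.C (q i 0 + c * q i 1)) ^ m).natDegree = m := by
        intro i
        rw [Polynomial.natDegree_pow, Polynomial.natDegree_X_sub_C, mul_one]
      simp only [h5, Finset.sum_const, Finset.card_univ, smul_eq_mul]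
      rw [hM, mul_comm]
    have h5 : p = 0 := by
      by_contra hne
      have h6 := Polynomial.natDegree_le_of_dvd h3 hne
      rw [h4] at h6
      rw [Polynomial.mem_degreeLT, Polynomial.degree_eq_natDegree hne] at hp
      have : p.natDegree < M := by exact_mod_cast hp
      omega
    exact Subtype.ext h5
  have hbox : ∀ p ∈ Polynomial.degreeLT ℂ M, Ψ p ∈ box ((M + 1) • d) := by
    intro p hp
    have hpow : ∀ n, ((X 0 + C c * X 1 : A3)) ^ n ∈ box (fun _ => n + 1) := by
      intro n
      induction n with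
      | zero =>
        rw [pow_zero, mem_box]
        intro m hm i
        have : m = 0 := by
          have h := support_one (R := ℂ) (σ := Fin 3)
          rw [h] at hm
          exact Finset.mem_singleton.1 hm
        simp [this]
      | succ n ih =>
        rw [mem_box] at ih ⊢
        intro m hm i
        rw [pow_succ] at hm
        obtain ⟨a, ha, b, hb, rfl⟩ := Finset.mem_add.1 (support_mul _ _ hm)
        have h1 := ih a ha i
        have h2 : b i ≤ 1 := by
          have h3 := degreeOf_le_iff.1 (le_refl (degreeOf i (X 0 + C c * X 1 : A3))) b hb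
          refine h3.trans ?_
          refine (degreeOf_add_le _ _ _).trans (max_le ?_ ?_)
          · rw [degreeOf_X]
            split_ifs <;> omega
          · refine (degreeOf_C_mul_le _ _ _).trans ?_
            rw [degreeOf_X]
            split_ifs <;> omega
        simp only [Finsupp.add_apply]
        omega
    have h1 : Ψ p = ∑ n ∈ Finset.range M, p.coeff n • ((X 0 + C c * X 1 : A3)) ^ n := by
      change Polynomial.aeval (X 0 + C c * X 1 : A3) p = _
      rcases Nat.eq_zero_or_pos M with h0 | h0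
      · have : p = 0 := by
          rw [h0] at hp
          rw [Polynomial.mem_degreeLT] at hp
          by_contra hne
          rw [Polynomial.degree_eq_natDegree hne] at hp
          have : p.natDegree < 0 := by exact_mod_cast hp
          omega
        rw [this, h0]
        simp
      · rw [Polynomial.aeval_eq_sum_range' (n := M)]
        rw [Polynomial.mem_degreeLT] at hp
        by_cases hne : p = 0
        · rw [hne]; simpa using h0
        · rw [Polynomial.degree_eq_natDegree hne] at hp
          exact_mod_cast hp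
    rw [h1]
    refine Submodule.sum_mem _ fun n hn => Submodule.smul_mem _ _ ?_
    refine box_mono ?_ (hpow n)
    intro i
    have := Finset.mem_range.1 hn
    have h2 : (M + 1) * 1 ≤ (M + 1) * d i := Nat.mul_le_mul_left _ (hd' i)
    simp only [Pi.smul_apply, smul_eq_mul]
    omega
  have hrange : LinearMap.range Θ ≤ (box ((M + 1) • d)).map mJ := by
    rintro _ ⟨⟨p, hp⟩, rfl⟩
    exact ⟨Ψ p, hbox p hp, rfl⟩
  have h1 : Module.finrank ℂ (Polynomial.degreeLT ℂ M) = M := by
    rw [LinearEquiv.finrank_eq (Polynomial.degreeLTEquiv ℂ M)]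
    simp
  have h2 := LinearMap.finrank_range_of_inj hΘinj
  have h3 := Submodule.finrank_mono hrange
  rw [h2, h1] at h3
  exact h3

end FiveNum
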