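import Pool.Agent.FiveNum.ZeJet

/-!
# Boxes of monomials and Hilbert functions
-/

open MvPolynomial

namespace FiveNum

/-- Polynomials with `deg_i < d_i`. -/
noncomputable def box (d : Fin 3 → ℕ) : Submodule ℂ A3 := restrictSupport ℂ {m | ∀ i, m i < d i}

theorem mem_box {d : Fin 3 → ℕ} {f : A3} : f ∈ box d ↔ ∀ m ∈ f.support, ∀ i, m i < d i := by
  rw [box, mem_restrictSupport_iff]
  rfl

theorem box_mono {d e : Fin 3 → ℕ} (h : ∀ i, d i ≤ e i) : box d ≤ box e := by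
  intro f hf
  rw [mem_box] at hf ⊢
  exact fun m hm i => (hf m hm i).trans_le (h i)

theorem mul_mem_box {d e : Fin 3 → ℕ} {f g : A3} (hf : f ∈ box d) (hg : g ∈ box e) :
    f * g ∈ box (d + e) := by
  rw [mem_box] at *
  intro m hm i
  have h1 := support_mul f g hm
  obtain ⟨a, ha, b, hb, rfl⟩ := Finset.mem_add.1 h1
  have := hf a ha i
  have := hg b hb i
  simp only [Finsupp.add_apply, Pi.add_apply]
  omega

/-- The monomials in the box. -/
noncomputable def boxEquiv (d : Fin 3 → ℕ) :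
    {m : Fin 3 →₀ ℕ | ∀ i, m i < d i} ≃ (∀ i, Fin (d i)) where
  toFun m i := ⟨m.1 i, m.2 i⟩
  invFun v := ⟨Finsupp.equivFunOnFinite.symm fun i => (v i : ℕ), fun i => by simp⟩
  left_inv m := by
    ext i
    simp
  right_inv v := by
    ext i
    simp

theorem finrank_box (d : Fin 3 → ℕ) : Module.finrank ℂ (box d) = ∏ i, d i := by
  have : Fintype {m : Fin 3 →₀ ℕ | ∀ i, m i < d i} := Fintype.ofEquiv _ (boxEquiv d).symm
  rw [box, Module.finrank_eq_card_basis (basisRestrictSupport ℂ {m | ∀ i, m i < d i}),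
    Fintype.card_congr (boxEquiv d)]
  simp

instance finite_box (d : Fin 3 → ℕ) : Module.Finite ℂ (box d) := by
  have : Fintype {m : Fin 3 →₀ ℕ | ∀ i, m i < d i} := Fintype.ofEquiv _ (boxEquiv d).symm
  exact Module.Finite.of_basis (basisRestrictSupport ℂ {m | ∀ i, m i < d i})

/-- Every polynomial lies in a box. -/
theorem exists_box (f : A3) (d : Fin 3 → ℕ) (hd : ∀ i, 0 < d i) :
    ∃ c : ℕ, ∀ t, c ≤ t → f ∈ box (t • d) := by
  refine ⟨f.totalDegree + 1, fun t ht => ?_⟩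
  rw [mem_box]
  intro m hm i
  have h1 : m i ≤ f.totalDegree := by
    refine le_trans ?_ (le_totalDegree hm)
    rw [Finsupp.sum_fintype _ _ (by simp)]
    exact Finset.single_le_sum (f := fun i => m i) (fun _ _ => Nat.zero_le _) (Finset.mem_univ i)
  have h2 : t * 1 ≤ t * d i := Nat.mul_le_mul_left _ (hd i)
  simp only [Pi.smul_apply, smul_eq_mul]
  omega

/-- Dimension of the image of `V` in `A/I`. -/
noncomputable def hd (V : Submodule ℂ A3) (I : Ideal A3) : ℕ :=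
  Module.finrank ℂ (V.map (Ideal.Quotient.mkₐ ℂ I).toLinearMap)

theorem hd_mono {V W : Submodule ℂ A3} [Module.Finite ℂ W] (h : V ≤ W) (I : Ideal A3) :
    hd V I ≤ hd W I :=
  Submodule.finrank_mono (Submodule.map_mono h)

theorem hd_bot (V : Submodule ℂ A3) : hd V ⊥ = Module.finrank ℂ V := by
  unfold hd
  refine (LinearEquiv.finrank_eq (Submodule.equivMapOfInjective _ ?_ V)).symm
  intro f g hfg
  have h : (Ideal.Quotient.mkₐ ℂ (⊥ : Ideal A3)) f = (Ideal.Quotient.mkₐ ℂ (⊥ : Ideal A3)) g := hfg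
  rw [Ideal.Quotient.mkₐ_eq_mk, Ideal.Quotient.mk_eq_mk_iff_sub_mem] at h
  exact sub_eq_zero.1 ((Submodule.mem_bot _).1 h)

/-- Basic inequality: `hd V J + hd W I ≤ hd V I` if `I ≤ J`, `W ≤ V`, `W ⊆ J`. -/
theorem hd_add_le {V W : Submodule ℂ A3} [Module.Finite ℂ V] {I J : Ideal A3} (hIJ : I ≤ J)
    (hWV : W ≤ V) (hWJ : ∀ f ∈ W, f ∈ J) : hd V J + hd W I ≤ hd V I := by
  unfold hd
  set mI := (Ideal.Quotient.mkₐ ℂ I).toLinearMap with hmI
  set mJ := (Ideal.Quotient.mkₐ ℂ J).toLinearMap with hmJ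
  set q : (A3 ⧸ I) →ₗ[ℂ] (A3 ⧸ J) := (Ideal.Quotient.factorₐ ℂ hIJ).toLinearMap with hq
  have hcomp : mJ = q ∘ₗ mI := by
    ext f
    simp [hmI, hmJ, hq]
  have h1 : V.map mJ = (V.map mI).map q := by
    rw [hcomp, Submodule.map_comp]
  have h2 := LinearMap.finrank_range_add_finrank_ker (q.domRestrict (V.map mI))
  have h3 : LinearMap.range (q.domRestrict (V.map mI)) = V.map mJ := by
    rw [LinearMap.range_domRestrict, h1]
  rw [h3] at h2
  have h4 : Module.finrank ℂ (W.map mI) ≤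
      Module.finrank ℂ (LinearMap.ker (q.domRestrict (V.map mI))) := by
    have h5 : W.map mI ≤ (LinearMap.ker (q.domRestrict (V.map mI))).map
        (V.map mI).subtype := by
      rintro _ ⟨f, hf, rfl⟩
      have h6 : mI f ∈ V.map mI := ⟨f, hWV hf, rfl⟩
      refine ⟨⟨mI f, h6⟩, ?_, rfl⟩
      have h7 : q (mI f) = 0 := by
        have : q (mI f) = mJ f := by rw [hcomp]; rfl
        rw [this]
        exact Ideal.Quotient.eq_zero_iff_mem.2 (hWJ f hf)
      exact LinearMap.mem_ker.2 h7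
    refine (Submodule.finrank_mono h5).trans ?_
    exact Submodule.finrank_map_le _ _
  omega

theorem hd_anti {V : Submodule ℂ A3} [Module.Finite ℂ V] {I J : Ideal A3} (hIJ : I ≤ J) :
    hd V J ≤ hd V I := by
  have := hd_add_le (W := ⊥) hIJ bot_le (by
    intro f hf
    rw [(Submodule.mem_bot ℂ).1 hf]
    exact J.zero_mem) (V := V)
  omega

/-- Multiplication by a nonzerodivisor modulo `I`. -/
theorem hd_mul {V : Submodule ℂ A3} {I : Ideal A3} {f : A3}
    (hf : ∀ g, f * g ∈ I → g ∈ I) : hd (V.map (LinearMap.mulLeft ℂ f)) I = hd V I := by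
  unfold hd
  set mI := (Ideal.Quotient.mkₐ ℂ I).toLinearMap with hmI
  have h1 : (V.map (LinearMap.mulLeft ℂ f)).map mI =
      (V.map mI).map (LinearMap.mulLeft ℂ (Ideal.Quotient.mk I f)) := by
    rw [← Submodule.map_comp, ← Submodule.map_comp]
    congr 1
  rw [h1]
  refine (LinearEquiv.finrank_eq (Submodule.equivMapOfInjective _ ?_ _)).symm
  rw [← LinearMap.ker_eq_bot, LinearMap.ker_eq_bot']
  intro g hg
  obtain ⟨g, rfl⟩ := Ideal.Quotient.mk_surjective g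
  have h2 : Ideal.Quotient.mk I (f * g) = 0 := by
    rw [map_mul]
    exact hg
  exact Ideal.Quotient.eq_zero_iff_mem.2 (hf g (Ideal.Quotient.eq_zero_iff_mem.1 h2))

/-- The Hilbert function. -/
noncomputable def hilb (d : Fin 3 → ℕ) (I : Ideal A3) (t : ℕ) : ℕ := hd (box (t • d)) I

theorem hilb_mono (d : Fin 3 → ℕ) (I : Ideal A3) : Monotone (hilb d I) := by
  intro s t hst
  refine hd_mono (box_mono fun i => ?_) I
  simp only [Pi.smul_apply, smul_eq_mul]
  exact Nat.mul_le_mul_right _ hst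

theorem hilb_bot (d : Fin 3 → ℕ) (t : ℕ) : hilb d ⊥ t = t ^ 3 * ∏ i, d i := by
  rw [hilb, hd_bot, finrank_box]
  simp only [Pi.smul_apply, smul_eq_mul]
  rw [Finset.prod_mul_distrib]
  simp

theorem hilb_step {d : Fin 3 → ℕ} {I J : Ideal A3} {f : A3} (hfd : f ∈ box d)
    (hf : ∀ g, f * g ∈ I → g ∈ I) (hIJ : I ≤ J) (hfJ : f ∈ J) (t : ℕ) :
    hilb d J (t + 1) + hilb d I t ≤ hilb d I (t + 1) := by
  unfold hilb
  rw [← hd_mul (V := box (t • d)) hf]
  refine hd_add_le hIJ ?_ ?_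
  · rintro _ ⟨g, hg, rfl⟩
    have := mul_mem_box hfd hg
    have e : (t + 1) • d = d + t • d := by
      rw [add_smul, one_smul, add_comm]
    rw [e]
    exact this
  · rintro _ ⟨g, _, rfl⟩
    exact J.mul_mem_right _ hfJ

theorem telescope {a b : ℕ → ℕ} (h : ∀ t, a (t + 1) + b t ≤ b (t + 1)) (ha : Monotone a) (t : ℕ) :
    t * a t ≤ b (2 * t) := by
  have key : ∀ k, k * a t + b t ≤ b (t + k) := by
    intro k
    induction k with
    | zero => simp
    | succ k ih =>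
      have h1 := h (t + k)
      have h2 : a t ≤ a (t + k + 1) := ha (by omega)
      have h3 : t + (k + 1) = t + k + 1 := by ring
      rw [h3, add_mul, one_mul]
      omega
  have := key t
  have e : t + t = 2 * t := by ring
  rw [e] at this
  omega

/-- Bounds for the Hilbert function along a regular sequence. -/
theorem hilb_one {d : Fin 3 → ℕ} {I₁ : Ideal A3} {P₁ : A3} (h1 : P₁ ∈ box d) (h0 : P₁ ≠ 0)
    (hP : P₁ ∈ I₁) (t : ℕ) : hilb d I₁ t ≤ 8 * t ^ 2 * ∏ i, d i := by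
  rcases Nat.eq_zero_or_pos t with rfl | ht
  · have : hilb d I₁ 0 ≤ hilb d ⊥ 0 := hd_anti bot_le
    rw [hilb_bot] at this
    simpa using this
  have h := telescope (a := hilb d I₁) (b := hilb d ⊥) (fun t => hilb_step h1 (by
    intro g hg
    rw [Submodule.mem_bot] at hg ⊢
    exact (mul_eq_zero.1 hg).resolve_left h0) bot_le hP t) (hilb_mono d I₁) t
  rw [hilb_bot] at h
  have e : (2 * t) ^ 3 * ∏ i, d i = t * (8 * t ^ 2 * ∏ i, d i) := by ring
  rw [e] at h
  exact Nat.le_of_mul_le_mul_left h ht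

theorem hilb_two {d : Fin 3 → ℕ} {I₁ I₂ : Ideal A3} {P₁ P₂ : A3} (h1 : P₁ ∈ box d) (h0 : P₁ ≠ 0)
    (hP : P₁ ∈ I₁) (h2 : P₂ ∈ box d) (hreg : ∀ g, P₂ * g ∈ I₁ → g ∈ I₁) (h12 : I₁ ≤ I₂)
    (hP2 : P₂ ∈ I₂) (t : ℕ) : hilb d I₂ t ≤ 32 * t * ∏ i, d i := by
  rcases Nat.eq_zero_or_pos t with rfl | ht
  · have : hilb d I₂ 0 ≤ hilb d ⊥ 0 := hd_anti bot_le
    rw [hilb_bot] at this
    simpa using this
  have h := telescope (a := hilb d I₂) (b := hilb d I₁) (fun t => hilb_step h2 hreg h12 hP2 t)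
    (hilb_mono d I₂) t
  have h' := h.trans (hilb_one h1 h0 hP (2 * t))
  have e : 8 * (2 * t) ^ 2 * ∏ i, d i = t * (32 * t * ∏ i, d i) := by ring
  rw [e] at h'
  exact Nat.le_of_mul_le_mul_left h' ht

theorem hilb_three {d : Fin 3 → ℕ} {I₂ I₃ : Ideal A3} {P₃ : A3}
    (hI₂ : ∀ t, hilb d I₂ t ≤ 32 * t * ∏ i, d i) (h3 : P₃ ∈ box d)
    (hreg : ∀ g, P₃ * g ∈ I₂ → g ∈ I₂) (h23 : I₂ ≤ I₃) (hP3 : P₃ ∈ I₃) (t : ℕ) (ht : 0 < t) :
    hilb d I₃ t ≤ 64 * ∏ i, d i := by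
  have h := telescope (a := hilb d I₃) (b := hilb d I₂) (fun t => hilb_step h3 hreg h23 hP3 t)
    (hilb_mono d I₃) t
  have h' := h.trans (hI₂ (2 * t))
  have e : 32 * (2 * t) * ∏ i, d i = t * (64 * ∏ i, d i) := by ring
  rw [e] at h'
  exact Nat.le_of_mul_le_mul_left h' ht

end FiveNum
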