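import Pool.Agent.FiveNum.ZeKoszul

/-!
# Taylor expansion along the derivation and jet ideals
-/

open MvPolynomial

namespace FiveNum

variable {R : Type} [CommRing R] [Algebra ℂ R]

/-- The exponential series over a `ℂ`-algebra. -/
noncomputable def expS (R : Type) [CommRing R] [Algebra ℂ R] : PowerSeries R :=
  (PowerSeries.exp ℂ).map (algebraMap ℂ R)

theorem derivative_expS : PowerSeries.derivative R (expS R) = expS R := by
  ext n
  have h := congrArg (PowerSeries.coeff n) (PowerSeries.derivative_exp ℂ)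
  rw [PowerSeries.coeff_derivative] at h
  rw [PowerSeries.coeff_derivative, expS, PowerSeries.coeff_map, PowerSeries.coeff_map, ← h]
  simp

theorem constantCoeff_expS : PowerSeries.constantCoeff (expS R) = 1 := by
  rw [expS, ← PowerSeries.coeff_zero_eq_constantCoeff_apply, PowerSeries.coeff_map]
  simp

/-- Taylor expansion along the flow of `Dv`. -/
noncomputable def tay (φ : A3 →ₐ[ℂ] R) : A3 →ₐ[ℂ] PowerSeries R :=
  aeval ![PowerSeries.C (φ (X 0)) - PowerSeries.X, PowerSeries.C (φ (X 1)),
    PowerSeries.C (φ (X 2)) * expS R]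

theorem tay_Dv (φ : A3 →ₐ[ℂ] R) (f : A3) :
    tay φ (Dv f) = PowerSeries.derivative R (tay φ f) := by
  induction f using MvPolynomial.induction_on with
  | C a =>
    have h1 : Dv (C a : A3) = 0 := by
      rw [← algebraMap_eq]; exact Dv.map_algebraMap a
    have h2 : tay φ (C a) = PowerSeries.C (algebraMap ℂ R a) := by
      rw [← algebraMap_eq, AlgHom.commutes, PowerSeries.algebraMap_apply]
    rw [h1, h2, map_zero, PowerSeries.derivative_C]
  | add f g hf hg => rw [map_add, map_add, map_add, map_add, hf, hg]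
  | mul_X f i hf =>
    have hX : tay φ (Dv (X i)) = PowerSeries.derivative R (tay φ (X i)) := by
      fin_cases i
      · simp [Dv, tay, PowerSeries.derivative_X]
      · simp [Dv, tay]
      · have h2 : Dv (X 2 : A3) = X 2 := by simp [Dv]
        have h3 : tay φ (X 2) = PowerSeries.C (φ (X 2)) * expS R := by simp [tay]
        change tay φ (Dv (X 2)) = PowerSeries.derivative R (tay φ (X 2))
        rw [h2, h3, Derivation.leibniz, PowerSeries.derivative_C, derivative_expS]
        simp [smul_eq_mul]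
    rw [Derivation.leibniz, map_add, map_mul, Derivation.leibniz]
    simp only [smul_eq_mul, map_mul, hX, hf]

theorem tay_Dv_iterate (φ : A3 →ₐ[ℂ] R) (n : ℕ) (f : A3) :
    tay φ ((Dv : A3 → A3)^[n] f) = (PowerSeries.derivative R : PowerSeries R → PowerSeries R)^[n]
      (tay φ f) := by
  induction n with
  | zero => rfl
  | succ n ih => rw [Function.iterate_succ_apply', Function.iterate_succ_apply', tay_Dv, ih]

theorem constantCoeff_tay (φ : A3 →ₐ[ℂ] R) (f : A3) :
    PowerSeries.constantCoeff (tay φ f) = φ f := by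
  induction f using MvPolynomial.induction_on with
  | C a =>
    have h2 : tay φ (C a) = PowerSeries.C (algebraMap ℂ R a) := by
      rw [← algebraMap_eq, AlgHom.commutes, PowerSeries.algebraMap_apply]
    rw [h2, PowerSeries.constantCoeff_C, ← algebraMap_eq, AlgHom.commutes]
  | add f g hf hg => rw [map_add, map_add, map_add, hf, hg]
  | mul_X f i hf =>
    have hX : PowerSeries.constantCoeff (tay φ (X i)) = φ (X i) := by
      fin_cases i
      · simp [tay]
      · simp [tay]
      · simp [tay, constantCoeff_expS]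
    rw [map_mul, map_mul, map_mul, hf, hX]

theorem factorial_mul_coeff_tay (φ : A3 →ₐ[ℂ] R) (f : A3) (n : ℕ) :
    (n.factorial : R) * PowerSeries.coeff n (tay φ f) = φ ((Dv : A3 → A3)^[n] f) := by
  rw [← PowerSeries.constantCoeff_iterate_derivative, ← tay_Dv_iterate, constantCoeff_tay]

theorem isUnit_factorial (n : ℕ) : IsUnit ((n.factorial : ℕ) : R) := by
  have h : ((n.factorial : ℕ) : R) = algebraMap ℂ R ((n.factorial : ℕ) : ℂ) := by simp
  rw [h]
  refine IsUnit.map _ (isUnit_iff_ne_zero.2 ?_)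
  exact_mod_cast n.factorial_ne_zero

/-- The jet ideals. -/
noncomputable def jet (φ : A3 →ₐ[ℂ] R) (m : ℕ) : Ideal A3 :=
  (Ideal.span {(PowerSeries.X : PowerSeries R) ^ m}).comap (tay φ)

theorem mem_jet' (φ : A3 →ₐ[ℂ] R) (m : ℕ) (f : A3) :
    f ∈ jet φ m ↔ (PowerSeries.X : PowerSeries R) ^ m ∣ tay φ f := by
  rw [jet, Ideal.mem_comap, Ideal.mem_span_singleton]

theorem mem_jet (φ : A3 →ₐ[ℂ] R) (m : ℕ) (f : A3) :
    f ∈ jet φ m ↔ ∀ n < m, φ ((Dv : A3 → A3)^[n] f) = 0 := by
  rw [mem_jet', PowerSeries.X_pow_dvd_iff]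
  refine forall₂_congr fun n _ => ?_
  rw [← factorial_mul_coeff_tay]
  constructor
  · intro h
    rw [h, mul_zero]
  · intro h
    exact (isUnit_factorial (R := R) n).mul_right_eq_zero.1 h

theorem mem_jet_of_mul [IsDomain R] (φ : A3 →ₐ[ℂ] R) (m : ℕ) {u f : A3} (hu : φ u ≠ 0)
    (h : u * f ∈ jet φ m) : f ∈ jet φ m := by
  rw [mem_jet', map_mul] at h
  rw [mem_jet']
  have hu' : ¬ (PowerSeries.X : PowerSeries R) ∣ tay φ u := by
    rw [PowerSeries.X_dvd_iff, constantCoeff_tay]
    exact hu
  exact (PowerSeries.X_prime (R := R)).pow_dvd_of_dvd_mul_left m hu' h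

theorem pow_mem_jet (φ : A3 →ₐ[ℂ] R) (m : ℕ) {v : A3} (hv : φ v = 0) : v ^ m ∈ jet φ m := by
  rw [mem_jet', map_pow]
  refine pow_dvd_pow_of_dvd ?_ m
  rw [PowerSeries.X_dvd_iff, constantCoeff_tay, hv]

/-- Triangularity. -/
theorem jet_triangular [IsDomain R] (φ : A3 →ₐ[ℂ] R) (m : ℕ) {g : A3} (hg : φ g = 0)
    (hDg : φ (Dv g) ≠ 0) (F : ℕ → A3) (hF : ∀ k < m, φ (F k) = 0 → F k = 0)
    (h : ∑ k ∈ Finset.range m, g ^ k * F k ∈ jet φ m) : ∀ k < m, F k = 0 := by
  -- `tay φ g = X * unit-like`
  obtain ⟨G, hG⟩ : (PowerSeries.X : PowerSeries R) ∣ tay φ g := by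
    rw [PowerSeries.X_dvd_iff, constantCoeff_tay, hg]
  have hG0 : ¬ (PowerSeries.X : PowerSeries R) ∣ G := by
    rw [PowerSeries.X_dvd_iff]
    intro h0
    apply hDg
    have h1 := factorial_mul_coeff_tay φ g 1
    rw [hG] at h1
    simp only [Function.iterate_one, Nat.factorial_one, Nat.cast_one, one_mul] at h1
    rw [← h1]
    have := PowerSeries.coeff_succ_X_mul 0 G
    rw [zero_add] at this
    rw [this, PowerSeries.coeff_zero_eq_constantCoeff_apply, h0]
  intro k
  induction k using Nat.strong_induction_on with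
  | _ k ih =>
    intro hk
    by_contra hne
    have hk0 : φ (F k) ≠ 0 := fun h0 => hne (hF k hk h0)
    rw [mem_jet', map_sum] at h
    -- split the sum
    have hsplit : ∑ j ∈ Finset.range m, tay φ (g ^ j * F j) =
        tay φ (g ^ k * F k) + ∑ j ∈ (Finset.range m).filter (fun j => k < j),
          tay φ (g ^ j * F j) := by
      rw [← Finset.sum_filter_add_sum_filter_not (Finset.range m) (fun j => k < j), add_comm]
      congr 1
      rw [Finset.sum_eq_single k]
      · intro j hj hjk
        rw [Finset.mem_filter, Finset.mem_range] at hj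
        rw [ih j (by omega) hj.1]
        simp
      · intro hk'
        exfalso
        apply hk'
        rw [Finset.mem_filter, Finset.mem_range]
        exact ⟨hk, lt_irrefl k⟩
    rw [hsplit] at h
    have hdiv2 : (PowerSeries.X : PowerSeries R) ^ (k + 1) ∣
        ∑ j ∈ (Finset.range m).filter (fun j => k < j), tay φ (g ^ j * F j) := by
      refine Finset.dvd_sum fun j hj => ?_
      rw [Finset.mem_filter] at hj
      rw [map_mul, map_pow, hG, mul_pow]
      have : (PowerSeries.X : PowerSeries R) ^ (k + 1) ∣ PowerSeries.X ^ j :=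
        pow_dvd_pow _ hj.2
      exact Dvd.dvd.mul_right (Dvd.dvd.mul_right this _) _
    have hdiv3 : (PowerSeries.X : PowerSeries R) ^ (k + 1) ∣ tay φ (g ^ k * F k) := by
      have h1 := (pow_dvd_pow (PowerSeries.X : PowerSeries R) hk).trans h
      exact (dvd_add_left hdiv2).1 h1
    rw [map_mul, map_pow, hG, mul_pow, pow_succ, mul_assoc] at hdiv3
    have h4 : (PowerSeries.X : PowerSeries R) ∣ G ^ k * tay φ (F k) :=
      (mul_dvd_mul_iff_left (pow_ne_zero k PowerSeries.X_ne_zero)).1 hdiv3
    rcases (PowerSeries.X_prime (R := R)).dvd_or_dvd h4 with h5 | h5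
    · exact hG0 ((PowerSeries.X_prime (R := R)).dvd_of_dvd_pow h5)
    · rw [PowerSeries.X_dvd_iff, constantCoeff_tay] at h5
      exact hk0 h5

end FiveNum
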