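import Pool.Agent.FiveNum.Defs

/-!
# A point is never associated to an ideal generated by two coprime polynomials
-/

open MvPolynomial

namespace FiveNum

/-- the polynomial ring in three variables -/
abbrev A3 := MvPolynomial (Fin 3) ℂ

/-- Substituting constants for the variables in `s`. -/
noncomputable def subst (s : Finset (Fin 3)) (a : Fin 3 → ℂ) : A3 →ₐ[ℂ] A3 :=
  aeval fun i => if i ∈ s then C (a i) else X i

theorem mem_of_subst_eq_zero (s : Finset (Fin 3)) (a : Fin 3 → ℂ) {f : A3}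
    (hf : subst s a f = 0) (I : Ideal A3) (hI : ∀ i ∈ s, (X i - C (a i) : A3) ∈ I) : f ∈ I := by
  have h : (Ideal.Quotient.mkₐ ℂ I).comp (subst s a) = Ideal.Quotient.mkₐ ℂ I := by
    refine MvPolynomial.algHom_ext fun i => ?_
    simp only [AlgHom.comp_apply, subst, aeval_X, Ideal.Quotient.mkₐ_eq_mk]
    by_cases hi : i ∈ s
    · simp only [hi, if_true]
      refine (Ideal.Quotient.eq.2 ?_).symm
      exact hI i hi
    · simp only [hi, if_false]
  have h2 := congrArg (fun g => g f) h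
  simp only [AlgHom.comp_apply, hf, map_zero, Ideal.Quotient.mkₐ_eq_mk] at h2
  exact Ideal.Quotient.eq_zero_iff_mem.1 h2.symm

theorem subst_X_sub_mem (s : Finset (Fin 3)) (a : Fin 3 → ℂ) {i : Fin 3} (hi : i ∈ s) :
    subst s a (X i - C (a i)) = 0 := by
  simp [subst, hi, algebraMap_eq]

theorem subst_X_sub_notMem (s : Finset (Fin 3)) (a : Fin 3 → ℂ) {i : Fin 3} (hi : i ∉ s) :
    subst s a (X i - C (a i)) = X i - C (a i) := by
  simp [subst, hi, algebraMap_eq]

theorem X_sub_C_ne_zero (a : ℂ) (i : Fin 3) : (X i - C a : A3) ≠ 0 := by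
  intro h
  have h2 := congrArg (eval (fun _ => a + 1)) h
  simp at h2

/-- A point is never associated to an ideal generated by two coprime polynomials. -/
theorem koszul_point (a : Fin 3 → ℂ) (P₁ P₂ g : A3) (hcop : IsRelPrime P₁ P₂) (h2 : P₂ ≠ 0)
    (hg : ∀ i, (X i - C (a i)) * g ∈ Ideal.span {P₁, P₂}) : g ∈ Ideal.span {P₁, P₂} := by
  set x : A3 := X 0 - C (a 0) with hx
  set y : A3 := X 1 - C (a 1) with hy
  set z : A3 := X 2 - C (a 2) with hz
  obtain ⟨a₁, b₁, e₁⟩ := Ideal.mem_span_pair.1 (hg 0)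
  obtain ⟨a₂, b₂, e₂⟩ := Ideal.mem_span_pair.1 (hg 1)
  obtain ⟨a₃, b₃, e₃⟩ := Ideal.mem_span_pair.1 (hg 2)
  rw [← hx] at e₁
  rw [← hy] at e₂
  rw [← hz] at e₃
  have hx0 : x ≠ 0 := X_sub_C_ne_zero _ _
  have hy0 : y ≠ 0 := X_sub_C_ne_zero _ _
  have hz0 : z ≠ 0 := X_sub_C_ne_zero _ _
  -- cross relations
  have r12 : P₂ ∣ y * a₁ - x * a₂ := by
    refine hcop.symm.dvd_of_dvd_mul_right
      (show P₂ ∣ (y * a₁ - x * a₂) * P₁ from ⟨x * b₂ - y * b₁, ?_⟩)
    linear_combination y * e₁ - x * e₂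
  have r13 : P₂ ∣ z * a₁ - x * a₃ := by
    refine hcop.symm.dvd_of_dvd_mul_right
      (show P₂ ∣ (z * a₁ - x * a₃) * P₁ from ⟨x * b₃ - z * b₁, ?_⟩)
    linear_combination z * e₁ - x * e₃
  have r23 : P₂ ∣ z * a₂ - y * a₃ := by
    refine hcop.symm.dvd_of_dvd_mul_right
      (show P₂ ∣ (z * a₂ - y * a₃) * P₁ from ⟨y * b₃ - z * b₂, ?_⟩)
    linear_combination z * e₂ - y * e₃
  obtain ⟨c12, hc12⟩ := r12
  obtain ⟨c13, hc13⟩ := r13
  obtain ⟨c23, hc23⟩ := r23
  have hsyz : z * c12 - y * c13 + x * c23 = 0 := by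
    have : P₂ * (z * c12 - y * c13 + x * c23) = 0 := by
      linear_combination (-z) * hc12 + y * hc13 - x * hc23
    exact (mul_eq_zero.1 this).resolve_left h2
  -- c12 ∈ (x, y)
  have hmem : c12 ∈ Ideal.span {x, y} := by
    have hsub : subst {0, 1} a c12 = 0 := by
      have h3 := congrArg (subst {0, 1} a) hsyz
      have k0 : subst {0, 1} a x = 0 := subst_X_sub_mem _ _ (by simp)
      have k1 : subst {0, 1} a y = 0 := subst_X_sub_mem _ _ (by simp)
      have k2 : subst {0, 1} a z = z := subst_X_sub_notMem _ _ (by decide)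
      rw [map_add, map_sub, map_mul, map_mul, map_mul, map_zero, k0, k1, k2] at h3
      simp only [zero_mul, sub_zero, add_zero, mul_eq_zero] at h3
      exact h3.resolve_left hz0
    refine mem_of_subst_eq_zero {0, 1} a hsub _ ?_
    intro i hi
    simp only [Finset.mem_insert, Finset.mem_singleton] at hi
    rcases hi with rfl | rfl
    · exact Ideal.subset_span (by simp [hx])
    · exact Ideal.subset_span (by simp [hy])
  obtain ⟨f, e, hfe⟩ := Ideal.mem_span_pair.1 hmem
  -- x divides u when x ∣ y * u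
  have hdiv : ∀ u v : A3, y * u = x * v → ∃ w, u = x * w ∧ v = y * w := by
    intro u v huv
    have hsub : subst {0} a u = 0 := by
      have h3 := congrArg (subst {0} a) huv
      have k0 : subst {0} a x = 0 := subst_X_sub_mem _ _ (by simp)
      have k1 : subst {0} a y = y := subst_X_sub_notMem _ _ (by decide)
      rw [map_mul, map_mul, k0, k1] at h3
      simp only [zero_mul, mul_eq_zero] at h3
      exact h3.resolve_left hy0
    have h4 := mem_of_subst_eq_zero {0} a hsub (Ideal.span {x}) (by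
      intro i hi
      rw [Finset.mem_singleton.1 hi]
      exact Ideal.subset_span (by simp [hx]))
    obtain ⟨w, hw⟩ := Ideal.mem_span_singleton'.1 h4
    refine ⟨w, by rw [← hw]; ring, ?_⟩
    have h5 : x * (v - y * w) = 0 := by
      rw [← hw] at huv
      linear_combination -huv
    have := (mul_eq_zero.1 h5).resolve_left hx0
    exact sub_eq_zero.1 this
  have h12' : P₁ * c12 = x * b₂ - y * b₁ := by
    have : P₂ * (P₁ * c12 - (x * b₂ - y * b₁)) = 0 := by
      linear_combination (-P₁) * hc12 + y * e₁ - x * e₂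
    exact sub_eq_zero.1 ((mul_eq_zero.1 this).resolve_left h2)
  obtain ⟨a', ha1, _⟩ := hdiv (a₁ - e * P₂) (a₂ + f * P₂) (by
    linear_combination hc12 - P₂ * hfe)
  obtain ⟨b', hb1, _⟩ := hdiv (b₁ + e * P₁) (b₂ - f * P₁) (by
    linear_combination h12' + P₁ * hfe)
  refine Ideal.mem_span_pair.2 ⟨a', b', ?_⟩
  have : x * (a' * P₁ + b' * P₂ - g) = 0 := by
    linear_combination (-P₁) * ha1 - P₂ * hb1 + e₁
  exact sub_eq_zero.1 ((mul_eq_zero.1 this).resolve_left hx0)

end FiveNum
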