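import Pool.Agent.FiveNum.ZeHilb

/-!
# Subspaces stable under the derivation
-/

open MvPolynomial

namespace FiveNum

theorem Dv_monomial (n : Fin 3 →₀ ℕ) (c : ℂ) :
    Dv (monomial n c) = monomial (n - Finsupp.single 0 1) (-(n 0 : ℂ) * c) +
      monomial n ((n 2 : ℂ) * c) := by
  rw [Dv, mkDerivation_monomial, Finsupp.sum_fintype _ _ (by simp)]
  rw [Fin.sum_univ_three]
  simp only [Matrix.cons_val_zero, Matrix.cons_val_one, Matrix.cons_val, smul_eq_mul, mul_zero,
    add_zero, smul_add, mul_neg, mul_one, smul_neg]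
  congr 1
  · rw [smul_monomial, ← map_neg]
    congr 1
    simp only [smul_eq_mul]
    ring
  · by_cases h : n 2 = 0
    · simp [h]
    · have e : n - Finsupp.single 2 1 + Finsupp.single 2 1 = n := by
        refine tsub_add_cancel_of_le ?_
        rw [Finsupp.single_le_iff]
        omega
      rw [X, monomial_mul, mul_one, smul_monomial, smul_eq_mul, e, mul_comm]

theorem coeff_Dv (f : A3) (m : Fin 3 →₀ ℕ) :
    coeff m (Dv f) = -((m 0 : ℂ) + 1) * coeff (m + Finsupp.single 0 1) f +
      (m 2 : ℂ) * coeff m f := by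
  induction f using MvPolynomial.monomial_add_induction_on with
  | C a =>
    have h1 : Dv (C a : A3) = 0 := by
      rw [← algebraMap_eq]; exact Dv.map_algebraMap a
    rw [h1, coeff_zero, coeff_C, coeff_C]
    have h2 : ¬ (0 = m + Finsupp.single (0 : Fin 3) 1) := by
      intro h
      have := congrArg (fun v => v 0) h
      simp at this
    rw [if_neg h2]
    by_cases h3 : 0 = m
    · subst h3
      simp
    · rw [if_neg h3]
      simp
  | monomial_add n c f _ _ ih =>
    rw [map_add, coeff_add, coeff_add, coeff_add, ih, Dv_monomial, coeff_add, coeff_monomial,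
      coeff_monomial, coeff_monomial, coeff_monomial]
    by_cases h1 : n = m + Finsupp.single 0 1
    · have h2 : n - Finsupp.single 0 1 = m := by
        rw [h1]; exact add_tsub_cancel_right _ _
      have h3 : n ≠ m := by
        intro h
        have := congrArg (fun v => v 0) (h.symm.trans h1)
        simp at this
      have h4 : (n 0 : ℂ) = m 0 + 1 := by
        rw [h1]; simp
      rw [if_pos h1, if_pos h2, if_neg h3, if_neg h3, h4]
      ring
    · rw [if_neg h1]
      by_cases h3 : n = m
      · subst h3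
        rw [if_pos rfl, if_pos rfl]
        by_cases h2 : n - Finsupp.single 0 1 = n
        · rw [if_pos h2]
          have h4 : n 0 = 0 := by
            have := congrArg (fun v => v 0) h2
            simp at this
            omega
          rw [h4]
          push_cast
          ring
        · rw [if_neg h2]
          ring
      · rw [if_neg h3, if_neg h3]
        by_cases h2 : n - Finsupp.single 0 1 = m
        · rw [if_pos h2]
          have h4 : n 0 = 0 := by
            by_contra h5
            apply h1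
            rw [← h2]
            refine (tsub_add_cancel_of_le ?_).symm
            rw [Finsupp.single_le_iff]
            omega
          rw [h4]
          push_cast
          ring
        · rw [if_neg h2]
          ring

theorem Dv_mem_box {d : Fin 3 → ℕ} {f : A3} (hf : f ∈ box d) : Dv f ∈ box d := by
  rw [mem_box] at *
  intro m hm i
  rw [mem_support_iff, coeff_Dv] at hm
  by_cases h1 : coeff m f = 0
  · have h2 : coeff (m + Finsupp.single 0 1) f ≠ 0 := by
      intro h2
      apply hm
      rw [h1, h2]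
      ring
    have h3 := hf _ (mem_support_iff.2 h2) i
    simp only [Finsupp.add_apply] at h3
    omega
  · exact hf m (mem_support_iff.2 h1) i

/-- An eigenvector of the derivation has the form `X₂^l q(X₁)`. -/
theorem eigen_form {v : A3} (hv : v ≠ 0) {μ : ℂ} (h : Dv v = μ • v) :
    ∃ l : ℕ, ∀ m ∈ v.support, m 0 = 0 ∧ m 2 = l := by
  have hrec : ∀ m, ((m 0 : ℂ) + 1) * coeff (m + Finsupp.single 0 1) v =
      ((m 2 : ℂ) - μ) * coeff m v := by
    intro m
    have h1 := congrArg (coeff m) h
    rw [coeff_Dv, coeff_smul, smul_eq_mul] at h1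
    linear_combination -h1
  have hμ : ∀ m ∈ v.support, (m 2 : ℂ) = μ := by
    by_contra hne
    push Not at hne
    obtain ⟨m₀, hm₀, hm₀'⟩ := hne
    obtain ⟨m, hm, hmax⟩ := Finset.exists_max_image
      (v.support.filter fun m => (m 2 : ℂ) ≠ μ) (fun m => m 0)
      ⟨m₀, Finset.mem_filter.2 ⟨hm₀, hm₀'⟩⟩
    rw [Finset.mem_filter] at hm
    have h1 : coeff (m + Finsupp.single 0 1) v ≠ 0 := by
      intro h0
      have h2 := hrec m
      rw [h0, mul_zero] at h2
      rcases mul_eq_zero.1 h2.symm with h3 | h3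
      · exact hm.2 (sub_eq_zero.1 h3)
      · exact (mem_support_iff.1 hm.1) h3
    have h4 := hmax (m + Finsupp.single 0 1) (Finset.mem_filter.2 ⟨mem_support_iff.2 h1, by
      simpa using hm.2⟩)
    simp at h4
  obtain ⟨m₀, hm₀⟩ := Finset.nonempty_iff_ne_empty.2 (fun h0 => hv (support_eq_empty.1 h0))
  refine ⟨m₀ 2, fun m hm => ⟨?_, ?_⟩⟩
  · by_contra h0
    have h1 : m - Finsupp.single 0 1 + Finsupp.single 0 1 = m := by
      refine tsub_add_cancel_of_le ?_
      rw [Finsupp.single_le_iff]
      omega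
    have h2 := hrec (m - Finsupp.single 0 1)
    rw [h1] at h2
    have h3 : ((m - Finsupp.single (0 : Fin 3) 1 : Fin 3 →₀ ℕ) 2 : ℂ) = μ := by
      rw [← hμ m hm]
      simp
    rw [h3, sub_self, zero_mul] at h2
    rcases mul_eq_zero.1 h2 with h4 | h4
    · exact Nat.cast_add_one_ne_zero _ h4
    · exact (mem_support_iff.1 hm) h4
  · have : ((m 2 : ℕ) : ℂ) = ((m₀ 2 : ℕ) : ℂ) := by
      rw [hμ m hm, hμ m₀ hm₀]
    exact_mod_cast this

/-- A nonzero stable subspace contains an eigenvector in every stable box it meets. -/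
theorem exists_eigen (M : Submodule ℂ A3) (hM : ∀ f ∈ M, Dv f ∈ M) {f : A3} (hf : f ∈ M)
    (hf0 : f ≠ 0) (d : Fin 3 → ℕ) (hfd : f ∈ box d) :
    ∃ v ∈ M, v ≠ 0 ∧ v ∈ box d ∧ ∃ l : ℕ, ∀ m ∈ v.support, m 0 = 0 ∧ m 2 = l := by
  let U : Submodule ℂ A3 := M ⊓ box d
  have hU : ∀ g ∈ U, (Dv : A3 →ₗ[ℂ] A3) g ∈ U := fun g hg => ⟨hM g hg.1, Dv_mem_box hg.2⟩
  have hfin : Module.Finite ℂ U := by
    have : U ≤ box d := inf_le_right
    exact Submodule.finiteDimensional_of_le this
  have hnt : Nontrivial U := ⟨⟨⟨f, hf, hfd⟩, 0, fun h => hf0 (congrArg Subtype.val h)⟩⟩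
  obtain ⟨μ, hμ⟩ := Module.End.exists_eigenvalue ((Dv : A3 →ₗ[ℂ] A3).restrict hU)
  obtain ⟨w, hw⟩ := hμ.exists_hasEigenvector
  have hw1 := hw.apply_eq_smul
  have hw0 := hw.2
  have h1 : Dv (w : A3) = μ • (w : A3) := congrArg Subtype.val hw1
  have h2 : (w : A3) ≠ 0 := fun h => hw0 (Subtype.ext h)
  exact ⟨w, w.2.1, h2, w.2.2, eigen_form h2 h1⟩

end FiveNum
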